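import Pool.Agent.Gen.F5.X12CD3Cm4.S000
import Pool.Agent.Gen.F5.X12CD3Cm4.S001
import Pool.Agent.Gen.F5.X12CD3Cm4.S002
import Pool.Agent.Gen.F5.X12CD3Cm4.S003
import Pool.Agent.Gen.F5.X12CD3Cm4.S004
import Pool.Agent.Gen.F5.X12CD3Cm4.S005
import Pool.Agent.Gen.F5.X12CD3Cm4.S006
import Pool.Agent.Gen.F5.X12CD3Cm4.S007
import Pool.Agent.Gen.F5.X12CD3Cm4.S008
import Pool.Agent.Gen.F5.X12CD3Cm4.S009
import Pool.Agent.Gen.F5.X12CD3Cm4.S010
import Pool.Agent.Gen.F5.X12CD3Cm4.S011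
import Pool.Agent.Gen.F5.X12CD3Cm4.S012
import Pool.Agent.Gen.F5.X12CD3Cm4.S013
import Pool.Agent.Gen.F5.X12CD3Cm4.S014
import Pool.Agent.Gen.F5.X12CD3Cm4.S015
import Pool.Agent.Gen.F5.X12CD3Cm4.S016
import Pool.Agent.Gen.F5.X12CD3Cm4.S017

set_option autoImplicit false
set_option maxRecDepth 100000

namespace Pool.Agent.Gen.F5.X12CD3Cm4

open Pool.Agent.Helper72.F5

def n0 : Cl (O (nat_lit 4)) (R (nat_lit 14353))
    (p (nat_lit 0xd1) (nat_lit 1) (p (nat_lit 0xc9) (nat_lit 0) (p (nat_lit 0xb000c) (nat_lit 0) (p (nat_lit 0xc1) (nat_lit 0) (p (nat_lit 0x81) (nat_lit 0) (p (nat_lit 0x101) (nat_lit 1) (p (nat_lit 0x111) (nat_lit 0) (p (nat_lit 0xb0004) (nat_lit 0) (p (nat_lit 0x109) (nat_lit 0) (p (nat_lit 0x380c2) (nat_lit 1) (p (nat_lit 0x444aa) (nat_lit 7) (p (nat_lit 0x111) (nat_lit 1) (p (nat_lit 0xd1) (nat_lit 1) (p (nat_lit 0xc1) (nat_lit 0) (p (nat_lit 0x119) (nat_lit 1)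 (p (nat_lit 0xc9) (nat_lit 0) (p (nat_lit 0x89) (nat_lit 1) (p (nat_lit 0x41) (nat_lit 0) (p (nat_lit 0x108090887069a) (nat_lit 0) (p (nat_lit 0x107870806861a) (nat_lit 0) (p (nat_lit 0x8000000000000070786058a) (nat_lit 0) (p (nat_lit 0x10787058502) (nat_lit 0) (p (nat_lit 0x10586850482) (nat_lit 0) (p (nat_lit 0x16000c) (nat_lit 0) (p (nat_lit 0x160004) (nat_lit 0) (p (nat_lit 0x68612) (nat_lit 0) (p (nat_lit 0x50592) (nat_lit 0) (p (nat_lit 0x40512) (nat_lit 0) (p (nat_lit 0x50312) (nat_lit 0) (p (nat_lit 0x38292) (nat_lit 0) (p (nat_lit 0x28212) (nat_lit 0) (p (nat_lit 0x38112) (nat_lit 0) (p (nat_lit 0x20092) (nat_lit 0) (p (nat_lit 0x10012) (nat_lit 0) pn)))))))))))))))))))))))))))))))))) :=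
  Cl.node (nat_lit 0x119) (nat_lit 2) (by decide +kernel) (ClAll.succ (ClAll.succ ClAll.zero s459) s460)

def n1 : Cl (O (nat_lit 4)) (R (nat_lit 14353))
    (p (nat_lit 0xc9) (nat_lit 0) (p (nat_lit 0xb000c) (nat_lit 0) (p (nat_lit 0xc1) (nat_lit 0) (p (nat_lit 0x81) (nat_lit 0) (p (nat_lit 0x101) (nat_lit 1) (p (nat_lit 0x111) (nat_lit 0) (p (nat_lit 0xb0004) (nat_lit 0) (p (nat_lit 0x109) (nat_lit 0) (p (nat_lit 0x380c2) (nat_lit 1) (p (nat_lit 0x444aa) (nat_lit 7) (p (nat_lit 0x111) (nat_lit 1) (p (nat_lit 0xd1) (nat_lit 1) (p (nat_lit 0xc1) (nat_lit 0) (p (nat_lit 0x119) (nat_lit 1) (p (nat_lit 0xc9) (nat_lit 0) (p (nat_lit 0x89) (nat_lit 1) (p (nat_lit 0x41) (nat_lit 0) (p (nat_lit 0x108090887069a) (nat_lit 0) (p (nat_lit 0x107870806861a) (nat_lit 0) (p (nat_lit 0x8000000000000070786058a) (nat_lit 0) (p (nat_lit 0x10787058502) (nat_lit 0) (p (nat_lit 0x10586850482) (nat_lit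 0) (p (nat_lit 0x16000c) (nat_lit 0) (p (nat_lit 0x160004) (nat_lit 0) (p (nat_lit 0x68612) (nat_lit 0) (p (nat_lit 0x50592) (nat_lit 0) (p (nat_lit 0x40512) (nat_lit 0) (p (nat_lit 0x50312) (nat_lit 0) (p (nat_lit 0x38292) (nat_lit 0) (p (nat_lit 0x28212) (nat_lit 0) (p (nat_lit 0x38112) (nat_lit 0) (p (nat_lit 0x20092) (nat_lit 0) (p (nat_lit 0x10012) (nat_lit 0) pn))))))))))))))))))))))))))))))))) :=
  Cl.node (nat_lit 0xd1) (nat_lit 2) (by decide +kernel) (ClAll.succ (ClAll.succ ClAll.zero s458) n0)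

def n2 : Cl (O (nat_lit 4)) (R (nat_lit 14353))
    (p (nat_lit 0xc1) (nat_lit 1) (p (nat_lit 0x101) (nat_lit 1) (p (nat_lit 0xb0004) (nat_lit 0) (p (nat_lit 0x380c2) (nat_lit 0) (p (nat_lit 0x3cc2a) (nat_lit 10) (p (nat_lit 0xc9) (nat_lit 0) (p (nat_lit 0xb000c) (nat_lit 0) (p (nat_lit 0x380c2) (nat_lit 0) (p (nat_lit 0x3c4aa) (nat_lit 7) (p (nat_lit 0xd1) (nat_lit 1) (p (nat_lit 0x111) (nat_lit 1) (p (nat_lit 0x109) (nat_lit 0) (p (nat_lit 0x101) (nat_lit 0) (p (nat_lit 0x119) (nat_lit 0) (p (nat_lit 0xc1) (nat_lit 0) (p (nat_lit 0x81) (nat_lit 1) (p (nat_lit 0x41) (nat_lit 1) (p (nat_lit 0x108090887069a) (nat_lit 0) (p (nat_lit 0x107870806861a) (nat_lit 0) (p (nat_lit 0x8000000000000070786058a) (nat_lit 0) (p (nat_lit 0x10787058502) (nat_lit 0) (p (nat_lit 0x10586850482) (nat_lit 0) (p (nat_lit 0x16000c) (nat_lit 0) (p (nat_lit 0x160004) (nat_lit 0) (p (nat_lit 0x68612)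 (nat_lit 0) (p (nat_lit 0x50592) (nat_lit 0) (p (nat_lit 0x40512) (nat_lit 0) (p (nat_lit 0x50312) (nat_lit 0) (p (nat_lit 0x38292) (nat_lit 0) (p (nat_lit 0x28212) (nat_lit 0) (p (nat_lit 0x38112) (nat_lit 0) (p (nat_lit 0x20092) (nat_lit 0) (p (nat_lit 0x10012) (nat_lit 0) pn))))))))))))))))))))))))))))))))) :=
  Cl.node (nat_lit 0x34caa) (nat_lit 12) (by decide +kernel) (ClAll.succ (ClAll.succ (ClAll.succ (ClAll.succ (ClAll.succ (ClAll.succ (ClAll.succ (ClAll.succ (ClAll.succ (ClAll.succ (ClAll.succ (ClAll.succ ClAll.zero s913) s914) s915) s916) s917) s918) s919) s920) s921) s922) s923) s924)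

def n3 : Cl (O (nat_lit 4)) (R (nat_lit 14353))
    (p (nat_lit 0xd1) (nat_lit 1) (p (nat_lit 0xc1) (nat_lit 0) (p (nat_lit 0xc9) (nat_lit 0) (p (nat_lit 0x89) (nat_lit 0) (p (nat_lit 0x109) (nat_lit 1) (p (nat_lit 0x111) (nat_lit 0) (p (nat_lit 0x101) (nat_lit 0) (p (nat_lit 0xb000c) (nat_lit 0) (p (nat_lit 0x380c2) (nat_lit 1) (p (nat_lit 0x3c4aa) (nat_lit 7) (p (nat_lit 0x111) (nat_lit 1) (p (nat_lit 0xd1) (nat_lit 1) (p (nat_lit 0xc9) (nat_lit 0) (p (nat_lit 0x119) (nat_lit 1) (p (nat_lit 0xc1) (nat_lit 0) (p (nat_lit 0x81) (nat_lit 1) (p (nat_lit 0x41) (nat_lit 1) (p (nat_lit 0x108090887069a) (nat_lit 0) (p (nat_lit 0x107870806861a) (nat_lit 0) (p (nat_lit 0x8000000000000070786058a) (nat_lit 0) (p (nat_lit 0x10787058502) (nat_lit 0) (p (nat_lit 0x10586850482) (nat_lit 0) (p (nat_lit 0x16000c) (nat_lit 0) (p (nat_lit 0x160004) (nat_lit 0) (p (nat_lit 0x68612) (nat_lit 0)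 (p (nat_lit 0x50592) (nat_lit 0) (p (nat_lit 0x40512) (nat_lit 0) (p (nat_lit 0x50312) (nat_lit 0) (p (nat_lit 0x38292) (nat_lit 0) (p (nat_lit 0x28212) (nat_lit 0) (p (nat_lit 0x38112) (nat_lit 0) (p (nat_lit 0x20092) (nat_lit 0) (p (nat_lit 0x10012) (nat_lit 0) pn))))))))))))))))))))))))))))))))) :=
  Cl.node (nat_lit 0xb0004) (nat_lit 2) (by decide +kernel) (ClAll.succ (ClAll.succ ClAll.zero s1021) s1022)

def n4 : Cl (O (nat_lit 4)) (R (nat_lit 14353))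
    (p (nat_lit 0xb000c) (nat_lit 0) (p (nat_lit 0xc1) (nat_lit 0) (p (nat_lit 0x81) (nat_lit 0) (p (nat_lit 0x101) (nat_lit 1) (p (nat_lit 0x111) (nat_lit 0) (p (nat_lit 0xb0004) (nat_lit 0) (p (nat_lit 0x109) (nat_lit 0) (p (nat_lit 0x380c2) (nat_lit 1) (p (nat_lit 0x444aa) (nat_lit 7) (p (nat_lit 0x111) (nat_lit 1) (p (nat_lit 0xd1) (nat_lit 1) (p (nat_lit 0xc1) (nat_lit 0) (p (nat_lit 0x119) (nat_lit 1) (p (nat_lit 0xc9) (nat_lit 0) (p (nat_lit 0x89) (nat_lit 1) (p (nat_lit 0x41) (nat_lit 0) (p (nat_lit 0x108090887069a) (nat_lit 0) (p (nat_lit 0x107870806861a) (nat_lit 0) (p (nat_lit 0x8000000000000070786058a) (nat_lit 0) (p (nat_lit 0x10787058502) (nat_lit 0) (p (nat_lit 0x10586850482) (nat_lit 0) (p (nat_lit 0x16000c) (nat_lit 0) (p (nat_lit 0x160004) (nat_lit 0) (p (nat_lit 0x68612) (nat_lit 0) (p (nat_lit 0x50592) (nat_lit 0) (p (nat_lit 0x40512) (nat_lit 0) (p (nat_lit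 0x50312) (nat_lit 0) (p (nat_lit 0x38292) (nat_lit 0) (p (nat_lit 0x28212) (nat_lit 0) (p (nat_lit 0x38112) (nat_lit 0) (p (nat_lit 0x20092) (nat_lit 0) (p (nat_lit 0x10012) (nat_lit 0) pn)))))))))))))))))))))))))))))))) :=
  Cl.node (nat_lit 0xc9) (nat_lit 2) (by decide +kernel) (ClAll.succ (ClAll.succ ClAll.zero n1) s461)

def n5 : Cl (O (nat_lit 4)) (R (nat_lit 14353))
    (p (nat_lit 0x10b8c8c0a8a1a) (nat_lit 0) (p (nat_lit 0x10b0a8b8a099a) (nat_lit 0) (p (nat_lit 0x2a82580000000000a8b09890a) (nat_lit 0) (p (nat_lit 0x1fc014) (nat_lit 0) (p (nat_lit 0xb0004) (nat_lit 0) (p (nat_lit 0xb000c) (nat_lit 1) (p (nat_lit 0x380c2) (nat_lit 1) (p (nat_lit 0x3c4aa) (nat_lit 7) (p (nat_lit 0x109) (nat_lit 1) (p (nat_lit 0x89) (nat_lit 1) (p (nat_lit 0x101) (nat_lit 0) (p (nat_lit 0xc1) (nat_lit 1) (p (nat_lit 0x119) (nat_lit 1) (p (nat_lit 0xd1) (nat_lit 0) (p (nat_lit 0x81) (nat_lit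 0) (p (nat_lit 0x41) (nat_lit 1) (p (nat_lit 0x108090887069a) (nat_lit 0) (p (nat_lit 0x107870806861a) (nat_lit 0) (p (nat_lit 0x8000000000000070786058a) (nat_lit 0) (p (nat_lit 0x10787058502) (nat_lit 0) (p (nat_lit 0x10586850482) (nat_lit 0) (p (nat_lit 0x16000c) (nat_lit 0) (p (nat_lit 0x160004) (nat_lit 0) (p (nat_lit 0x68612) (nat_lit 0) (p (nat_lit 0x50592) (nat_lit 0) (p (nat_lit 0x40512) (nat_lit 0) (p (nat_lit 0x50312) (nat_lit 0) (p (nat_lit 0x38292) (nat_lit 0) (p (nat_lit 0x28212) (nat_lit 0) (p (nat_lit 0x38112) (nat_lit 0) (p (nat_lit 0x20092) (nat_lit 0) (p (nat_lit 0x10012) (nat_lit 0) pn)))))))))))))))))))))))))))))))) :=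
  Cl.node (nat_lit 0x119) (nat_lit 2) (by decide +kernel) (ClAll.succ (ClAll.succ ClAll.zero s709) s710)

def n6 : Cl (O (nat_lit 4)) (R (nat_lit 14353))
    (p (nat_lit 0x101) (nat_lit 1) (p (nat_lit 0xb0004) (nat_lit 0) (p (nat_lit 0x380c2) (nat_lit 0) (p (nat_lit 0x3cc2a) (nat_lit 10) (p (nat_lit 0xc9) (nat_lit 0) (p (nat_lit 0xb000c) (nat_lit 0) (p (nat_lit 0x380c2) (nat_lit 0) (p (nat_lit 0x3c4aa) (nat_lit 7) (p (nat_lit 0xd1) (nat_lit 1) (p (nat_lit 0x111) (nat_lit 1) (p (nat_lit 0x109) (nat_lit 0) (p (nat_lit 0x101) (nat_lit 0) (p (nat_lit 0x119) (nat_lit 0) (p (nat_lit 0xc1) (nat_lit 0) (p (nat_lit 0x81) (nat_lit 1) (p (nat_lit 0x41) (nat_lit 1) (p (nat_lit 0x108090887069a) (nat_lit 0) (p (nat_lit 0x107870806861a) (nat_lit 0) (p (nat_lit 0x8000000000000070786058a) (nat_lit 0) (p (nat_lit 0x10787058502) (nat_lit 0) (p (nat_lit 0x10586850482) (nat_lit 0) (p (nat_lit 0x16000c)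 (nat_lit 0) (p (nat_lit 0x160004) (nat_lit 0) (p (nat_lit 0x68612) (nat_lit 0) (p (nat_lit 0x50592) (nat_lit 0) (p (nat_lit 0x40512) (nat_lit 0) (p (nat_lit 0x50312) (nat_lit 0) (p (nat_lit 0x38292) (nat_lit 0) (p (nat_lit 0x28212) (nat_lit 0) (p (nat_lit 0x38112) (nat_lit 0) (p (nat_lit 0x20092) (nat_lit 0) (p (nat_lit 0x10012) (nat_lit 0) pn)))))))))))))))))))))))))))))))) :=
  Cl.node (nat_lit 0xc1) (nat_lit 2) (by decide +kernel) (ClAll.succ (ClAll.succ ClAll.zero s912) n2)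

def n7 : Cl (O (nat_lit 4)) (R (nat_lit 14353))
    (p (nat_lit 0xc1) (nat_lit 0) (p (nat_lit 0xc9) (nat_lit 0) (p (nat_lit 0x89) (nat_lit 0) (p (nat_lit 0x109) (nat_lit 1) (p (nat_lit 0x111) (nat_lit 0) (p (nat_lit 0x101) (nat_lit 0) (p (nat_lit 0xb000c) (nat_lit 0) (p (nat_lit 0x380c2) (nat_lit 1) (p (nat_lit 0x3c4aa) (nat_lit 7) (p (nat_lit 0x111) (nat_lit 1) (p (nat_lit 0xd1) (nat_lit 1) (p (nat_lit 0xc9) (nat_lit 0) (p (nat_lit 0x119) (nat_lit 1) (p (nat_lit 0xc1) (nat_lit 0) (p (nat_lit 0x81) (nat_lit 1) (p (nat_lit 0x41) (nat_lit 1) (p (nat_lit 0x108090887069a) (nat_lit 0) (p (nat_lit 0x107870806861a) (nat_lit 0) (p (nat_lit 0x8000000000000070786058a) (nat_lit 0) (p (nat_lit 0x10787058502) (nat_lit 0) (p (nat_lit 0x10586850482) (nat_lit 0) (p (nat_lit 0x16000c) (nat_lit 0) (p (nat_lit 0x160004) (nat_lit 0) (p (nat_lit 0x68612) (nat_lit 0) (p (nat_lit 0x50592) (nat_lit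 0) (p (nat_lit 0x40512) (nat_lit 0) (p (nat_lit 0x50312) (nat_lit 0) (p (nat_lit 0x38292) (nat_lit 0) (p (nat_lit 0x28212) (nat_lit 0) (p (nat_lit 0x38112) (nat_lit 0) (p (nat_lit 0x20092) (nat_lit 0) (p (nat_lit 0x10012) (nat_lit 0) pn)))))))))))))))))))))))))))))))) :=
  Cl.node (nat_lit 0xd1) (nat_lit 2) (by decide +kernel) (ClAll.succ (ClAll.succ ClAll.zero s1020) n3)

def n8 : Cl (O (nat_lit 4)) (R (nat_lit 14353))
    (p (nat_lit 0x101) (nat_lit 0) (p (nat_lit 0x10b8c8c0a8a1a) (nat_lit 0) (p (nat_lit 0x10b0a8b8a099a) (nat_lit 0) (p (nat_lit 0x2a82580000000000a8b09890a) (nat_lit 0) (p (nat_lit 0x1fc014) (nat_lit 0) (p (nat_lit 0xb0004) (nat_lit 0) (p (nat_lit 0xb000c) (nat_lit 1) (p (nat_lit 0x380c2) (nat_lit 1) (p (nat_lit 0x3c4aa) (nat_lit 7) (p (nat_lit 0x111) (nat_lit 1) (p (nat_lit 0xd1) (nat_lit 1) (p (nat_lit 0xc9) (nat_lit 0) (p (nat_lit 0x119) (nat_lit 1) (p (nat_lit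 0xc1) (nat_lit 0) (p (nat_lit 0x81) (nat_lit 1) (p (nat_lit 0x41) (nat_lit 1) (p (nat_lit 0x108090887069a) (nat_lit 0) (p (nat_lit 0x107870806861a) (nat_lit 0) (p (nat_lit 0x8000000000000070786058a) (nat_lit 0) (p (nat_lit 0x10787058502) (nat_lit 0) (p (nat_lit 0x10586850482) (nat_lit 0) (p (nat_lit 0x16000c) (nat_lit 0) (p (nat_lit 0x160004) (nat_lit 0) (p (nat_lit 0x68612) (nat_lit 0) (p (nat_lit 0x50592) (nat_lit 0) (p (nat_lit 0x40512) (nat_lit 0) (p (nat_lit 0x50312) (nat_lit 0) (p (nat_lit 0x38292) (nat_lit 0) (p (nat_lit 0x28212) (nat_lit 0) (p (nat_lit 0x38112) (nat_lit 0) (p (nat_lit 0x20092) (nat_lit 0) (p (nat_lit 0x10012) (nat_lit 0) pn)))))))))))))))))))))))))))))))) :=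
  Cl.node (nat_lit 0x43caa) (nat_lit 12) (by decide +kernel) (ClAll.succ (ClAll.succ (ClAll.succ (ClAll.succ (ClAll.succ (ClAll.succ (ClAll.succ (ClAll.succ (ClAll.succ (ClAll.succ (ClAll.succ (ClAll.succ ClAll.zero s1029) s1030) s1031) s1032) s1033) s1034) s1035) s1036) s1037) s1038) s1039) s1040)

def n9 : Cl (O (nat_lit 4)) (R (nat_lit 14353))
    (p (nat_lit 0xc1) (nat_lit 0) (p (nat_lit 0x81) (nat_lit 0) (p (nat_lit 0x101) (nat_lit 1) (p (nat_lit 0x111) (nat_lit 0) (p (nat_lit 0xb0004) (nat_lit 0) (p (nat_lit 0x109) (nat_lit 0) (p (nat_lit 0x380c2) (nat_lit 1) (p (nat_lit 0x444aa) (nat_lit 7) (p (nat_lit 0x111) (nat_lit 1) (p (nat_lit 0xd1) (nat_lit 1) (p (nat_lit 0xc1) (nat_lit 0) (p (nat_lit 0x119) (nat_lit 1) (p (nat_lit 0xc9) (nat_lit 0) (p (nat_lit 0x89) (nat_lit 1) (p (nat_lit 0x41) (nat_lit 0) (p (nat_lit 0x108090887069a) (nat_lit 0) (p (nat_lit 0x107870806861a)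 (nat_lit 0) (p (nat_lit 0x8000000000000070786058a) (nat_lit 0) (p (nat_lit 0x10787058502) (nat_lit 0) (p (nat_lit 0x10586850482) (nat_lit 0) (p (nat_lit 0x16000c) (nat_lit 0) (p (nat_lit 0x160004) (nat_lit 0) (p (nat_lit 0x68612) (nat_lit 0) (p (nat_lit 0x50592) (nat_lit 0) (p (nat_lit 0x40512) (nat_lit 0) (p (nat_lit 0x50312) (nat_lit 0) (p (nat_lit 0x38292) (nat_lit 0) (p (nat_lit 0x28212) (nat_lit 0) (p (nat_lit 0x38112) (nat_lit 0) (p (nat_lit 0x20092) (nat_lit 0) (p (nat_lit 0x10012) (nat_lit 0) pn))))))))))))))))))))))))))))))) :=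
  Cl.node (nat_lit 0xb000c) (nat_lit 2) (by decide +kernel) (ClAll.succ (ClAll.succ ClAll.zero n4) s462)

def n10 : Cl (O (nat_lit 4)) (R (nat_lit 14353))
    (p (nat_lit 0xc9) (nat_lit 0) (p (nat_lit 0xc1) (nat_lit 0) (p (nat_lit 0xc9) (nat_lit 0) (p (nat_lit 0x41) (nat_lit 0) (p (nat_lit 0xb000c) (nat_lit 0) (p (nat_lit 0x380c2) (nat_lit 1) (p (nat_lit 0x3c4aa) (nat_lit 7) (p (nat_lit 0x109) (nat_lit 1) (p (nat_lit 0x89) (nat_lit 1) (p (nat_lit 0x101) (nat_lit 0) (p (nat_lit 0xc1) (nat_lit 1) (p (nat_lit 0x119) (nat_lit 1) (p (nat_lit 0xd1) (nat_lit 0) (p (nat_lit 0x81) (nat_lit 0) (p (nat_lit 0x41) (nat_lit 1) (p (nat_lit 0x108090887069a) (nat_lit 0) (p (nat_lit 0x107870806861a) (nat_lit 0) (p (nat_lit 0x8000000000000070786058a) (nat_lit 0) (p (nat_lit 0x10787058502) (nat_lit 0) (p (nat_lit 0x10586850482) (nat_lit 0) (p (nat_lit 0x16000c) (nat_lit 0) (p (nat_lit 0x160004)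 (nat_lit 0) (p (nat_lit 0x68612) (nat_lit 0) (p (nat_lit 0x50592) (nat_lit 0) (p (nat_lit 0x40512) (nat_lit 0) (p (nat_lit 0x50312) (nat_lit 0) (p (nat_lit 0x38292) (nat_lit 0) (p (nat_lit 0x28212) (nat_lit 0) (p (nat_lit 0x38112) (nat_lit 0) (p (nat_lit 0x20092) (nat_lit 0) (p (nat_lit 0x10012) (nat_lit 0) pn))))))))))))))))))))))))))))))) :=
  Cl.node (nat_lit 0xc1) (nat_lit 2) (by decide +kernel) (ClAll.succ (ClAll.succ ClAll.zero s692) s693)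

def n11 : Cl (O (nat_lit 4)) (R (nat_lit 14353))
    (p (nat_lit 0x10b0a8b8a099a) (nat_lit 0) (p (nat_lit 0x2a82580000000000a8b09890a) (nat_lit 0) (p (nat_lit 0x1fc014) (nat_lit 0) (p (nat_lit 0xb0004) (nat_lit 0) (p (nat_lit 0xb000c) (nat_lit 1) (p (nat_lit 0x380c2) (nat_lit 1) (p (nat_lit 0x3c4aa) (nat_lit 7) (p (nat_lit 0x109) (nat_lit 1) (p (nat_lit 0x89) (nat_lit 1) (p (nat_lit 0x101) (nat_lit 0) (p (nat_lit 0xc1) (nat_lit 1) (p (nat_lit 0x119) (nat_lit 1) (p (nat_lit 0xd1) (nat_lit 0) (p (nat_lit 0x81) (nat_lit 0) (p (nat_lit 0x41) (nat_lit 1) (p (nat_lit 0x108090887069a) (nat_lit 0) (p (nat_lit 0x107870806861a) (nat_lit 0) (p (nat_lit 0x8000000000000070786058a) (nat_lit 0) (p (nat_lit 0x10787058502) (nat_lit 0) (p (nat_lit 0x10586850482) (nat_lit 0) (p (nat_lit 0x16000c) (nat_lit 0) (p (nat_lit 0x160004) (nat_lit 0) (p (nat_lit 0x68612) (nat_lit 0) (p (nat_lit 0x50592)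 (nat_lit 0) (p (nat_lit 0x40512) (nat_lit 0) (p (nat_lit 0x50312) (nat_lit 0) (p (nat_lit 0x38292) (nat_lit 0) (p (nat_lit 0x28212) (nat_lit 0) (p (nat_lit 0x38112) (nat_lit 0) (p (nat_lit 0x20092) (nat_lit 0) (p (nat_lit 0x10012) (nat_lit 0) pn))))))))))))))))))))))))))))))) :=
  Cl.node (nat_lit 0x10b8c8c0a8a1a) (nat_lit 1) (by decide +kernel) (ClAll.succ ClAll.zero n5)

def n12 : Cl (O (nat_lit 4)) (R (nat_lit 14353))
    (p (nat_lit 0xb0004) (nat_lit 0) (p (nat_lit 0x380c2) (nat_lit 0) (p (nat_lit 0x3cc2a) (nat_lit 10) (p (nat_lit 0xc9) (nat_lit 0) (p (nat_lit 0xb000c) (nat_lit 0) (p (nat_lit 0x380c2) (nat_lit 0) (p (nat_lit 0x3c4aa) (nat_lit 7) (p (nat_lit 0xd1) (nat_lit 1) (p (nat_lit 0x111) (nat_lit 1) (p (nat_lit 0x109) (nat_lit 0) (p (nat_lit 0x101) (nat_lit 0) (p (nat_lit 0x119) (nat_lit 0) (p (nat_lit 0xc1) (nat_lit 0) (p (nat_lit 0x81) (nat_lit 1) (p (nat_lit 0x41)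 (nat_lit 1) (p (nat_lit 0x108090887069a) (nat_lit 0) (p (nat_lit 0x107870806861a) (nat_lit 0) (p (nat_lit 0x8000000000000070786058a) (nat_lit 0) (p (nat_lit 0x10787058502) (nat_lit 0) (p (nat_lit 0x10586850482) (nat_lit 0) (p (nat_lit 0x16000c) (nat_lit 0) (p (nat_lit 0x160004) (nat_lit 0) (p (nat_lit 0x68612) (nat_lit 0) (p (nat_lit 0x50592) (nat_lit 0) (p (nat_lit 0x40512) (nat_lit 0) (p (nat_lit 0x50312) (nat_lit 0) (p (nat_lit 0x38292) (nat_lit 0) (p (nat_lit 0x28212) (nat_lit 0) (p (nat_lit 0x38112) (nat_lit 0) (p (nat_lit 0x20092) (nat_lit 0) (p (nat_lit 0x10012) (nat_lit 0) pn))))))))))))))))))))))))))))))) :=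
  Cl.node (nat_lit 0x101) (nat_lit 2) (by decide +kernel) (ClAll.succ (ClAll.succ ClAll.zero s911) n6)

def n13 : Cl (O (nat_lit 4)) (R (nat_lit 14353))
    (p (nat_lit 0xc9) (nat_lit 0) (p (nat_lit 0x89) (nat_lit 0) (p (nat_lit 0x109) (nat_lit 1) (p (nat_lit 0x111) (nat_lit 0) (p (nat_lit 0x101) (nat_lit 0) (p (nat_lit 0xb000c) (nat_lit 0) (p (nat_lit 0x380c2) (nat_lit 1) (p (nat_lit 0x3c4aa) (nat_lit 7) (p (nat_lit 0x111) (nat_lit 1) (p (nat_lit 0xd1) (nat_lit 1) (p (nat_lit 0xc9) (nat_lit 0) (p (nat_lit 0x119) (nat_lit 1) (p (nat_lit 0xc1) (nat_lit 0) (p (nat_lit 0x81) (nat_lit 1) (p (nat_lit 0x41) (nat_lit 1) (p (nat_lit 0x108090887069a) (nat_lit 0) (p (nat_lit 0x107870806861a) (nat_lit 0) (p (nat_lit 0x8000000000000070786058a) (nat_lit 0) (p (nat_lit 0x10787058502) (nat_lit 0) (p (nat_lit 0x10586850482) (nat_lit 0) (p (nat_lit 0x16000c) (nat_lit 0) (p (nat_lit 0x160004)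 (nat_lit 0) (p (nat_lit 0x68612) (nat_lit 0) (p (nat_lit 0x50592) (nat_lit 0) (p (nat_lit 0x40512) (nat_lit 0) (p (nat_lit 0x50312) (nat_lit 0) (p (nat_lit 0x38292) (nat_lit 0) (p (nat_lit 0x28212) (nat_lit 0) (p (nat_lit 0x38112) (nat_lit 0) (p (nat_lit 0x20092) (nat_lit 0) (p (nat_lit 0x10012) (nat_lit 0) pn))))))))))))))))))))))))))))))) :=
  Cl.node (nat_lit 0xc1) (nat_lit 2) (by decide +kernel) (ClAll.succ (ClAll.succ ClAll.zero n7) s1023)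

def n14 : Cl (O (nat_lit 4)) (R (nat_lit 14353))
    (p (nat_lit 0x10b8c8c0a8a1a) (nat_lit 0) (p (nat_lit 0x10b0a8b8a099a) (nat_lit 0) (p (nat_lit 0x2a82580000000000a8b09890a) (nat_lit 0) (p (nat_lit 0x1fc014) (nat_lit 0) (p (nat_lit 0xb0004) (nat_lit 0) (p (nat_lit 0xb000c) (nat_lit 1) (p (nat_lit 0x380c2) (nat_lit 1) (p (nat_lit 0x3c4aa) (nat_lit 7) (p (nat_lit 0x111) (nat_lit 1) (p (nat_lit 0xd1) (nat_lit 1) (p (nat_lit 0xc9) (nat_lit 0) (p (nat_lit 0x119) (nat_lit 1) (p (nat_lit 0xc1) (nat_lit 0) (p (nat_lit 0x81) (nat_lit 1) (p (nat_lit 0x41) (nat_lit 1) (p (nat_lit 0x108090887069a) (nat_lit 0) (p (nat_lit 0x107870806861a) (nat_lit 0) (p (nat_lit 0x8000000000000070786058a) (nat_lit 0) (p (nat_lit 0x10787058502) (nat_lit 0) (p (nat_lit 0x10586850482) (nat_lit 0) (p (nat_lit 0x16000c) (nat_lit 0) (p (nat_lit 0x160004) (nat_lit 0) (p (nat_lit 0x68612) (nat_lit 0) (p (nat_lit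 0x50592) (nat_lit 0) (p (nat_lit 0x40512) (nat_lit 0) (p (nat_lit 0x50312) (nat_lit 0) (p (nat_lit 0x38292) (nat_lit 0) (p (nat_lit 0x28212) (nat_lit 0) (p (nat_lit 0x38112) (nat_lit 0) (p (nat_lit 0x20092) (nat_lit 0) (p (nat_lit 0x10012) (nat_lit 0) pn))))))))))))))))))))))))))))))) :=
  Cl.node (nat_lit 0x101) (nat_lit 2) (by decide +kernel) (ClAll.succ (ClAll.succ ClAll.zero n8) s1041)

def n15 : Cl (O (nat_lit 4)) (R (nat_lit 14353))
    (p (nat_lit 0x10800c) (nat_lit 0) (p (nat_lit 0x108004) (nat_lit 0) (p (nat_lit 0x100014) (nat_lit 1) (p (nat_lit 0x200014) (nat_lit 0) (p (nat_lit 0x41) (nat_lit 0) (p (nat_lit 0x380c2) (nat_lit 0) (p (nat_lit 0x44c2a) (nat_lit 0) (p (nat_lit 0x101) (nat_lit 1) (p (nat_lit 0x111) (nat_lit 0) (p (nat_lit 0x109) (nat_lit 0) (p (nat_lit 0xc9) (nat_lit 1) (p (nat_lit 0x119) (nat_lit 1) (p (nat_lit 0xc1) (nat_lit 0) (p (nat_lit 0x81) (nat_lit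 1) (p (nat_lit 0x41) (nat_lit 1) (p (nat_lit 0x108090887069a) (nat_lit 0) (p (nat_lit 0x107870806861a) (nat_lit 0) (p (nat_lit 0x8000000000000070786058a) (nat_lit 0) (p (nat_lit 0x10787058502) (nat_lit 0) (p (nat_lit 0x10586850482) (nat_lit 0) (p (nat_lit 0x16000c) (nat_lit 0) (p (nat_lit 0x160004) (nat_lit 0) (p (nat_lit 0x68612) (nat_lit 0) (p (nat_lit 0x50592) (nat_lit 0) (p (nat_lit 0x40512) (nat_lit 0) (p (nat_lit 0x50312) (nat_lit 0) (p (nat_lit 0x38292) (nat_lit 0) (p (nat_lit 0x28212) (nat_lit 0) (p (nat_lit 0x38112) (nat_lit 0) (p (nat_lit 0x20092) (nat_lit 0) (p (nat_lit 0x10012) (nat_lit 0) pn))))))))))))))))))))))))))))))) :=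
  Cl.node (nat_lit 0x3c4aa) (nat_lit 12) (by decide +kernel) (ClAll.succ (ClAll.succ (ClAll.succ (ClAll.succ (ClAll.succ (ClAll.succ (ClAll.succ (ClAll.succ (ClAll.succ (ClAll.succ (ClAll.succ (ClAll.succ ClAll.zero s1064) s1065) s1066) s1067) s1068) s1069) s1070) s1071) s1072) s1073) s1074) s1075)

def n16 : Cl (O (nat_lit 4)) (R (nat_lit 14353))
    (p (nat_lit 0x81) (nat_lit 0) (p (nat_lit 0x101) (nat_lit 1) (p (nat_lit 0x111) (nat_lit 0) (p (nat_lit 0xb0004) (nat_lit 0) (p (nat_lit 0x109) (nat_lit 0) (p (nat_lit 0x380c2) (nat_lit 1) (p (nat_lit 0x444aa) (nat_lit 7) (p (nat_lit 0x111) (nat_lit 1) (p (nat_lit 0xd1) (nat_lit 1) (p (nat_lit 0xc1) (nat_lit 0) (p (nat_lit 0x119) (nat_lit 1) (p (nat_lit 0xc9) (nat_lit 0) (p (nat_lit 0x89) (nat_lit 1) (p (nat_lit 0x41) (nat_lit 0) (p (nat_lit 0x108090887069a) (nat_lit 0) (p (nat_lit 0x107870806861a) (nat_lit 0) (p (nat_lit 0x8000000000000070786058a)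 (nat_lit 0) (p (nat_lit 0x10787058502) (nat_lit 0) (p (nat_lit 0x10586850482) (nat_lit 0) (p (nat_lit 0x16000c) (nat_lit 0) (p (nat_lit 0x160004) (nat_lit 0) (p (nat_lit 0x68612) (nat_lit 0) (p (nat_lit 0x50592) (nat_lit 0) (p (nat_lit 0x40512) (nat_lit 0) (p (nat_lit 0x50312) (nat_lit 0) (p (nat_lit 0x38292) (nat_lit 0) (p (nat_lit 0x28212) (nat_lit 0) (p (nat_lit 0x38112) (nat_lit 0) (p (nat_lit 0x20092) (nat_lit 0) (p (nat_lit 0x10012) (nat_lit 0) pn)))))))))))))))))))))))))))))) :=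
  Cl.node (nat_lit 0xc1) (nat_lit 2) (by decide +kernel) (ClAll.succ (ClAll.succ ClAll.zero n9) s463)

def n17 : Cl (O (nat_lit 4)) (R (nat_lit 14353))
    (p (nat_lit 0xc1) (nat_lit 0) (p (nat_lit 0xc9) (nat_lit 0) (p (nat_lit 0x41) (nat_lit 0) (p (nat_lit 0xb000c) (nat_lit 0) (p (nat_lit 0x380c2) (nat_lit 1) (p (nat_lit 0x3c4aa) (nat_lit 7) (p (nat_lit 0x109) (nat_lit 1) (p (nat_lit 0x89) (nat_lit 1) (p (nat_lit 0x101) (nat_lit 0) (p (nat_lit 0xc1) (nat_lit 1) (p (nat_lit 0x119) (nat_lit 1) (p (nat_lit 0xd1) (nat_lit 0) (p (nat_lit 0x81) (nat_lit 0) (p (nat_lit 0x41) (nat_lit 1) (p (nat_lit 0x108090887069a) (nat_lit 0) (p (nat_lit 0x107870806861a) (nat_lit 0) (p (nat_lit 0x8000000000000070786058a) (nat_lit 0) (p (nat_lit 0x10787058502) (nat_lit 0) (p (nat_lit 0x10586850482) (nat_lit 0) (p (nat_lit 0x16000c) (nat_lit 0) (p (nat_lit 0x160004) (nat_lit 0) (p (nat_lit 0x68612)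 (nat_lit 0) (p (nat_lit 0x50592) (nat_lit 0) (p (nat_lit 0x40512) (nat_lit 0) (p (nat_lit 0x50312) (nat_lit 0) (p (nat_lit 0x38292) (nat_lit 0) (p (nat_lit 0x28212) (nat_lit 0) (p (nat_lit 0x38112) (nat_lit 0) (p (nat_lit 0x20092) (nat_lit 0) (p (nat_lit 0x10012) (nat_lit 0) pn)))))))))))))))))))))))))))))) :=
  Cl.node (nat_lit 0xc9) (nat_lit 2) (by decide +kernel) (ClAll.succ (ClAll.succ ClAll.zero n10) s694)

def n18 : Cl (O (nat_lit 4)) (R (nat_lit 14353))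
    (p (nat_lit 0x2a82580000000000a8b09890a) (nat_lit 0) (p (nat_lit 0x1fc014) (nat_lit 0) (p (nat_lit 0xb0004) (nat_lit 0) (p (nat_lit 0xb000c) (nat_lit 1) (p (nat_lit 0x380c2) (nat_lit 1) (p (nat_lit 0x3c4aa) (nat_lit 7) (p (nat_lit 0x109) (nat_lit 1) (p (nat_lit 0x89) (nat_lit 1) (p (nat_lit 0x101) (nat_lit 0) (p (nat_lit 0xc1) (nat_lit 1) (p (nat_lit 0x119) (nat_lit 1) (p (nat_lit 0xd1) (nat_lit 0) (p (nat_lit 0x81) (nat_lit 0) (p (nat_lit 0x41) (nat_lit 1) (p (nat_lit 0x108090887069a) (nat_lit 0) (p (nat_lit 0x107870806861a) (nat_lit 0) (p (nat_lit 0x8000000000000070786058a) (nat_lit 0) (p (nat_lit 0x10787058502) (nat_lit 0) (p (nat_lit 0x10586850482) (nat_lit 0) (p (nat_lit 0x16000c) (nat_lit 0) (p (nat_lit 0x160004) (nat_lit 0) (p (nat_lit 0x68612) (nat_lit 0) (p (nat_lit 0x50592) (nat_lit 0) (p (nat_lit 0x40512) (nat_lit 0) (p (nat_lit 0x50312) (nat_lit 0) (p (nat_lit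 0x38292) (nat_lit 0) (p (nat_lit 0x28212) (nat_lit 0) (p (nat_lit 0x38112) (nat_lit 0) (p (nat_lit 0x20092) (nat_lit 0) (p (nat_lit 0x10012) (nat_lit 0) pn)))))))))))))))))))))))))))))) :=
  Cl.node (nat_lit 0x10b0a8b8a099a) (nat_lit 1) (by decide +kernel) (ClAll.succ ClAll.zero n11)

def n19 : Cl (O (nat_lit 4)) (R (nat_lit 14353))
    (p (nat_lit 0x58004) (nat_lit 0) (p (nat_lit 0xb0004) (nat_lit 0) (p (nat_lit 0x100014) (nat_lit 0) (p (nat_lit 0x200014) (nat_lit 0) (p (nat_lit 0x380c2) (nat_lit 1) (p (nat_lit 0x3c4aa) (nat_lit 10) (p (nat_lit 0x109) (nat_lit 1) (p (nat_lit 0x89) (nat_lit 1) (p (nat_lit 0x101) (nat_lit 0) (p (nat_lit 0xc1) (nat_lit 1) (p (nat_lit 0x119) (nat_lit 1) (p (nat_lit 0xd1) (nat_lit 0) (p (nat_lit 0x81) (nat_lit 0) (p (nat_lit 0x41) (nat_lit 1) (p (nat_lit 0x108090887069a) (nat_lit 0) (p (nat_lit 0x107870806861a) (nat_lit 0) (p (nat_lit 0x8000000000000070786058a)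 (nat_lit 0) (p (nat_lit 0x10787058502) (nat_lit 0) (p (nat_lit 0x10586850482) (nat_lit 0) (p (nat_lit 0x16000c) (nat_lit 0) (p (nat_lit 0x160004) (nat_lit 0) (p (nat_lit 0x68612) (nat_lit 0) (p (nat_lit 0x50592) (nat_lit 0) (p (nat_lit 0x40512) (nat_lit 0) (p (nat_lit 0x50312) (nat_lit 0) (p (nat_lit 0x38292) (nat_lit 0) (p (nat_lit 0x28212) (nat_lit 0) (p (nat_lit 0x38112) (nat_lit 0) (p (nat_lit 0x20092) (nat_lit 0) (p (nat_lit 0x10012) (nat_lit 0) pn)))))))))))))))))))))))))))))) :=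
  Cl.node (nat_lit 0x41) (nat_lit 2) (by decide +kernel) (ClAll.succ (ClAll.succ ClAll.zero s716) s717)

def n20 : Cl (O (nat_lit 4)) (R (nat_lit 14353))
    (p (nat_lit 0xb0004) (nat_lit 0) (p (nat_lit 0x380c2) (nat_lit 0) (p (nat_lit 0x3cc2a) (nat_lit 0) (p (nat_lit 0xb000c) (nat_lit 0) (p (nat_lit 0x109) (nat_lit 0) (p (nat_lit 0x380c2) (nat_lit 1) (p (nat_lit 0x3c4aa) (nat_lit 7) (p (nat_lit 0x89) (nat_lit 1) (p (nat_lit 0x101) (nat_lit 1) (p (nat_lit 0xc1) (nat_lit 1) (p (nat_lit 0x119) (nat_lit 1) (p (nat_lit 0xd1) (nat_lit 0) (p (nat_lit 0x81) (nat_lit 0) (p (nat_lit 0x41) (nat_lit 1) (p (nat_lit 0x108090887069a) (nat_lit 0) (p (nat_lit 0x107870806861a) (nat_lit 0) (p (nat_lit 0x8000000000000070786058a) (nat_lit 0) (p (nat_lit 0x10787058502) (nat_lit 0) (p (nat_lit 0x10586850482) (nat_lit 0) (p (nat_lit 0x16000c) (nat_lit 0) (p (nat_lit 0x160004) (nat_lit 0) (p (nat_lit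 0x68612) (nat_lit 0) (p (nat_lit 0x50592) (nat_lit 0) (p (nat_lit 0x40512) (nat_lit 0) (p (nat_lit 0x50312) (nat_lit 0) (p (nat_lit 0x38292) (nat_lit 0) (p (nat_lit 0x28212) (nat_lit 0) (p (nat_lit 0x38112) (nat_lit 0) (p (nat_lit 0x20092) (nat_lit 0) (p (nat_lit 0x10012) (nat_lit 0) pn)))))))))))))))))))))))))))))) :=
  Cl.node (nat_lit 0x109) (nat_lit 2) (by decide +kernel) (ClAll.succ (ClAll.succ ClAll.zero s738) s739)

def n21 : Cl (O (nat_lit 4)) (R (nat_lit 14353))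
    (p (nat_lit 0x119) (nat_lit 1) (p (nat_lit 0xc9) (nat_lit 0) (p (nat_lit 0xc1) (nat_lit 0) (p (nat_lit 0xb000c) (nat_lit 0) (p (nat_lit 0x109) (nat_lit 1) (p (nat_lit 0x380c2) (nat_lit 1) (p (nat_lit 0x3c4aa) (nat_lit 7) (p (nat_lit 0x89) (nat_lit 1) (p (nat_lit 0x101) (nat_lit 1) (p (nat_lit 0xc1) (nat_lit 1) (p (nat_lit 0x119) (nat_lit 1) (p (nat_lit 0xd1) (nat_lit 0) (p (nat_lit 0x81) (nat_lit 0) (p (nat_lit 0x41) (nat_lit 1) (p (nat_lit 0x108090887069a) (nat_lit 0) (p (nat_lit 0x107870806861a) (nat_lit 0) (p (nat_lit 0x8000000000000070786058a) (nat_lit 0) (p (nat_lit 0x10787058502) (nat_lit 0) (p (nat_lit 0x10586850482) (nat_lit 0) (p (nat_lit 0x16000c) (nat_lit 0) (p (nat_lit 0x160004) (nat_lit 0) (p (nat_lit 0x68612) (nat_lit 0) (p (nat_lit 0x50592) (nat_lit 0) (p (nat_lit 0x40512) (nat_lit 0) (p (nat_lit 0x50312) (nat_lit 0) (p (nat_lit 0x38292) (nat_lit 0) (p (nat_lit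 0x28212) (nat_lit 0) (p (nat_lit 0x38112) (nat_lit 0) (p (nat_lit 0x20092) (nat_lit 0) (p (nat_lit 0x10012) (nat_lit 0) pn)))))))))))))))))))))))))))))) :=
  Cl.node (nat_lit 0xc9) (nat_lit 2) (by decide +kernel) (ClAll.succ (ClAll.succ ClAll.zero s754) s755)

def n22 : Cl (O (nat_lit 4)) (R (nat_lit 14353))
    (p (nat_lit 0x380c2) (nat_lit 0) (p (nat_lit 0x3cc2a) (nat_lit 10) (p (nat_lit 0xc9) (nat_lit 0) (p (nat_lit 0xb000c) (nat_lit 0) (p (nat_lit 0x380c2) (nat_lit 0) (p (nat_lit 0x3c4aa) (nat_lit 7) (p (nat_lit 0xd1) (nat_lit 1) (p (nat_lit 0x111) (nat_lit 1) (p (nat_lit 0x109) (nat_lit 0) (p (nat_lit 0x101) (nat_lit 0) (p (nat_lit 0x119) (nat_lit 0) (p (nat_lit 0xc1) (nat_lit 0) (p (nat_lit 0x81) (nat_lit 1) (p (nat_lit 0x41) (nat_lit 1) (p (nat_lit 0x108090887069a) (nat_lit 0) (p (nat_lit 0x107870806861a) (nat_lit 0) (p (nat_lit 0x8000000000000070786058a) (nat_lit 0)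 (p (nat_lit 0x10787058502) (nat_lit 0) (p (nat_lit 0x10586850482) (nat_lit 0) (p (nat_lit 0x16000c) (nat_lit 0) (p (nat_lit 0x160004) (nat_lit 0) (p (nat_lit 0x68612) (nat_lit 0) (p (nat_lit 0x50592) (nat_lit 0) (p (nat_lit 0x40512) (nat_lit 0) (p (nat_lit 0x50312) (nat_lit 0) (p (nat_lit 0x38292) (nat_lit 0) (p (nat_lit 0x28212) (nat_lit 0) (p (nat_lit 0x38112) (nat_lit 0) (p (nat_lit 0x20092) (nat_lit 0) (p (nat_lit 0x10012) (nat_lit 0) pn)))))))))))))))))))))))))))))) :=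
  Cl.node (nat_lit 0xb0004) (nat_lit 2) (by decide +kernel) (ClAll.succ (ClAll.succ ClAll.zero n12) s925)

def n23 : Cl (O (nat_lit 4)) (R (nat_lit 14353))
    (p (nat_lit 0x109) (nat_lit 0) (p (nat_lit 0x111) (nat_lit 0) (p (nat_lit 0x101) (nat_lit 0) (p (nat_lit 0xb000c) (nat_lit 0) (p (nat_lit 0xc1) (nat_lit 1) (p (nat_lit 0x380c2) (nat_lit 1) (p (nat_lit 0x3c4aa) (nat_lit 7) (p (nat_lit 0xd1) (nat_lit 1) (p (nat_lit 0xc9) (nat_lit 0) (p (nat_lit 0x101) (nat_lit 1) (p (nat_lit 0x119) (nat_lit 0) (p (nat_lit 0xc1) (nat_lit 0) (p (nat_lit 0x81) (nat_lit 1) (p (nat_lit 0x41) (nat_lit 1) (p (nat_lit 0x108090887069a) (nat_lit 0) (p (nat_lit 0x107870806861a) (nat_lit 0) (p (nat_lit 0x8000000000000070786058a) (nat_lit 0) (p (nat_lit 0x10787058502) (nat_lit 0) (p (nat_lit 0x10586850482) (nat_lit 0) (p (nat_lit 0x16000c) (nat_lit 0) (p (nat_lit 0x160004) (nat_lit 0) (p (nat_lit 0x68612)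 (nat_lit 0) (p (nat_lit 0x50592) (nat_lit 0) (p (nat_lit 0x40512) (nat_lit 0) (p (nat_lit 0x50312) (nat_lit 0) (p (nat_lit 0x38292) (nat_lit 0) (p (nat_lit 0x28212) (nat_lit 0) (p (nat_lit 0x38112) (nat_lit 0) (p (nat_lit 0x20092) (nat_lit 0) (p (nat_lit 0x10012) (nat_lit 0) pn)))))))))))))))))))))))))))))) :=
  Cl.node (nat_lit 0x101) (nat_lit 2) (by decide +kernel) (ClAll.succ (ClAll.succ ClAll.zero s995) s996)

def n24 : Cl (O (nat_lit 4)) (R (nat_lit 14353))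
    (p (nat_lit 0x89) (nat_lit 0) (p (nat_lit 0x109) (nat_lit 1) (p (nat_lit 0x111) (nat_lit 0) (p (nat_lit 0x101) (nat_lit 0) (p (nat_lit 0xb000c) (nat_lit 0) (p (nat_lit 0x380c2) (nat_lit 1) (p (nat_lit 0x3c4aa) (nat_lit 7) (p (nat_lit 0x111) (nat_lit 1) (p (nat_lit 0xd1) (nat_lit 1) (p (nat_lit 0xc9) (nat_lit 0) (p (nat_lit 0x119) (nat_lit 1) (p (nat_lit 0xc1) (nat_lit 0) (p (nat_lit 0x81) (nat_lit 1) (p (nat_lit 0x41) (nat_lit 1) (p (nat_lit 0x108090887069a) (nat_lit 0) (p (nat_lit 0x107870806861a) (nat_lit 0) (p (nat_lit 0x8000000000000070786058a) (nat_lit 0) (p (nat_lit 0x10787058502) (nat_lit 0) (p (nat_lit 0x10586850482) (nat_lit 0) (p (nat_lit 0x16000c) (nat_lit 0) (p (nat_lit 0x160004) (nat_lit 0) (p (nat_lit 0x68612) (nat_lit 0) (p (nat_lit 0x50592) (nat_lit 0) (p (nat_lit 0x40512) (nat_lit 0) (p (nat_lit 0x50312) (nat_lit 0) (p (nat_lit 0x38292) (nat_lit 0) (p (nat_lit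 0x28212) (nat_lit 0) (p (nat_lit 0x38112) (nat_lit 0) (p (nat_lit 0x20092) (nat_lit 0) (p (nat_lit 0x10012) (nat_lit 0) pn)))))))))))))))))))))))))))))) :=
  Cl.node (nat_lit 0xc9) (nat_lit 2) (by decide +kernel) (ClAll.succ (ClAll.succ ClAll.zero n13) s1024)

def n25 : Cl (O (nat_lit 4)) (R (nat_lit 14353))
    (p (nat_lit 0x10b0a8b8a099a) (nat_lit 0) (p (nat_lit 0x2a82580000000000a8b09890a) (nat_lit 0) (p (nat_lit 0x1fc014) (nat_lit 0) (p (nat_lit 0xb0004) (nat_lit 0) (p (nat_lit 0xb000c) (nat_lit 1) (p (nat_lit 0x380c2) (nat_lit 1) (p (nat_lit 0x3c4aa) (nat_lit 7) (p (nat_lit 0x111) (nat_lit 1) (p (nat_lit 0xd1) (nat_lit 1) (p (nat_lit 0xc9) (nat_lit 0) (p (nat_lit 0x119) (nat_lit 1) (p (nat_lit 0xc1) (nat_lit 0) (p (nat_lit 0x81) (nat_lit 1) (p (nat_lit 0x41) (nat_lit 1) (p (nat_lit 0x108090887069a) (nat_lit 0) (p (nat_lit 0x107870806861a) (nat_lit 0) (p (nat_lit 0x8000000000000070786058a)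 (nat_lit 0) (p (nat_lit 0x10787058502) (nat_lit 0) (p (nat_lit 0x10586850482) (nat_lit 0) (p (nat_lit 0x16000c) (nat_lit 0) (p (nat_lit 0x160004) (nat_lit 0) (p (nat_lit 0x68612) (nat_lit 0) (p (nat_lit 0x50592) (nat_lit 0) (p (nat_lit 0x40512) (nat_lit 0) (p (nat_lit 0x50312) (nat_lit 0) (p (nat_lit 0x38292) (nat_lit 0) (p (nat_lit 0x28212) (nat_lit 0) (p (nat_lit 0x38112) (nat_lit 0) (p (nat_lit 0x20092) (nat_lit 0) (p (nat_lit 0x10012) (nat_lit 0) pn)))))))))))))))))))))))))))))) :=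
  Cl.node (nat_lit 0x10b8c8c0a8a1a) (nat_lit 1) (by decide +kernel) (ClAll.succ ClAll.zero n14)

def n26 : Cl (O (nat_lit 4)) (R (nat_lit 14353))
    (p (nat_lit 0x108004) (nat_lit 0) (p (nat_lit 0x100014) (nat_lit 1) (p (nat_lit 0x200014) (nat_lit 0) (p (nat_lit 0x41) (nat_lit 0) (p (nat_lit 0x380c2) (nat_lit 0) (p (nat_lit 0x44c2a) (nat_lit 0) (p (nat_lit 0x101) (nat_lit 1) (p (nat_lit 0x111) (nat_lit 0) (p (nat_lit 0x109) (nat_lit 0) (p (nat_lit 0xc9) (nat_lit 1) (p (nat_lit 0x119) (nat_lit 1) (p (nat_lit 0xc1) (nat_lit 0) (p (nat_lit 0x81) (nat_lit 1) (p (nat_lit 0x41) (nat_lit 1) (p (nat_lit 0x108090887069a) (nat_lit 0) (p (nat_lit 0x107870806861a) (nat_lit 0) (p (nat_lit 0x8000000000000070786058a) (nat_lit 0) (p (nat_lit 0x10787058502) (nat_lit 0) (p (nat_lit 0x10586850482) (nat_lit 0) (p (nat_lit 0x16000c) (nat_lit 0) (p (nat_lit 0x160004) (nat_lit 0) (p (nat_lit 0x68612)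 (nat_lit 0) (p (nat_lit 0x50592) (nat_lit 0) (p (nat_lit 0x40512) (nat_lit 0) (p (nat_lit 0x50312) (nat_lit 0) (p (nat_lit 0x38292) (nat_lit 0) (p (nat_lit 0x28212) (nat_lit 0) (p (nat_lit 0x38112) (nat_lit 0) (p (nat_lit 0x20092) (nat_lit 0) (p (nat_lit 0x10012) (nat_lit 0) pn)))))))))))))))))))))))))))))) :=
  Cl.node (nat_lit 0x10800c) (nat_lit 2) (by decide +kernel) (ClAll.succ (ClAll.succ ClAll.zero n15) s1076)

def n27 : Cl (O (nat_lit 4)) (R (nat_lit 14353))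
    (p (nat_lit 0xb0004) (nat_lit 0) (p (nat_lit 0xb000c) (nat_lit 0) (p (nat_lit 0x119) (nat_lit 1) (p (nat_lit 0x380c2) (nat_lit 0) (p (nat_lit 0x444aa) (nat_lit 7) (p (nat_lit 0x109) (nat_lit 1) (p (nat_lit 0x101) (nat_lit 0) (p (nat_lit 0x81) (nat_lit 1) (p (nat_lit 0xc1) (nat_lit 1) (p (nat_lit 0x119) (nat_lit 1) (p (nat_lit 0xd1) (nat_lit 0) (p (nat_lit 0x89) (nat_lit 0) (p (nat_lit 0x41) (nat_lit 0) (p (nat_lit 0x108090887069a) (nat_lit 0) (p (nat_lit 0x107870806861a) (nat_lit 0) (p (nat_lit 0x8000000000000070786058a) (nat_lit 0) (p (nat_lit 0x10787058502) (nat_lit 0) (p (nat_lit 0x10586850482) (nat_lit 0) (p (nat_lit 0x16000c) (nat_lit 0) (p (nat_lit 0x160004) (nat_lit 0) (p (nat_lit 0x68612) (nat_lit 0) (p (nat_lit 0x50592) (nat_lit 0) (p (nat_lit 0x40512) (nat_lit 0) (p (nat_lit 0x50312) (nat_lit 0) (p (nat_lit 0x38292) (nat_lit 0) (p (nat_lit 0x28212) (nat_lit 0)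 (p (nat_lit 0x38112) (nat_lit 0) (p (nat_lit 0x20092) (nat_lit 0) (p (nat_lit 0x10012) (nat_lit 0) pn))))))))))))))))))))))))))))) :=
  Cl.node (nat_lit 0xc9) (nat_lit 2) (by decide +kernel) (ClAll.succ (ClAll.succ ClAll.zero s177) s178)

def n28 : Cl (O (nat_lit 4)) (R (nat_lit 14353))
    (p (nat_lit 0xd1) (nat_lit 0) (p (nat_lit 0xc1) (nat_lit 0) (p (nat_lit 0xc9) (nat_lit 0) (p (nat_lit 0x380c2) (nat_lit 0) (p (nat_lit 0x444aa) (nat_lit 7) (p (nat_lit 0x119) (nat_lit 0) (p (nat_lit 0xc1) (nat_lit 0) (p (nat_lit 0x81) (nat_lit 1) (p (nat_lit 0x101) (nat_lit 1) (p (nat_lit 0x111) (nat_lit 0) (p (nat_lit 0xd1) (nat_lit 1) (p (nat_lit 0x89) (nat_lit 0) (p (nat_lit 0x41) (nat_lit 0) (p (nat_lit 0x108090887069a) (nat_lit 0) (p (nat_lit 0x107870806861a) (nat_lit 0) (p (nat_lit 0x8000000000000070786058a) (nat_lit 0) (p (nat_lit 0x10787058502) (nat_lit 0) (p (nat_lit 0x10586850482)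 (nat_lit 0) (p (nat_lit 0x16000c) (nat_lit 0) (p (nat_lit 0x160004) (nat_lit 0) (p (nat_lit 0x68612) (nat_lit 0) (p (nat_lit 0x50592) (nat_lit 0) (p (nat_lit 0x40512) (nat_lit 0) (p (nat_lit 0x50312) (nat_lit 0) (p (nat_lit 0x38292) (nat_lit 0) (p (nat_lit 0x28212) (nat_lit 0) (p (nat_lit 0x38112) (nat_lit 0) (p (nat_lit 0x20092) (nat_lit 0) (p (nat_lit 0x10012) (nat_lit 0) pn))))))))))))))))))))))))))))) :=
  Cl.node (nat_lit 0x3c4aa) (nat_lit 12) (by decide +kernel) (ClAll.succ (ClAll.succ (ClAll.succ (ClAll.succ (ClAll.succ (ClAll.succ (ClAll.succ (ClAll.succ (ClAll.succ (ClAll.succ (ClAll.succ (ClAll.succ ClAll.zero s279) s280) s281) s282) s283) s284) s285) s286) s287) s288) s289) s290)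

def n29 : Cl (O (nat_lit 4)) (R (nat_lit 14353))
    (p (nat_lit 0x101) (nat_lit 1) (p (nat_lit 0x111) (nat_lit 0) (p (nat_lit 0xb0004) (nat_lit 0) (p (nat_lit 0x109) (nat_lit 0) (p (nat_lit 0x380c2) (nat_lit 1) (p (nat_lit 0x444aa) (nat_lit 7) (p (nat_lit 0x111) (nat_lit 1) (p (nat_lit 0xd1) (nat_lit 1) (p (nat_lit 0xc1) (nat_lit 0) (p (nat_lit 0x119) (nat_lit 1) (p (nat_lit 0xc9) (nat_lit 0) (p (nat_lit 0x89) (nat_lit 1) (p (nat_lit 0x41) (nat_lit 0) (p (nat_lit 0x108090887069a) (nat_lit 0) (p (nat_lit 0x107870806861a) (nat_lit 0) (p (nat_lit 0x8000000000000070786058a) (nat_lit 0) (p (nat_lit 0x10787058502) (nat_lit 0) (p (nat_lit 0x10586850482) (nat_lit 0) (p (nat_lit 0x16000c) (nat_lit 0) (p (nat_lit 0x160004) (nat_lit 0) (p (nat_lit 0x68612) (nat_lit 0) (p (nat_lit 0x50592) (nat_lit 0) (p (nat_lit 0x40512) (nat_lit 0) (p (nat_lit 0x50312) (nat_lit 0) (p (nat_lit 0x38292)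 (nat_lit 0) (p (nat_lit 0x28212) (nat_lit 0) (p (nat_lit 0x38112) (nat_lit 0) (p (nat_lit 0x20092) (nat_lit 0) (p (nat_lit 0x10012) (nat_lit 0) pn))))))))))))))))))))))))))))) :=
  Cl.node (nat_lit 0x81) (nat_lit 2) (by decide +kernel) (ClAll.succ (ClAll.succ ClAll.zero n16) s464)

def n30 : Cl (O (nat_lit 4)) (R (nat_lit 14353))
    (p (nat_lit 0xc9) (nat_lit 0) (p (nat_lit 0x41) (nat_lit 0) (p (nat_lit 0xb000c) (nat_lit 0) (p (nat_lit 0x380c2) (nat_lit 1) (p (nat_lit 0x3c4aa) (nat_lit 7) (p (nat_lit 0x109) (nat_lit 1) (p (nat_lit 0x89) (nat_lit 1) (p (nat_lit 0x101) (nat_lit 0) (p (nat_lit 0xc1) (nat_lit 1) (p (nat_lit 0x119) (nat_lit 1) (p (nat_lit 0xd1) (nat_lit 0) (p (nat_lit 0x81) (nat_lit 0) (p (nat_lit 0x41) (nat_lit 1) (p (nat_lit 0x108090887069a) (nat_lit 0) (p (nat_lit 0x107870806861a) (nat_lit 0) (p (nat_lit 0x8000000000000070786058a) (nat_lit 0) (p (nat_lit 0x10787058502)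 (nat_lit 0) (p (nat_lit 0x10586850482) (nat_lit 0) (p (nat_lit 0x16000c) (nat_lit 0) (p (nat_lit 0x160004) (nat_lit 0) (p (nat_lit 0x68612) (nat_lit 0) (p (nat_lit 0x50592) (nat_lit 0) (p (nat_lit 0x40512) (nat_lit 0) (p (nat_lit 0x50312) (nat_lit 0) (p (nat_lit 0x38292) (nat_lit 0) (p (nat_lit 0x28212) (nat_lit 0) (p (nat_lit 0x38112) (nat_lit 0) (p (nat_lit 0x20092) (nat_lit 0) (p (nat_lit 0x10012) (nat_lit 0) pn))))))))))))))))))))))))))))) :=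
  Cl.node (nat_lit 0xc1) (nat_lit 2) (by decide +kernel) (ClAll.succ (ClAll.succ ClAll.zero n17) s695)

def n31 : Cl (O (nat_lit 4)) (R (nat_lit 14353))
    (p (nat_lit 0x1fc014) (nat_lit 0) (p (nat_lit 0xb0004) (nat_lit 0) (p (nat_lit 0xb000c) (nat_lit 1) (p (nat_lit 0x380c2) (nat_lit 1) (p (nat_lit 0x3c4aa) (nat_lit 7) (p (nat_lit 0x109) (nat_lit 1) (p (nat_lit 0x89) (nat_lit 1) (p (nat_lit 0x101) (nat_lit 0) (p (nat_lit 0xc1) (nat_lit 1) (p (nat_lit 0x119) (nat_lit 1) (p (nat_lit 0xd1) (nat_lit 0) (p (nat_lit 0x81) (nat_lit 0) (p (nat_lit 0x41) (nat_lit 1) (p (nat_lit 0x108090887069a) (nat_lit 0) (p (nat_lit 0x107870806861a) (nat_lit 0) (p (nat_lit 0x8000000000000070786058a) (nat_lit 0) (p (nat_lit 0x10787058502) (nat_lit 0) (p (nat_lit 0x10586850482) (nat_lit 0) (p (nat_lit 0x16000c) (nat_lit 0) (p (nat_lit 0x160004) (nat_lit 0) (p (nat_lit 0x68612) (nat_lit 0) (p (nat_lit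 0x50592) (nat_lit 0) (p (nat_lit 0x40512) (nat_lit 0) (p (nat_lit 0x50312) (nat_lit 0) (p (nat_lit 0x38292) (nat_lit 0) (p (nat_lit 0x28212) (nat_lit 0) (p (nat_lit 0x38112) (nat_lit 0) (p (nat_lit 0x20092) (nat_lit 0) (p (nat_lit 0x10012) (nat_lit 0) pn))))))))))))))))))))))))))))) :=
  Cl.node (nat_lit 0x2a82580000000000a8b09890a) (nat_lit 1) (by decide +kernel) (ClAll.succ ClAll.zero n18)

def n32 : Cl (O (nat_lit 4)) (R (nat_lit 14353))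
    (p (nat_lit 0xb0004) (nat_lit 0) (p (nat_lit 0x100014) (nat_lit 0) (p (nat_lit 0x200014) (nat_lit 0) (p (nat_lit 0x380c2) (nat_lit 1) (p (nat_lit 0x3c4aa) (nat_lit 10) (p (nat_lit 0x109) (nat_lit 1) (p (nat_lit 0x89) (nat_lit 1) (p (nat_lit 0x101) (nat_lit 0) (p (nat_lit 0xc1) (nat_lit 1) (p (nat_lit 0x119) (nat_lit 1) (p (nat_lit 0xd1) (nat_lit 0) (p (nat_lit 0x81) (nat_lit 0) (p (nat_lit 0x41) (nat_lit 1) (p (nat_lit 0x108090887069a) (nat_lit 0) (p (nat_lit 0x107870806861a) (nat_lit 0) (p (nat_lit 0x8000000000000070786058a) (nat_lit 0) (p (nat_lit 0x10787058502) (nat_lit 0) (p (nat_lit 0x10586850482) (nat_lit 0) (p (nat_lit 0x16000c) (nat_lit 0) (p (nat_lit 0x160004) (nat_lit 0) (p (nat_lit 0x68612) (nat_lit 0) (p (nat_lit 0x50592) (nat_lit 0) (p (nat_lit 0x40512) (nat_lit 0) (p (nat_lit 0x50312) (nat_lit 0) (p (nat_lit 0x38292) (nat_lit 0) (p (nat_lit 0x28212) (nat_lit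 0) (p (nat_lit 0x38112) (nat_lit 0) (p (nat_lit 0x20092) (nat_lit 0) (p (nat_lit 0x10012) (nat_lit 0) pn))))))))))))))))))))))))))))) :=
  Cl.node (nat_lit 0x58004) (nat_lit 2) (by decide +kernel) (ClAll.succ (ClAll.succ ClAll.zero n19) s718)

def n33 : Cl (O (nat_lit 4)) (R (nat_lit 14353))
    (p (nat_lit 0x380c2) (nat_lit 0) (p (nat_lit 0x3cc2a) (nat_lit 0) (p (nat_lit 0xb000c) (nat_lit 0) (p (nat_lit 0x109) (nat_lit 0) (p (nat_lit 0x380c2) (nat_lit 1) (p (nat_lit 0x3c4aa) (nat_lit 7) (p (nat_lit 0x89) (nat_lit 1) (p (nat_lit 0x101) (nat_lit 1) (p (nat_lit 0xc1) (nat_lit 1) (p (nat_lit 0x119) (nat_lit 1) (p (nat_lit 0xd1) (nat_lit 0) (p (nat_lit 0x81) (nat_lit 0) (p (nat_lit 0x41) (nat_lit 1) (p (nat_lit 0x108090887069a) (nat_lit 0) (p (nat_lit 0x107870806861a) (nat_lit 0) (p (nat_lit 0x8000000000000070786058a) (nat_lit 0) (p (nat_lit 0x10787058502) (nat_lit 0) (p (nat_lit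 0x10586850482) (nat_lit 0) (p (nat_lit 0x16000c) (nat_lit 0) (p (nat_lit 0x160004) (nat_lit 0) (p (nat_lit 0x68612) (nat_lit 0) (p (nat_lit 0x50592) (nat_lit 0) (p (nat_lit 0x40512) (nat_lit 0) (p (nat_lit 0x50312) (nat_lit 0) (p (nat_lit 0x38292) (nat_lit 0) (p (nat_lit 0x28212) (nat_lit 0) (p (nat_lit 0x38112) (nat_lit 0) (p (nat_lit 0x20092) (nat_lit 0) (p (nat_lit 0x10012) (nat_lit 0) pn))))))))))))))))))))))))))))) :=
  Cl.node (nat_lit 0xb0004) (nat_lit 2) (by decide +kernel) (ClAll.succ (ClAll.succ ClAll.zero n20) s740)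

def n34 : Cl (O (nat_lit 4)) (R (nat_lit 14353))
    (p (nat_lit 0xc9) (nat_lit 0) (p (nat_lit 0xc1) (nat_lit 0) (p (nat_lit 0xb000c) (nat_lit 0) (p (nat_lit 0x109) (nat_lit 1) (p (nat_lit 0x380c2) (nat_lit 1) (p (nat_lit 0x3c4aa) (nat_lit 7) (p (nat_lit 0x89) (nat_lit 1) (p (nat_lit 0x101) (nat_lit 1) (p (nat_lit 0xc1) (nat_lit 1) (p (nat_lit 0x119) (nat_lit 1) (p (nat_lit 0xd1) (nat_lit 0) (p (nat_lit 0x81) (nat_lit 0) (p (nat_lit 0x41) (nat_lit 1) (p (nat_lit 0x108090887069a) (nat_lit 0) (p (nat_lit 0x107870806861a) (nat_lit 0) (p (nat_lit 0x8000000000000070786058a) (nat_lit 0) (p (nat_lit 0x10787058502) (nat_lit 0) (p (nat_lit 0x10586850482) (nat_lit 0) (p (nat_lit 0x16000c) (nat_lit 0) (p (nat_lit 0x160004) (nat_lit 0) (p (nat_lit 0x68612) (nat_lit 0) (p (nat_lit 0x50592) (nat_lit 0) (p (nat_lit 0x40512) (nat_lit 0) (p (nat_lit 0x50312) (nat_lit 0) (p (nat_lit 0x38292)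 (nat_lit 0) (p (nat_lit 0x28212) (nat_lit 0) (p (nat_lit 0x38112) (nat_lit 0) (p (nat_lit 0x20092) (nat_lit 0) (p (nat_lit 0x10012) (nat_lit 0) pn))))))))))))))))))))))))))))) :=
  Cl.node (nat_lit 0x119) (nat_lit 2) (by decide +kernel) (ClAll.succ (ClAll.succ ClAll.zero s753) n21)

def n35 : Cl (O (nat_lit 4)) (R (nat_lit 14353))
    (p (nat_lit 0x3cc2a) (nat_lit 10) (p (nat_lit 0xc9) (nat_lit 0) (p (nat_lit 0xb000c) (nat_lit 0) (p (nat_lit 0x380c2) (nat_lit 0) (p (nat_lit 0x3c4aa) (nat_lit 7) (p (nat_lit 0xd1) (nat_lit 1) (p (nat_lit 0x111) (nat_lit 1) (p (nat_lit 0x109) (nat_lit 0) (p (nat_lit 0x101) (nat_lit 0) (p (nat_lit 0x119) (nat_lit 0) (p (nat_lit 0xc1) (nat_lit 0) (p (nat_lit 0x81) (nat_lit 1) (p (nat_lit 0x41) (nat_lit 1) (p (nat_lit 0x108090887069a) (nat_lit 0) (p (nat_lit 0x107870806861a) (nat_lit 0) (p (nat_lit 0x8000000000000070786058a) (nat_lit 0) (p (nat_lit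 0x10787058502) (nat_lit 0) (p (nat_lit 0x10586850482) (nat_lit 0) (p (nat_lit 0x16000c) (nat_lit 0) (p (nat_lit 0x160004) (nat_lit 0) (p (nat_lit 0x68612) (nat_lit 0) (p (nat_lit 0x50592) (nat_lit 0) (p (nat_lit 0x40512) (nat_lit 0) (p (nat_lit 0x50312) (nat_lit 0) (p (nat_lit 0x38292) (nat_lit 0) (p (nat_lit 0x28212) (nat_lit 0) (p (nat_lit 0x38112) (nat_lit 0) (p (nat_lit 0x20092) (nat_lit 0) (p (nat_lit 0x10012) (nat_lit 0) pn))))))))))))))))))))))))))))) :=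
  Cl.node (nat_lit 0x380c2) (nat_lit 2) (by decide +kernel) (ClAll.succ (ClAll.succ ClAll.zero n22) s926)

def n36 : Cl (O (nat_lit 4)) (R (nat_lit 14353))
    (p (nat_lit 0xd1) (nat_lit 1) (p (nat_lit 0xc9) (nat_lit 0) (p (nat_lit 0xb000c) (nat_lit 0) (p (nat_lit 0x380c2) (nat_lit 1) (p (nat_lit 0x3c4aa) (nat_lit 7) (p (nat_lit 0xd1) (nat_lit 1) (p (nat_lit 0x111) (nat_lit 1) (p (nat_lit 0x109) (nat_lit 0) (p (nat_lit 0x101) (nat_lit 0) (p (nat_lit 0x119) (nat_lit 0) (p (nat_lit 0xc1) (nat_lit 0) (p (nat_lit 0x81) (nat_lit 1) (p (nat_lit 0x41) (nat_lit 1) (p (nat_lit 0x108090887069a) (nat_lit 0) (p (nat_lit 0x107870806861a) (nat_lit 0) (p (nat_lit 0x8000000000000070786058a) (nat_lit 0) (p (nat_lit 0x10787058502) (nat_lit 0) (p (nat_lit 0x10586850482) (nat_lit 0) (p (nat_lit 0x16000c) (nat_lit 0) (p (nat_lit 0x160004) (nat_lit 0) (p (nat_lit 0x68612) (nat_lit 0) (p (nat_lit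 0x50592) (nat_lit 0) (p (nat_lit 0x40512) (nat_lit 0) (p (nat_lit 0x50312) (nat_lit 0) (p (nat_lit 0x38292) (nat_lit 0) (p (nat_lit 0x28212) (nat_lit 0) (p (nat_lit 0x38112) (nat_lit 0) (p (nat_lit 0x20092) (nat_lit 0) (p (nat_lit 0x10012) (nat_lit 0) pn))))))))))))))))))))))))))))) :=
  Cl.node (nat_lit 0x111) (nat_lit 2) (by decide +kernel) (ClAll.succ (ClAll.succ ClAll.zero s931) s932)

def n37 : Cl (O (nat_lit 4)) (R (nat_lit 14353))
    (p (nat_lit 0x111) (nat_lit 0) (p (nat_lit 0x101) (nat_lit 0) (p (nat_lit 0xb000c) (nat_lit 0) (p (nat_lit 0xc1) (nat_lit 1) (p (nat_lit 0x380c2) (nat_lit 1) (p (nat_lit 0x3c4aa) (nat_lit 7) (p (nat_lit 0xd1) (nat_lit 1) (p (nat_lit 0xc9) (nat_lit 0) (p (nat_lit 0x101) (nat_lit 1) (p (nat_lit 0x119) (nat_lit 0) (p (nat_lit 0xc1) (nat_lit 0) (p (nat_lit 0x81) (nat_lit 1) (p (nat_lit 0x41) (nat_lit 1) (p (nat_lit 0x108090887069a) (nat_lit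 0) (p (nat_lit 0x107870806861a) (nat_lit 0) (p (nat_lit 0x8000000000000070786058a) (nat_lit 0) (p (nat_lit 0x10787058502) (nat_lit 0) (p (nat_lit 0x10586850482) (nat_lit 0) (p (nat_lit 0x16000c) (nat_lit 0) (p (nat_lit 0x160004) (nat_lit 0) (p (nat_lit 0x68612) (nat_lit 0) (p (nat_lit 0x50592) (nat_lit 0) (p (nat_lit 0x40512) (nat_lit 0) (p (nat_lit 0x50312) (nat_lit 0) (p (nat_lit 0x38292) (nat_lit 0) (p (nat_lit 0x28212) (nat_lit 0) (p (nat_lit 0x38112) (nat_lit 0) (p (nat_lit 0x20092) (nat_lit 0) (p (nat_lit 0x10012) (nat_lit 0) pn))))))))))))))))))))))))))))) :=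
  Cl.node (nat_lit 0x109) (nat_lit 2) (by decide +kernel) (ClAll.succ (ClAll.succ ClAll.zero n23) s997)

def n38 : Cl (O (nat_lit 4)) (R (nat_lit 14353))
    (p (nat_lit 0x109) (nat_lit 1) (p (nat_lit 0x111) (nat_lit 0) (p (nat_lit 0x101) (nat_lit 0) (p (nat_lit 0xb000c) (nat_lit 0) (p (nat_lit 0x380c2) (nat_lit 1) (p (nat_lit 0x3c4aa) (nat_lit 7) (p (nat_lit 0x111) (nat_lit 1) (p (nat_lit 0xd1) (nat_lit 1) (p (nat_lit 0xc9) (nat_lit 0) (p (nat_lit 0x119) (nat_lit 1) (p (nat_lit 0xc1) (nat_lit 0) (p (nat_lit 0x81) (nat_lit 1) (p (nat_lit 0x41) (nat_lit 1) (p (nat_lit 0x108090887069a) (nat_lit 0) (p (nat_lit 0x107870806861a) (nat_lit 0) (p (nat_lit 0x8000000000000070786058a) (nat_lit 0) (p (nat_lit 0x10787058502) (nat_lit 0) (p (nat_lit 0x10586850482) (nat_lit 0) (p (nat_lit 0x16000c) (nat_lit 0) (p (nat_lit 0x160004) (nat_lit 0) (p (nat_lit 0x68612) (nat_lit 0) (p (nat_lit 0x50592)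 (nat_lit 0) (p (nat_lit 0x40512) (nat_lit 0) (p (nat_lit 0x50312) (nat_lit 0) (p (nat_lit 0x38292) (nat_lit 0) (p (nat_lit 0x28212) (nat_lit 0) (p (nat_lit 0x38112) (nat_lit 0) (p (nat_lit 0x20092) (nat_lit 0) (p (nat_lit 0x10012) (nat_lit 0) pn))))))))))))))))))))))))))))) :=
  Cl.node (nat_lit 0x89) (nat_lit 2) (by decide +kernel) (ClAll.succ (ClAll.succ ClAll.zero n24) s1025)

def n39 : Cl (O (nat_lit 4)) (R (nat_lit 14353))
    (p (nat_lit 0x2a82580000000000a8b09890a) (nat_lit 0) (p (nat_lit 0x1fc014) (nat_lit 0) (p (nat_lit 0xb0004) (nat_lit 0) (p (nat_lit 0xb000c) (nat_lit 1) (p (nat_lit 0x380c2) (nat_lit 1) (p (nat_lit 0x3c4aa) (nat_lit 7) (p (nat_lit 0x111) (nat_lit 1) (p (nat_lit 0xd1) (nat_lit 1) (p (nat_lit 0xc9) (nat_lit 0) (p (nat_lit 0x119) (nat_lit 1) (p (nat_lit 0xc1) (nat_lit 0) (p (nat_lit 0x81) (nat_lit 1) (p (nat_lit 0x41) (nat_lit 1) (p (nat_lit 0x108090887069a)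 (nat_lit 0) (p (nat_lit 0x107870806861a) (nat_lit 0) (p (nat_lit 0x8000000000000070786058a) (nat_lit 0) (p (nat_lit 0x10787058502) (nat_lit 0) (p (nat_lit 0x10586850482) (nat_lit 0) (p (nat_lit 0x16000c) (nat_lit 0) (p (nat_lit 0x160004) (nat_lit 0) (p (nat_lit 0x68612) (nat_lit 0) (p (nat_lit 0x50592) (nat_lit 0) (p (nat_lit 0x40512) (nat_lit 0) (p (nat_lit 0x50312) (nat_lit 0) (p (nat_lit 0x38292) (nat_lit 0) (p (nat_lit 0x28212) (nat_lit 0) (p (nat_lit 0x38112) (nat_lit 0) (p (nat_lit 0x20092) (nat_lit 0) (p (nat_lit 0x10012) (nat_lit 0) pn))))))))))))))))))))))))))))) :=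
  Cl.node (nat_lit 0x10b0a8b8a099a) (nat_lit 1) (by decide +kernel) (ClAll.succ ClAll.zero n25)

def n40 : Cl (O (nat_lit 4)) (R (nat_lit 14353))
    (p (nat_lit 0x100014) (nat_lit 1) (p (nat_lit 0x200014) (nat_lit 0) (p (nat_lit 0x41) (nat_lit 0) (p (nat_lit 0x380c2) (nat_lit 0) (p (nat_lit 0x44c2a) (nat_lit 0) (p (nat_lit 0x101) (nat_lit 1) (p (nat_lit 0x111) (nat_lit 0) (p (nat_lit 0x109) (nat_lit 0) (p (nat_lit 0xc9) (nat_lit 1) (p (nat_lit 0x119) (nat_lit 1) (p (nat_lit 0xc1) (nat_lit 0) (p (nat_lit 0x81) (nat_lit 1) (p (nat_lit 0x41) (nat_lit 1) (p (nat_lit 0x108090887069a) (nat_lit 0) (p (nat_lit 0x107870806861a) (nat_lit 0) (p (nat_lit 0x8000000000000070786058a) (nat_lit 0) (p (nat_lit 0x10787058502) (nat_lit 0) (p (nat_lit 0x10586850482) (nat_lit 0) (p (nat_lit 0x16000c) (nat_lit 0) (p (nat_lit 0x160004) (nat_lit 0) (p (nat_lit 0x68612) (nat_lit 0) (p (nat_lit 0x50592)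 (nat_lit 0) (p (nat_lit 0x40512) (nat_lit 0) (p (nat_lit 0x50312) (nat_lit 0) (p (nat_lit 0x38292) (nat_lit 0) (p (nat_lit 0x28212) (nat_lit 0) (p (nat_lit 0x38112) (nat_lit 0) (p (nat_lit 0x20092) (nat_lit 0) (p (nat_lit 0x10012) (nat_lit 0) pn))))))))))))))))))))))))))))) :=
  Cl.node (nat_lit 0x108004) (nat_lit 2) (by decide +kernel) (ClAll.succ (ClAll.succ ClAll.zero n26) s1077)

def n41 : Cl (O (nat_lit 4)) (R (nat_lit 14353))
    (p (nat_lit 0x81) (nat_lit 1) (p (nat_lit 0x89) (nat_lit 0) (p (nat_lit 0x380c2) (nat_lit 0) (p (nat_lit 0x444aa) (nat_lit 7) (p (nat_lit 0x81) (nat_lit 1) (p (nat_lit 0xc9) (nat_lit 1) (p (nat_lit 0x109) (nat_lit 1) (p (nat_lit 0x101) (nat_lit 0) (p (nat_lit 0x119) (nat_lit 0) (p (nat_lit 0xd1) (nat_lit 0) (p (nat_lit 0x89) (nat_lit 0) (p (nat_lit 0x41) (nat_lit 0) (p (nat_lit 0x108090887069a) (nat_lit 0) (p (nat_lit 0x107870806861a) (nat_lit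 0) (p (nat_lit 0x8000000000000070786058a) (nat_lit 0) (p (nat_lit 0x10787058502) (nat_lit 0) (p (nat_lit 0x10586850482) (nat_lit 0) (p (nat_lit 0x16000c) (nat_lit 0) (p (nat_lit 0x160004) (nat_lit 0) (p (nat_lit 0x68612) (nat_lit 0) (p (nat_lit 0x50592) (nat_lit 0) (p (nat_lit 0x40512) (nat_lit 0) (p (nat_lit 0x50312) (nat_lit 0) (p (nat_lit 0x38292) (nat_lit 0) (p (nat_lit 0x28212) (nat_lit 0) (p (nat_lit 0x38112) (nat_lit 0) (p (nat_lit 0x20092) (nat_lit 0) (p (nat_lit 0x10012) (nat_lit 0) pn)))))))))))))))))))))))))))) :=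
  Cl.node (nat_lit 0xb000c) (nat_lit 2) (by decide +kernel) (ClAll.succ (ClAll.succ ClAll.zero s11) s12)

def n42 : Cl (O (nat_lit 4)) (R (nat_lit 14353))
    (p (nat_lit 0x81) (nat_lit 1) (p (nat_lit 0x89) (nat_lit 0) (p (nat_lit 0x380c2) (nat_lit 0) (p (nat_lit 0x444aa) (nat_lit 7) (p (nat_lit 0x111) (nat_lit 0) (p (nat_lit 0xc9) (nat_lit 1) (p (nat_lit 0x81) (nat_lit 0) (p (nat_lit 0x101) (nat_lit 1) (p (nat_lit 0x119) (nat_lit 0) (p (nat_lit 0xd1) (nat_lit 0) (p (nat_lit 0x89) (nat_lit 0) (p (nat_lit 0x41) (nat_lit 0) (p (nat_lit 0x108090887069a) (nat_lit 0) (p (nat_lit 0x107870806861a) (nat_lit 0) (p (nat_lit 0x8000000000000070786058a) (nat_lit 0) (p (nat_lit 0x10787058502) (nat_lit 0) (p (nat_lit 0x10586850482) (nat_lit 0) (p (nat_lit 0x16000c) (nat_lit 0) (p (nat_lit 0x160004) (nat_lit 0) (p (nat_lit 0x68612) (nat_lit 0) (p (nat_lit 0x50592) (nat_lit 0) (p (nat_lit 0x40512)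 (nat_lit 0) (p (nat_lit 0x50312) (nat_lit 0) (p (nat_lit 0x38292) (nat_lit 0) (p (nat_lit 0x28212) (nat_lit 0) (p (nat_lit 0x38112) (nat_lit 0) (p (nat_lit 0x20092) (nat_lit 0) (p (nat_lit 0x10012) (nat_lit 0) pn)))))))))))))))))))))))))))) :=
  Cl.node (nat_lit 0xb000c) (nat_lit 2) (by decide +kernel) (ClAll.succ (ClAll.succ ClAll.zero s45) s46)

def n43 : Cl (O (nat_lit 4)) (R (nat_lit 14353))
    (p (nat_lit 0xb000c) (nat_lit 0) (p (nat_lit 0x119) (nat_lit 1) (p (nat_lit 0x380c2) (nat_lit 0) (p (nat_lit 0x444aa) (nat_lit 7) (p (nat_lit 0x109) (nat_lit 1) (p (nat_lit 0x101) (nat_lit 0) (p (nat_lit 0x81) (nat_lit 1) (p (nat_lit 0xc1) (nat_lit 1) (p (nat_lit 0x119) (nat_lit 1) (p (nat_lit 0xd1) (nat_lit 0) (p (nat_lit 0x89) (nat_lit 0) (p (nat_lit 0x41) (nat_lit 0) (p (nat_lit 0x108090887069a) (nat_lit 0) (p (nat_lit 0x107870806861a) (nat_lit 0) (p (nat_lit 0x8000000000000070786058a)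 (nat_lit 0) (p (nat_lit 0x10787058502) (nat_lit 0) (p (nat_lit 0x10586850482) (nat_lit 0) (p (nat_lit 0x16000c) (nat_lit 0) (p (nat_lit 0x160004) (nat_lit 0) (p (nat_lit 0x68612) (nat_lit 0) (p (nat_lit 0x50592) (nat_lit 0) (p (nat_lit 0x40512) (nat_lit 0) (p (nat_lit 0x50312) (nat_lit 0) (p (nat_lit 0x38292) (nat_lit 0) (p (nat_lit 0x28212) (nat_lit 0) (p (nat_lit 0x38112) (nat_lit 0) (p (nat_lit 0x20092) (nat_lit 0) (p (nat_lit 0x10012) (nat_lit 0) pn)))))))))))))))))))))))))))) :=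
  Cl.node (nat_lit 0xb0004) (nat_lit 2) (by decide +kernel) (ClAll.succ (ClAll.succ ClAll.zero n27) s179)

def n44 : Cl (O (nat_lit 4)) (R (nat_lit 14353))
    (p (nat_lit 0xb000c) (nat_lit 0) (p (nat_lit 0xb0004) (nat_lit 0) (p (nat_lit 0x380c2) (nat_lit 1) (p (nat_lit 0x444aa) (nat_lit 8) (p (nat_lit 0x109) (nat_lit 1) (p (nat_lit 0x101) (nat_lit 0) (p (nat_lit 0x81) (nat_lit 1) (p (nat_lit 0xc1) (nat_lit 1) (p (nat_lit 0x119) (nat_lit 1) (p (nat_lit 0xd1) (nat_lit 0) (p (nat_lit 0x89) (nat_lit 0) (p (nat_lit 0x41) (nat_lit 0) (p (nat_lit 0x108090887069a) (nat_lit 0) (p (nat_lit 0x107870806861a) (nat_lit 0) (p (nat_lit 0x8000000000000070786058a) (nat_lit 0) (p (nat_lit 0x10787058502) (nat_lit 0) (p (nat_lit 0x10586850482) (nat_lit 0) (p (nat_lit 0x16000c) (nat_lit 0) (p (nat_lit 0x160004) (nat_lit 0) (p (nat_lit 0x68612) (nat_lit 0) (p (nat_lit 0x50592) (nat_lit 0) (p (nat_lit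 0x40512) (nat_lit 0) (p (nat_lit 0x50312) (nat_lit 0) (p (nat_lit 0x38292) (nat_lit 0) (p (nat_lit 0x28212) (nat_lit 0) (p (nat_lit 0x38112) (nat_lit 0) (p (nat_lit 0x20092) (nat_lit 0) (p (nat_lit 0x10012) (nat_lit 0) pn)))))))))))))))))))))))))))) :=
  Cl.node (nat_lit 0x200014) (nat_lit 2) (by decide +kernel) (ClAll.succ (ClAll.succ ClAll.zero s195) s196)

def n45 : Cl (O (nat_lit 4)) (R (nat_lit 14353))
    (p (nat_lit 0xb000c) (nat_lit 0) (p (nat_lit 0x380c2) (nat_lit 0) (p (nat_lit 0x3cc2a) (nat_lit 0) (p (nat_lit 0x41) (nat_lit 0) (p (nat_lit 0x200014) (nat_lit 0) (p (nat_lit 0xc1) (nat_lit 1) (p (nat_lit 0x109) (nat_lit 1) (p (nat_lit 0x101) (nat_lit 0) (p (nat_lit 0x111) (nat_lit 0) (p (nat_lit 0xd1) (nat_lit 1) (p (nat_lit 0x89) (nat_lit 0) (p (nat_lit 0x41) (nat_lit 0) (p (nat_lit 0x108090887069a) (nat_lit 0) (p (nat_lit 0x107870806861a) (nat_lit 0) (p (nat_lit 0x8000000000000070786058a)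 (nat_lit 0) (p (nat_lit 0x10787058502) (nat_lit 0) (p (nat_lit 0x10586850482) (nat_lit 0) (p (nat_lit 0x16000c) (nat_lit 0) (p (nat_lit 0x160004) (nat_lit 0) (p (nat_lit 0x68612) (nat_lit 0) (p (nat_lit 0x50592) (nat_lit 0) (p (nat_lit 0x40512) (nat_lit 0) (p (nat_lit 0x50312) (nat_lit 0) (p (nat_lit 0x38292) (nat_lit 0) (p (nat_lit 0x28212) (nat_lit 0) (p (nat_lit 0x38112) (nat_lit 0) (p (nat_lit 0x20092) (nat_lit 0) (p (nat_lit 0x10012) (nat_lit 0) pn)))))))))))))))))))))))))))) :=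
  Cl.node (nat_lit 0x5800c) (nat_lit 2) (by decide +kernel) (ClAll.succ (ClAll.succ ClAll.zero s229) s230)

def n46 : Cl (O (nat_lit 4)) (R (nat_lit 14353))
    (p (nat_lit 0xc1) (nat_lit 0) (p (nat_lit 0xc9) (nat_lit 0) (p (nat_lit 0x380c2) (nat_lit 0) (p (nat_lit 0x444aa) (nat_lit 7) (p (nat_lit 0x119) (nat_lit 0) (p (nat_lit 0xc1) (nat_lit 0) (p (nat_lit 0x81) (nat_lit 1) (p (nat_lit 0x101) (nat_lit 1) (p (nat_lit 0x111) (nat_lit 0) (p (nat_lit 0xd1) (nat_lit 1) (p (nat_lit 0x89) (nat_lit 0) (p (nat_lit 0x41) (nat_lit 0) (p (nat_lit 0x108090887069a) (nat_lit 0) (p (nat_lit 0x107870806861a) (nat_lit 0) (p (nat_lit 0x8000000000000070786058a) (nat_lit 0) (p (nat_lit 0x10787058502) (nat_lit 0) (p (nat_lit 0x10586850482) (nat_lit 0) (p (nat_lit 0x16000c) (nat_lit 0) (p (nat_lit 0x160004) (nat_lit 0) (p (nat_lit 0x68612) (nat_lit 0) (p (nat_lit 0x50592) (nat_lit 0) (p (nat_lit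 0x40512) (nat_lit 0) (p (nat_lit 0x50312) (nat_lit 0) (p (nat_lit 0x38292) (nat_lit 0) (p (nat_lit 0x28212) (nat_lit 0) (p (nat_lit 0x38112) (nat_lit 0) (p (nat_lit 0x20092) (nat_lit 0) (p (nat_lit 0x10012) (nat_lit 0) pn)))))))))))))))))))))))))))) :=
  Cl.node (nat_lit 0xd1) (nat_lit 2) (by decide +kernel) (ClAll.succ (ClAll.succ ClAll.zero n28) s291)

def n47 : Cl (O (nat_lit 4)) (R (nat_lit 14353))
    (p (nat_lit 0xb000c) (nat_lit 0) (p (nat_lit 0xc9) (nat_lit 0) (p (nat_lit 0xc1) (nat_lit 0) (p (nat_lit 0x380c2) (nat_lit 0) (p (nat_lit 0x444aa) (nat_lit 7) (p (nat_lit 0xd1) (nat_lit 1) (p (nat_lit 0x109) (nat_lit 1) (p (nat_lit 0x101) (nat_lit 0) (p (nat_lit 0x119) (nat_lit 0) (p (nat_lit 0xc9) (nat_lit 0) (p (nat_lit 0x89) (nat_lit 1) (p (nat_lit 0x41) (nat_lit 0) (p (nat_lit 0x108090887069a) (nat_lit 0) (p (nat_lit 0x107870806861a) (nat_lit 0) (p (nat_lit 0x8000000000000070786058a)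 (nat_lit 0) (p (nat_lit 0x10787058502) (nat_lit 0) (p (nat_lit 0x10586850482) (nat_lit 0) (p (nat_lit 0x16000c) (nat_lit 0) (p (nat_lit 0x160004) (nat_lit 0) (p (nat_lit 0x68612) (nat_lit 0) (p (nat_lit 0x50592) (nat_lit 0) (p (nat_lit 0x40512) (nat_lit 0) (p (nat_lit 0x50312) (nat_lit 0) (p (nat_lit 0x38292) (nat_lit 0) (p (nat_lit 0x28212) (nat_lit 0) (p (nat_lit 0x38112) (nat_lit 0) (p (nat_lit 0x20092) (nat_lit 0) (p (nat_lit 0x10012) (nat_lit 0) pn)))))))))))))))))))))))))))) :=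
  Cl.node (nat_lit 0x3cc2a) (nat_lit 12) (by decide +kernel) (ClAll.succ (ClAll.succ (ClAll.succ (ClAll.succ (ClAll.succ (ClAll.succ (ClAll.succ (ClAll.succ (ClAll.succ (ClAll.succ (ClAll.succ (ClAll.succ ClAll.zero s372) s373) s374) s375) s376) s377) s378) s379) s380) s381) s382) s383)

def n48 : Cl (O (nat_lit 4)) (R (nat_lit 14353))
    (p (nat_lit 0xd1) (nat_lit 0) (p (nat_lit 0xc9) (nat_lit 0) (p (nat_lit 0xc1) (nat_lit 0) (p (nat_lit 0x380c2) (nat_lit 1) (p (nat_lit 0x444aa) (nat_lit 7) (p (nat_lit 0xd1) (nat_lit 1) (p (nat_lit 0x109) (nat_lit 1) (p (nat_lit 0x101) (nat_lit 0) (p (nat_lit 0x119) (nat_lit 0) (p (nat_lit 0xc9) (nat_lit 0) (p (nat_lit 0x89) (nat_lit 1) (p (nat_lit 0x41) (nat_lit 0) (p (nat_lit 0x108090887069a) (nat_lit 0) (p (nat_lit 0x107870806861a) (nat_lit 0) (p (nat_lit 0x8000000000000070786058a) (nat_lit 0) (p (nat_lit 0x10787058502) (nat_lit 0) (p (nat_lit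 0x10586850482) (nat_lit 0) (p (nat_lit 0x16000c) (nat_lit 0) (p (nat_lit 0x160004) (nat_lit 0) (p (nat_lit 0x68612) (nat_lit 0) (p (nat_lit 0x50592) (nat_lit 0) (p (nat_lit 0x40512) (nat_lit 0) (p (nat_lit 0x50312) (nat_lit 0) (p (nat_lit 0x38292) (nat_lit 0) (p (nat_lit 0x28212) (nat_lit 0) (p (nat_lit 0x38112) (nat_lit 0) (p (nat_lit 0x20092) (nat_lit 0) (p (nat_lit 0x10012) (nat_lit 0) pn)))))))))))))))))))))))))))) :=
  Cl.node (nat_lit 0xb000c) (nat_lit 2) (by decide +kernel) (ClAll.succ (ClAll.succ ClAll.zero s387) s388)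

def n49 : Cl (O (nat_lit 4)) (R (nat_lit 14353))
    (p (nat_lit 0xd1) (nat_lit 0) (p (nat_lit 0x119) (nat_lit 1) (p (nat_lit 0xc9) (nat_lit 0) (p (nat_lit 0x380c2) (nat_lit 0) (p (nat_lit 0x444aa) (nat_lit 7) (p (nat_lit 0xd1) (nat_lit 1) (p (nat_lit 0xc1) (nat_lit 0) (p (nat_lit 0x101) (nat_lit 1) (p (nat_lit 0x119) (nat_lit 0) (p (nat_lit 0xc9) (nat_lit 0) (p (nat_lit 0x89) (nat_lit 1) (p (nat_lit 0x41) (nat_lit 0) (p (nat_lit 0x108090887069a) (nat_lit 0) (p (nat_lit 0x107870806861a) (nat_lit 0) (p (nat_lit 0x8000000000000070786058a) (nat_lit 0) (p (nat_lit 0x10787058502) (nat_lit 0) (p (nat_lit 0x10586850482) (nat_lit 0) (p (nat_lit 0x16000c) (nat_lit 0) (p (nat_lit 0x160004) (nat_lit 0) (p (nat_lit 0x68612) (nat_lit 0) (p (nat_lit 0x50592) (nat_lit 0) (p (nat_lit 0x40512) (nat_lit 0) (p (nat_lit 0x50312) (nat_lit 0) (p (nat_lit 0x38292) (nat_lit 0) (p (nat_lit 0x28212)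 (nat_lit 0) (p (nat_lit 0x38112) (nat_lit 0) (p (nat_lit 0x20092) (nat_lit 0) (p (nat_lit 0x10012) (nat_lit 0) pn)))))))))))))))))))))))))))) :=
  Cl.node (nat_lit 0x4c42a) (nat_lit 12) (by decide +kernel) (ClAll.succ (ClAll.succ (ClAll.succ (ClAll.succ (ClAll.succ (ClAll.succ (ClAll.succ (ClAll.succ (ClAll.succ (ClAll.succ (ClAll.succ (ClAll.succ ClAll.zero s420) s421) s422) s423) s424) s425) s426) s427) s428) s429) s430) s431)

def n50 : Cl (O (nat_lit 4)) (R (nat_lit 14353))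
    (p (nat_lit 0x111) (nat_lit 1) (p (nat_lit 0xb000c) (nat_lit 0) (p (nat_lit 0x109) (nat_lit 0) (p (nat_lit 0x380c2) (nat_lit 0) (p (nat_lit 0x444aa) (nat_lit 7) (p (nat_lit 0x111) (nat_lit 1) (p (nat_lit 0xd1) (nat_lit 1) (p (nat_lit 0xc1) (nat_lit 0) (p (nat_lit 0x119) (nat_lit 1) (p (nat_lit 0xc9) (nat_lit 0) (p (nat_lit 0x89) (nat_lit 1) (p (nat_lit 0x41) (nat_lit 0) (p (nat_lit 0x108090887069a) (nat_lit 0) (p (nat_lit 0x107870806861a) (nat_lit 0) (p (nat_lit 0x8000000000000070786058a) (nat_lit 0) (p (nat_lit 0x10787058502) (nat_lit 0) (p (nat_lit 0x10586850482) (nat_lit 0) (p (nat_lit 0x16000c) (nat_lit 0) (p (nat_lit 0x160004) (nat_lit 0) (p (nat_lit 0x68612) (nat_lit 0) (p (nat_lit 0x50592) (nat_lit 0) (p (nat_lit 0x40512) (nat_lit 0) (p (nat_lit 0x50312) (nat_lit 0) (p (nat_lit 0x38292) (nat_lit 0) (p (nat_lit 0x28212) (nat_lit 0) (p (nat_lit 0x38112) (nat_lit 0)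 (p (nat_lit 0x20092) (nat_lit 0) (p (nat_lit 0x10012) (nat_lit 0) pn)))))))))))))))))))))))))))) :=
  Cl.node (nat_lit 0x119) (nat_lit 2) (by decide +kernel) (ClAll.succ (ClAll.succ ClAll.zero s453) s454)

def n51 : Cl (O (nat_lit 4)) (R (nat_lit 14353))
    (p (nat_lit 0x111) (nat_lit 0) (p (nat_lit 0xb0004) (nat_lit 0) (p (nat_lit 0x109) (nat_lit 0) (p (nat_lit 0x380c2) (nat_lit 1) (p (nat_lit 0x444aa) (nat_lit 7) (p (nat_lit 0x111) (nat_lit 1) (p (nat_lit 0xd1) (nat_lit 1) (p (nat_lit 0xc1) (nat_lit 0) (p (nat_lit 0x119) (nat_lit 1) (p (nat_lit 0xc9) (nat_lit 0) (p (nat_lit 0x89) (nat_lit 1) (p (nat_lit 0x41) (nat_lit 0) (p (nat_lit 0x108090887069a) (nat_lit 0) (p (nat_lit 0x107870806861a) (nat_lit 0) (p (nat_lit 0x8000000000000070786058a) (nat_lit 0) (p (nat_lit 0x10787058502) (nat_lit 0) (p (nat_lit 0x10586850482) (nat_lit 0) (p (nat_lit 0x16000c) (nat_lit 0) (p (nat_lit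 0x160004) (nat_lit 0) (p (nat_lit 0x68612) (nat_lit 0) (p (nat_lit 0x50592) (nat_lit 0) (p (nat_lit 0x40512) (nat_lit 0) (p (nat_lit 0x50312) (nat_lit 0) (p (nat_lit 0x38292) (nat_lit 0) (p (nat_lit 0x28212) (nat_lit 0) (p (nat_lit 0x38112) (nat_lit 0) (p (nat_lit 0x20092) (nat_lit 0) (p (nat_lit 0x10012) (nat_lit 0) pn)))))))))))))))))))))))))))) :=
  Cl.node (nat_lit 0x101) (nat_lit 2) (by decide +kernel) (ClAll.succ (ClAll.succ ClAll.zero s457) n29)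

def n52 : Cl (O (nat_lit 4)) (R (nat_lit 14353))
    (p (nat_lit 0x111) (nat_lit 1) (p (nat_lit 0xb0004) (nat_lit 0) (p (nat_lit 0x109) (nat_lit 0) (p (nat_lit 0x380c2) (nat_lit 1) (p (nat_lit 0x444aa) (nat_lit 7) (p (nat_lit 0x111) (nat_lit 1) (p (nat_lit 0xd1) (nat_lit 1) (p (nat_lit 0xc1) (nat_lit 0) (p (nat_lit 0x119) (nat_lit 1) (p (nat_lit 0xc9) (nat_lit 0) (p (nat_lit 0x89) (nat_lit 1) (p (nat_lit 0x41) (nat_lit 0) (p (nat_lit 0x108090887069a) (nat_lit 0) (p (nat_lit 0x107870806861a) (nat_lit 0) (p (nat_lit 0x8000000000000070786058a) (nat_lit 0) (p (nat_lit 0x10787058502) (nat_lit 0) (p (nat_lit 0x10586850482) (nat_lit 0) (p (nat_lit 0x16000c) (nat_lit 0) (p (nat_lit 0x160004) (nat_lit 0) (p (nat_lit 0x68612) (nat_lit 0) (p (nat_lit 0x50592) (nat_lit 0) (p (nat_lit 0x40512) (nat_lit 0) (p (nat_lit 0x50312) (nat_lit 0) (p (nat_lit 0x38292) (nat_lit 0) (p (nat_lit 0x28212)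 (nat_lit 0) (p (nat_lit 0x38112) (nat_lit 0) (p (nat_lit 0x20092) (nat_lit 0) (p (nat_lit 0x10012) (nat_lit 0) pn)))))))))))))))))))))))))))) :=
  Cl.node (nat_lit 0x119) (nat_lit 2) (by decide +kernel) (ClAll.succ (ClAll.succ ClAll.zero s465) s466)

def n53 : Cl (O (nat_lit 4)) (R (nat_lit 14353))
    (p (nat_lit 0xb000c) (nat_lit 0) (p (nat_lit 0xb0004) (nat_lit 0) (p (nat_lit 0x200014) (nat_lit 1) (p (nat_lit 0x380c2) (nat_lit 1) (p (nat_lit 0x444aa) (nat_lit 8) (p (nat_lit 0x111) (nat_lit 1) (p (nat_lit 0xd1) (nat_lit 1) (p (nat_lit 0xc1) (nat_lit 0) (p (nat_lit 0x119) (nat_lit 1) (p (nat_lit 0xc9) (nat_lit 0) (p (nat_lit 0x89) (nat_lit 1) (p (nat_lit 0x41) (nat_lit 0) (p (nat_lit 0x108090887069a) (nat_lit 0) (p (nat_lit 0x107870806861a) (nat_lit 0) (p (nat_lit 0x8000000000000070786058a) (nat_lit 0) (p (nat_lit 0x10787058502) (nat_lit 0) (p (nat_lit 0x10586850482) (nat_lit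 0) (p (nat_lit 0x16000c) (nat_lit 0) (p (nat_lit 0x160004) (nat_lit 0) (p (nat_lit 0x68612) (nat_lit 0) (p (nat_lit 0x50592) (nat_lit 0) (p (nat_lit 0x40512) (nat_lit 0) (p (nat_lit 0x50312) (nat_lit 0) (p (nat_lit 0x38292) (nat_lit 0) (p (nat_lit 0x28212) (nat_lit 0) (p (nat_lit 0x38112) (nat_lit 0) (p (nat_lit 0x20092) (nat_lit 0) (p (nat_lit 0x10012) (nat_lit 0) pn)))))))))))))))))))))))))))) :=
  Cl.node (nat_lit 0x101) (nat_lit 2) (by decide +kernel) (ClAll.succ (ClAll.succ ClAll.zero s471) s472)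

def n54 : Cl (O (nat_lit 4)) (R (nat_lit 14353))
    (p (nat_lit 0x109) (nat_lit 0) (p (nat_lit 0x101) (nat_lit 0) (p (nat_lit 0xc9) (nat_lit 1) (p (nat_lit 0x380c2) (nat_lit 1) (p (nat_lit 0x3c4aa) (nat_lit 7) (p (nat_lit 0x89) (nat_lit 1) (p (nat_lit 0xc1) (nat_lit 1) (p (nat_lit 0x101) (nat_lit 1) (p (nat_lit 0x119) (nat_lit 0) (p (nat_lit 0xd1) (nat_lit 0) (p (nat_lit 0x81) (nat_lit 0) (p (nat_lit 0x41) (nat_lit 1) (p (nat_lit 0x108090887069a) (nat_lit 0) (p (nat_lit 0x107870806861a) (nat_lit 0) (p (nat_lit 0x8000000000000070786058a) (nat_lit 0) (p (nat_lit 0x10787058502) (nat_lit 0) (p (nat_lit 0x10586850482) (nat_lit 0) (p (nat_lit 0x16000c) (nat_lit 0) (p (nat_lit 0x160004) (nat_lit 0) (p (nat_lit 0x68612) (nat_lit 0) (p (nat_lit 0x50592) (nat_lit 0) (p (nat_lit 0x40512) (nat_lit 0) (p (nat_lit 0x50312) (nat_lit 0) (p (nat_lit 0x38292) (nat_lit 0) (p (nat_lit 0x28212)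 (nat_lit 0) (p (nat_lit 0x38112) (nat_lit 0) (p (nat_lit 0x20092) (nat_lit 0) (p (nat_lit 0x10012) (nat_lit 0) pn)))))))))))))))))))))))))))) :=
  Cl.node (nat_lit 0xb000c) (nat_lit 2) (by decide +kernel) (ClAll.succ (ClAll.succ ClAll.zero s621) s622)

def n55 : Cl (O (nat_lit 4)) (R (nat_lit 14353))
    (p (nat_lit 0x100014) (nat_lit 0) (p (nat_lit 0x200014) (nat_lit 0) (p (nat_lit 0x380c2) (nat_lit 1) (p (nat_lit 0x3c4aa) (nat_lit 10) (p (nat_lit 0x109) (nat_lit 1) (p (nat_lit 0x89) (nat_lit 1) (p (nat_lit 0xc9) (nat_lit 1) (p (nat_lit 0xc1) (nat_lit 0) (p (nat_lit 0x119) (nat_lit 1) (p (nat_lit 0xd1) (nat_lit 0) (p (nat_lit 0x81) (nat_lit 0) (p (nat_lit 0x41) (nat_lit 1) (p (nat_lit 0x108090887069a) (nat_lit 0) (p (nat_lit 0x107870806861a) (nat_lit 0) (p (nat_lit 0x8000000000000070786058a) (nat_lit 0) (p (nat_lit 0x10787058502) (nat_lit 0) (p (nat_lit 0x10586850482) (nat_lit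 0) (p (nat_lit 0x16000c) (nat_lit 0) (p (nat_lit 0x160004) (nat_lit 0) (p (nat_lit 0x68612) (nat_lit 0) (p (nat_lit 0x50592) (nat_lit 0) (p (nat_lit 0x40512) (nat_lit 0) (p (nat_lit 0x50312) (nat_lit 0) (p (nat_lit 0x38292) (nat_lit 0) (p (nat_lit 0x28212) (nat_lit 0) (p (nat_lit 0x38112) (nat_lit 0) (p (nat_lit 0x20092) (nat_lit 0) (p (nat_lit 0x10012) (nat_lit 0) pn)))))))))))))))))))))))))))) :=
  Cl.node (nat_lit 0xb000c) (nat_lit 2) (by decide +kernel) (ClAll.succ (ClAll.succ ClAll.zero s661) s662)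

def n56 : Cl (O (nat_lit 4)) (R (nat_lit 14353))
    (p (nat_lit 0x81) (nat_lit 1) (p (nat_lit 0xb000c) (nat_lit 0) (p (nat_lit 0x380c2) (nat_lit 0) (p (nat_lit 0x3c4aa) (nat_lit 7) (p (nat_lit 0x109) (nat_lit 1) (p (nat_lit 0x89) (nat_lit 1) (p (nat_lit 0x101) (nat_lit 0) (p (nat_lit 0xc1) (nat_lit 1) (p (nat_lit 0x119) (nat_lit 1) (p (nat_lit 0xd1) (nat_lit 0) (p (nat_lit 0x81) (nat_lit 0) (p (nat_lit 0x41) (nat_lit 1) (p (nat_lit 0x108090887069a) (nat_lit 0) (p (nat_lit 0x107870806861a) (nat_lit 0) (p (nat_lit 0x8000000000000070786058a) (nat_lit 0) (p (nat_lit 0x10787058502) (nat_lit 0) (p (nat_lit 0x10586850482) (nat_lit 0) (p (nat_lit 0x16000c) (nat_lit 0) (p (nat_lit 0x160004) (nat_lit 0) (p (nat_lit 0x68612) (nat_lit 0) (p (nat_lit 0x50592) (nat_lit 0) (p (nat_lit 0x40512) (nat_lit 0) (p (nat_lit 0x50312) (nat_lit 0) (p (nat_lit 0x38292) (nat_lit 0) (p (nat_lit 0x28212)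 (nat_lit 0) (p (nat_lit 0x38112) (nat_lit 0) (p (nat_lit 0x20092) (nat_lit 0) (p (nat_lit 0x10012) (nat_lit 0) pn)))))))))))))))))))))))))))) :=
  Cl.node (nat_lit 0xc1) (nat_lit 2) (by decide +kernel) (ClAll.succ (ClAll.succ ClAll.zero s689) s690)

def n57 : Cl (O (nat_lit 4)) (R (nat_lit 14353))
    (p (nat_lit 0x41) (nat_lit 0) (p (nat_lit 0xb000c) (nat_lit 0) (p (nat_lit 0x380c2) (nat_lit 1) (p (nat_lit 0x3c4aa) (nat_lit 7) (p (nat_lit 0x109) (nat_lit 1) (p (nat_lit 0x89) (nat_lit 1) (p (nat_lit 0x101) (nat_lit 0) (p (nat_lit 0xc1) (nat_lit 1) (p (nat_lit 0x119) (nat_lit 1) (p (nat_lit 0xd1) (nat_lit 0) (p (nat_lit 0x81) (nat_lit 0) (p (nat_lit 0x41) (nat_lit 1) (p (nat_lit 0x108090887069a) (nat_lit 0) (p (nat_lit 0x107870806861a) (nat_lit 0) (p (nat_lit 0x8000000000000070786058a) (nat_lit 0) (p (nat_lit 0x10787058502) (nat_lit 0) (p (nat_lit 0x10586850482) (nat_lit 0) (p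 (nat_lit 0x16000c) (nat_lit 0) (p (nat_lit 0x160004) (nat_lit 0) (p (nat_lit 0x68612) (nat_lit 0) (p (nat_lit 0x50592) (nat_lit 0) (p (nat_lit 0x40512) (nat_lit 0) (p (nat_lit 0x50312) (nat_lit 0) (p (nat_lit 0x38292) (nat_lit 0) (p (nat_lit 0x28212) (nat_lit 0) (p (nat_lit 0x38112) (nat_lit 0) (p (nat_lit 0x20092) (nat_lit 0) (p (nat_lit 0x10012) (nat_lit 0) pn)))))))))))))))))))))))))))) :=
  Cl.node (nat_lit 0xc9) (nat_lit 2) (by decide +kernel) (ClAll.succ (ClAll.succ ClAll.zero n30) s696)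

def n58 : Cl (O (nat_lit 4)) (R (nat_lit 14353))
    (p (nat_lit 0x41) (nat_lit 1) (p (nat_lit 0xb000c) (nat_lit 0) (p (nat_lit 0x380c2) (nat_lit 1) (p (nat_lit 0x3c4aa) (nat_lit 7) (p (nat_lit 0x109) (nat_lit 1) (p (nat_lit 0x89) (nat_lit 1) (p (nat_lit 0x101) (nat_lit 0) (p (nat_lit 0xc1) (nat_lit 1) (p (nat_lit 0x119) (nat_lit 1) (p (nat_lit 0xd1) (nat_lit 0) (p (nat_lit 0x81) (nat_lit 0) (p (nat_lit 0x41) (nat_lit 1) (p (nat_lit 0x108090887069a) (nat_lit 0) (p (nat_lit 0x107870806861a) (nat_lit 0) (p (nat_lit 0x8000000000000070786058a) (nat_lit 0) (p (nat_lit 0x10787058502) (nat_lit 0) (p (nat_lit 0x10586850482) (nat_lit 0) (p (nat_lit 0x16000c) (nat_lit 0) (p (nat_lit 0x160004) (nat_lit 0) (p (nat_lit 0x68612) (nat_lit 0) (p (nat_lit 0x50592) (nat_lit 0) (p (nat_lit 0x40512) (nat_lit 0) (p (nat_lit 0x50312) (nat_lit 0) (p (nat_lit 0x38292) (nat_lit 0) (p (nat_lit 0x28212)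 (nat_lit 0) (p (nat_lit 0x38112) (nat_lit 0) (p (nat_lit 0x20092) (nat_lit 0) (p (nat_lit 0x10012) (nat_lit 0) pn)))))))))))))))))))))))))))) :=
  Cl.node (nat_lit 0x44c2a) (nat_lit 12) (by decide +kernel) (ClAll.succ (ClAll.succ (ClAll.succ (ClAll.succ (ClAll.succ (ClAll.succ (ClAll.succ (ClAll.succ (ClAll.succ (ClAll.succ (ClAll.succ (ClAll.succ ClAll.zero s697) s698) s699) s700) s701) s702) s703) s704) s705) s706) s707) s708)

def n59 : Cl (O (nat_lit 4)) (R (nat_lit 14353))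
    (p (nat_lit 0xb0004) (nat_lit 0) (p (nat_lit 0xb000c) (nat_lit 1) (p (nat_lit 0x380c2) (nat_lit 1) (p (nat_lit 0x3c4aa) (nat_lit 7) (p (nat_lit 0x109) (nat_lit 1) (p (nat_lit 0x89) (nat_lit 1) (p (nat_lit 0x101) (nat_lit 0) (p (nat_lit 0xc1) (nat_lit 1) (p (nat_lit 0x119) (nat_lit 1) (p (nat_lit 0xd1) (nat_lit 0) (p (nat_lit 0x81) (nat_lit 0) (p (nat_lit 0x41) (nat_lit 1) (p (nat_lit 0x108090887069a) (nat_lit 0) (p (nat_lit 0x107870806861a) (nat_lit 0) (p (nat_lit 0x8000000000000070786058a) (nat_lit 0) (p (nat_lit 0x10787058502) (nat_lit 0) (p (nat_lit 0x10586850482) (nat_lit 0) (p (nat_lit 0x16000c) (nat_lit 0) (p (nat_lit 0x160004) (nat_lit 0) (p (nat_lit 0x68612) (nat_lit 0) (p (nat_lit 0x50592) (nat_lit 0) (p (nat_lit 0x40512) (nat_lit 0) (p (nat_lit 0x50312) (nat_lit 0) (p (nat_lit 0x38292) (nat_lit 0) (p (nat_lit 0x28212) (nat_lit 0) (p (nat_lit 0x38112) (nat_lit 0)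 (p (nat_lit 0x20092) (nat_lit 0) (p (nat_lit 0x10012) (nat_lit 0) pn)))))))))))))))))))))))))))) :=
  Cl.node (nat_lit 0x1fc014) (nat_lit 2) (by decide +kernel) (ClAll.succ (ClAll.succ ClAll.zero n31) s711)

def n60 : Cl (O (nat_lit 4)) (R (nat_lit 14353))
    (p (nat_lit 0x100014) (nat_lit 0) (p (nat_lit 0x200014) (nat_lit 0) (p (nat_lit 0x380c2) (nat_lit 1) (p (nat_lit 0x3c4aa) (nat_lit 10) (p (nat_lit 0x109) (nat_lit 1) (p (nat_lit 0x89) (nat_lit 1) (p (nat_lit 0x101) (nat_lit 0) (p (nat_lit 0xc1) (nat_lit 1) (p (nat_lit 0x119) (nat_lit 1) (p (nat_lit 0xd1) (nat_lit 0) (p (nat_lit 0x81) (nat_lit 0) (p (nat_lit 0x41) (nat_lit 1) (p (nat_lit 0x108090887069a) (nat_lit 0) (p (nat_lit 0x107870806861a) (nat_lit 0) (p (nat_lit 0x8000000000000070786058a) (nat_lit 0) (p (nat_lit 0x10787058502) (nat_lit 0) (p (nat_lit 0x10586850482) (nat_lit 0) (p (nat_lit 0x16000c) (nat_lit 0) (p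 (nat_lit 0x160004) (nat_lit 0) (p (nat_lit 0x68612) (nat_lit 0) (p (nat_lit 0x50592) (nat_lit 0) (p (nat_lit 0x40512) (nat_lit 0) (p (nat_lit 0x50312) (nat_lit 0) (p (nat_lit 0x38292) (nat_lit 0) (p (nat_lit 0x28212) (nat_lit 0) (p (nat_lit 0x38112) (nat_lit 0) (p (nat_lit 0x20092) (nat_lit 0) (p (nat_lit 0x10012) (nat_lit 0) pn)))))))))))))))))))))))))))) :=
  Cl.node (nat_lit 0xb0004) (nat_lit 2) (by decide +kernel) (ClAll.succ (ClAll.succ ClAll.zero n32) s719)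

def n61 : Cl (O (nat_lit 4)) (R (nat_lit 14353))
    (p (nat_lit 0x111) (nat_lit 0) (p (nat_lit 0xc1) (nat_lit 0) (p (nat_lit 0x81) (nat_lit 1) (p (nat_lit 0x380c2) (nat_lit 0) (p (nat_lit 0x3c4aa) (nat_lit 7) (p (nat_lit 0x89) (nat_lit 1) (p (nat_lit 0x101) (nat_lit 1) (p (nat_lit 0xc1) (nat_lit 1) (p (nat_lit 0x119) (nat_lit 1) (p (nat_lit 0xd1) (nat_lit 0) (p (nat_lit 0x81) (nat_lit 0) (p (nat_lit 0x41) (nat_lit 1) (p (nat_lit 0x108090887069a) (nat_lit 0) (p (nat_lit 0x107870806861a) (nat_lit 0) (p (nat_lit 0x8000000000000070786058a) (nat_lit 0) (p (nat_lit 0x10787058502) (nat_lit 0) (p (nat_lit 0x10586850482) (nat_lit 0) (p (nat_lit 0x16000c) (nat_lit 0) (p (nat_lit 0x160004) (nat_lit 0) (p (nat_lit 0x68612) (nat_lit 0) (p (nat_lit 0x50592) (nat_lit 0) (p (nat_lit 0x40512) (nat_lit 0) (p (nat_lit 0x50312) (nat_lit 0) (p (nat_lit 0x38292) (nat_lit 0) (p (nat_lit 0x28212)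 (nat_lit 0) (p (nat_lit 0x38112) (nat_lit 0) (p (nat_lit 0x20092) (nat_lit 0) (p (nat_lit 0x10012) (nat_lit 0) pn)))))))))))))))))))))))))))) :=
  Cl.node (nat_lit 0x109) (nat_lit 2) (by decide +kernel) (ClAll.succ (ClAll.succ ClAll.zero s734) s735)

def n62 : Cl (O (nat_lit 4)) (R (nat_lit 14353))
    (p (nat_lit 0x3cc2a) (nat_lit 0) (p (nat_lit 0xb000c) (nat_lit 0) (p (nat_lit 0x109) (nat_lit 0) (p (nat_lit 0x380c2) (nat_lit 1) (p (nat_lit 0x3c4aa) (nat_lit 7) (p (nat_lit 0x89) (nat_lit 1) (p (nat_lit 0x101) (nat_lit 1) (p (nat_lit 0xc1) (nat_lit 1) (p (nat_lit 0x119) (nat_lit 1) (p (nat_lit 0xd1) (nat_lit 0) (p (nat_lit 0x81) (nat_lit 0) (p (nat_lit 0x41) (nat_lit 1) (p (nat_lit 0x108090887069a) (nat_lit 0) (p (nat_lit 0x107870806861a) (nat_lit 0) (p (nat_lit 0x8000000000000070786058a) (nat_lit 0) (p (nat_lit 0x10787058502) (nat_lit 0) (p (nat_lit 0x10586850482) (nat_lit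 0) (p (nat_lit 0x16000c) (nat_lit 0) (p (nat_lit 0x160004) (nat_lit 0) (p (nat_lit 0x68612) (nat_lit 0) (p (nat_lit 0x50592) (nat_lit 0) (p (nat_lit 0x40512) (nat_lit 0) (p (nat_lit 0x50312) (nat_lit 0) (p (nat_lit 0x38292) (nat_lit 0) (p (nat_lit 0x28212) (nat_lit 0) (p (nat_lit 0x38112) (nat_lit 0) (p (nat_lit 0x20092) (nat_lit 0) (p (nat_lit 0x10012) (nat_lit 0) pn)))))))))))))))))))))))))))) :=
  Cl.node (nat_lit 0x380c2) (nat_lit 1) (by decide +kernel) (ClAll.succ ClAll.zero n33)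

def n63 : Cl (O (nat_lit 4)) (R (nat_lit 14353))
    (p (nat_lit 0xc1) (nat_lit 0) (p (nat_lit 0xb000c) (nat_lit 0) (p (nat_lit 0x109) (nat_lit 1) (p (nat_lit 0x380c2) (nat_lit 1) (p (nat_lit 0x3c4aa) (nat_lit 7) (p (nat_lit 0x89) (nat_lit 1) (p (nat_lit 0x101) (nat_lit 1) (p (nat_lit 0xc1) (nat_lit 1) (p (nat_lit 0x119) (nat_lit 1) (p (nat_lit 0xd1) (nat_lit 0) (p (nat_lit 0x81) (nat_lit 0) (p (nat_lit 0x41) (nat_lit 1) (p (nat_lit 0x108090887069a) (nat_lit 0) (p (nat_lit 0x107870806861a) (nat_lit 0) (p (nat_lit 0x8000000000000070786058a) (nat_lit 0) (p (nat_lit 0x10787058502) (nat_lit 0) (p (nat_lit 0x10586850482) (nat_lit 0) (p (nat_lit 0x16000c) (nat_lit 0) (p (nat_lit 0x160004) (nat_lit 0) (p (nat_lit 0x68612) (nat_lit 0) (p (nat_lit 0x50592) (nat_lit 0) (p (nat_lit 0x40512) (nat_lit 0) (p (nat_lit 0x50312) (nat_lit 0) (p (nat_lit 0x38292) (nat_lit 0) (p (nat_lit 0x28212)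 (nat_lit 0) (p (nat_lit 0x38112) (nat_lit 0) (p (nat_lit 0x20092) (nat_lit 0) (p (nat_lit 0x10012) (nat_lit 0) pn)))))))))))))))))))))))))))) :=
  Cl.node (nat_lit 0xc9) (nat_lit 2) (by decide +kernel) (ClAll.succ (ClAll.succ ClAll.zero n34) s756)

def n64 : Cl (O (nat_lit 4)) (R (nat_lit 14353))
    (p (nat_lit 0x3c4aa) (nat_lit 7) (p (nat_lit 0x89) (nat_lit 1) (p (nat_lit 0xb0004) (nat_lit 0) (p (nat_lit 0xc9) (nat_lit 1) (p (nat_lit 0x380c2) (nat_lit 0) (p (nat_lit 0x3cc2a) (nat_lit 0) (p (nat_lit 0x89) (nat_lit 0) (p (nat_lit 0x101) (nat_lit 1) (p (nat_lit 0x111) (nat_lit 0) (p (nat_lit 0xd1) (nat_lit 1) (p (nat_lit 0x81) (nat_lit 0) (p (nat_lit 0x41) (nat_lit 1) (p (nat_lit 0x108090887069a) (nat_lit 0) (p (nat_lit 0x107870806861a) (nat_lit 0) (p (nat_lit 0x8000000000000070786058a) (nat_lit 0) (p (nat_lit 0x10787058502) (nat_lit 0) (p (nat_lit 0x10586850482) (nat_lit 0)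 (p (nat_lit 0x16000c) (nat_lit 0) (p (nat_lit 0x160004) (nat_lit 0) (p (nat_lit 0x68612) (nat_lit 0) (p (nat_lit 0x50592) (nat_lit 0) (p (nat_lit 0x40512) (nat_lit 0) (p (nat_lit 0x50312) (nat_lit 0) (p (nat_lit 0x38292) (nat_lit 0) (p (nat_lit 0x28212) (nat_lit 0) (p (nat_lit 0x38112) (nat_lit 0) (p (nat_lit 0x20092) (nat_lit 0) (p (nat_lit 0x10012) (nat_lit 0) pn)))))))))))))))))))))))))))) :=
  Cl.node (nat_lit 0x380c2) (nat_lit 2) (by decide +kernel) (ClAll.succ (ClAll.succ ClAll.zero s806) s807)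

def n65 : Cl (O (nat_lit 4)) (R (nat_lit 14353))
    (p (nat_lit 0xb000c) (nat_lit 0) (p (nat_lit 0x119) (nat_lit 1) (p (nat_lit 0x101) (nat_lit 0) (p (nat_lit 0x380c2) (nat_lit 1) (p (nat_lit 0x3c4aa) (nat_lit 7) (p (nat_lit 0xc9) (nat_lit 1) (p (nat_lit 0x89) (nat_lit 1) (p (nat_lit 0x101) (nat_lit 1) (p (nat_lit 0x111) (nat_lit 0) (p (nat_lit 0xd1) (nat_lit 1) (p (nat_lit 0x81) (nat_lit 0) (p (nat_lit 0x41) (nat_lit 1) (p (nat_lit 0x108090887069a) (nat_lit 0) (p (nat_lit 0x107870806861a) (nat_lit 0) (p (nat_lit 0x8000000000000070786058a) (nat_lit 0) (p (nat_lit 0x10787058502) (nat_lit 0) (p (nat_lit 0x10586850482) (nat_lit 0) (p (nat_lit 0x16000c) (nat_lit 0) (p (nat_lit 0x160004) (nat_lit 0) (p (nat_lit 0x68612) (nat_lit 0) (p (nat_lit 0x50592) (nat_lit 0) (p (nat_lit 0x40512) (nat_lit 0) (p (nat_lit 0x50312) (nat_lit 0) (p (nat_lit 0x38292) (nat_lit 0) (p (nat_lit 0x28212)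 (nat_lit 0) (p (nat_lit 0x38112) (nat_lit 0) (p (nat_lit 0x20092) (nat_lit 0) (p (nat_lit 0x10012) (nat_lit 0) pn)))))))))))))))))))))))))))) :=
  Cl.node (nat_lit 0x89) (nat_lit 2) (by decide +kernel) (ClAll.succ (ClAll.succ ClAll.zero s858) s859)

def n66 : Cl (O (nat_lit 4)) (R (nat_lit 14353))
    (p (nat_lit 0xc9) (nat_lit 0) (p (nat_lit 0xb000c) (nat_lit 0) (p (nat_lit 0x380c2) (nat_lit 0) (p (nat_lit 0x3c4aa) (nat_lit 7) (p (nat_lit 0xd1) (nat_lit 1) (p (nat_lit 0x111) (nat_lit 1) (p (nat_lit 0x109) (nat_lit 0) (p (nat_lit 0x101) (nat_lit 0) (p (nat_lit 0x119) (nat_lit 0) (p (nat_lit 0xc1) (nat_lit 0) (p (nat_lit 0x81) (nat_lit 1) (p (nat_lit 0x41) (nat_lit 1) (p (nat_lit 0x108090887069a) (nat_lit 0) (p (nat_lit 0x107870806861a) (nat_lit 0) (p (nat_lit 0x8000000000000070786058a) (nat_lit 0) (p (nat_lit 0x10787058502) (nat_lit 0) (p (nat_lit 0x10586850482) (nat_lit 0)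 (p (nat_lit 0x16000c) (nat_lit 0) (p (nat_lit 0x160004) (nat_lit 0) (p (nat_lit 0x68612) (nat_lit 0) (p (nat_lit 0x50592) (nat_lit 0) (p (nat_lit 0x40512) (nat_lit 0) (p (nat_lit 0x50312) (nat_lit 0) (p (nat_lit 0x38292) (nat_lit 0) (p (nat_lit 0x28212) (nat_lit 0) (p (nat_lit 0x38112) (nat_lit 0) (p (nat_lit 0x20092) (nat_lit 0) (p (nat_lit 0x10012) (nat_lit 0) pn)))))))))))))))))))))))))))) :=
  Cl.node (nat_lit 0x3cc2a) (nat_lit 12) (by decide +kernel) (ClAll.succ (ClAll.succ (ClAll.succ (ClAll.succ (ClAll.succ (ClAll.succ (ClAll.succ (ClAll.succ (ClAll.succ (ClAll.succ (ClAll.succ (ClAll.succ ClAll.zero s901) s902) s903) s904) s905) s906) s907) s908) s909) s910) n35) s927)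

def n67 : Cl (O (nat_lit 4)) (R (nat_lit 14353))
    (p (nat_lit 0xc9) (nat_lit 0) (p (nat_lit 0xb000c) (nat_lit 0) (p (nat_lit 0x380c2) (nat_lit 1) (p (nat_lit 0x3c4aa) (nat_lit 7) (p (nat_lit 0xd1) (nat_lit 1) (p (nat_lit 0x111) (nat_lit 1) (p (nat_lit 0x109) (nat_lit 0) (p (nat_lit 0x101) (nat_lit 0) (p (nat_lit 0x119) (nat_lit 0) (p (nat_lit 0xc1) (nat_lit 0) (p (nat_lit 0x81) (nat_lit 1) (p (nat_lit 0x41) (nat_lit 1) (p (nat_lit 0x108090887069a) (nat_lit 0) (p (nat_lit 0x107870806861a) (nat_lit 0) (p (nat_lit 0x8000000000000070786058a) (nat_lit 0) (p (nat_lit 0x10787058502) (nat_lit 0) (p (nat_lit 0x10586850482) (nat_lit 0) (p (nat_lit 0x16000c) (nat_lit 0) (p (nat_lit 0x160004) (nat_lit 0) (p (nat_lit 0x68612) (nat_lit 0) (p (nat_lit 0x50592) (nat_lit 0) (p (nat_lit 0x40512) (nat_lit 0) (p (nat_lit 0x50312) (nat_lit 0) (p (nat_lit 0x38292) (nat_lit 0) (p (nat_lit 0x28212)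 (nat_lit 0) (p (nat_lit 0x38112) (nat_lit 0) (p (nat_lit 0x20092) (nat_lit 0) (p (nat_lit 0x10012) (nat_lit 0) pn)))))))))))))))))))))))))))) :=
  Cl.node (nat_lit 0xd1) (nat_lit 2) (by decide +kernel) (ClAll.succ (ClAll.succ ClAll.zero s930) n36)

def n68 : Cl (O (nat_lit 4)) (R (nat_lit 14353))
    (p (nat_lit 0xc9) (nat_lit 1) (p (nat_lit 0xb000c) (nat_lit 0) (p (nat_lit 0x380c2) (nat_lit 1) (p (nat_lit 0x3c4aa) (nat_lit 7) (p (nat_lit 0xd1) (nat_lit 1) (p (nat_lit 0x111) (nat_lit 1) (p (nat_lit 0x109) (nat_lit 0) (p (nat_lit 0x101) (nat_lit 0) (p (nat_lit 0x119) (nat_lit 0) (p (nat_lit 0xc1) (nat_lit 0) (p (nat_lit 0x81) (nat_lit 1) (p (nat_lit 0x41) (nat_lit 1) (p (nat_lit 0x108090887069a) (nat_lit 0) (p (nat_lit 0x107870806861a) (nat_lit 0) (p (nat_lit 0x8000000000000070786058a) (nat_lit 0) (p (nat_lit 0x10787058502) (nat_lit 0) (p (nat_lit 0x10586850482) (nat_lit 0) (p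 (nat_lit 0x16000c) (nat_lit 0) (p (nat_lit 0x160004) (nat_lit 0) (p (nat_lit 0x68612) (nat_lit 0) (p (nat_lit 0x50592) (nat_lit 0) (p (nat_lit 0x40512) (nat_lit 0) (p (nat_lit 0x50312) (nat_lit 0) (p (nat_lit 0x38292) (nat_lit 0) (p (nat_lit 0x28212) (nat_lit 0) (p (nat_lit 0x38112) (nat_lit 0) (p (nat_lit 0x20092) (nat_lit 0) (p (nat_lit 0x10012) (nat_lit 0) pn)))))))))))))))))))))))))))) :=
  Cl.node (nat_lit 0x101) (nat_lit 2) (by decide +kernel) (ClAll.succ (ClAll.succ ClAll.zero s933) s934)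

def n69 : Cl (O (nat_lit 4)) (R (nat_lit 14353))
    (p (nat_lit 0x101) (nat_lit 0) (p (nat_lit 0xb000c) (nat_lit 0) (p (nat_lit 0xc1) (nat_lit 1) (p (nat_lit 0x380c2) (nat_lit 1) (p (nat_lit 0x3c4aa) (nat_lit 7) (p (nat_lit 0xd1) (nat_lit 1) (p (nat_lit 0xc9) (nat_lit 0) (p (nat_lit 0x101) (nat_lit 1) (p (nat_lit 0x119) (nat_lit 0) (p (nat_lit 0xc1) (nat_lit 0) (p (nat_lit 0x81) (nat_lit 1) (p (nat_lit 0x41) (nat_lit 1) (p (nat_lit 0x108090887069a) (nat_lit 0) (p (nat_lit 0x107870806861a) (nat_lit 0) (p (nat_lit 0x8000000000000070786058a) (nat_lit 0) (p (nat_lit 0x10787058502) (nat_lit 0) (p (nat_lit 0x10586850482) (nat_lit 0) (p (nat_lit 0x16000c) (nat_lit 0) (p (nat_lit 0x160004) (nat_lit 0) (p (nat_lit 0x68612) (nat_lit 0) (p (nat_lit 0x50592) (nat_lit 0) (p (nat_lit 0x40512) (nat_lit 0) (p (nat_lit 0x50312) (nat_lit 0) (p (nat_lit 0x38292) (nat_lit 0) (p (nat_lit 0x28212)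 (nat_lit 0) (p (nat_lit 0x38112) (nat_lit 0) (p (nat_lit 0x20092) (nat_lit 0) (p (nat_lit 0x10012) (nat_lit 0) pn)))))))))))))))))))))))))))) :=
  Cl.node (nat_lit 0x111) (nat_lit 2) (by decide +kernel) (ClAll.succ (ClAll.succ ClAll.zero n37) s998)

def n70 : Cl (O (nat_lit 4)) (R (nat_lit 14353))
    (p (nat_lit 0x111) (nat_lit 0) (p (nat_lit 0x101) (nat_lit 0) (p (nat_lit 0xb000c) (nat_lit 0) (p (nat_lit 0x380c2) (nat_lit 1) (p (nat_lit 0x3c4aa) (nat_lit 7) (p (nat_lit 0x111) (nat_lit 1) (p (nat_lit 0xd1) (nat_lit 1) (p (nat_lit 0xc9) (nat_lit 0) (p (nat_lit 0x119) (nat_lit 1) (p (nat_lit 0xc1) (nat_lit 0) (p (nat_lit 0x81) (nat_lit 1) (p (nat_lit 0x41) (nat_lit 1) (p (nat_lit 0x108090887069a) (nat_lit 0) (p (nat_lit 0x107870806861a) (nat_lit 0) (p (nat_lit 0x8000000000000070786058a) (nat_lit 0) (p (nat_lit 0x10787058502) (nat_lit 0) (p (nat_lit 0x10586850482) (nat_lit 0)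 (p (nat_lit 0x16000c) (nat_lit 0) (p (nat_lit 0x160004) (nat_lit 0) (p (nat_lit 0x68612) (nat_lit 0) (p (nat_lit 0x50592) (nat_lit 0) (p (nat_lit 0x40512) (nat_lit 0) (p (nat_lit 0x50312) (nat_lit 0) (p (nat_lit 0x38292) (nat_lit 0) (p (nat_lit 0x28212) (nat_lit 0) (p (nat_lit 0x38112) (nat_lit 0) (p (nat_lit 0x20092) (nat_lit 0) (p (nat_lit 0x10012) (nat_lit 0) pn)))))))))))))))))))))))))))) :=
  Cl.node (nat_lit 0x109) (nat_lit 2) (by decide +kernel) (ClAll.succ (ClAll.succ ClAll.zero s1019) n38)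

def n71 : Cl (O (nat_lit 4)) (R (nat_lit 14353))
    (p (nat_lit 0x111) (nat_lit 1) (p (nat_lit 0x101) (nat_lit 0) (p (nat_lit 0xb000c) (nat_lit 0) (p (nat_lit 0x380c2) (nat_lit 1) (p (nat_lit 0x3c4aa) (nat_lit 7) (p (nat_lit 0x111) (nat_lit 1) (p (nat_lit 0xd1) (nat_lit 1) (p (nat_lit 0xc9) (nat_lit 0) (p (nat_lit 0x119) (nat_lit 1) (p (nat_lit 0xc1) (nat_lit 0) (p (nat_lit 0x81) (nat_lit 1) (p (nat_lit 0x41) (nat_lit 1) (p (nat_lit 0x108090887069a) (nat_lit 0) (p (nat_lit 0x107870806861a) (nat_lit 0) (p (nat_lit 0x8000000000000070786058a) (nat_lit 0) (p (nat_lit 0x10787058502) (nat_lit 0) (p (nat_lit 0x10586850482) (nat_lit 0) (p (nat_lit 0x16000c) (nat_lit 0) (p (nat_lit 0x160004) (nat_lit 0) (p (nat_lit 0x68612) (nat_lit 0) (p (nat_lit 0x50592) (nat_lit 0) (p (nat_lit 0x40512) (nat_lit 0) (p (nat_lit 0x50312) (nat_lit 0) (p (nat_lit 0x38292) (nat_lit 0) (p (nat_lit 0x28212)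 (nat_lit 0) (p (nat_lit 0x38112) (nat_lit 0) (p (nat_lit 0x20092) (nat_lit 0) (p (nat_lit 0x10012) (nat_lit 0) pn)))))))))))))))))))))))))))) :=
  Cl.node (nat_lit 0x119) (nat_lit 2) (by decide +kernel) (ClAll.succ (ClAll.succ ClAll.zero s1026) s1027)

def n72 : Cl (O (nat_lit 4)) (R (nat_lit 14353))
    (p (nat_lit 0x1fc014) (nat_lit 0) (p (nat_lit 0xb0004) (nat_lit 0) (p (nat_lit 0xb000c) (nat_lit 1) (p (nat_lit 0x380c2) (nat_lit 1) (p (nat_lit 0x3c4aa) (nat_lit 7) (p (nat_lit 0x111) (nat_lit 1) (p (nat_lit 0xd1) (nat_lit 1) (p (nat_lit 0xc9) (nat_lit 0) (p (nat_lit 0x119) (nat_lit 1) (p (nat_lit 0xc1) (nat_lit 0) (p (nat_lit 0x81) (nat_lit 1) (p (nat_lit 0x41) (nat_lit 1) (p (nat_lit 0x108090887069a) (nat_lit 0) (p (nat_lit 0x107870806861a) (nat_lit 0) (p (nat_lit 0x8000000000000070786058a) (nat_lit 0) (p (nat_lit 0x10787058502) (nat_lit 0) (p (nat_lit 0x10586850482) (nat_lit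 0) (p (nat_lit 0x16000c) (nat_lit 0) (p (nat_lit 0x160004) (nat_lit 0) (p (nat_lit 0x68612) (nat_lit 0) (p (nat_lit 0x50592) (nat_lit 0) (p (nat_lit 0x40512) (nat_lit 0) (p (nat_lit 0x50312) (nat_lit 0) (p (nat_lit 0x38292) (nat_lit 0) (p (nat_lit 0x28212) (nat_lit 0) (p (nat_lit 0x38112) (nat_lit 0) (p (nat_lit 0x20092) (nat_lit 0) (p (nat_lit 0x10012) (nat_lit 0) pn)))))))))))))))))))))))))))) :=
  Cl.node (nat_lit 0x2a82580000000000a8b09890a) (nat_lit 1) (by decide +kernel) (ClAll.succ ClAll.zero n39)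

def n73 : Cl (O (nat_lit 4)) (R (nat_lit 14353))
    (p (nat_lit 0x200014) (nat_lit 0) (p (nat_lit 0x41) (nat_lit 0) (p (nat_lit 0x380c2) (nat_lit 0) (p (nat_lit 0x44c2a) (nat_lit 0) (p (nat_lit 0x101) (nat_lit 1) (p (nat_lit 0x111) (nat_lit 0) (p (nat_lit 0x109) (nat_lit 0) (p (nat_lit 0xc9) (nat_lit 1) (p (nat_lit 0x119) (nat_lit 1) (p (nat_lit 0xc1) (nat_lit 0) (p (nat_lit 0x81) (nat_lit 1) (p (nat_lit 0x41) (nat_lit 1) (p (nat_lit 0x108090887069a) (nat_lit 0) (p (nat_lit 0x107870806861a) (nat_lit 0) (p (nat_lit 0x8000000000000070786058a) (nat_lit 0) (p (nat_lit 0x10787058502) (nat_lit 0) (p (nat_lit 0x10586850482) (nat_lit 0) (p (nat_lit 0x16000c) (nat_lit 0) (p (nat_lit 0x160004) (nat_lit 0) (p (nat_lit 0x68612) (nat_lit 0) (p (nat_lit 0x50592) (nat_lit 0) (p (nat_lit 0x40512) (nat_lit 0) (p (nat_lit 0x50312) (nat_lit 0) (p (nat_lit 0x38292) (nat_lit 0) (p (nat_lit 0x28212)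 (nat_lit 0) (p (nat_lit 0x38112) (nat_lit 0) (p (nat_lit 0x20092) (nat_lit 0) (p (nat_lit 0x10012) (nat_lit 0) pn)))))))))))))))))))))))))))) :=
  Cl.node (nat_lit 0x100014) (nat_lit 2) (by decide +kernel) (ClAll.succ (ClAll.succ ClAll.zero s1063) n40)

def n74 : Cl (O (nat_lit 4)) (R (nat_lit 14353))
    (p (nat_lit 0x111) (nat_lit 0) (p (nat_lit 0xb000c) (nat_lit 0) (p (nat_lit 0x101) (nat_lit 0) (p (nat_lit 0x380c2) (nat_lit 1) (p (nat_lit 0x3c4aa) (nat_lit 7) (p (nat_lit 0x111) (nat_lit 1) (p (nat_lit 0x109) (nat_lit 0) (p (nat_lit 0xc9) (nat_lit 1) (p (nat_lit 0x119) (nat_lit 1) (p (nat_lit 0xc1) (nat_lit 0) (p (nat_lit 0x81) (nat_lit 1) (p (nat_lit 0x41) (nat_lit 1) (p (nat_lit 0x108090887069a) (nat_lit 0) (p (nat_lit 0x107870806861a) (nat_lit 0) (p (nat_lit 0x8000000000000070786058a) (nat_lit 0) (p (nat_lit 0x10787058502) (nat_lit 0) (p (nat_lit 0x10586850482) (nat_lit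 0) (p (nat_lit 0x16000c) (nat_lit 0) (p (nat_lit 0x160004) (nat_lit 0) (p (nat_lit 0x68612) (nat_lit 0) (p (nat_lit 0x50592) (nat_lit 0) (p (nat_lit 0x40512) (nat_lit 0) (p (nat_lit 0x50312) (nat_lit 0) (p (nat_lit 0x38292) (nat_lit 0) (p (nat_lit 0x28212) (nat_lit 0) (p (nat_lit 0x38112) (nat_lit 0) (p (nat_lit 0x20092) (nat_lit 0) (p (nat_lit 0x10012) (nat_lit 0) pn)))))))))))))))))))))))))))) :=
  Cl.node (nat_lit 0x119) (nat_lit 2) (by decide +kernel) (ClAll.succ (ClAll.succ ClAll.zero s1102) s1103)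

def n75 : Cl (O (nat_lit 4)) (R (nat_lit 14353))
    (p (nat_lit 0x89) (nat_lit 0) (p (nat_lit 0x380c2) (nat_lit 0) (p (nat_lit 0x444aa) (nat_lit 7) (p (nat_lit 0x81) (nat_lit 1) (p (nat_lit 0xc9) (nat_lit 1) (p (nat_lit 0x109) (nat_lit 1) (p (nat_lit 0x101) (nat_lit 0) (p (nat_lit 0x119) (nat_lit 0) (p (nat_lit 0xd1) (nat_lit 0) (p (nat_lit 0x89) (nat_lit 0) (p (nat_lit 0x41) (nat_lit 0) (p (nat_lit 0x108090887069a) (nat_lit 0) (p (nat_lit 0x107870806861a) (nat_lit 0) (p (nat_lit 0x8000000000000070786058a) (nat_lit 0) (p (nat_lit 0x10787058502) (nat_lit 0) (p (nat_lit 0x10586850482) (nat_lit 0) (p (nat_lit 0x16000c) (nat_lit 0) (p (nat_lit 0x160004) (nat_lit 0) (p (nat_lit 0x68612) (nat_lit 0) (p (nat_lit 0x50592) (nat_lit 0) (p (nat_lit 0x40512) (nat_lit 0) (p (nat_lit 0x50312) (nat_lit 0) (p (nat_lit 0x38292) (nat_lit 0) (p (nat_lit 0x28212) (nat_lit 0) (p (nat_lit 0x38112)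 (nat_lit 0) (p (nat_lit 0x20092) (nat_lit 0) (p (nat_lit 0x10012) (nat_lit 0) pn))))))))))))))))))))))))))) :=
  Cl.node (nat_lit 0x81) (nat_lit 2) (by decide +kernel) (ClAll.succ (ClAll.succ ClAll.zero s10) n41)

def n76 : Cl (O (nat_lit 4)) (R (nat_lit 14353))
    (p (nat_lit 0x89) (nat_lit 1) (p (nat_lit 0x380c2) (nat_lit 0) (p (nat_lit 0x444aa) (nat_lit 7) (p (nat_lit 0x81) (nat_lit 1) (p (nat_lit 0xc9) (nat_lit 1) (p (nat_lit 0x109) (nat_lit 1) (p (nat_lit 0x101) (nat_lit 0) (p (nat_lit 0x119) (nat_lit 0) (p (nat_lit 0xd1) (nat_lit 0) (p (nat_lit 0x89) (nat_lit 0) (p (nat_lit 0x41) (nat_lit 0) (p (nat_lit 0x108090887069a) (nat_lit 0) (p (nat_lit 0x107870806861a) (nat_lit 0) (p (nat_lit 0x8000000000000070786058a) (nat_lit 0) (p (nat_lit 0x10787058502) (nat_lit 0) (p (nat_lit 0x10586850482) (nat_lit 0) (p (nat_lit 0x16000c) (nat_lit 0) (p (nat_lit 0x160004) (nat_lit 0) (p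 (nat_lit 0x68612) (nat_lit 0) (p (nat_lit 0x50592) (nat_lit 0) (p (nat_lit 0x40512) (nat_lit 0) (p (nat_lit 0x50312) (nat_lit 0) (p (nat_lit 0x38292) (nat_lit 0) (p (nat_lit 0x28212) (nat_lit 0) (p (nat_lit 0x38112) (nat_lit 0) (p (nat_lit 0x20092) (nat_lit 0) (p (nat_lit 0x10012) (nat_lit 0) pn))))))))))))))))))))))))))) :=
  Cl.node (nat_lit 0xc1) (nat_lit 2) (by decide +kernel) (ClAll.succ (ClAll.succ ClAll.zero s13) s14)

def n77 : Cl (O (nat_lit 4)) (R (nat_lit 14353))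
    (p (nat_lit 0x89) (nat_lit 1) (p (nat_lit 0x380c2) (nat_lit 1) (p (nat_lit 0x444aa) (nat_lit 7) (p (nat_lit 0x81) (nat_lit 1) (p (nat_lit 0xc9) (nat_lit 1) (p (nat_lit 0x109) (nat_lit 1) (p (nat_lit 0x101) (nat_lit 0) (p (nat_lit 0x119) (nat_lit 0) (p (nat_lit 0xd1) (nat_lit 0) (p (nat_lit 0x89) (nat_lit 0) (p (nat_lit 0x41) (nat_lit 0) (p (nat_lit 0x108090887069a) (nat_lit 0) (p (nat_lit 0x107870806861a) (nat_lit 0) (p (nat_lit 0x8000000000000070786058a) (nat_lit 0) (p (nat_lit 0x10787058502) (nat_lit 0) (p (nat_lit 0x10586850482) (nat_lit 0) (p (nat_lit 0x16000c) (nat_lit 0) (p (nat_lit 0x160004) (nat_lit 0) (p (nat_lit 0x68612) (nat_lit 0) (p (nat_lit 0x50592) (nat_lit 0) (p (nat_lit 0x40512) (nat_lit 0) (p (nat_lit 0x50312) (nat_lit 0) (p (nat_lit 0x38292) (nat_lit 0) (p (nat_lit 0x28212) (nat_lit 0) (p (nat_lit 0x38112) (nat_lit 0) (p (nat_lit 0x20092) (nat_lit 0) (p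 (nat_lit 0x10012) (nat_lit 0) pn))))))))))))))))))))))))))) :=
  Cl.node (nat_lit 0xc1) (nat_lit 2) (by decide +kernel) (ClAll.succ (ClAll.succ ClAll.zero s16) s17)

def n78 : Cl (O (nat_lit 4)) (R (nat_lit 14353))
    (p (nat_lit 0x89) (nat_lit 0) (p (nat_lit 0x380c2) (nat_lit 0) (p (nat_lit 0x444aa) (nat_lit 7) (p (nat_lit 0x111) (nat_lit 0) (p (nat_lit 0xc9) (nat_lit 1) (p (nat_lit 0x81) (nat_lit 0) (p (nat_lit 0x101) (nat_lit 1) (p (nat_lit 0x119) (nat_lit 0) (p (nat_lit 0xd1) (nat_lit 0) (p (nat_lit 0x89) (nat_lit 0) (p (nat_lit 0x41) (nat_lit 0) (p (nat_lit 0x108090887069a) (nat_lit 0) (p (nat_lit 0x107870806861a) (nat_lit 0) (p (nat_lit 0x8000000000000070786058a) (nat_lit 0) (p (nat_lit 0x10787058502) (nat_lit 0) (p (nat_lit 0x10586850482) (nat_lit 0) (p (nat_lit 0x16000c) (nat_lit 0) (p (nat_lit 0x160004) (nat_lit 0) (p (nat_lit 0x68612) (nat_lit 0) (p (nat_lit 0x50592)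 (nat_lit 0) (p (nat_lit 0x40512) (nat_lit 0) (p (nat_lit 0x50312) (nat_lit 0) (p (nat_lit 0x38292) (nat_lit 0) (p (nat_lit 0x28212) (nat_lit 0) (p (nat_lit 0x38112) (nat_lit 0) (p (nat_lit 0x20092) (nat_lit 0) (p (nat_lit 0x10012) (nat_lit 0) pn))))))))))))))))))))))))))) :=
  Cl.node (nat_lit 0x81) (nat_lit 2) (by decide +kernel) (ClAll.succ (ClAll.succ ClAll.zero s44) n42)

def n79 : Cl (O (nat_lit 4)) (R (nat_lit 14353))
    (p (nat_lit 0xc9) (nat_lit 0) (p (nat_lit 0x380c2) (nat_lit 0) (p (nat_lit 0x444aa) (nat_lit 7) (p (nat_lit 0xc9) (nat_lit 1) (p (nat_lit 0xc1) (nat_lit 0) (p (nat_lit 0x81) (nat_lit 1) (p (nat_lit 0x101) (nat_lit 1) (p (nat_lit 0x119) (nat_lit 0) (p (nat_lit 0xd1) (nat_lit 0) (p (nat_lit 0x89) (nat_lit 0) (p (nat_lit 0x41) (nat_lit 0) (p (nat_lit 0x108090887069a) (nat_lit 0) (p (nat_lit 0x107870806861a) (nat_lit 0) (p (nat_lit 0x8000000000000070786058a)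 (nat_lit 0) (p (nat_lit 0x10787058502) (nat_lit 0) (p (nat_lit 0x10586850482) (nat_lit 0) (p (nat_lit 0x16000c) (nat_lit 0) (p (nat_lit 0x160004) (nat_lit 0) (p (nat_lit 0x68612) (nat_lit 0) (p (nat_lit 0x50592) (nat_lit 0) (p (nat_lit 0x40512) (nat_lit 0) (p (nat_lit 0x50312) (nat_lit 0) (p (nat_lit 0x38292) (nat_lit 0) (p (nat_lit 0x28212) (nat_lit 0) (p (nat_lit 0x38112) (nat_lit 0) (p (nat_lit 0x20092) (nat_lit 0) (p (nat_lit 0x10012) (nat_lit 0) pn))))))))))))))))))))))))))) :=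
  Cl.node (nat_lit 0xc1) (nat_lit 2) (by decide +kernel) (ClAll.succ (ClAll.succ ClAll.zero s74) s75)

def n80 : Cl (O (nat_lit 4)) (R (nat_lit 14353))
    (p (nat_lit 0x81) (nat_lit 1) (p (nat_lit 0x200014) (nat_lit 0) (p (nat_lit 0x380c2) (nat_lit 0) (p (nat_lit 0x3cc2a) (nat_lit 10) (p (nat_lit 0x109) (nat_lit 1) (p (nat_lit 0xc9) (nat_lit 1) (p (nat_lit 0xc1) (nat_lit 0) (p (nat_lit 0x119) (nat_lit 1) (p (nat_lit 0xd1) (nat_lit 0) (p (nat_lit 0x89) (nat_lit 0) (p (nat_lit 0x41) (nat_lit 0) (p (nat_lit 0x108090887069a) (nat_lit 0) (p (nat_lit 0x107870806861a) (nat_lit 0) (p (nat_lit 0x8000000000000070786058a) (nat_lit 0) (p (nat_lit 0x10787058502) (nat_lit 0) (p (nat_lit 0x10586850482) (nat_lit 0) (p (nat_lit 0x16000c) (nat_lit 0) (p (nat_lit 0x160004) (nat_lit 0) (p (nat_lit 0x68612) (nat_lit 0) (p (nat_lit 0x50592) (nat_lit 0) (p (nat_lit 0x40512) (nat_lit 0) (p (nat_lit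 0x50312) (nat_lit 0) (p (nat_lit 0x38292) (nat_lit 0) (p (nat_lit 0x28212) (nat_lit 0) (p (nat_lit 0x38112) (nat_lit 0) (p (nat_lit 0x20092) (nat_lit 0) (p (nat_lit 0x10012) (nat_lit 0) pn))))))))))))))))))))))))))) :=
  Cl.node (nat_lit 0x444aa) (nat_lit 12) (by decide +kernel) (ClAll.succ (ClAll.succ (ClAll.succ (ClAll.succ (ClAll.succ (ClAll.succ (ClAll.succ (ClAll.succ (ClAll.succ (ClAll.succ (ClAll.succ (ClAll.succ ClAll.zero s96) s97) s98) s99) s100) s101) s102) s103) s104) s105) s106) s107)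

def n81 : Cl (O (nat_lit 4)) (R (nat_lit 14353))
    (p (nat_lit 0x81) (nat_lit 1) (p (nat_lit 0x200014) (nat_lit 0) (p (nat_lit 0x380c2) (nat_lit 1) (p (nat_lit 0x3cc2a) (nat_lit 10) (p (nat_lit 0x109) (nat_lit 1) (p (nat_lit 0xc9) (nat_lit 1) (p (nat_lit 0xc1) (nat_lit 0) (p (nat_lit 0x119) (nat_lit 1) (p (nat_lit 0xd1) (nat_lit 0) (p (nat_lit 0x89) (nat_lit 0) (p (nat_lit 0x41) (nat_lit 0) (p (nat_lit 0x108090887069a) (nat_lit 0) (p (nat_lit 0x107870806861a) (nat_lit 0) (p (nat_lit 0x8000000000000070786058a) (nat_lit 0) (p (nat_lit 0x10787058502) (nat_lit 0) (p (nat_lit 0x10586850482) (nat_lit 0) (p (nat_lit 0x16000c) (nat_lit 0) (p (nat_lit 0x160004) (nat_lit 0) (p (nat_lit 0x68612) (nat_lit 0) (p (nat_lit 0x50592) (nat_lit 0) (p (nat_lit 0x40512) (nat_lit 0) (p (nat_lit 0x50312) (nat_lit 0) (p (nat_lit 0x38292) (nat_lit 0) (p (nat_lit 0x28212) (nat_lit 0) (p (nat_lit 0x38112)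 (nat_lit 0) (p (nat_lit 0x20092) (nat_lit 0) (p (nat_lit 0x10012) (nat_lit 0) pn))))))))))))))))))))))))))) :=
  Cl.node (nat_lit 0x444aa) (nat_lit 12) (by decide +kernel) (ClAll.succ (ClAll.succ (ClAll.succ (ClAll.succ (ClAll.succ (ClAll.succ (ClAll.succ (ClAll.succ (ClAll.succ (ClAll.succ (ClAll.succ (ClAll.succ ClAll.zero s110) s111) s112) s113) s114) s115) s116) s117) s118) s119) s120) s121)

def n82 : Cl (O (nat_lit 4)) (R (nat_lit 14353))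
    (p (nat_lit 0x119) (nat_lit 1) (p (nat_lit 0xd1) (nat_lit 0) (p (nat_lit 0x380c2) (nat_lit 0) (p (nat_lit 0x3cc2a) (nat_lit 10) (p (nat_lit 0x109) (nat_lit 1) (p (nat_lit 0x81) (nat_lit 0) (p (nat_lit 0xc1) (nat_lit 1) (p (nat_lit 0x119) (nat_lit 1) (p (nat_lit 0xd1) (nat_lit 0) (p (nat_lit 0x89) (nat_lit 0) (p (nat_lit 0x41) (nat_lit 0) (p (nat_lit 0x108090887069a) (nat_lit 0) (p (nat_lit 0x107870806861a) (nat_lit 0) (p (nat_lit 0x8000000000000070786058a) (nat_lit 0) (p (nat_lit 0x10787058502) (nat_lit 0) (p (nat_lit 0x10586850482) (nat_lit 0) (p (nat_lit 0x16000c) (nat_lit 0) (p (nat_lit 0x160004) (nat_lit 0) (p (nat_lit 0x68612) (nat_lit 0) (p (nat_lit 0x50592) (nat_lit 0) (p (nat_lit 0x40512) (nat_lit 0) (p (nat_lit 0x50312) (nat_lit 0) (p (nat_lit 0x38292) (nat_lit 0) (p (nat_lit 0x28212) (nat_lit 0) (p (nat_lit 0x38112) (nat_lit 0) (p (nat_lit 0x20092) (nat_lit 0)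 (p (nat_lit 0x10012) (nat_lit 0) pn))))))))))))))))))))))))))) :=
  Cl.node (nat_lit 0xb000c) (nat_lit 2) (by decide +kernel) (ClAll.succ (ClAll.succ ClAll.zero s136) s137)

def n83 : Cl (O (nat_lit 4)) (R (nat_lit 14353))
    (p (nat_lit 0x380c2) (nat_lit 0) (p (nat_lit 0x44c2a) (nat_lit 0) (p (nat_lit 0x111) (nat_lit 1) (p (nat_lit 0x109) (nat_lit 0) (p (nat_lit 0x101) (nat_lit 0) (p (nat_lit 0x81) (nat_lit 1) (p (nat_lit 0xc1) (nat_lit 1) (p (nat_lit 0x119) (nat_lit 1) (p (nat_lit 0xd1) (nat_lit 0) (p (nat_lit 0x89) (nat_lit 0) (p (nat_lit 0x41) (nat_lit 0) (p (nat_lit 0x108090887069a) (nat_lit 0) (p (nat_lit 0x107870806861a) (nat_lit 0) (p (nat_lit 0x8000000000000070786058a) (nat_lit 0) (p (nat_lit 0x10787058502) (nat_lit 0) (p (nat_lit 0x10586850482) (nat_lit 0) (p (nat_lit 0x16000c) (nat_lit 0) (p (nat_lit 0x160004) (nat_lit 0) (p (nat_lit 0x68612) (nat_lit 0) (p (nat_lit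 0x50592) (nat_lit 0) (p (nat_lit 0x40512) (nat_lit 0) (p (nat_lit 0x50312) (nat_lit 0) (p (nat_lit 0x38292) (nat_lit 0) (p (nat_lit 0x28212) (nat_lit 0) (p (nat_lit 0x38112) (nat_lit 0) (p (nat_lit 0x20092) (nat_lit 0) (p (nat_lit 0x10012) (nat_lit 0) pn))))))))))))))))))))))))))) :=
  Cl.node (nat_lit 0xb0004) (nat_lit 2) (by decide +kernel) (ClAll.succ (ClAll.succ ClAll.zero s154) s155)

def n84 : Cl (O (nat_lit 4)) (R (nat_lit 14353))
    (p (nat_lit 0x119) (nat_lit 0) (p (nat_lit 0x380c2) (nat_lit 0) (p (nat_lit 0x444aa) (nat_lit 7) (p (nat_lit 0x109) (nat_lit 1) (p (nat_lit 0x101) (nat_lit 0) (p (nat_lit 0x81) (nat_lit 1) (p (nat_lit 0xc1) (nat_lit 1) (p (nat_lit 0x119) (nat_lit 1) (p (nat_lit 0xd1) (nat_lit 0) (p (nat_lit 0x89) (nat_lit 0) (p (nat_lit 0x41) (nat_lit 0) (p (nat_lit 0x108090887069a) (nat_lit 0) (p (nat_lit 0x107870806861a) (nat_lit 0) (p (nat_lit 0x8000000000000070786058a)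 (nat_lit 0) (p (nat_lit 0x10787058502) (nat_lit 0) (p (nat_lit 0x10586850482) (nat_lit 0) (p (nat_lit 0x16000c) (nat_lit 0) (p (nat_lit 0x160004) (nat_lit 0) (p (nat_lit 0x68612) (nat_lit 0) (p (nat_lit 0x50592) (nat_lit 0) (p (nat_lit 0x40512) (nat_lit 0) (p (nat_lit 0x50312) (nat_lit 0) (p (nat_lit 0x38292) (nat_lit 0) (p (nat_lit 0x28212) (nat_lit 0) (p (nat_lit 0x38112) (nat_lit 0) (p (nat_lit 0x20092) (nat_lit 0) (p (nat_lit 0x10012) (nat_lit 0) pn))))))))))))))))))))))))))) :=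
  Cl.node (nat_lit 0x109) (nat_lit 2) (by decide +kernel) (ClAll.succ (ClAll.succ ClAll.zero s175) s176)

def n85 : Cl (O (nat_lit 4)) (R (nat_lit 14353))
    (p (nat_lit 0x119) (nat_lit 1) (p (nat_lit 0x380c2) (nat_lit 0) (p (nat_lit 0x444aa) (nat_lit 7) (p (nat_lit 0x109) (nat_lit 1) (p (nat_lit 0x101) (nat_lit 0) (p (nat_lit 0x81) (nat_lit 1) (p (nat_lit 0xc1) (nat_lit 1) (p (nat_lit 0x119) (nat_lit 1) (p (nat_lit 0xd1) (nat_lit 0) (p (nat_lit 0x89) (nat_lit 0) (p (nat_lit 0x41) (nat_lit 0) (p (nat_lit 0x108090887069a) (nat_lit 0) (p (nat_lit 0x107870806861a) (nat_lit 0) (p (nat_lit 0x8000000000000070786058a) (nat_lit 0) (p (nat_lit 0x10787058502) (nat_lit 0) (p (nat_lit 0x10586850482) (nat_lit 0) (p (nat_lit 0x16000c) (nat_lit 0) (p (nat_lit 0x160004) (nat_lit 0) (p (nat_lit 0x68612) (nat_lit 0) (p (nat_lit 0x50592) (nat_lit 0) (p (nat_lit 0x40512) (nat_lit 0) (p (nat_lit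 0x50312) (nat_lit 0) (p (nat_lit 0x38292) (nat_lit 0) (p (nat_lit 0x28212) (nat_lit 0) (p (nat_lit 0x38112) (nat_lit 0) (p (nat_lit 0x20092) (nat_lit 0) (p (nat_lit 0x10012) (nat_lit 0) pn))))))))))))))))))))))))))) :=
  Cl.node (nat_lit 0xb000c) (nat_lit 2) (by decide +kernel) (ClAll.succ (ClAll.succ ClAll.zero n43) s180)

def n86 : Cl (O (nat_lit 4)) (R (nat_lit 14353))
    (p (nat_lit 0x109) (nat_lit 0) (p (nat_lit 0x380c2) (nat_lit 1) (p (nat_lit 0x444aa) (nat_lit 7) (p (nat_lit 0x109) (nat_lit 1) (p (nat_lit 0x101) (nat_lit 0) (p (nat_lit 0x81) (nat_lit 1) (p (nat_lit 0xc1) (nat_lit 1) (p (nat_lit 0x119) (nat_lit 1) (p (nat_lit 0xd1) (nat_lit 0) (p (nat_lit 0x89) (nat_lit 0) (p (nat_lit 0x41) (nat_lit 0) (p (nat_lit 0x108090887069a) (nat_lit 0) (p (nat_lit 0x107870806861a) (nat_lit 0) (p (nat_lit 0x8000000000000070786058a) (nat_lit 0) (p (nat_lit 0x10787058502) (nat_lit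 0) (p (nat_lit 0x10586850482) (nat_lit 0) (p (nat_lit 0x16000c) (nat_lit 0) (p (nat_lit 0x160004) (nat_lit 0) (p (nat_lit 0x68612) (nat_lit 0) (p (nat_lit 0x50592) (nat_lit 0) (p (nat_lit 0x40512) (nat_lit 0) (p (nat_lit 0x50312) (nat_lit 0) (p (nat_lit 0x38292) (nat_lit 0) (p (nat_lit 0x28212) (nat_lit 0) (p (nat_lit 0x38112) (nat_lit 0) (p (nat_lit 0x20092) (nat_lit 0) (p (nat_lit 0x10012) (nat_lit 0) pn))))))))))))))))))))))))))) :=
  Cl.node (nat_lit 0x44c2a) (nat_lit 12) (by decide +kernel) (ClAll.succ (ClAll.succ (ClAll.succ (ClAll.succ (ClAll.succ (ClAll.succ (ClAll.succ (ClAll.succ (ClAll.succ (ClAll.succ (ClAll.succ (ClAll.succ ClAll.zero s181) s182) s183) s184) s185) s186) s187) s188) s189) s190) s191) s192)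

def n87 : Cl (O (nat_lit 4)) (R (nat_lit 14353))
    (p (nat_lit 0xb0004) (nat_lit 0) (p (nat_lit 0x380c2) (nat_lit 1) (p (nat_lit 0x444aa) (nat_lit 8) (p (nat_lit 0x109) (nat_lit 1) (p (nat_lit 0x101) (nat_lit 0) (p (nat_lit 0x81) (nat_lit 1) (p (nat_lit 0xc1) (nat_lit 1) (p (nat_lit 0x119) (nat_lit 1) (p (nat_lit 0xd1) (nat_lit 0) (p (nat_lit 0x89) (nat_lit 0) (p (nat_lit 0x41) (nat_lit 0) (p (nat_lit 0x108090887069a) (nat_lit 0) (p (nat_lit 0x107870806861a) (nat_lit 0) (p (nat_lit 0x8000000000000070786058a) (nat_lit 0) (p (nat_lit 0x10787058502) (nat_lit 0) (p (nat_lit 0x10586850482) (nat_lit 0) (p (nat_lit 0x16000c) (nat_lit 0) (p (nat_lit 0x160004) (nat_lit 0) (p (nat_lit 0x68612) (nat_lit 0) (p (nat_lit 0x50592) (nat_lit 0) (p (nat_lit 0x40512) (nat_lit 0) (p (nat_lit 0x50312) (nat_lit 0) (p (nat_lit 0x38292) (nat_lit 0) (p (nat_lit 0x28212) (nat_lit 0) (p (nat_lit 0x38112)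 (nat_lit 0) (p (nat_lit 0x20092) (nat_lit 0) (p (nat_lit 0x10012) (nat_lit 0) pn))))))))))))))))))))))))))) :=
  Cl.node (nat_lit 0xb000c) (nat_lit 2) (by decide +kernel) (ClAll.succ (ClAll.succ ClAll.zero n44) s197)

def n88 : Cl (O (nat_lit 4)) (R (nat_lit 14353))
    (p (nat_lit 0x380c2) (nat_lit 0) (p (nat_lit 0x3cc2a) (nat_lit 0) (p (nat_lit 0x41) (nat_lit 0) (p (nat_lit 0x200014) (nat_lit 0) (p (nat_lit 0xc1) (nat_lit 1) (p (nat_lit 0x109) (nat_lit 1) (p (nat_lit 0x101) (nat_lit 0) (p (nat_lit 0x111) (nat_lit 0) (p (nat_lit 0xd1) (nat_lit 1) (p (nat_lit 0x89) (nat_lit 0) (p (nat_lit 0x41) (nat_lit 0) (p (nat_lit 0x108090887069a) (nat_lit 0) (p (nat_lit 0x107870806861a) (nat_lit 0) (p (nat_lit 0x8000000000000070786058a) (nat_lit 0) (p (nat_lit 0x10787058502) (nat_lit 0) (p (nat_lit 0x10586850482) (nat_lit 0) (p (nat_lit 0x16000c) (nat_lit 0) (p (nat_lit 0x160004) (nat_lit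 0) (p (nat_lit 0x68612) (nat_lit 0) (p (nat_lit 0x50592) (nat_lit 0) (p (nat_lit 0x40512) (nat_lit 0) (p (nat_lit 0x50312) (nat_lit 0) (p (nat_lit 0x38292) (nat_lit 0) (p (nat_lit 0x28212) (nat_lit 0) (p (nat_lit 0x38112) (nat_lit 0) (p (nat_lit 0x20092) (nat_lit 0) (p (nat_lit 0x10012) (nat_lit 0) pn))))))))))))))))))))))))))) :=
  Cl.node (nat_lit 0xb000c) (nat_lit 2) (by decide +kernel) (ClAll.succ (ClAll.succ ClAll.zero n45) s231)

def n89 : Cl (O (nat_lit 4)) (R (nat_lit 14353))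
    (p (nat_lit 0x380c2) (nat_lit 0) (p (nat_lit 0x3cc2a) (nat_lit 0) (p (nat_lit 0x109) (nat_lit 1) (p (nat_lit 0x200014) (nat_lit 0) (p (nat_lit 0x119) (nat_lit 0) (p (nat_lit 0x81) (nat_lit 0) (p (nat_lit 0x101) (nat_lit 1) (p (nat_lit 0x111) (nat_lit 0) (p (nat_lit 0xd1) (nat_lit 1) (p (nat_lit 0x89) (nat_lit 0) (p (nat_lit 0x41) (nat_lit 0) (p (nat_lit 0x108090887069a) (nat_lit 0) (p (nat_lit 0x107870806861a) (nat_lit 0) (p (nat_lit 0x8000000000000070786058a) (nat_lit 0) (p (nat_lit 0x10787058502) (nat_lit 0) (p (nat_lit 0x10586850482) (nat_lit 0) (p (nat_lit 0x16000c) (nat_lit 0) (p (nat_lit 0x160004) (nat_lit 0) (p (nat_lit 0x68612) (nat_lit 0) (p (nat_lit 0x50592) (nat_lit 0) (p (nat_lit 0x40512) (nat_lit 0) (p (nat_lit 0x50312) (nat_lit 0) (p (nat_lit 0x38292) (nat_lit 0) (p (nat_lit 0x28212) (nat_lit 0) (p (nat_lit 0x38112) (nat_lit 0) (p (nat_lit 0x20092) (nat_lit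 0) (p (nat_lit 0x10012) (nat_lit 0) pn))))))))))))))))))))))))))) :=
  Cl.node (nat_lit 0xb000c) (nat_lit 2) (by decide +kernel) (ClAll.succ (ClAll.succ ClAll.zero s246) s247)

def n90 : Cl (O (nat_lit 4)) (R (nat_lit 14353))
    (p (nat_lit 0xc9) (nat_lit 0) (p (nat_lit 0x380c2) (nat_lit 0) (p (nat_lit 0x444aa) (nat_lit 7) (p (nat_lit 0x119) (nat_lit 0) (p (nat_lit 0xc1) (nat_lit 0) (p (nat_lit 0x81) (nat_lit 1) (p (nat_lit 0x101) (nat_lit 1) (p (nat_lit 0x111) (nat_lit 0) (p (nat_lit 0xd1) (nat_lit 1) (p (nat_lit 0x89) (nat_lit 0) (p (nat_lit 0x41) (nat_lit 0) (p (nat_lit 0x108090887069a) (nat_lit 0) (p (nat_lit 0x107870806861a) (nat_lit 0) (p (nat_lit 0x8000000000000070786058a) (nat_lit 0) (p (nat_lit 0x10787058502) (nat_lit 0) (p (nat_lit 0x10586850482) (nat_lit 0) (p (nat_lit 0x16000c) (nat_lit 0) (p (nat_lit 0x160004) (nat_lit 0) (p (nat_lit 0x68612) (nat_lit 0) (p (nat_lit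 0x50592) (nat_lit 0) (p (nat_lit 0x40512) (nat_lit 0) (p (nat_lit 0x50312) (nat_lit 0) (p (nat_lit 0x38292) (nat_lit 0) (p (nat_lit 0x28212) (nat_lit 0) (p (nat_lit 0x38112) (nat_lit 0) (p (nat_lit 0x20092) (nat_lit 0) (p (nat_lit 0x10012) (nat_lit 0) pn))))))))))))))))))))))))))) :=
  Cl.node (nat_lit 0xc1) (nat_lit 2) (by decide +kernel) (ClAll.succ (ClAll.succ ClAll.zero n46) s292)

def n91 : Cl (O (nat_lit 4)) (R (nat_lit 14353))
    (p (nat_lit 0x41) (nat_lit 1) (p (nat_lit 0xb0004) (nat_lit 0) (p (nat_lit 0x380c2) (nat_lit 0) (p (nat_lit 0x3cc2a) (nat_lit 0) (p (nat_lit 0x101) (nat_lit 0) (p (nat_lit 0xc1) (nat_lit 1) (p (nat_lit 0x81) (nat_lit 1) (p (nat_lit 0x111) (nat_lit 1) (p (nat_lit 0xd1) (nat_lit 1) (p (nat_lit 0x89) (nat_lit 0) (p (nat_lit 0x41) (nat_lit 0) (p (nat_lit 0x108090887069a) (nat_lit 0) (p (nat_lit 0x107870806861a) (nat_lit 0) (p (nat_lit 0x8000000000000070786058a)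 (nat_lit 0) (p (nat_lit 0x10787058502) (nat_lit 0) (p (nat_lit 0x10586850482) (nat_lit 0) (p (nat_lit 0x16000c) (nat_lit 0) (p (nat_lit 0x160004) (nat_lit 0) (p (nat_lit 0x68612) (nat_lit 0) (p (nat_lit 0x50592) (nat_lit 0) (p (nat_lit 0x40512) (nat_lit 0) (p (nat_lit 0x50312) (nat_lit 0) (p (nat_lit 0x38292) (nat_lit 0) (p (nat_lit 0x28212) (nat_lit 0) (p (nat_lit 0x38112) (nat_lit 0) (p (nat_lit 0x20092) (nat_lit 0) (p (nat_lit 0x10012) (nat_lit 0) pn))))))))))))))))))))))))))) :=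
  Cl.node (nat_lit 0x81) (nat_lit 2) (by decide +kernel) (ClAll.succ (ClAll.succ ClAll.zero s316) s317)

def n92 : Cl (O (nat_lit 4)) (R (nat_lit 14353))
    (p (nat_lit 0x380c2) (nat_lit 0) (p (nat_lit 0x44c2a) (nat_lit 0) (p (nat_lit 0x41) (nat_lit 0) (p (nat_lit 0x200014) (nat_lit 0) (p (nat_lit 0xd1) (nat_lit 0) (p (nat_lit 0x109) (nat_lit 1) (p (nat_lit 0x101) (nat_lit 0) (p (nat_lit 0x119) (nat_lit 0) (p (nat_lit 0xc9) (nat_lit 0) (p (nat_lit 0x89) (nat_lit 1) (p (nat_lit 0x41) (nat_lit 0) (p (nat_lit 0x108090887069a) (nat_lit 0) (p (nat_lit 0x107870806861a) (nat_lit 0) (p (nat_lit 0x8000000000000070786058a) (nat_lit 0) (p (nat_lit 0x10787058502) (nat_lit 0) (p (nat_lit 0x10586850482) (nat_lit 0) (p (nat_lit 0x16000c) (nat_lit 0) (p (nat_lit 0x160004) (nat_lit 0) (p (nat_lit 0x68612) (nat_lit 0) (p (nat_lit 0x50592) (nat_lit 0) (p (nat_lit 0x40512) (nat_lit 0) (p (nat_lit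 0x50312) (nat_lit 0) (p (nat_lit 0x38292) (nat_lit 0) (p (nat_lit 0x28212) (nat_lit 0) (p (nat_lit 0x38112) (nat_lit 0) (p (nat_lit 0x20092) (nat_lit 0) (p (nat_lit 0x10012) (nat_lit 0) pn))))))))))))))))))))))))))) :=
  Cl.node (nat_lit 0x100014) (nat_lit 2) (by decide +kernel) (ClAll.succ (ClAll.succ ClAll.zero s349) s350)

def n93 : Cl (O (nat_lit 4)) (R (nat_lit 14353))
    (p (nat_lit 0xc9) (nat_lit 0) (p (nat_lit 0xc1) (nat_lit 0) (p (nat_lit 0x380c2) (nat_lit 0) (p (nat_lit 0x444aa) (nat_lit 7) (p (nat_lit 0xd1) (nat_lit 1) (p (nat_lit 0x109) (nat_lit 1) (p (nat_lit 0x101) (nat_lit 0) (p (nat_lit 0x119) (nat_lit 0) (p (nat_lit 0xc9) (nat_lit 0) (p (nat_lit 0x89) (nat_lit 1) (p (nat_lit 0x41) (nat_lit 0) (p (nat_lit 0x108090887069a) (nat_lit 0) (p (nat_lit 0x107870806861a) (nat_lit 0) (p (nat_lit 0x8000000000000070786058a) (nat_lit 0) (p (nat_lit 0x10787058502) (nat_lit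 0) (p (nat_lit 0x10586850482) (nat_lit 0) (p (nat_lit 0x16000c) (nat_lit 0) (p (nat_lit 0x160004) (nat_lit 0) (p (nat_lit 0x68612) (nat_lit 0) (p (nat_lit 0x50592) (nat_lit 0) (p (nat_lit 0x40512) (nat_lit 0) (p (nat_lit 0x50312) (nat_lit 0) (p (nat_lit 0x38292) (nat_lit 0) (p (nat_lit 0x28212) (nat_lit 0) (p (nat_lit 0x38112) (nat_lit 0) (p (nat_lit 0x20092) (nat_lit 0) (p (nat_lit 0x10012) (nat_lit 0) pn))))))))))))))))))))))))))) :=
  Cl.node (nat_lit 0xb000c) (nat_lit 2) (by decide +kernel) (ClAll.succ (ClAll.succ ClAll.zero n47) s384)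

def n94 : Cl (O (nat_lit 4)) (R (nat_lit 14353))
    (p (nat_lit 0xc9) (nat_lit 0) (p (nat_lit 0xc1) (nat_lit 0) (p (nat_lit 0x380c2) (nat_lit 1) (p (nat_lit 0x444aa) (nat_lit 7) (p (nat_lit 0xd1) (nat_lit 1) (p (nat_lit 0x109) (nat_lit 1) (p (nat_lit 0x101) (nat_lit 0) (p (nat_lit 0x119) (nat_lit 0) (p (nat_lit 0xc9) (nat_lit 0) (p (nat_lit 0x89) (nat_lit 1) (p (nat_lit 0x41) (nat_lit 0) (p (nat_lit 0x108090887069a) (nat_lit 0) (p (nat_lit 0x107870806861a) (nat_lit 0) (p (nat_lit 0x8000000000000070786058a) (nat_lit 0) (p (nat_lit 0x10787058502) (nat_lit 0) (p (nat_lit 0x10586850482) (nat_lit 0) (p (nat_lit 0x16000c) (nat_lit 0) (p (nat_lit 0x160004) (nat_lit 0) (p (nat_lit 0x68612) (nat_lit 0) (p (nat_lit 0x50592) (nat_lit 0) (p (nat_lit 0x40512) (nat_lit 0) (p (nat_lit 0x50312) (nat_lit 0) (p (nat_lit 0x38292) (nat_lit 0) (p (nat_lit 0x28212) (nat_lit 0) (p (nat_lit 0x38112)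 (nat_lit 0) (p (nat_lit 0x20092) (nat_lit 0) (p (nat_lit 0x10012) (nat_lit 0) pn))))))))))))))))))))))))))) :=
  Cl.node (nat_lit 0xd1) (nat_lit 2) (by decide +kernel) (ClAll.succ (ClAll.succ ClAll.zero n48) s389)

def n95 : Cl (O (nat_lit 4)) (R (nat_lit 14353))
    (p (nat_lit 0x380c2) (nat_lit 0) (p (nat_lit 0x44c2a) (nat_lit 0) (p (nat_lit 0x109) (nat_lit 1) (p (nat_lit 0x200014) (nat_lit 0) (p (nat_lit 0xd1) (nat_lit 0) (p (nat_lit 0xc1) (nat_lit 0) (p (nat_lit 0x101) (nat_lit 1) (p (nat_lit 0x119) (nat_lit 0) (p (nat_lit 0xc9) (nat_lit 0) (p (nat_lit 0x89) (nat_lit 1) (p (nat_lit 0x41) (nat_lit 0) (p (nat_lit 0x108090887069a) (nat_lit 0) (p (nat_lit 0x107870806861a) (nat_lit 0) (p (nat_lit 0x8000000000000070786058a) (nat_lit 0) (p (nat_lit 0x10787058502) (nat_lit 0) (p (nat_lit 0x10586850482) (nat_lit 0) (p (nat_lit 0x16000c) (nat_lit 0) (p (nat_lit 0x160004) (nat_lit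 0) (p (nat_lit 0x68612) (nat_lit 0) (p (nat_lit 0x50592) (nat_lit 0) (p (nat_lit 0x40512) (nat_lit 0) (p (nat_lit 0x50312) (nat_lit 0) (p (nat_lit 0x38292) (nat_lit 0) (p (nat_lit 0x28212) (nat_lit 0) (p (nat_lit 0x38112) (nat_lit 0) (p (nat_lit 0x20092) (nat_lit 0) (p (nat_lit 0x10012) (nat_lit 0) pn))))))))))))))))))))))))))) :=
  Cl.node (nat_lit 0x100014) (nat_lit 2) (by decide +kernel) (ClAll.succ (ClAll.succ ClAll.zero s397) s398)

def n96 : Cl (O (nat_lit 4)) (R (nat_lit 14353))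
    (p (nat_lit 0x119) (nat_lit 1) (p (nat_lit 0xc9) (nat_lit 0) (p (nat_lit 0x380c2) (nat_lit 0) (p (nat_lit 0x444aa) (nat_lit 7) (p (nat_lit 0xd1) (nat_lit 1) (p (nat_lit 0xc1) (nat_lit 0) (p (nat_lit 0x101) (nat_lit 1) (p (nat_lit 0x119) (nat_lit 0) (p (nat_lit 0xc9) (nat_lit 0) (p (nat_lit 0x89) (nat_lit 1) (p (nat_lit 0x41) (nat_lit 0) (p (nat_lit 0x108090887069a) (nat_lit 0) (p (nat_lit 0x107870806861a) (nat_lit 0) (p (nat_lit 0x8000000000000070786058a) (nat_lit 0) (p (nat_lit 0x10787058502) (nat_lit 0) (p (nat_lit 0x10586850482) (nat_lit 0) (p (nat_lit 0x16000c) (nat_lit 0) (p (nat_lit 0x160004) (nat_lit 0) (p (nat_lit 0x68612) (nat_lit 0) (p (nat_lit 0x50592) (nat_lit 0) (p (nat_lit 0x40512) (nat_lit 0) (p (nat_lit 0x50312) (nat_lit 0) (p (nat_lit 0x38292) (nat_lit 0) (p (nat_lit 0x28212) (nat_lit 0) (p (nat_lit 0x38112) (nat_lit 0) (p (nat_lit 0x20092) (nat_lit 0) (p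 (nat_lit 0x10012) (nat_lit 0) pn))))))))))))))))))))))))))) :=
  Cl.node (nat_lit 0xd1) (nat_lit 2) (by decide +kernel) (ClAll.succ (ClAll.succ ClAll.zero n49) s432)

def n97 : Cl (O (nat_lit 4)) (R (nat_lit 14353))
    (p (nat_lit 0x119) (nat_lit 1) (p (nat_lit 0xc9) (nat_lit 0) (p (nat_lit 0x380c2) (nat_lit 1) (p (nat_lit 0x444aa) (nat_lit 7) (p (nat_lit 0xd1) (nat_lit 1) (p (nat_lit 0xc1) (nat_lit 0) (p (nat_lit 0x101) (nat_lit 1) (p (nat_lit 0x119) (nat_lit 0) (p (nat_lit 0xc9) (nat_lit 0) (p (nat_lit 0x89) (nat_lit 1) (p (nat_lit 0x41) (nat_lit 0) (p (nat_lit 0x108090887069a) (nat_lit 0) (p (nat_lit 0x107870806861a) (nat_lit 0) (p (nat_lit 0x8000000000000070786058a) (nat_lit 0) (p (nat_lit 0x10787058502) (nat_lit 0) (p (nat_lit 0x10586850482) (nat_lit 0) (p (nat_lit 0x16000c) (nat_lit 0) (p (nat_lit 0x160004) (nat_lit 0) (p (nat_lit 0x68612) (nat_lit 0) (p (nat_lit 0x50592)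 (nat_lit 0) (p (nat_lit 0x40512) (nat_lit 0) (p (nat_lit 0x50312) (nat_lit 0) (p (nat_lit 0x38292) (nat_lit 0) (p (nat_lit 0x28212) (nat_lit 0) (p (nat_lit 0x38112) (nat_lit 0) (p (nat_lit 0x20092) (nat_lit 0) (p (nat_lit 0x10012) (nat_lit 0) pn))))))))))))))))))))))))))) :=
  Cl.node (nat_lit 0xd1) (nat_lit 2) (by decide +kernel) (ClAll.succ (ClAll.succ ClAll.zero s435) s436)

def n98 : Cl (O (nat_lit 4)) (R (nat_lit 14353))
    (p (nat_lit 0xb000c) (nat_lit 0) (p (nat_lit 0x109) (nat_lit 0) (p (nat_lit 0x380c2) (nat_lit 0) (p (nat_lit 0x444aa) (nat_lit 7) (p (nat_lit 0x111) (nat_lit 1) (p (nat_lit 0xd1) (nat_lit 1) (p (nat_lit 0xc1) (nat_lit 0) (p (nat_lit 0x119) (nat_lit 1) (p (nat_lit 0xc9) (nat_lit 0) (p (nat_lit 0x89) (nat_lit 1) (p (nat_lit 0x41) (nat_lit 0) (p (nat_lit 0x108090887069a) (nat_lit 0) (p (nat_lit 0x107870806861a) (nat_lit 0) (p (nat_lit 0x8000000000000070786058a)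 (nat_lit 0) (p (nat_lit 0x10787058502) (nat_lit 0) (p (nat_lit 0x10586850482) (nat_lit 0) (p (nat_lit 0x16000c) (nat_lit 0) (p (nat_lit 0x160004) (nat_lit 0) (p (nat_lit 0x68612) (nat_lit 0) (p (nat_lit 0x50592) (nat_lit 0) (p (nat_lit 0x40512) (nat_lit 0) (p (nat_lit 0x50312) (nat_lit 0) (p (nat_lit 0x38292) (nat_lit 0) (p (nat_lit 0x28212) (nat_lit 0) (p (nat_lit 0x38112) (nat_lit 0) (p (nat_lit 0x20092) (nat_lit 0) (p (nat_lit 0x10012) (nat_lit 0) pn))))))))))))))))))))))))))) :=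
  Cl.node (nat_lit 0x111) (nat_lit 2) (by decide +kernel) (ClAll.succ (ClAll.succ ClAll.zero s452) n50)

def n99 : Cl (O (nat_lit 4)) (R (nat_lit 14353))
    (p (nat_lit 0xb0004) (nat_lit 0) (p (nat_lit 0x109) (nat_lit 0) (p (nat_lit 0x380c2) (nat_lit 1) (p (nat_lit 0x444aa) (nat_lit 7) (p (nat_lit 0x111) (nat_lit 1) (p (nat_lit 0xd1) (nat_lit 1) (p (nat_lit 0xc1) (nat_lit 0) (p (nat_lit 0x119) (nat_lit 1) (p (nat_lit 0xc9) (nat_lit 0) (p (nat_lit 0x89) (nat_lit 1) (p (nat_lit 0x41) (nat_lit 0) (p (nat_lit 0x108090887069a) (nat_lit 0) (p (nat_lit 0x107870806861a) (nat_lit 0) (p (nat_lit 0x8000000000000070786058a) (nat_lit 0) (p (nat_lit 0x10787058502) (nat_lit 0) (p (nat_lit 0x10586850482) (nat_lit 0) (p (nat_lit 0x16000c) (nat_lit 0) (p (nat_lit 0x160004) (nat_lit 0) (p (nat_lit 0x68612) (nat_lit 0) (p (nat_lit 0x50592) (nat_lit 0) (p (nat_lit 0x40512) (nat_lit 0) (p (nat_lit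 0x50312) (nat_lit 0) (p (nat_lit 0x38292) (nat_lit 0) (p (nat_lit 0x28212) (nat_lit 0) (p (nat_lit 0x38112) (nat_lit 0) (p (nat_lit 0x20092) (nat_lit 0) (p (nat_lit 0x10012) (nat_lit 0) pn))))))))))))))))))))))))))) :=
  Cl.node (nat_lit 0x111) (nat_lit 2) (by decide +kernel) (ClAll.succ (ClAll.succ ClAll.zero n51) n52)

def n100 : Cl (O (nat_lit 4)) (R (nat_lit 14353))
    (p (nat_lit 0xb0004) (nat_lit 0) (p (nat_lit 0x200014) (nat_lit 1) (p (nat_lit 0x380c2) (nat_lit 1) (p (nat_lit 0x444aa) (nat_lit 8) (p (nat_lit 0x111) (nat_lit 1) (p (nat_lit 0xd1) (nat_lit 1) (p (nat_lit 0xc1) (nat_lit 0) (p (nat_lit 0x119) (nat_lit 1) (p (nat_lit 0xc9) (nat_lit 0) (p (nat_lit 0x89) (nat_lit 1) (p (nat_lit 0x41) (nat_lit 0) (p (nat_lit 0x108090887069a) (nat_lit 0) (p (nat_lit 0x107870806861a) (nat_lit 0) (p (nat_lit 0x8000000000000070786058a) (nat_lit 0) (p (nat_lit 0x10787058502) (nat_lit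 0) (p (nat_lit 0x10586850482) (nat_lit 0) (p (nat_lit 0x16000c) (nat_lit 0) (p (nat_lit 0x160004) (nat_lit 0) (p (nat_lit 0x68612) (nat_lit 0) (p (nat_lit 0x50592) (nat_lit 0) (p (nat_lit 0x40512) (nat_lit 0) (p (nat_lit 0x50312) (nat_lit 0) (p (nat_lit 0x38292) (nat_lit 0) (p (nat_lit 0x28212) (nat_lit 0) (p (nat_lit 0x38112) (nat_lit 0) (p (nat_lit 0x20092) (nat_lit 0) (p (nat_lit 0x10012) (nat_lit 0) pn))))))))))))))))))))))))))) :=
  Cl.node (nat_lit 0xb000c) (nat_lit 2) (by decide +kernel) (ClAll.succ (ClAll.succ ClAll.zero n53) s473)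

def n101 : Cl (O (nat_lit 4)) (R (nat_lit 14353))
    (p (nat_lit 0x119) (nat_lit 0) (p (nat_lit 0x109) (nat_lit 0) (p (nat_lit 0x380c2) (nat_lit 0) (p (nat_lit 0x444aa) (nat_lit 7) (p (nat_lit 0x111) (nat_lit 1) (p (nat_lit 0x101) (nat_lit 0) (p (nat_lit 0xc1) (nat_lit 1) (p (nat_lit 0x119) (nat_lit 1) (p (nat_lit 0xc9) (nat_lit 0) (p (nat_lit 0x89) (nat_lit 1) (p (nat_lit 0x41) (nat_lit 0) (p (nat_lit 0x108090887069a) (nat_lit 0) (p (nat_lit 0x107870806861a) (nat_lit 0) (p (nat_lit 0x8000000000000070786058a) (nat_lit 0) (p (nat_lit 0x10787058502) (nat_lit 0) (p (nat_lit 0x10586850482) (nat_lit 0) (p (nat_lit 0x16000c) (nat_lit 0) (p (nat_lit 0x160004) (nat_lit 0) (p (nat_lit 0x68612) (nat_lit 0) (p (nat_lit 0x50592) (nat_lit 0) (p (nat_lit 0x40512) (nat_lit 0) (p (nat_lit 0x50312) (nat_lit 0) (p (nat_lit 0x38292) (nat_lit 0) (p (nat_lit 0x28212) (nat_lit 0) (p (nat_lit 0x38112)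 (nat_lit 0) (p (nat_lit 0x20092) (nat_lit 0) (p (nat_lit 0x10012) (nat_lit 0) pn))))))))))))))))))))))))))) :=
  Cl.node (nat_lit 0x3cc2a) (nat_lit 12) (by decide +kernel) (ClAll.succ (ClAll.succ (ClAll.succ (ClAll.succ (ClAll.succ (ClAll.succ (ClAll.succ (ClAll.succ (ClAll.succ (ClAll.succ (ClAll.succ (ClAll.succ ClAll.zero s497) s498) s499) s500) s501) s502) s503) s504) s505) s506) s507) s508)

def n102 : Cl (O (nat_lit 4)) (R (nat_lit 14353))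
    (p (nat_lit 0x101) (nat_lit 0) (p (nat_lit 0xc9) (nat_lit 1) (p (nat_lit 0x380c2) (nat_lit 1) (p (nat_lit 0x3c4aa) (nat_lit 7) (p (nat_lit 0x89) (nat_lit 1) (p (nat_lit 0xc1) (nat_lit 1) (p (nat_lit 0x101) (nat_lit 1) (p (nat_lit 0x119) (nat_lit 0) (p (nat_lit 0xd1) (nat_lit 0) (p (nat_lit 0x81) (nat_lit 0) (p (nat_lit 0x41) (nat_lit 1) (p (nat_lit 0x108090887069a) (nat_lit 0) (p (nat_lit 0x107870806861a) (nat_lit 0) (p (nat_lit 0x8000000000000070786058a) (nat_lit 0) (p (nat_lit 0x10787058502) (nat_lit 0) (p (nat_lit 0x10586850482) (nat_lit 0) (p (nat_lit 0x16000c) (nat_lit 0) (p (nat_lit 0x160004) (nat_lit 0) (p (nat_lit 0x68612) (nat_lit 0) (p (nat_lit 0x50592) (nat_lit 0) (p (nat_lit 0x40512) (nat_lit 0) (p (nat_lit 0x50312) (nat_lit 0) (p (nat_lit 0x38292) (nat_lit 0) (p (nat_lit 0x28212) (nat_lit 0) (p (nat_lit 0x38112) (nat_lit 0) (p (nat_lit 0x20092) (nat_lit 0) (p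 (nat_lit 0x10012) (nat_lit 0) pn))))))))))))))))))))))))))) :=
  Cl.node (nat_lit 0x109) (nat_lit 2) (by decide +kernel) (ClAll.succ (ClAll.succ ClAll.zero n54) s623)

def n103 : Cl (O (nat_lit 4)) (R (nat_lit 14353))
    (p (nat_lit 0xb000c) (nat_lit 0) (p (nat_lit 0x380c2) (nat_lit 1) (p (nat_lit 0x3c4aa) (nat_lit 7) (p (nat_lit 0x109) (nat_lit 1) (p (nat_lit 0x89) (nat_lit 1) (p (nat_lit 0xc9) (nat_lit 1) (p (nat_lit 0xc1) (nat_lit 0) (p (nat_lit 0x119) (nat_lit 1) (p (nat_lit 0xd1) (nat_lit 0) (p (nat_lit 0x81) (nat_lit 0) (p (nat_lit 0x41) (nat_lit 1) (p (nat_lit 0x108090887069a) (nat_lit 0) (p (nat_lit 0x107870806861a) (nat_lit 0) (p (nat_lit 0x8000000000000070786058a) (nat_lit 0) (p (nat_lit 0x10787058502) (nat_lit 0) (p (nat_lit 0x10586850482) (nat_lit 0) (p (nat_lit 0x16000c) (nat_lit 0) (p (nat_lit 0x160004) (nat_lit 0) (p (nat_lit 0x68612) (nat_lit 0) (p (nat_lit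 0x50592) (nat_lit 0) (p (nat_lit 0x40512) (nat_lit 0) (p (nat_lit 0x50312) (nat_lit 0) (p (nat_lit 0x38292) (nat_lit 0) (p (nat_lit 0x28212) (nat_lit 0) (p (nat_lit 0x38112) (nat_lit 0) (p (nat_lit 0x20092) (nat_lit 0) (p (nat_lit 0x10012) (nat_lit 0) pn))))))))))))))))))))))))))) :=
  Cl.node (nat_lit 0x41) (nat_lit 2) (by decide +kernel) (ClAll.succ (ClAll.succ ClAll.zero s655) s656)

def n104 : Cl (O (nat_lit 4)) (R (nat_lit 14353))
    (p (nat_lit 0x200014) (nat_lit 0) (p (nat_lit 0x380c2) (nat_lit 1) (p (nat_lit 0x3c4aa) (nat_lit 10) (p (nat_lit 0x109) (nat_lit 1) (p (nat_lit 0x89) (nat_lit 1) (p (nat_lit 0xc9) (nat_lit 1) (p (nat_lit 0xc1) (nat_lit 0) (p (nat_lit 0x119) (nat_lit 1) (p (nat_lit 0xd1) (nat_lit 0) (p (nat_lit 0x81) (nat_lit 0) (p (nat_lit 0x41) (nat_lit 1) (p (nat_lit 0x108090887069a) (nat_lit 0) (p (nat_lit 0x107870806861a) (nat_lit 0) (p (nat_lit 0x8000000000000070786058a)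 (nat_lit 0) (p (nat_lit 0x10787058502) (nat_lit 0) (p (nat_lit 0x10586850482) (nat_lit 0) (p (nat_lit 0x16000c) (nat_lit 0) (p (nat_lit 0x160004) (nat_lit 0) (p (nat_lit 0x68612) (nat_lit 0) (p (nat_lit 0x50592) (nat_lit 0) (p (nat_lit 0x40512) (nat_lit 0) (p (nat_lit 0x50312) (nat_lit 0) (p (nat_lit 0x38292) (nat_lit 0) (p (nat_lit 0x28212) (nat_lit 0) (p (nat_lit 0x38112) (nat_lit 0) (p (nat_lit 0x20092) (nat_lit 0) (p (nat_lit 0x10012) (nat_lit 0) pn))))))))))))))))))))))))))) :=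
  Cl.node (nat_lit 0x100014) (nat_lit 2) (by decide +kernel) (ClAll.succ (ClAll.succ ClAll.zero n55) s663)

def n105 : Cl (O (nat_lit 4)) (R (nat_lit 14353))
    (p (nat_lit 0xb000c) (nat_lit 0) (p (nat_lit 0x380c2) (nat_lit 0) (p (nat_lit 0x3c4aa) (nat_lit 7) (p (nat_lit 0x109) (nat_lit 1) (p (nat_lit 0x89) (nat_lit 1) (p (nat_lit 0x101) (nat_lit 0) (p (nat_lit 0xc1) (nat_lit 1) (p (nat_lit 0x119) (nat_lit 1) (p (nat_lit 0xd1) (nat_lit 0) (p (nat_lit 0x81) (nat_lit 0) (p (nat_lit 0x41) (nat_lit 1) (p (nat_lit 0x108090887069a) (nat_lit 0) (p (nat_lit 0x107870806861a) (nat_lit 0) (p (nat_lit 0x8000000000000070786058a) (nat_lit 0) (p (nat_lit 0x10787058502) (nat_lit 0) (p (nat_lit 0x10586850482) (nat_lit 0) (p (nat_lit 0x16000c) (nat_lit 0) (p (nat_lit 0x160004) (nat_lit 0) (p (nat_lit 0x68612) (nat_lit 0) (p (nat_lit 0x50592) (nat_lit 0) (p (nat_lit 0x40512) (nat_lit 0) (p (nat_lit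 0x50312) (nat_lit 0) (p (nat_lit 0x38292) (nat_lit 0) (p (nat_lit 0x28212) (nat_lit 0) (p (nat_lit 0x38112) (nat_lit 0) (p (nat_lit 0x20092) (nat_lit 0) (p (nat_lit 0x10012) (nat_lit 0) pn))))))))))))))))))))))))))) :=
  Cl.node (nat_lit 0x81) (nat_lit 2) (by decide +kernel) (ClAll.succ (ClAll.succ ClAll.zero s688) n56)

def n106 : Cl (O (nat_lit 4)) (R (nat_lit 14353))
    (p (nat_lit 0xb000c) (nat_lit 0) (p (nat_lit 0x380c2) (nat_lit 1) (p (nat_lit 0x3c4aa) (nat_lit 7) (p (nat_lit 0x109) (nat_lit 1) (p (nat_lit 0x89) (nat_lit 1) (p (nat_lit 0x101) (nat_lit 0) (p (nat_lit 0xc1) (nat_lit 1) (p (nat_lit 0x119) (nat_lit 1) (p (nat_lit 0xd1) (nat_lit 0) (p (nat_lit 0x81) (nat_lit 0) (p (nat_lit 0x41) (nat_lit 1) (p (nat_lit 0x108090887069a) (nat_lit 0) (p (nat_lit 0x107870806861a) (nat_lit 0) (p (nat_lit 0x8000000000000070786058a) (nat_lit 0) (p (nat_lit 0x10787058502) (nat_lit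 0) (p (nat_lit 0x10586850482) (nat_lit 0) (p (nat_lit 0x16000c) (nat_lit 0) (p (nat_lit 0x160004) (nat_lit 0) (p (nat_lit 0x68612) (nat_lit 0) (p (nat_lit 0x50592) (nat_lit 0) (p (nat_lit 0x40512) (nat_lit 0) (p (nat_lit 0x50312) (nat_lit 0) (p (nat_lit 0x38292) (nat_lit 0) (p (nat_lit 0x28212) (nat_lit 0) (p (nat_lit 0x38112) (nat_lit 0) (p (nat_lit 0x20092) (nat_lit 0) (p (nat_lit 0x10012) (nat_lit 0) pn))))))))))))))))))))))))))) :=
  Cl.node (nat_lit 0x41) (nat_lit 2) (by decide +kernel) (ClAll.succ (ClAll.succ ClAll.zero n57) n58)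

def n107 : Cl (O (nat_lit 4)) (R (nat_lit 14353))
    (p (nat_lit 0xb000c) (nat_lit 1) (p (nat_lit 0x380c2) (nat_lit 1) (p (nat_lit 0x3c4aa) (nat_lit 7) (p (nat_lit 0x109) (nat_lit 1) (p (nat_lit 0x89) (nat_lit 1) (p (nat_lit 0x101) (nat_lit 0) (p (nat_lit 0xc1) (nat_lit 1) (p (nat_lit 0x119) (nat_lit 1) (p (nat_lit 0xd1) (nat_lit 0) (p (nat_lit 0x81) (nat_lit 0) (p (nat_lit 0x41) (nat_lit 1) (p (nat_lit 0x108090887069a) (nat_lit 0) (p (nat_lit 0x107870806861a) (nat_lit 0) (p (nat_lit 0x8000000000000070786058a) (nat_lit 0) (p (nat_lit 0x10787058502) (nat_lit 0) (p (nat_lit 0x10586850482) (nat_lit 0) (p (nat_lit 0x16000c) (nat_lit 0) (p (nat_lit 0x160004) (nat_lit 0) (p (nat_lit 0x68612) (nat_lit 0) (p (nat_lit 0x50592) (nat_lit 0) (p (nat_lit 0x40512) (nat_lit 0) (p (nat_lit 0x50312) (nat_lit 0) (p (nat_lit 0x38292) (nat_lit 0) (p (nat_lit 0x28212) (nat_lit 0) (p (nat_lit 0x38112)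 (nat_lit 0) (p (nat_lit 0x20092) (nat_lit 0) (p (nat_lit 0x10012) (nat_lit 0) pn))))))))))))))))))))))))))) :=
  Cl.node (nat_lit 0xb0004) (nat_lit 2) (by decide +kernel) (ClAll.succ (ClAll.succ ClAll.zero n59) s712)

def n108 : Cl (O (nat_lit 4)) (R (nat_lit 14353))
    (p (nat_lit 0x200014) (nat_lit 0) (p (nat_lit 0x380c2) (nat_lit 1) (p (nat_lit 0x3c4aa) (nat_lit 10) (p (nat_lit 0x109) (nat_lit 1) (p (nat_lit 0x89) (nat_lit 1) (p (nat_lit 0x101) (nat_lit 0) (p (nat_lit 0xc1) (nat_lit 1) (p (nat_lit 0x119) (nat_lit 1) (p (nat_lit 0xd1) (nat_lit 0) (p (nat_lit 0x81) (nat_lit 0) (p (nat_lit 0x41) (nat_lit 1) (p (nat_lit 0x108090887069a) (nat_lit 0) (p (nat_lit 0x107870806861a) (nat_lit 0) (p (nat_lit 0x8000000000000070786058a) (nat_lit 0) (p (nat_lit 0x10787058502) (nat_lit 0) (p (nat_lit 0x10586850482) (nat_lit 0) (p (nat_lit 0x16000c) (nat_lit 0) (p (nat_lit 0x160004) (nat_lit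 0) (p (nat_lit 0x68612) (nat_lit 0) (p (nat_lit 0x50592) (nat_lit 0) (p (nat_lit 0x40512) (nat_lit 0) (p (nat_lit 0x50312) (nat_lit 0) (p (nat_lit 0x38292) (nat_lit 0) (p (nat_lit 0x28212) (nat_lit 0) (p (nat_lit 0x38112) (nat_lit 0) (p (nat_lit 0x20092) (nat_lit 0) (p (nat_lit 0x10012) (nat_lit 0) pn))))))))))))))))))))))))))) :=
  Cl.node (nat_lit 0x100014) (nat_lit 2) (by decide +kernel) (ClAll.succ (ClAll.succ ClAll.zero n60) s720)

def n109 : Cl (O (nat_lit 4)) (R (nat_lit 14353))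
    (p (nat_lit 0x101) (nat_lit 0) (p (nat_lit 0x81) (nat_lit 0) (p (nat_lit 0x380c2) (nat_lit 0) (p (nat_lit 0x3c4aa) (nat_lit 7) (p (nat_lit 0x89) (nat_lit 1) (p (nat_lit 0x101) (nat_lit 1) (p (nat_lit 0xc1) (nat_lit 1) (p (nat_lit 0x119) (nat_lit 1) (p (nat_lit 0xd1) (nat_lit 0) (p (nat_lit 0x81) (nat_lit 0) (p (nat_lit 0x41) (nat_lit 1) (p (nat_lit 0x108090887069a) (nat_lit 0) (p (nat_lit 0x107870806861a) (nat_lit 0) (p (nat_lit 0x8000000000000070786058a) (nat_lit 0) (p (nat_lit 0x10787058502) (nat_lit 0) (p (nat_lit 0x10586850482) (nat_lit 0) (p (nat_lit 0x16000c) (nat_lit 0) (p (nat_lit 0x160004) (nat_lit 0) (p (nat_lit 0x68612) (nat_lit 0) (p (nat_lit 0x50592) (nat_lit 0) (p (nat_lit 0x40512) (nat_lit 0) (p (nat_lit 0x50312) (nat_lit 0) (p (nat_lit 0x38292) (nat_lit 0) (p (nat_lit 0x28212) (nat_lit 0) (p (nat_lit 0x38112) (nat_lit 0) (p (nat_lit 0x20092) (nat_lit 0) (p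 (nat_lit 0x10012) (nat_lit 0) pn))))))))))))))))))))))))))) :=
  Cl.node (nat_lit 0xb000c) (nat_lit 2) (by decide +kernel) (ClAll.succ (ClAll.succ ClAll.zero s731) s732)

def n110 : Cl (O (nat_lit 4)) (R (nat_lit 14353))
    (p (nat_lit 0xc1) (nat_lit 0) (p (nat_lit 0x81) (nat_lit 1) (p (nat_lit 0x380c2) (nat_lit 0) (p (nat_lit 0x3c4aa) (nat_lit 7) (p (nat_lit 0x89) (nat_lit 1) (p (nat_lit 0x101) (nat_lit 1) (p (nat_lit 0xc1) (nat_lit 1) (p (nat_lit 0x119) (nat_lit 1) (p (nat_lit 0xd1) (nat_lit 0) (p (nat_lit 0x81) (nat_lit 0) (p (nat_lit 0x41) (nat_lit 1) (p (nat_lit 0x108090887069a) (nat_lit 0) (p (nat_lit 0x107870806861a) (nat_lit 0) (p (nat_lit 0x8000000000000070786058a) (nat_lit 0) (p (nat_lit 0x10787058502) (nat_lit 0) (p (nat_lit 0x10586850482) (nat_lit 0) (p (nat_lit 0x16000c) (nat_lit 0) (p (nat_lit 0x160004) (nat_lit 0) (p (nat_lit 0x68612) (nat_lit 0) (p (nat_lit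 0x50592) (nat_lit 0) (p (nat_lit 0x40512) (nat_lit 0) (p (nat_lit 0x50312) (nat_lit 0) (p (nat_lit 0x38292) (nat_lit 0) (p (nat_lit 0x28212) (nat_lit 0) (p (nat_lit 0x38112) (nat_lit 0) (p (nat_lit 0x20092) (nat_lit 0) (p (nat_lit 0x10012) (nat_lit 0) pn))))))))))))))))))))))))))) :=
  Cl.node (nat_lit 0x111) (nat_lit 2) (by decide +kernel) (ClAll.succ (ClAll.succ ClAll.zero n61) s736)

def n111 : Cl (O (nat_lit 4)) (R (nat_lit 14353))
    (p (nat_lit 0xb000c) (nat_lit 0) (p (nat_lit 0x109) (nat_lit 0) (p (nat_lit 0x380c2) (nat_lit 1) (p (nat_lit 0x3c4aa) (nat_lit 7) (p (nat_lit 0x89) (nat_lit 1) (p (nat_lit 0x101) (nat_lit 1) (p (nat_lit 0xc1) (nat_lit 1) (p (nat_lit 0x119) (nat_lit 1) (p (nat_lit 0xd1) (nat_lit 0) (p (nat_lit 0x81) (nat_lit 0) (p (nat_lit 0x41) (nat_lit 1) (p (nat_lit 0x108090887069a) (nat_lit 0) (p (nat_lit 0x107870806861a) (nat_lit 0) (p (nat_lit 0x8000000000000070786058a)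 (nat_lit 0) (p (nat_lit 0x10787058502) (nat_lit 0) (p (nat_lit 0x10586850482) (nat_lit 0) (p (nat_lit 0x16000c) (nat_lit 0) (p (nat_lit 0x160004) (nat_lit 0) (p (nat_lit 0x68612) (nat_lit 0) (p (nat_lit 0x50592) (nat_lit 0) (p (nat_lit 0x40512) (nat_lit 0) (p (nat_lit 0x50312) (nat_lit 0) (p (nat_lit 0x38292) (nat_lit 0) (p (nat_lit 0x28212) (nat_lit 0) (p (nat_lit 0x38112) (nat_lit 0) (p (nat_lit 0x20092) (nat_lit 0) (p (nat_lit 0x10012) (nat_lit 0) pn))))))))))))))))))))))))))) :=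
  Cl.node (nat_lit 0x3cc2a) (nat_lit 12) (by decide +kernel) (ClAll.succ (ClAll.succ (ClAll.succ (ClAll.succ (ClAll.succ (ClAll.succ (ClAll.succ (ClAll.succ (ClAll.succ (ClAll.succ (ClAll.succ (ClAll.succ ClAll.zero n62) s741) s742) s743) s744) s745) s746) s747) s748) s749) s750) s751)

def n112 : Cl (O (nat_lit 4)) (R (nat_lit 14353))
    (p (nat_lit 0xb000c) (nat_lit 0) (p (nat_lit 0x109) (nat_lit 1) (p (nat_lit 0x380c2) (nat_lit 1) (p (nat_lit 0x3c4aa) (nat_lit 7) (p (nat_lit 0x89) (nat_lit 1) (p (nat_lit 0x101) (nat_lit 1) (p (nat_lit 0xc1) (nat_lit 1) (p (nat_lit 0x119) (nat_lit 1) (p (nat_lit 0xd1) (nat_lit 0) (p (nat_lit 0x81) (nat_lit 0) (p (nat_lit 0x41) (nat_lit 1) (p (nat_lit 0x108090887069a) (nat_lit 0) (p (nat_lit 0x107870806861a) (nat_lit 0) (p (nat_lit 0x8000000000000070786058a) (nat_lit 0) (p (nat_lit 0x10787058502) (nat_lit 0) (p (nat_lit 0x10586850482) (nat_lit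 0) (p (nat_lit 0x16000c) (nat_lit 0) (p (nat_lit 0x160004) (nat_lit 0) (p (nat_lit 0x68612) (nat_lit 0) (p (nat_lit 0x50592) (nat_lit 0) (p (nat_lit 0x40512) (nat_lit 0) (p (nat_lit 0x50312) (nat_lit 0) (p (nat_lit 0x38292) (nat_lit 0) (p (nat_lit 0x28212) (nat_lit 0) (p (nat_lit 0x38112) (nat_lit 0) (p (nat_lit 0x20092) (nat_lit 0) (p (nat_lit 0x10012) (nat_lit 0) pn))))))))))))))))))))))))))) :=
  Cl.node (nat_lit 0xc1) (nat_lit 2) (by decide +kernel) (ClAll.succ (ClAll.succ ClAll.zero n63) s757)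

def n113 : Cl (O (nat_lit 4)) (R (nat_lit 14353))
    (p (nat_lit 0xb0004) (nat_lit 0) (p (nat_lit 0xb000c) (nat_lit 0) (p (nat_lit 0x380c2) (nat_lit 1) (p (nat_lit 0x3c4aa) (nat_lit 10) (p (nat_lit 0x89) (nat_lit 1) (p (nat_lit 0x101) (nat_lit 1) (p (nat_lit 0xc1) (nat_lit 1) (p (nat_lit 0x119) (nat_lit 1) (p (nat_lit 0xd1) (nat_lit 0) (p (nat_lit 0x81) (nat_lit 0) (p (nat_lit 0x41) (nat_lit 1) (p (nat_lit 0x108090887069a) (nat_lit 0) (p (nat_lit 0x107870806861a) (nat_lit 0) (p (nat_lit 0x8000000000000070786058a) (nat_lit 0) (p (nat_lit 0x10787058502) (nat_lit 0) (p (nat_lit 0x10586850482) (nat_lit 0) (p (nat_lit 0x16000c) (nat_lit 0) (p (nat_lit 0x160004) (nat_lit 0) (p (nat_lit 0x68612) (nat_lit 0) (p (nat_lit 0x50592) (nat_lit 0) (p (nat_lit 0x40512) (nat_lit 0) (p (nat_lit 0x50312) (nat_lit 0) (p (nat_lit 0x38292) (nat_lit 0) (p (nat_lit 0x28212) (nat_lit 0) (p (nat_lit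 0x38112) (nat_lit 0) (p (nat_lit 0x20092) (nat_lit 0) (p (nat_lit 0x10012) (nat_lit 0) pn))))))))))))))))))))))))))) :=
  Cl.node (nat_lit 0x200014) (nat_lit 2) (by decide +kernel) (ClAll.succ (ClAll.succ ClAll.zero s762) s763)

def n114 : Cl (O (nat_lit 4)) (R (nat_lit 14353))
    (p (nat_lit 0x41) (nat_lit 1) (p (nat_lit 0x380c2) (nat_lit 1) (p (nat_lit 0x3c4aa) (nat_lit 7) (p (nat_lit 0xc9) (nat_lit 1) (p (nat_lit 0x89) (nat_lit 1) (p (nat_lit 0x109) (nat_lit 1) (p (nat_lit 0x101) (nat_lit 0) (p (nat_lit 0x111) (nat_lit 0) (p (nat_lit 0xd1) (nat_lit 1) (p (nat_lit 0x81) (nat_lit 0) (p (nat_lit 0x41) (nat_lit 1) (p (nat_lit 0x108090887069a) (nat_lit 0) (p (nat_lit 0x107870806861a) (nat_lit 0) (p (nat_lit 0x8000000000000070786058a) (nat_lit 0) (p (nat_lit 0x10787058502) (nat_lit 0) (p (nat_lit 0x10586850482) (nat_lit 0) (p (nat_lit 0x16000c) (nat_lit 0) (p (nat_lit 0x160004)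 (nat_lit 0) (p (nat_lit 0x68612) (nat_lit 0) (p (nat_lit 0x50592) (nat_lit 0) (p (nat_lit 0x40512) (nat_lit 0) (p (nat_lit 0x50312) (nat_lit 0) (p (nat_lit 0x38292) (nat_lit 0) (p (nat_lit 0x28212) (nat_lit 0) (p (nat_lit 0x38112) (nat_lit 0) (p (nat_lit 0x20092) (nat_lit 0) (p (nat_lit 0x10012) (nat_lit 0) pn))))))))))))))))))))))))))) :=
  Cl.node (nat_lit 0xb000c) (nat_lit 2) (by decide +kernel) (ClAll.succ (ClAll.succ ClAll.zero s791) s792)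

def n115 : Cl (O (nat_lit 4)) (R (nat_lit 14353))
    (p (nat_lit 0x89) (nat_lit 1) (p (nat_lit 0xb0004) (nat_lit 0) (p (nat_lit 0xc9) (nat_lit 1) (p (nat_lit 0x380c2) (nat_lit 0) (p (nat_lit 0x3cc2a) (nat_lit 0) (p (nat_lit 0x89) (nat_lit 0) (p (nat_lit 0x101) (nat_lit 1) (p (nat_lit 0x111) (nat_lit 0) (p (nat_lit 0xd1) (nat_lit 1) (p (nat_lit 0x81) (nat_lit 0) (p (nat_lit 0x41) (nat_lit 1) (p (nat_lit 0x108090887069a) (nat_lit 0) (p (nat_lit 0x107870806861a) (nat_lit 0) (p (nat_lit 0x8000000000000070786058a) (nat_lit 0) (p (nat_lit 0x10787058502) (nat_lit 0) (p (nat_lit 0x10586850482) (nat_lit 0) (p (nat_lit 0x16000c) (nat_lit 0) (p (nat_lit 0x160004) (nat_lit 0) (p (nat_lit 0x68612) (nat_lit 0) (p (nat_lit 0x50592) (nat_lit 0) (p (nat_lit 0x40512) (nat_lit 0) (p (nat_lit 0x50312) (nat_lit 0) (p (nat_lit 0x38292) (nat_lit 0) (p (nat_lit 0x28212) (nat_lit 0) (p (nat_lit 0x38112)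 (nat_lit 0) (p (nat_lit 0x20092) (nat_lit 0) (p (nat_lit 0x10012) (nat_lit 0) pn))))))))))))))))))))))))))) :=
  Cl.node (nat_lit 0x3c4aa) (nat_lit 12) (by decide +kernel) (ClAll.succ (ClAll.succ (ClAll.succ (ClAll.succ (ClAll.succ (ClAll.succ (ClAll.succ (ClAll.succ (ClAll.succ (ClAll.succ (ClAll.succ (ClAll.succ ClAll.zero s799) s800) s801) s802) s803) s804) s805) n64) s808) s809) s810) s811)

def n116 : Cl (O (nat_lit 4)) (R (nat_lit 14353))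
    (p (nat_lit 0xb0004) (nat_lit 0) (p (nat_lit 0xd1) (nat_lit 1) (p (nat_lit 0x380c2) (nat_lit 0) (p (nat_lit 0x3cc2a) (nat_lit 0) (p (nat_lit 0xc9) (nat_lit 0) (p (nat_lit 0x89) (nat_lit 1) (p (nat_lit 0x101) (nat_lit 1) (p (nat_lit 0x111) (nat_lit 0) (p (nat_lit 0xd1) (nat_lit 1) (p (nat_lit 0x81) (nat_lit 0) (p (nat_lit 0x41) (nat_lit 1) (p (nat_lit 0x108090887069a) (nat_lit 0) (p (nat_lit 0x107870806861a) (nat_lit 0) (p (nat_lit 0x8000000000000070786058a) (nat_lit 0) (p (nat_lit 0x10787058502) (nat_lit 0) (p (nat_lit 0x10586850482) (nat_lit 0) (p (nat_lit 0x16000c) (nat_lit 0) (p (nat_lit 0x160004) (nat_lit 0) (p (nat_lit 0x68612) (nat_lit 0) (p (nat_lit 0x50592) (nat_lit 0) (p (nat_lit 0x40512) (nat_lit 0) (p (nat_lit 0x50312) (nat_lit 0) (p (nat_lit 0x38292) (nat_lit 0) (p (nat_lit 0x28212) (nat_lit 0) (p (nat_lit 0x38112) (nat_lit 0) (p (nat_lit 0x20092) (nat_lit 0)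 (p (nat_lit 0x10012) (nat_lit 0) pn))))))))))))))))))))))))))) :=
  Cl.node (nat_lit 0x3c4aa) (nat_lit 12) (by decide +kernel) (ClAll.succ (ClAll.succ (ClAll.succ (ClAll.succ (ClAll.succ (ClAll.succ (ClAll.succ (ClAll.succ (ClAll.succ (ClAll.succ (ClAll.succ (ClAll.succ ClAll.zero s825) s826) s827) s828) s829) s830) s831) s832) s833) s834) s835) s836)

def n117 : Cl (O (nat_lit 4)) (R (nat_lit 14353))
    (p (nat_lit 0x119) (nat_lit 1) (p (nat_lit 0x101) (nat_lit 0) (p (nat_lit 0x380c2) (nat_lit 1) (p (nat_lit 0x3c4aa) (nat_lit 7) (p (nat_lit 0xc9) (nat_lit 1) (p (nat_lit 0x89) (nat_lit 1) (p (nat_lit 0x101) (nat_lit 1) (p (nat_lit 0x111) (nat_lit 0) (p (nat_lit 0xd1) (nat_lit 1) (p (nat_lit 0x81) (nat_lit 0) (p (nat_lit 0x41) (nat_lit 1) (p (nat_lit 0x108090887069a) (nat_lit 0) (p (nat_lit 0x107870806861a) (nat_lit 0) (p (nat_lit 0x8000000000000070786058a) (nat_lit 0) (p (nat_lit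 0x10787058502) (nat_lit 0) (p (nat_lit 0x10586850482) (nat_lit 0) (p (nat_lit 0x16000c) (nat_lit 0) (p (nat_lit 0x160004) (nat_lit 0) (p (nat_lit 0x68612) (nat_lit 0) (p (nat_lit 0x50592) (nat_lit 0) (p (nat_lit 0x40512) (nat_lit 0) (p (nat_lit 0x50312) (nat_lit 0) (p (nat_lit 0x38292) (nat_lit 0) (p (nat_lit 0x28212) (nat_lit 0) (p (nat_lit 0x38112) (nat_lit 0) (p (nat_lit 0x20092) (nat_lit 0) (p (nat_lit 0x10012) (nat_lit 0) pn))))))))))))))))))))))))))) :=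
  Cl.node (nat_lit 0xb000c) (nat_lit 2) (by decide +kernel) (ClAll.succ (ClAll.succ ClAll.zero n65) s860)

def n118 : Cl (O (nat_lit 4)) (R (nat_lit 14353))
    (p (nat_lit 0xb000c) (nat_lit 0) (p (nat_lit 0x380c2) (nat_lit 0) (p (nat_lit 0x3c4aa) (nat_lit 7) (p (nat_lit 0xd1) (nat_lit 1) (p (nat_lit 0x111) (nat_lit 1) (p (nat_lit 0x109) (nat_lit 0) (p (nat_lit 0x101) (nat_lit 0) (p (nat_lit 0x119) (nat_lit 0) (p (nat_lit 0xc1) (nat_lit 0) (p (nat_lit 0x81) (nat_lit 1) (p (nat_lit 0x41) (nat_lit 1) (p (nat_lit 0x108090887069a) (nat_lit 0) (p (nat_lit 0x107870806861a) (nat_lit 0) (p (nat_lit 0x8000000000000070786058a) (nat_lit 0) (p (nat_lit 0x10787058502) (nat_lit 0) (p (nat_lit 0x10586850482) (nat_lit 0) (p (nat_lit 0x16000c) (nat_lit 0) (p (nat_lit 0x160004) (nat_lit 0) (p (nat_lit 0x68612) (nat_lit 0) (p (nat_lit 0x50592) (nat_lit 0) (p (nat_lit 0x40512) (nat_lit 0) (p (nat_lit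 0x50312) (nat_lit 0) (p (nat_lit 0x38292) (nat_lit 0) (p (nat_lit 0x28212) (nat_lit 0) (p (nat_lit 0x38112) (nat_lit 0) (p (nat_lit 0x20092) (nat_lit 0) (p (nat_lit 0x10012) (nat_lit 0) pn))))))))))))))))))))))))))) :=
  Cl.node (nat_lit 0xc9) (nat_lit 2) (by decide +kernel) (ClAll.succ (ClAll.succ ClAll.zero n66) s928)

def n119 : Cl (O (nat_lit 4)) (R (nat_lit 14353))
    (p (nat_lit 0xb000c) (nat_lit 0) (p (nat_lit 0x380c2) (nat_lit 1) (p (nat_lit 0x3c4aa) (nat_lit 7) (p (nat_lit 0xd1) (nat_lit 1) (p (nat_lit 0x111) (nat_lit 1) (p (nat_lit 0x109) (nat_lit 0) (p (nat_lit 0x101) (nat_lit 0) (p (nat_lit 0x119) (nat_lit 0) (p (nat_lit 0xc1) (nat_lit 0) (p (nat_lit 0x81) (nat_lit 1) (p (nat_lit 0x41) (nat_lit 1) (p (nat_lit 0x108090887069a) (nat_lit 0) (p (nat_lit 0x107870806861a) (nat_lit 0) (p (nat_lit 0x8000000000000070786058a) (nat_lit 0) (p (nat_lit 0x10787058502) (nat_lit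 0) (p (nat_lit 0x10586850482) (nat_lit 0) (p (nat_lit 0x16000c) (nat_lit 0) (p (nat_lit 0x160004) (nat_lit 0) (p (nat_lit 0x68612) (nat_lit 0) (p (nat_lit 0x50592) (nat_lit 0) (p (nat_lit 0x40512) (nat_lit 0) (p (nat_lit 0x50312) (nat_lit 0) (p (nat_lit 0x38292) (nat_lit 0) (p (nat_lit 0x28212) (nat_lit 0) (p (nat_lit 0x38112) (nat_lit 0) (p (nat_lit 0x20092) (nat_lit 0) (p (nat_lit 0x10012) (nat_lit 0) pn))))))))))))))))))))))))))) :=
  Cl.node (nat_lit 0xc9) (nat_lit 2) (by decide +kernel) (ClAll.succ (ClAll.succ ClAll.zero n67) n68)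

def n120 : Cl (O (nat_lit 4)) (R (nat_lit 14353))
    (p (nat_lit 0x119) (nat_lit 1) (p (nat_lit 0x380c2) (nat_lit 1) (p (nat_lit 0x3c4aa) (nat_lit 7) (p (nat_lit 0xd1) (nat_lit 1) (p (nat_lit 0xc9) (nat_lit 0) (p (nat_lit 0x109) (nat_lit 1) (p (nat_lit 0x101) (nat_lit 0) (p (nat_lit 0x119) (nat_lit 0) (p (nat_lit 0xc1) (nat_lit 0) (p (nat_lit 0x81) (nat_lit 1) (p (nat_lit 0x41) (nat_lit 1) (p (nat_lit 0x108090887069a) (nat_lit 0) (p (nat_lit 0x107870806861a) (nat_lit 0) (p (nat_lit 0x8000000000000070786058a) (nat_lit 0) (p (nat_lit 0x10787058502) (nat_lit 0) (p (nat_lit 0x10586850482) (nat_lit 0) (p (nat_lit 0x16000c) (nat_lit 0) (p (nat_lit 0x160004) (nat_lit 0) (p (nat_lit 0x68612) (nat_lit 0) (p (nat_lit 0x50592) (nat_lit 0) (p (nat_lit 0x40512) (nat_lit 0) (p (nat_lit 0x50312) (nat_lit 0) (p (nat_lit 0x38292) (nat_lit 0) (p (nat_lit 0x28212) (nat_lit 0) (p (nat_lit 0x38112)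 (nat_lit 0) (p (nat_lit 0x20092) (nat_lit 0) (p (nat_lit 0x10012) (nat_lit 0) pn))))))))))))))))))))))))))) :=
  Cl.node (nat_lit 0xb000c) (nat_lit 2) (by decide +kernel) (ClAll.succ (ClAll.succ ClAll.zero s951) s952)

def n121 : Cl (O (nat_lit 4)) (R (nat_lit 14353))
    (p (nat_lit 0xc1) (nat_lit 0) (p (nat_lit 0xb000c) (nat_lit 0) (p (nat_lit 0x380c2) (nat_lit 0) (p (nat_lit 0x3c4aa) (nat_lit 7) (p (nat_lit 0xd1) (nat_lit 1) (p (nat_lit 0xc9) (nat_lit 0) (p (nat_lit 0x101) (nat_lit 1) (p (nat_lit 0x119) (nat_lit 0) (p (nat_lit 0xc1) (nat_lit 0) (p (nat_lit 0x81) (nat_lit 1) (p (nat_lit 0x41) (nat_lit 1) (p (nat_lit 0x108090887069a) (nat_lit 0) (p (nat_lit 0x107870806861a) (nat_lit 0) (p (nat_lit 0x8000000000000070786058a) (nat_lit 0) (p (nat_lit 0x10787058502) (nat_lit 0) (p (nat_lit 0x10586850482) (nat_lit 0) (p (nat_lit 0x16000c) (nat_lit 0) (p (nat_lit 0x160004) (nat_lit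 0) (p (nat_lit 0x68612) (nat_lit 0) (p (nat_lit 0x50592) (nat_lit 0) (p (nat_lit 0x40512) (nat_lit 0) (p (nat_lit 0x50312) (nat_lit 0) (p (nat_lit 0x38292) (nat_lit 0) (p (nat_lit 0x28212) (nat_lit 0) (p (nat_lit 0x38112) (nat_lit 0) (p (nat_lit 0x20092) (nat_lit 0) (p (nat_lit 0x10012) (nat_lit 0) pn))))))))))))))))))))))))))) :=
  Cl.node (nat_lit 0xd1) (nat_lit 2) (by decide +kernel) (ClAll.succ (ClAll.succ ClAll.zero s978) s979)

def n122 : Cl (O (nat_lit 4)) (R (nat_lit 14353))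
    (p (nat_lit 0xb000c) (nat_lit 0) (p (nat_lit 0xc1) (nat_lit 0) (p (nat_lit 0x380c2) (nat_lit 1) (p (nat_lit 0x3c4aa) (nat_lit 7) (p (nat_lit 0xd1) (nat_lit 1) (p (nat_lit 0xc9) (nat_lit 0) (p (nat_lit 0x101) (nat_lit 1) (p (nat_lit 0x119) (nat_lit 0) (p (nat_lit 0xc1) (nat_lit 0) (p (nat_lit 0x81) (nat_lit 1) (p (nat_lit 0x41) (nat_lit 1) (p (nat_lit 0x108090887069a) (nat_lit 0) (p (nat_lit 0x107870806861a) (nat_lit 0) (p (nat_lit 0x8000000000000070786058a) (nat_lit 0) (p (nat_lit 0x10787058502) (nat_lit 0) (p (nat_lit 0x10586850482) (nat_lit 0) (p (nat_lit 0x16000c) (nat_lit 0) (p (nat_lit 0x160004) (nat_lit 0) (p (nat_lit 0x68612) (nat_lit 0) (p (nat_lit 0x50592) (nat_lit 0) (p (nat_lit 0x40512) (nat_lit 0) (p (nat_lit 0x50312) (nat_lit 0) (p (nat_lit 0x38292) (nat_lit 0) (p (nat_lit 0x28212) (nat_lit 0) (p (nat_lit 0x38112) (nat_lit 0) (p (nat_lit 0x20092) (nat_lit 0)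 (p (nat_lit 0x10012) (nat_lit 0) pn))))))))))))))))))))))))))) :=
  Cl.node (nat_lit 0x3cc2a) (nat_lit 12) (by decide +kernel) (ClAll.succ (ClAll.succ (ClAll.succ (ClAll.succ (ClAll.succ (ClAll.succ (ClAll.succ (ClAll.succ (ClAll.succ (ClAll.succ (ClAll.succ (ClAll.succ ClAll.zero s982) s983) s984) s985) s986) s987) s988) s989) s990) s991) s992) s993)

def n123 : Cl (O (nat_lit 4)) (R (nat_lit 14353))
    (p (nat_lit 0xb000c) (nat_lit 0) (p (nat_lit 0xc1) (nat_lit 1) (p (nat_lit 0x380c2) (nat_lit 1) (p (nat_lit 0x3c4aa) (nat_lit 7) (p (nat_lit 0xd1) (nat_lit 1) (p (nat_lit 0xc9) (nat_lit 0) (p (nat_lit 0x101) (nat_lit 1) (p (nat_lit 0x119) (nat_lit 0) (p (nat_lit 0xc1) (nat_lit 0) (p (nat_lit 0x81) (nat_lit 1) (p (nat_lit 0x41) (nat_lit 1) (p (nat_lit 0x108090887069a) (nat_lit 0) (p (nat_lit 0x107870806861a) (nat_lit 0) (p (nat_lit 0x8000000000000070786058a) (nat_lit 0) (p (nat_lit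 0x10787058502) (nat_lit 0) (p (nat_lit 0x10586850482) (nat_lit 0) (p (nat_lit 0x16000c) (nat_lit 0) (p (nat_lit 0x160004) (nat_lit 0) (p (nat_lit 0x68612) (nat_lit 0) (p (nat_lit 0x50592) (nat_lit 0) (p (nat_lit 0x40512) (nat_lit 0) (p (nat_lit 0x50312) (nat_lit 0) (p (nat_lit 0x38292) (nat_lit 0) (p (nat_lit 0x28212) (nat_lit 0) (p (nat_lit 0x38112) (nat_lit 0) (p (nat_lit 0x20092) (nat_lit 0) (p (nat_lit 0x10012) (nat_lit 0) pn))))))))))))))))))))))))))) :=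
  Cl.node (nat_lit 0x101) (nat_lit 2) (by decide +kernel) (ClAll.succ (ClAll.succ ClAll.zero n69) s999)

def n124 : Cl (O (nat_lit 4)) (R (nat_lit 14353))
    (p (nat_lit 0x101) (nat_lit 0) (p (nat_lit 0xb0004) (nat_lit 0) (p (nat_lit 0x380c2) (nat_lit 0) (p (nat_lit 0x3c4aa) (nat_lit 7) (p (nat_lit 0x111) (nat_lit 1) (p (nat_lit 0xd1) (nat_lit 1) (p (nat_lit 0xc9) (nat_lit 0) (p (nat_lit 0x119) (nat_lit 1) (p (nat_lit 0xc1) (nat_lit 0) (p (nat_lit 0x81) (nat_lit 1) (p (nat_lit 0x41) (nat_lit 1) (p (nat_lit 0x108090887069a) (nat_lit 0) (p (nat_lit 0x107870806861a) (nat_lit 0) (p (nat_lit 0x8000000000000070786058a) (nat_lit 0) (p (nat_lit 0x10787058502) (nat_lit 0) (p (nat_lit 0x10586850482) (nat_lit 0) (p (nat_lit 0x16000c) (nat_lit 0) (p (nat_lit 0x160004) (nat_lit 0) (p (nat_lit 0x68612) (nat_lit 0) (p (nat_lit 0x50592) (nat_lit 0) (p (nat_lit 0x40512) (nat_lit 0) (p (nat_lit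 0x50312) (nat_lit 0) (p (nat_lit 0x38292) (nat_lit 0) (p (nat_lit 0x28212) (nat_lit 0) (p (nat_lit 0x38112) (nat_lit 0) (p (nat_lit 0x20092) (nat_lit 0) (p (nat_lit 0x10012) (nat_lit 0) pn))))))))))))))))))))))))))) :=
  Cl.node (nat_lit 0x109) (nat_lit 2) (by decide +kernel) (ClAll.succ (ClAll.succ ClAll.zero s1015) s1016)

def n125 : Cl (O (nat_lit 4)) (R (nat_lit 14353))
    (p (nat_lit 0x101) (nat_lit 0) (p (nat_lit 0xb000c) (nat_lit 0) (p (nat_lit 0x380c2) (nat_lit 1) (p (nat_lit 0x3c4aa) (nat_lit 7) (p (nat_lit 0x111) (nat_lit 1) (p (nat_lit 0xd1) (nat_lit 1) (p (nat_lit 0xc9) (nat_lit 0) (p (nat_lit 0x119) (nat_lit 1) (p (nat_lit 0xc1) (nat_lit 0) (p (nat_lit 0x81) (nat_lit 1) (p (nat_lit 0x41) (nat_lit 1) (p (nat_lit 0x108090887069a) (nat_lit 0) (p (nat_lit 0x107870806861a) (nat_lit 0) (p (nat_lit 0x8000000000000070786058a) (nat_lit 0) (p (nat_lit 0x10787058502) (nat_lit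 0) (p (nat_lit 0x10586850482) (nat_lit 0) (p (nat_lit 0x16000c) (nat_lit 0) (p (nat_lit 0x160004) (nat_lit 0) (p (nat_lit 0x68612) (nat_lit 0) (p (nat_lit 0x50592) (nat_lit 0) (p (nat_lit 0x40512) (nat_lit 0) (p (nat_lit 0x50312) (nat_lit 0) (p (nat_lit 0x38292) (nat_lit 0) (p (nat_lit 0x28212) (nat_lit 0) (p (nat_lit 0x38112) (nat_lit 0) (p (nat_lit 0x20092) (nat_lit 0) (p (nat_lit 0x10012) (nat_lit 0) pn))))))))))))))))))))))))))) :=
  Cl.node (nat_lit 0x111) (nat_lit 2) (by decide +kernel) (ClAll.succ (ClAll.succ ClAll.zero n70) n71)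

def n126 : Cl (O (nat_lit 4)) (R (nat_lit 14353))
    (p (nat_lit 0xb0004) (nat_lit 0) (p (nat_lit 0xb000c) (nat_lit 1) (p (nat_lit 0x380c2) (nat_lit 1) (p (nat_lit 0x3c4aa) (nat_lit 7) (p (nat_lit 0x111) (nat_lit 1) (p (nat_lit 0xd1) (nat_lit 1) (p (nat_lit 0xc9) (nat_lit 0) (p (nat_lit 0x119) (nat_lit 1) (p (nat_lit 0xc1) (nat_lit 0) (p (nat_lit 0x81) (nat_lit 1) (p (nat_lit 0x41) (nat_lit 1) (p (nat_lit 0x108090887069a) (nat_lit 0) (p (nat_lit 0x107870806861a) (nat_lit 0) (p (nat_lit 0x8000000000000070786058a) (nat_lit 0) (p (nat_lit 0x10787058502) (nat_lit 0) (p (nat_lit 0x10586850482) (nat_lit 0) (p (nat_lit 0x16000c) (nat_lit 0) (p (nat_lit 0x160004) (nat_lit 0) (p (nat_lit 0x68612) (nat_lit 0) (p (nat_lit 0x50592) (nat_lit 0) (p (nat_lit 0x40512) (nat_lit 0) (p (nat_lit 0x50312) (nat_lit 0) (p (nat_lit 0x38292) (nat_lit 0) (p (nat_lit 0x28212) (nat_lit 0) (p (nat_lit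 0x38112) (nat_lit 0) (p (nat_lit 0x20092) (nat_lit 0) (p (nat_lit 0x10012) (nat_lit 0) pn))))))))))))))))))))))))))) :=
  Cl.node (nat_lit 0x1fc014) (nat_lit 2) (by decide +kernel) (ClAll.succ (ClAll.succ ClAll.zero n72) s1042)

def n127 : Cl (O (nat_lit 4)) (R (nat_lit 14353))
    (p (nat_lit 0x41) (nat_lit 0) (p (nat_lit 0x380c2) (nat_lit 0) (p (nat_lit 0x44c2a) (nat_lit 0) (p (nat_lit 0x101) (nat_lit 1) (p (nat_lit 0x111) (nat_lit 0) (p (nat_lit 0x109) (nat_lit 0) (p (nat_lit 0xc9) (nat_lit 1) (p (nat_lit 0x119) (nat_lit 1) (p (nat_lit 0xc1) (nat_lit 0) (p (nat_lit 0x81) (nat_lit 1) (p (nat_lit 0x41) (nat_lit 1) (p (nat_lit 0x108090887069a) (nat_lit 0) (p (nat_lit 0x107870806861a) (nat_lit 0) (p (nat_lit 0x8000000000000070786058a) (nat_lit 0) (p (nat_lit 0x10787058502) (nat_lit 0) (p (nat_lit 0x10586850482) (nat_lit 0) (p (nat_lit 0x16000c) (nat_lit 0) (p (nat_lit 0x160004)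 (nat_lit 0) (p (nat_lit 0x68612) (nat_lit 0) (p (nat_lit 0x50592) (nat_lit 0) (p (nat_lit 0x40512) (nat_lit 0) (p (nat_lit 0x50312) (nat_lit 0) (p (nat_lit 0x38292) (nat_lit 0) (p (nat_lit 0x28212) (nat_lit 0) (p (nat_lit 0x38112) (nat_lit 0) (p (nat_lit 0x20092) (nat_lit 0) (p (nat_lit 0x10012) (nat_lit 0) pn))))))))))))))))))))))))))) :=
  Cl.node (nat_lit 0x200014) (nat_lit 2) (by decide +kernel) (ClAll.succ (ClAll.succ ClAll.zero n73) s1078)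

def n128 : Cl (O (nat_lit 4)) (R (nat_lit 14353))
    (p (nat_lit 0xb000c) (nat_lit 0) (p (nat_lit 0x101) (nat_lit 0) (p (nat_lit 0x380c2) (nat_lit 0) (p (nat_lit 0x3c4aa) (nat_lit 7) (p (nat_lit 0x111) (nat_lit 1) (p (nat_lit 0x109) (nat_lit 0) (p (nat_lit 0xc9) (nat_lit 1) (p (nat_lit 0x119) (nat_lit 1) (p (nat_lit 0xc1) (nat_lit 0) (p (nat_lit 0x81) (nat_lit 1) (p (nat_lit 0x41) (nat_lit 1) (p (nat_lit 0x108090887069a) (nat_lit 0) (p (nat_lit 0x107870806861a) (nat_lit 0) (p (nat_lit 0x8000000000000070786058a) (nat_lit 0) (p (nat_lit 0x10787058502) (nat_lit 0) (p (nat_lit 0x10586850482) (nat_lit 0) (p (nat_lit 0x16000c) (nat_lit 0) (p (nat_lit 0x160004) (nat_lit 0) (p (nat_lit 0x68612) (nat_lit 0) (p (nat_lit 0x50592) (nat_lit 0) (p (nat_lit 0x40512) (nat_lit 0) (p (nat_lit 0x50312) (nat_lit 0) (p (nat_lit 0x38292) (nat_lit 0) (p (nat_lit 0x28212) (nat_lit 0) (p (nat_lit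 0x38112) (nat_lit 0) (p (nat_lit 0x20092) (nat_lit 0) (p (nat_lit 0x10012) (nat_lit 0) pn))))))))))))))))))))))))))) :=
  Cl.node (nat_lit 0x111) (nat_lit 2) (by decide +kernel) (ClAll.succ (ClAll.succ ClAll.zero s1098) s1099)

def n129 : Cl (O (nat_lit 4)) (R (nat_lit 14353))
    (p (nat_lit 0xb000c) (nat_lit 0) (p (nat_lit 0x101) (nat_lit 0) (p (nat_lit 0x380c2) (nat_lit 1) (p (nat_lit 0x3c4aa) (nat_lit 7) (p (nat_lit 0x111) (nat_lit 1) (p (nat_lit 0x109) (nat_lit 0) (p (nat_lit 0xc9) (nat_lit 1) (p (nat_lit 0x119) (nat_lit 1) (p (nat_lit 0xc1) (nat_lit 0) (p (nat_lit 0x81) (nat_lit 1) (p (nat_lit 0x41) (nat_lit 1) (p (nat_lit 0x108090887069a) (nat_lit 0) (p (nat_lit 0x107870806861a) (nat_lit 0) (p (nat_lit 0x8000000000000070786058a) (nat_lit 0) (p (nat_lit 0x10787058502) (nat_lit 0) (p (nat_lit 0x10586850482) (nat_lit 0) (p (nat_lit 0x16000c) (nat_lit 0) (p (nat_lit 0x160004)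 (nat_lit 0) (p (nat_lit 0x68612) (nat_lit 0) (p (nat_lit 0x50592) (nat_lit 0) (p (nat_lit 0x40512) (nat_lit 0) (p (nat_lit 0x50312) (nat_lit 0) (p (nat_lit 0x38292) (nat_lit 0) (p (nat_lit 0x28212) (nat_lit 0) (p (nat_lit 0x38112) (nat_lit 0) (p (nat_lit 0x20092) (nat_lit 0) (p (nat_lit 0x10012) (nat_lit 0) pn))))))))))))))))))))))))))) :=
  Cl.node (nat_lit 0x111) (nat_lit 2) (by decide +kernel) (ClAll.succ (ClAll.succ ClAll.zero n74) s1104)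

def n130 : Cl (O (nat_lit 4)) (R (nat_lit 14353))
    (p (nat_lit 0x380c2) (nat_lit 0) (p (nat_lit 0x444aa) (nat_lit 7) (p (nat_lit 0x81) (nat_lit 1) (p (nat_lit 0xc9) (nat_lit 1) (p (nat_lit 0x109) (nat_lit 1) (p (nat_lit 0x101) (nat_lit 0) (p (nat_lit 0x119) (nat_lit 0) (p (nat_lit 0xd1) (nat_lit 0) (p (nat_lit 0x89) (nat_lit 0) (p (nat_lit 0x41) (nat_lit 0) (p (nat_lit 0x108090887069a) (nat_lit 0) (p (nat_lit 0x107870806861a) (nat_lit 0) (p (nat_lit 0x8000000000000070786058a) (nat_lit 0) (p (nat_lit 0x10787058502) (nat_lit 0) (p (nat_lit 0x10586850482) (nat_lit 0) (p (nat_lit 0x16000c) (nat_lit 0) (p (nat_lit 0x160004) (nat_lit 0) (p (nat_lit 0x68612) (nat_lit 0) (p (nat_lit 0x50592) (nat_lit 0) (p (nat_lit 0x40512) (nat_lit 0) (p (nat_lit 0x50312) (nat_lit 0) (p (nat_lit 0x38292) (nat_lit 0) (p (nat_lit 0x28212) (nat_lit 0) (p (nat_lit 0x38112) (nat_lit 0) (p (nat_lit 0x20092)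 (nat_lit 0) (p (nat_lit 0x10012) (nat_lit 0) pn)))))))))))))))))))))))))) :=
  Cl.node (nat_lit 0x89) (nat_lit 2) (by decide +kernel) (ClAll.succ (ClAll.succ ClAll.zero n75) n76)

def n131 : Cl (O (nat_lit 4)) (R (nat_lit 14353))
    (p (nat_lit 0x380c2) (nat_lit 1) (p (nat_lit 0x444aa) (nat_lit 7) (p (nat_lit 0x81) (nat_lit 1) (p (nat_lit 0xc9) (nat_lit 1) (p (nat_lit 0x109) (nat_lit 1) (p (nat_lit 0x101) (nat_lit 0) (p (nat_lit 0x119) (nat_lit 0) (p (nat_lit 0xd1) (nat_lit 0) (p (nat_lit 0x89) (nat_lit 0) (p (nat_lit 0x41) (nat_lit 0) (p (nat_lit 0x108090887069a) (nat_lit 0) (p (nat_lit 0x107870806861a) (nat_lit 0) (p (nat_lit 0x8000000000000070786058a) (nat_lit 0) (p (nat_lit 0x10787058502) (nat_lit 0) (p (nat_lit 0x10586850482) (nat_lit 0) (p (nat_lit 0x16000c) (nat_lit 0) (p (nat_lit 0x160004) (nat_lit 0) (p (nat_lit 0x68612) (nat_lit 0) (p (nat_lit 0x50592) (nat_lit 0)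 (p (nat_lit 0x40512) (nat_lit 0) (p (nat_lit 0x50312) (nat_lit 0) (p (nat_lit 0x38292) (nat_lit 0) (p (nat_lit 0x28212) (nat_lit 0) (p (nat_lit 0x38112) (nat_lit 0) (p (nat_lit 0x20092) (nat_lit 0) (p (nat_lit 0x10012) (nat_lit 0) pn)))))))))))))))))))))))))) :=
  Cl.node (nat_lit 0x89) (nat_lit 2) (by decide +kernel) (ClAll.succ (ClAll.succ ClAll.zero s15) n77)

def n132 : Cl (O (nat_lit 4)) (R (nat_lit 14353))
    (p (nat_lit 0x101) (nat_lit 1) (p (nat_lit 0xc1) (nat_lit 1) (p (nat_lit 0x111) (nat_lit 0) (p (nat_lit 0xc9) (nat_lit 0) (p (nat_lit 0x81) (nat_lit 0) (p (nat_lit 0x101) (nat_lit 1) (p (nat_lit 0x119) (nat_lit 0) (p (nat_lit 0xd1) (nat_lit 0) (p (nat_lit 0x89) (nat_lit 0) (p (nat_lit 0x41) (nat_lit 0) (p (nat_lit 0x108090887069a) (nat_lit 0) (p (nat_lit 0x107870806861a) (nat_lit 0) (p (nat_lit 0x8000000000000070786058a) (nat_lit 0) (p (nat_lit 0x10787058502) (nat_lit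 0) (p (nat_lit 0x10586850482) (nat_lit 0) (p (nat_lit 0x16000c) (nat_lit 0) (p (nat_lit 0x160004) (nat_lit 0) (p (nat_lit 0x68612) (nat_lit 0) (p (nat_lit 0x50592) (nat_lit 0) (p (nat_lit 0x40512) (nat_lit 0) (p (nat_lit 0x50312) (nat_lit 0) (p (nat_lit 0x38292) (nat_lit 0) (p (nat_lit 0x28212) (nat_lit 0) (p (nat_lit 0x38112) (nat_lit 0) (p (nat_lit 0x20092) (nat_lit 0) (p (nat_lit 0x10012) (nat_lit 0) pn)))))))))))))))))))))))))) :=
  Cl.node (nat_lit 0x4c42a) (nat_lit 12) (by decide +kernel) (ClAll.succ (ClAll.succ (ClAll.succ (ClAll.succ (ClAll.succ (ClAll.succ (ClAll.succ (ClAll.succ (ClAll.succ (ClAll.succ (ClAll.succ (ClAll.succ ClAll.zero s24) s25) s26) s27) s28) s29) s30) s31) s32) s33) s34) s35)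

def n133 : Cl (O (nat_lit 4)) (R (nat_lit 14353))
    (p (nat_lit 0x380c2) (nat_lit 0) (p (nat_lit 0x444aa) (nat_lit 7) (p (nat_lit 0x111) (nat_lit 0) (p (nat_lit 0xc9) (nat_lit 1) (p (nat_lit 0x81) (nat_lit 0) (p (nat_lit 0x101) (nat_lit 1) (p (nat_lit 0x119) (nat_lit 0) (p (nat_lit 0xd1) (nat_lit 0) (p (nat_lit 0x89) (nat_lit 0) (p (nat_lit 0x41) (nat_lit 0) (p (nat_lit 0x108090887069a) (nat_lit 0) (p (nat_lit 0x107870806861a) (nat_lit 0) (p (nat_lit 0x8000000000000070786058a) (nat_lit 0) (p (nat_lit 0x10787058502) (nat_lit 0) (p (nat_lit 0x10586850482) (nat_lit 0) (p (nat_lit 0x16000c) (nat_lit 0) (p (nat_lit 0x160004) (nat_lit 0) (p (nat_lit 0x68612) (nat_lit 0) (p (nat_lit 0x50592) (nat_lit 0) (p (nat_lit 0x40512) (nat_lit 0) (p (nat_lit 0x50312) (nat_lit 0) (p (nat_lit 0x38292) (nat_lit 0) (p (nat_lit 0x28212) (nat_lit 0) (p (nat_lit 0x38112) (nat_lit 0) (p (nat_lit 0x20092)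 (nat_lit 0) (p (nat_lit 0x10012) (nat_lit 0) pn)))))))))))))))))))))))))) :=
  Cl.node (nat_lit 0x89) (nat_lit 2) (by decide +kernel) (ClAll.succ (ClAll.succ ClAll.zero n78) s47)

def n134 : Cl (O (nat_lit 4)) (R (nat_lit 14353))
    (p (nat_lit 0x380c2) (nat_lit 1) (p (nat_lit 0x444aa) (nat_lit 7) (p (nat_lit 0x111) (nat_lit 0) (p (nat_lit 0xc9) (nat_lit 1) (p (nat_lit 0x81) (nat_lit 0) (p (nat_lit 0x101) (nat_lit 1) (p (nat_lit 0x119) (nat_lit 0) (p (nat_lit 0xd1) (nat_lit 0) (p (nat_lit 0x89) (nat_lit 0) (p (nat_lit 0x41) (nat_lit 0) (p (nat_lit 0x108090887069a) (nat_lit 0) (p (nat_lit 0x107870806861a) (nat_lit 0) (p (nat_lit 0x8000000000000070786058a) (nat_lit 0) (p (nat_lit 0x10787058502) (nat_lit 0) (p (nat_lit 0x10586850482) (nat_lit 0) (p (nat_lit 0x16000c) (nat_lit 0) (p (nat_lit 0x160004) (nat_lit 0) (p (nat_lit 0x68612) (nat_lit 0) (p (nat_lit 0x50592) (nat_lit 0)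 (p (nat_lit 0x40512) (nat_lit 0) (p (nat_lit 0x50312) (nat_lit 0) (p (nat_lit 0x38292) (nat_lit 0) (p (nat_lit 0x28212) (nat_lit 0) (p (nat_lit 0x38112) (nat_lit 0) (p (nat_lit 0x20092) (nat_lit 0) (p (nat_lit 0x10012) (nat_lit 0) pn)))))))))))))))))))))))))) :=
  Cl.node (nat_lit 0x89) (nat_lit 2) (by decide +kernel) (ClAll.succ (ClAll.succ ClAll.zero s48) s49)

def n135 : Cl (O (nat_lit 4)) (R (nat_lit 14353))
    (p (nat_lit 0x380c2) (nat_lit 0) (p (nat_lit 0x444aa) (nat_lit 7) (p (nat_lit 0xc9) (nat_lit 1) (p (nat_lit 0xc1) (nat_lit 0) (p (nat_lit 0x81) (nat_lit 1) (p (nat_lit 0x101) (nat_lit 1) (p (nat_lit 0x119) (nat_lit 0) (p (nat_lit 0xd1) (nat_lit 0) (p (nat_lit 0x89) (nat_lit 0) (p (nat_lit 0x41) (nat_lit 0) (p (nat_lit 0x108090887069a) (nat_lit 0) (p (nat_lit 0x107870806861a) (nat_lit 0) (p (nat_lit 0x8000000000000070786058a) (nat_lit 0) (p (nat_lit 0x10787058502)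 (nat_lit 0) (p (nat_lit 0x10586850482) (nat_lit 0) (p (nat_lit 0x16000c) (nat_lit 0) (p (nat_lit 0x160004) (nat_lit 0) (p (nat_lit 0x68612) (nat_lit 0) (p (nat_lit 0x50592) (nat_lit 0) (p (nat_lit 0x40512) (nat_lit 0) (p (nat_lit 0x50312) (nat_lit 0) (p (nat_lit 0x38292) (nat_lit 0) (p (nat_lit 0x28212) (nat_lit 0) (p (nat_lit 0x38112) (nat_lit 0) (p (nat_lit 0x20092) (nat_lit 0) (p (nat_lit 0x10012) (nat_lit 0) pn)))))))))))))))))))))))))) :=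
  Cl.node (nat_lit 0xc9) (nat_lit 2) (by decide +kernel) (ClAll.succ (ClAll.succ ClAll.zero n79) s76)

def n136 : Cl (O (nat_lit 4)) (R (nat_lit 14353))
    (p (nat_lit 0x200014) (nat_lit 0) (p (nat_lit 0x380c2) (nat_lit 0) (p (nat_lit 0x3cc2a) (nat_lit 10) (p (nat_lit 0x109) (nat_lit 1) (p (nat_lit 0xc9) (nat_lit 1) (p (nat_lit 0xc1) (nat_lit 0) (p (nat_lit 0x119) (nat_lit 1) (p (nat_lit 0xd1) (nat_lit 0) (p (nat_lit 0x89) (nat_lit 0) (p (nat_lit 0x41) (nat_lit 0) (p (nat_lit 0x108090887069a) (nat_lit 0) (p (nat_lit 0x107870806861a) (nat_lit 0) (p (nat_lit 0x8000000000000070786058a) (nat_lit 0) (p (nat_lit 0x10787058502) (nat_lit 0) (p (nat_lit 0x10586850482) (nat_lit 0) (p (nat_lit 0x16000c) (nat_lit 0) (p (nat_lit 0x160004) (nat_lit 0) (p (nat_lit 0x68612) (nat_lit 0) (p (nat_lit 0x50592) (nat_lit 0) (p (nat_lit 0x40512) (nat_lit 0) (p (nat_lit 0x50312) (nat_lit 0) (p (nat_lit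 0x38292) (nat_lit 0) (p (nat_lit 0x28212) (nat_lit 0) (p (nat_lit 0x38112) (nat_lit 0) (p (nat_lit 0x20092) (nat_lit 0) (p (nat_lit 0x10012) (nat_lit 0) pn)))))))))))))))))))))))))) :=
  Cl.node (nat_lit 0x81) (nat_lit 2) (by decide +kernel) (ClAll.succ (ClAll.succ ClAll.zero s95) n80)

def n137 : Cl (O (nat_lit 4)) (R (nat_lit 14353))
    (p (nat_lit 0x200014) (nat_lit 0) (p (nat_lit 0x380c2) (nat_lit 1) (p (nat_lit 0x3cc2a) (nat_lit 10) (p (nat_lit 0x109) (nat_lit 1) (p (nat_lit 0xc9) (nat_lit 1) (p (nat_lit 0xc1) (nat_lit 0) (p (nat_lit 0x119) (nat_lit 1) (p (nat_lit 0xd1) (nat_lit 0) (p (nat_lit 0x89) (nat_lit 0) (p (nat_lit 0x41) (nat_lit 0) (p (nat_lit 0x108090887069a) (nat_lit 0) (p (nat_lit 0x107870806861a) (nat_lit 0) (p (nat_lit 0x8000000000000070786058a) (nat_lit 0) (p (nat_lit 0x10787058502) (nat_lit 0) (p (nat_lit 0x10586850482) (nat_lit 0) (p (nat_lit 0x16000c)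 (nat_lit 0) (p (nat_lit 0x160004) (nat_lit 0) (p (nat_lit 0x68612) (nat_lit 0) (p (nat_lit 0x50592) (nat_lit 0) (p (nat_lit 0x40512) (nat_lit 0) (p (nat_lit 0x50312) (nat_lit 0) (p (nat_lit 0x38292) (nat_lit 0) (p (nat_lit 0x28212) (nat_lit 0) (p (nat_lit 0x38112) (nat_lit 0) (p (nat_lit 0x20092) (nat_lit 0) (p (nat_lit 0x10012) (nat_lit 0) pn)))))))))))))))))))))))))) :=
  Cl.node (nat_lit 0x81) (nat_lit 2) (by decide +kernel) (ClAll.succ (ClAll.succ ClAll.zero s109) n81)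

def n138 : Cl (O (nat_lit 4)) (R (nat_lit 14353))
    (p (nat_lit 0xd1) (nat_lit 0) (p (nat_lit 0x380c2) (nat_lit 0) (p (nat_lit 0x3cc2a) (nat_lit 10) (p (nat_lit 0x109) (nat_lit 1) (p (nat_lit 0x81) (nat_lit 0) (p (nat_lit 0xc1) (nat_lit 1) (p (nat_lit 0x119) (nat_lit 1) (p (nat_lit 0xd1) (nat_lit 0) (p (nat_lit 0x89) (nat_lit 0) (p (nat_lit 0x41) (nat_lit 0) (p (nat_lit 0x108090887069a) (nat_lit 0) (p (nat_lit 0x107870806861a) (nat_lit 0) (p (nat_lit 0x8000000000000070786058a) (nat_lit 0) (p (nat_lit 0x10787058502) (nat_lit 0) (p (nat_lit 0x10586850482) (nat_lit 0) (p (nat_lit 0x16000c) (nat_lit 0) (p (nat_lit 0x160004) (nat_lit 0) (p (nat_lit 0x68612) (nat_lit 0) (p (nat_lit 0x50592) (nat_lit 0) (p (nat_lit 0x40512) (nat_lit 0) (p (nat_lit 0x50312) (nat_lit 0) (p (nat_lit 0x38292) (nat_lit 0) (p (nat_lit 0x28212) (nat_lit 0) (p (nat_lit 0x38112) (nat_lit 0) (p (nat_lit 0x20092)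 (nat_lit 0) (p (nat_lit 0x10012) (nat_lit 0) pn)))))))))))))))))))))))))) :=
  Cl.node (nat_lit 0x119) (nat_lit 2) (by decide +kernel) (ClAll.succ (ClAll.succ ClAll.zero s135) n82)

def n139 : Cl (O (nat_lit 4)) (R (nat_lit 14353))
    (p (nat_lit 0x119) (nat_lit 1) (p (nat_lit 0x111) (nat_lit 0) (p (nat_lit 0x109) (nat_lit 0) (p (nat_lit 0x101) (nat_lit 0) (p (nat_lit 0x81) (nat_lit 1) (p (nat_lit 0xc1) (nat_lit 1) (p (nat_lit 0x119) (nat_lit 1) (p (nat_lit 0xd1) (nat_lit 0) (p (nat_lit 0x89) (nat_lit 0) (p (nat_lit 0x41) (nat_lit 0) (p (nat_lit 0x108090887069a) (nat_lit 0) (p (nat_lit 0x107870806861a) (nat_lit 0) (p (nat_lit 0x8000000000000070786058a) (nat_lit 0) (p (nat_lit 0x10787058502) (nat_lit 0) (p (nat_lit 0x10586850482) (nat_lit 0) (p (nat_lit 0x16000c) (nat_lit 0) (p (nat_lit 0x160004) (nat_lit 0) (p (nat_lit 0x68612) (nat_lit 0) (p (nat_lit 0x50592) (nat_lit 0) (p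 (nat_lit 0x40512) (nat_lit 0) (p (nat_lit 0x50312) (nat_lit 0) (p (nat_lit 0x38292) (nat_lit 0) (p (nat_lit 0x28212) (nat_lit 0) (p (nat_lit 0x38112) (nat_lit 0) (p (nat_lit 0x20092) (nat_lit 0) (p (nat_lit 0x10012) (nat_lit 0) pn)))))))))))))))))))))))))) :=
  Cl.node (nat_lit 0x44c2a) (nat_lit 12) (by decide +kernel) (ClAll.succ (ClAll.succ (ClAll.succ (ClAll.succ (ClAll.succ (ClAll.succ (ClAll.succ (ClAll.succ (ClAll.succ (ClAll.succ (ClAll.succ (ClAll.succ ClAll.zero s142) s143) s144) s145) s146) s147) s148) s149) s150) s151) s152) s153)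

def n140 : Cl (O (nat_lit 4)) (R (nat_lit 14353))
    (p (nat_lit 0x44c2a) (nat_lit 0) (p (nat_lit 0x111) (nat_lit 1) (p (nat_lit 0x109) (nat_lit 0) (p (nat_lit 0x101) (nat_lit 0) (p (nat_lit 0x81) (nat_lit 1) (p (nat_lit 0xc1) (nat_lit 1) (p (nat_lit 0x119) (nat_lit 1) (p (nat_lit 0xd1) (nat_lit 0) (p (nat_lit 0x89) (nat_lit 0) (p (nat_lit 0x41) (nat_lit 0) (p (nat_lit 0x108090887069a) (nat_lit 0) (p (nat_lit 0x107870806861a) (nat_lit 0) (p (nat_lit 0x8000000000000070786058a) (nat_lit 0) (p (nat_lit 0x10787058502) (nat_lit 0) (p (nat_lit 0x10586850482) (nat_lit 0) (p (nat_lit 0x16000c) (nat_lit 0) (p (nat_lit 0x160004) (nat_lit 0) (p (nat_lit 0x68612) (nat_lit 0) (p (nat_lit 0x50592) (nat_lit 0) (p (nat_lit 0x40512) (nat_lit 0) (p (nat_lit 0x50312) (nat_lit 0) (p (nat_lit 0x38292) (nat_lit 0) (p (nat_lit 0x28212) (nat_lit 0) (p (nat_lit 0x38112) (nat_lit 0) (p (nat_lit 0x20092)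 (nat_lit 0) (p (nat_lit 0x10012) (nat_lit 0) pn)))))))))))))))))))))))))) :=
  Cl.node (nat_lit 0x380c2) (nat_lit 1) (by decide +kernel) (ClAll.succ ClAll.zero n83)

def n141 : Cl (O (nat_lit 4)) (R (nat_lit 14353))
    (p (nat_lit 0x44c2a) (nat_lit 2) (p (nat_lit 0x111) (nat_lit 1) (p (nat_lit 0x109) (nat_lit 0) (p (nat_lit 0x101) (nat_lit 0) (p (nat_lit 0x81) (nat_lit 1) (p (nat_lit 0xc1) (nat_lit 1) (p (nat_lit 0x119) (nat_lit 1) (p (nat_lit 0xd1) (nat_lit 0) (p (nat_lit 0x89) (nat_lit 0) (p (nat_lit 0x41) (nat_lit 0) (p (nat_lit 0x108090887069a) (nat_lit 0) (p (nat_lit 0x107870806861a) (nat_lit 0) (p (nat_lit 0x8000000000000070786058a) (nat_lit 0) (p (nat_lit 0x10787058502) (nat_lit 0) (p (nat_lit 0x10586850482) (nat_lit 0) (p (nat_lit 0x16000c) (nat_lit 0) (p (nat_lit 0x160004) (nat_lit 0) (p (nat_lit 0x68612) (nat_lit 0) (p (nat_lit 0x50592) (nat_lit 0) (p (nat_lit 0x40512)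 (nat_lit 0) (p (nat_lit 0x50312) (nat_lit 0) (p (nat_lit 0x38292) (nat_lit 0) (p (nat_lit 0x28212) (nat_lit 0) (p (nat_lit 0x38112) (nat_lit 0) (p (nat_lit 0x20092) (nat_lit 0) (p (nat_lit 0x10012) (nat_lit 0) pn)))))))))))))))))))))))))) :=
  Cl.node (nat_lit 0x380c2) (nat_lit 2) (by decide +kernel) (ClAll.succ (ClAll.succ ClAll.zero s157) s158)

def n142 : Cl (O (nat_lit 4)) (R (nat_lit 14353))
    (p (nat_lit 0x380c2) (nat_lit 0) (p (nat_lit 0x444aa) (nat_lit 7) (p (nat_lit 0x109) (nat_lit 1) (p (nat_lit 0x101) (nat_lit 0) (p (nat_lit 0x81) (nat_lit 1) (p (nat_lit 0xc1) (nat_lit 1) (p (nat_lit 0x119) (nat_lit 1) (p (nat_lit 0xd1) (nat_lit 0) (p (nat_lit 0x89) (nat_lit 0) (p (nat_lit 0x41) (nat_lit 0) (p (nat_lit 0x108090887069a) (nat_lit 0) (p (nat_lit 0x107870806861a) (nat_lit 0) (p (nat_lit 0x8000000000000070786058a) (nat_lit 0) (p (nat_lit 0x10787058502) (nat_lit 0) (p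 (nat_lit 0x10586850482) (nat_lit 0) (p (nat_lit 0x16000c) (nat_lit 0) (p (nat_lit 0x160004) (nat_lit 0) (p (nat_lit 0x68612) (nat_lit 0) (p (nat_lit 0x50592) (nat_lit 0) (p (nat_lit 0x40512) (nat_lit 0) (p (nat_lit 0x50312) (nat_lit 0) (p (nat_lit 0x38292) (nat_lit 0) (p (nat_lit 0x28212) (nat_lit 0) (p (nat_lit 0x38112) (nat_lit 0) (p (nat_lit 0x20092) (nat_lit 0) (p (nat_lit 0x10012) (nat_lit 0) pn)))))))))))))))))))))))))) :=
  Cl.node (nat_lit 0x119) (nat_lit 2) (by decide +kernel) (ClAll.succ (ClAll.succ ClAll.zero n84) n85)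

def n143 : Cl (O (nat_lit 4)) (R (nat_lit 14353))
    (p (nat_lit 0x380c2) (nat_lit 1) (p (nat_lit 0x444aa) (nat_lit 7) (p (nat_lit 0x109) (nat_lit 1) (p (nat_lit 0x101) (nat_lit 0) (p (nat_lit 0x81) (nat_lit 1) (p (nat_lit 0xc1) (nat_lit 1) (p (nat_lit 0x119) (nat_lit 1) (p (nat_lit 0xd1) (nat_lit 0) (p (nat_lit 0x89) (nat_lit 0) (p (nat_lit 0x41) (nat_lit 0) (p (nat_lit 0x108090887069a) (nat_lit 0) (p (nat_lit 0x107870806861a) (nat_lit 0) (p (nat_lit 0x8000000000000070786058a) (nat_lit 0) (p (nat_lit 0x10787058502) (nat_lit 0) (p (nat_lit 0x10586850482) (nat_lit 0) (p (nat_lit 0x16000c) (nat_lit 0) (p (nat_lit 0x160004) (nat_lit 0) (p (nat_lit 0x68612) (nat_lit 0) (p (nat_lit 0x50592) (nat_lit 0) (p (nat_lit 0x40512) (nat_lit 0) (p (nat_lit 0x50312) (nat_lit 0) (p (nat_lit 0x38292) (nat_lit 0) (p (nat_lit 0x28212) (nat_lit 0) (p (nat_lit 0x38112) (nat_lit 0) (p (nat_lit 0x20092)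 (nat_lit 0) (p (nat_lit 0x10012) (nat_lit 0) pn)))))))))))))))))))))))))) :=
  Cl.node (nat_lit 0x109) (nat_lit 2) (by decide +kernel) (ClAll.succ (ClAll.succ ClAll.zero n86) s193)

def n144 : Cl (O (nat_lit 4)) (R (nat_lit 14353))
    (p (nat_lit 0x380c2) (nat_lit 1) (p (nat_lit 0x444aa) (nat_lit 8) (p (nat_lit 0x109) (nat_lit 1) (p (nat_lit 0x101) (nat_lit 0) (p (nat_lit 0x81) (nat_lit 1) (p (nat_lit 0xc1) (nat_lit 1) (p (nat_lit 0x119) (nat_lit 1) (p (nat_lit 0xd1) (nat_lit 0) (p (nat_lit 0x89) (nat_lit 0) (p (nat_lit 0x41) (nat_lit 0) (p (nat_lit 0x108090887069a) (nat_lit 0) (p (nat_lit 0x107870806861a) (nat_lit 0) (p (nat_lit 0x8000000000000070786058a) (nat_lit 0) (p (nat_lit 0x10787058502) (nat_lit 0) (p (nat_lit 0x10586850482) (nat_lit 0) (p (nat_lit 0x16000c) (nat_lit 0) (p (nat_lit 0x160004) (nat_lit 0) (p (nat_lit 0x68612) (nat_lit 0) (p (nat_lit 0x50592) (nat_lit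 0) (p (nat_lit 0x40512) (nat_lit 0) (p (nat_lit 0x50312) (nat_lit 0) (p (nat_lit 0x38292) (nat_lit 0) (p (nat_lit 0x28212) (nat_lit 0) (p (nat_lit 0x38112) (nat_lit 0) (p (nat_lit 0x20092) (nat_lit 0) (p (nat_lit 0x10012) (nat_lit 0) pn)))))))))))))))))))))))))) :=
  Cl.node (nat_lit 0xb0004) (nat_lit 2) (by decide +kernel) (ClAll.succ (ClAll.succ ClAll.zero n87) s198)

def n145 : Cl (O (nat_lit 4)) (R (nat_lit 14353))
    (p (nat_lit 0x119) (nat_lit 0) (p (nat_lit 0x380c2) (nat_lit 0) (p (nat_lit 0x3cc2a) (nat_lit 0) (p (nat_lit 0xc1) (nat_lit 0) (p (nat_lit 0x109) (nat_lit 1) (p (nat_lit 0x101) (nat_lit 0) (p (nat_lit 0x111) (nat_lit 0) (p (nat_lit 0xd1) (nat_lit 1) (p (nat_lit 0x89) (nat_lit 0) (p (nat_lit 0x41) (nat_lit 0) (p (nat_lit 0x108090887069a) (nat_lit 0) (p (nat_lit 0x107870806861a) (nat_lit 0) (p (nat_lit 0x8000000000000070786058a) (nat_lit 0) (p (nat_lit 0x10787058502)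 (nat_lit 0) (p (nat_lit 0x10586850482) (nat_lit 0) (p (nat_lit 0x16000c) (nat_lit 0) (p (nat_lit 0x160004) (nat_lit 0) (p (nat_lit 0x68612) (nat_lit 0) (p (nat_lit 0x50592) (nat_lit 0) (p (nat_lit 0x40512) (nat_lit 0) (p (nat_lit 0x50312) (nat_lit 0) (p (nat_lit 0x38292) (nat_lit 0) (p (nat_lit 0x28212) (nat_lit 0) (p (nat_lit 0x38112) (nat_lit 0) (p (nat_lit 0x20092) (nat_lit 0) (p (nat_lit 0x10012) (nat_lit 0) pn)))))))))))))))))))))))))) :=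
  Cl.node (nat_lit 0x109) (nat_lit 2) (by decide +kernel) (ClAll.succ (ClAll.succ ClAll.zero s215) s216)

def n146 : Cl (O (nat_lit 4)) (R (nat_lit 14353))
    (p (nat_lit 0x3cc2a) (nat_lit 0) (p (nat_lit 0x41) (nat_lit 0) (p (nat_lit 0x200014) (nat_lit 0) (p (nat_lit 0xc1) (nat_lit 1) (p (nat_lit 0x109) (nat_lit 1) (p (nat_lit 0x101) (nat_lit 0) (p (nat_lit 0x111) (nat_lit 0) (p (nat_lit 0xd1) (nat_lit 1) (p (nat_lit 0x89) (nat_lit 0) (p (nat_lit 0x41) (nat_lit 0) (p (nat_lit 0x108090887069a) (nat_lit 0) (p (nat_lit 0x107870806861a) (nat_lit 0) (p (nat_lit 0x8000000000000070786058a) (nat_lit 0) (p (nat_lit 0x10787058502) (nat_lit 0) (p (nat_lit 0x10586850482) (nat_lit 0) (p (nat_lit 0x16000c) (nat_lit 0) (p (nat_lit 0x160004) (nat_lit 0) (p (nat_lit 0x68612) (nat_lit 0) (p (nat_lit 0x50592) (nat_lit 0) (p (nat_lit 0x40512) (nat_lit 0) (p (nat_lit 0x50312) (nat_lit 0) (p (nat_lit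 0x38292) (nat_lit 0) (p (nat_lit 0x28212) (nat_lit 0) (p (nat_lit 0x38112) (nat_lit 0) (p (nat_lit 0x20092) (nat_lit 0) (p (nat_lit 0x10012) (nat_lit 0) pn)))))))))))))))))))))))))) :=
  Cl.node (nat_lit 0x380c2) (nat_lit 1) (by decide +kernel) (ClAll.succ ClAll.zero n88)

def n147 : Cl (O (nat_lit 4)) (R (nat_lit 14353))
    (p (nat_lit 0x3cc2a) (nat_lit 0) (p (nat_lit 0x109) (nat_lit 1) (p (nat_lit 0x200014) (nat_lit 0) (p (nat_lit 0x119) (nat_lit 0) (p (nat_lit 0x81) (nat_lit 0) (p (nat_lit 0x101) (nat_lit 1) (p (nat_lit 0x111) (nat_lit 0) (p (nat_lit 0xd1) (nat_lit 1) (p (nat_lit 0x89) (nat_lit 0) (p (nat_lit 0x41) (nat_lit 0) (p (nat_lit 0x108090887069a) (nat_lit 0) (p (nat_lit 0x107870806861a) (nat_lit 0) (p (nat_lit 0x8000000000000070786058a) (nat_lit 0) (p (nat_lit 0x10787058502) (nat_lit 0) (p (nat_lit 0x10586850482) (nat_lit 0) (p (nat_lit 0x16000c) (nat_lit 0) (p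 (nat_lit 0x160004) (nat_lit 0) (p (nat_lit 0x68612) (nat_lit 0) (p (nat_lit 0x50592) (nat_lit 0) (p (nat_lit 0x40512) (nat_lit 0) (p (nat_lit 0x50312) (nat_lit 0) (p (nat_lit 0x38292) (nat_lit 0) (p (nat_lit 0x28212) (nat_lit 0) (p (nat_lit 0x38112) (nat_lit 0) (p (nat_lit 0x20092) (nat_lit 0) (p (nat_lit 0x10012) (nat_lit 0) pn)))))))))))))))))))))))))) :=
  Cl.node (nat_lit 0x380c2) (nat_lit 1) (by decide +kernel) (ClAll.succ ClAll.zero n89)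

def n148 : Cl (O (nat_lit 4)) (R (nat_lit 14353))
    (p (nat_lit 0x380c2) (nat_lit 0) (p (nat_lit 0x444aa) (nat_lit 7) (p (nat_lit 0x119) (nat_lit 0) (p (nat_lit 0xc1) (nat_lit 0) (p (nat_lit 0x81) (nat_lit 1) (p (nat_lit 0x101) (nat_lit 1) (p (nat_lit 0x111) (nat_lit 0) (p (nat_lit 0xd1) (nat_lit 1) (p (nat_lit 0x89) (nat_lit 0) (p (nat_lit 0x41) (nat_lit 0) (p (nat_lit 0x108090887069a) (nat_lit 0) (p (nat_lit 0x107870806861a) (nat_lit 0) (p (nat_lit 0x8000000000000070786058a) (nat_lit 0) (p (nat_lit 0x10787058502) (nat_lit 0) (p (nat_lit 0x10586850482) (nat_lit 0) (p (nat_lit 0x16000c) (nat_lit 0) (p (nat_lit 0x160004) (nat_lit 0) (p (nat_lit 0x68612) (nat_lit 0) (p (nat_lit 0x50592) (nat_lit 0) (p (nat_lit 0x40512) (nat_lit 0) (p (nat_lit 0x50312) (nat_lit 0) (p (nat_lit 0x38292) (nat_lit 0) (p (nat_lit 0x28212) (nat_lit 0) (p (nat_lit 0x38112) (nat_lit 0) (p (nat_lit 0x20092)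 (nat_lit 0) (p (nat_lit 0x10012) (nat_lit 0) pn)))))))))))))))))))))))))) :=
  Cl.node (nat_lit 0xc9) (nat_lit 2) (by decide +kernel) (ClAll.succ (ClAll.succ ClAll.zero n90) s293)

def n149 : Cl (O (nat_lit 4)) (R (nat_lit 14353))
    (p (nat_lit 0xb0004) (nat_lit 0) (p (nat_lit 0x380c2) (nat_lit 0) (p (nat_lit 0x3cc2a) (nat_lit 0) (p (nat_lit 0x101) (nat_lit 0) (p (nat_lit 0xc1) (nat_lit 1) (p (nat_lit 0x81) (nat_lit 1) (p (nat_lit 0x111) (nat_lit 1) (p (nat_lit 0xd1) (nat_lit 1) (p (nat_lit 0x89) (nat_lit 0) (p (nat_lit 0x41) (nat_lit 0) (p (nat_lit 0x108090887069a) (nat_lit 0) (p (nat_lit 0x107870806861a) (nat_lit 0) (p (nat_lit 0x8000000000000070786058a) (nat_lit 0) (p (nat_lit 0x10787058502) (nat_lit 0) (p (nat_lit 0x10586850482) (nat_lit 0) (p (nat_lit 0x16000c) (nat_lit 0) (p (nat_lit 0x160004) (nat_lit 0) (p (nat_lit 0x68612) (nat_lit 0) (p (nat_lit 0x50592) (nat_lit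 0) (p (nat_lit 0x40512) (nat_lit 0) (p (nat_lit 0x50312) (nat_lit 0) (p (nat_lit 0x38292) (nat_lit 0) (p (nat_lit 0x28212) (nat_lit 0) (p (nat_lit 0x38112) (nat_lit 0) (p (nat_lit 0x20092) (nat_lit 0) (p (nat_lit 0x10012) (nat_lit 0) pn)))))))))))))))))))))))))) :=
  Cl.node (nat_lit 0x41) (nat_lit 2) (by decide +kernel) (ClAll.succ (ClAll.succ ClAll.zero s315) n91)

def n150 : Cl (O (nat_lit 4)) (R (nat_lit 14353))
    (p (nat_lit 0x89) (nat_lit 0) (p (nat_lit 0x81) (nat_lit 0) (p (nat_lit 0xd1) (nat_lit 1) (p (nat_lit 0x111) (nat_lit 1) (p (nat_lit 0x109) (nat_lit 0) (p (nat_lit 0x101) (nat_lit 0) (p (nat_lit 0x119) (nat_lit 0) (p (nat_lit 0xc9) (nat_lit 0) (p (nat_lit 0x89) (nat_lit 1) (p (nat_lit 0x41) (nat_lit 0) (p (nat_lit 0x108090887069a) (nat_lit 0) (p (nat_lit 0x107870806861a) (nat_lit 0) (p (nat_lit 0x8000000000000070786058a) (nat_lit 0) (p (nat_lit 0x10787058502)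 (nat_lit 0) (p (nat_lit 0x10586850482) (nat_lit 0) (p (nat_lit 0x16000c) (nat_lit 0) (p (nat_lit 0x160004) (nat_lit 0) (p (nat_lit 0x68612) (nat_lit 0) (p (nat_lit 0x50592) (nat_lit 0) (p (nat_lit 0x40512) (nat_lit 0) (p (nat_lit 0x50312) (nat_lit 0) (p (nat_lit 0x38292) (nat_lit 0) (p (nat_lit 0x28212) (nat_lit 0) (p (nat_lit 0x38112) (nat_lit 0) (p (nat_lit 0x20092) (nat_lit 0) (p (nat_lit 0x10012) (nat_lit 0) pn)))))))))))))))))))))))))) :=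
  Cl.node (nat_lit 0x200014) (nat_lit 2) (by decide +kernel) (ClAll.succ (ClAll.succ ClAll.zero s345) s346)

def n151 : Cl (O (nat_lit 4)) (R (nat_lit 14353))
    (p (nat_lit 0x44c2a) (nat_lit 0) (p (nat_lit 0x41) (nat_lit 0) (p (nat_lit 0x200014) (nat_lit 0) (p (nat_lit 0xd1) (nat_lit 0) (p (nat_lit 0x109) (nat_lit 1) (p (nat_lit 0x101) (nat_lit 0) (p (nat_lit 0x119) (nat_lit 0) (p (nat_lit 0xc9) (nat_lit 0) (p (nat_lit 0x89) (nat_lit 1) (p (nat_lit 0x41) (nat_lit 0) (p (nat_lit 0x108090887069a) (nat_lit 0) (p (nat_lit 0x107870806861a) (nat_lit 0) (p (nat_lit 0x8000000000000070786058a) (nat_lit 0) (p (nat_lit 0x10787058502) (nat_lit 0) (p (nat_lit 0x10586850482) (nat_lit 0) (p (nat_lit 0x16000c) (nat_lit 0) (p (nat_lit 0x160004) (nat_lit 0) (p (nat_lit 0x68612) (nat_lit 0) (p (nat_lit 0x50592) (nat_lit 0) (p (nat_lit 0x40512) (nat_lit 0) (p (nat_lit 0x50312) (nat_lit 0) (p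 (nat_lit 0x38292) (nat_lit 0) (p (nat_lit 0x28212) (nat_lit 0) (p (nat_lit 0x38112) (nat_lit 0) (p (nat_lit 0x20092) (nat_lit 0) (p (nat_lit 0x10012) (nat_lit 0) pn)))))))))))))))))))))))))) :=
  Cl.node (nat_lit 0x380c2) (nat_lit 1) (by decide +kernel) (ClAll.succ ClAll.zero n92)

def n152 : Cl (O (nat_lit 4)) (R (nat_lit 14353))
    (p (nat_lit 0x44c2a) (nat_lit 2) (p (nat_lit 0x41) (nat_lit 0) (p (nat_lit 0x200014) (nat_lit 0) (p (nat_lit 0xd1) (nat_lit 0) (p (nat_lit 0x109) (nat_lit 1) (p (nat_lit 0x101) (nat_lit 0) (p (nat_lit 0x119) (nat_lit 0) (p (nat_lit 0xc9) (nat_lit 0) (p (nat_lit 0x89) (nat_lit 1) (p (nat_lit 0x41) (nat_lit 0) (p (nat_lit 0x108090887069a) (nat_lit 0) (p (nat_lit 0x107870806861a) (nat_lit 0) (p (nat_lit 0x8000000000000070786058a) (nat_lit 0) (p (nat_lit 0x10787058502) (nat_lit 0) (p (nat_lit 0x10586850482) (nat_lit 0) (p (nat_lit 0x16000c) (nat_lit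 0) (p (nat_lit 0x160004) (nat_lit 0) (p (nat_lit 0x68612) (nat_lit 0) (p (nat_lit 0x50592) (nat_lit 0) (p (nat_lit 0x40512) (nat_lit 0) (p (nat_lit 0x50312) (nat_lit 0) (p (nat_lit 0x38292) (nat_lit 0) (p (nat_lit 0x28212) (nat_lit 0) (p (nat_lit 0x38112) (nat_lit 0) (p (nat_lit 0x20092) (nat_lit 0) (p (nat_lit 0x10012) (nat_lit 0) pn)))))))))))))))))))))))))) :=
  Cl.node (nat_lit 0x380c2) (nat_lit 2) (by decide +kernel) (ClAll.succ (ClAll.succ ClAll.zero s352) s353)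

def n153 : Cl (O (nat_lit 4)) (R (nat_lit 14353))
    (p (nat_lit 0xc1) (nat_lit 0) (p (nat_lit 0x380c2) (nat_lit 0) (p (nat_lit 0x444aa) (nat_lit 7) (p (nat_lit 0xd1) (nat_lit 1) (p (nat_lit 0x109) (nat_lit 1) (p (nat_lit 0x101) (nat_lit 0) (p (nat_lit 0x119) (nat_lit 0) (p (nat_lit 0xc9) (nat_lit 0) (p (nat_lit 0x89) (nat_lit 1) (p (nat_lit 0x41) (nat_lit 0) (p (nat_lit 0x108090887069a) (nat_lit 0) (p (nat_lit 0x107870806861a) (nat_lit 0) (p (nat_lit 0x8000000000000070786058a) (nat_lit 0) (p (nat_lit 0x10787058502) (nat_lit 0) (p (nat_lit 0x10586850482) (nat_lit 0) (p (nat_lit 0x16000c) (nat_lit 0) (p (nat_lit 0x160004) (nat_lit 0) (p (nat_lit 0x68612) (nat_lit 0) (p (nat_lit 0x50592) (nat_lit 0) (p (nat_lit 0x40512) (nat_lit 0) (p (nat_lit 0x50312) (nat_lit 0) (p (nat_lit 0x38292) (nat_lit 0) (p (nat_lit 0x28212) (nat_lit 0) (p (nat_lit 0x38112) (nat_lit 0) (p (nat_lit 0x20092)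 (nat_lit 0) (p (nat_lit 0x10012) (nat_lit 0) pn)))))))))))))))))))))))))) :=
  Cl.node (nat_lit 0xc9) (nat_lit 2) (by decide +kernel) (ClAll.succ (ClAll.succ ClAll.zero n93) s385)

def n154 : Cl (O (nat_lit 4)) (R (nat_lit 14353))
    (p (nat_lit 0xc1) (nat_lit 0) (p (nat_lit 0x380c2) (nat_lit 1) (p (nat_lit 0x444aa) (nat_lit 7) (p (nat_lit 0xd1) (nat_lit 1) (p (nat_lit 0x109) (nat_lit 1) (p (nat_lit 0x101) (nat_lit 0) (p (nat_lit 0x119) (nat_lit 0) (p (nat_lit 0xc9) (nat_lit 0) (p (nat_lit 0x89) (nat_lit 1) (p (nat_lit 0x41) (nat_lit 0) (p (nat_lit 0x108090887069a) (nat_lit 0) (p (nat_lit 0x107870806861a) (nat_lit 0) (p (nat_lit 0x8000000000000070786058a) (nat_lit 0) (p (nat_lit 0x10787058502) (nat_lit 0) (p (nat_lit 0x10586850482) (nat_lit 0) (p (nat_lit 0x16000c) (nat_lit 0) (p (nat_lit 0x160004) (nat_lit 0) (p (nat_lit 0x68612) (nat_lit 0) (p (nat_lit 0x50592) (nat_lit 0)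 (p (nat_lit 0x40512) (nat_lit 0) (p (nat_lit 0x50312) (nat_lit 0) (p (nat_lit 0x38292) (nat_lit 0) (p (nat_lit 0x28212) (nat_lit 0) (p (nat_lit 0x38112) (nat_lit 0) (p (nat_lit 0x20092) (nat_lit 0) (p (nat_lit 0x10012) (nat_lit 0) pn)))))))))))))))))))))))))) :=
  Cl.node (nat_lit 0xc9) (nat_lit 2) (by decide +kernel) (ClAll.succ (ClAll.succ ClAll.zero n94) s390)

def n155 : Cl (O (nat_lit 4)) (R (nat_lit 14353))
    (p (nat_lit 0x44c2a) (nat_lit 0) (p (nat_lit 0x109) (nat_lit 1) (p (nat_lit 0x200014) (nat_lit 0) (p (nat_lit 0xd1) (nat_lit 0) (p (nat_lit 0xc1) (nat_lit 0) (p (nat_lit 0x101) (nat_lit 1) (p (nat_lit 0x119) (nat_lit 0) (p (nat_lit 0xc9) (nat_lit 0) (p (nat_lit 0x89) (nat_lit 1) (p (nat_lit 0x41) (nat_lit 0) (p (nat_lit 0x108090887069a) (nat_lit 0) (p (nat_lit 0x107870806861a) (nat_lit 0) (p (nat_lit 0x8000000000000070786058a) (nat_lit 0) (p (nat_lit 0x10787058502)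 (nat_lit 0) (p (nat_lit 0x10586850482) (nat_lit 0) (p (nat_lit 0x16000c) (nat_lit 0) (p (nat_lit 0x160004) (nat_lit 0) (p (nat_lit 0x68612) (nat_lit 0) (p (nat_lit 0x50592) (nat_lit 0) (p (nat_lit 0x40512) (nat_lit 0) (p (nat_lit 0x50312) (nat_lit 0) (p (nat_lit 0x38292) (nat_lit 0) (p (nat_lit 0x28212) (nat_lit 0) (p (nat_lit 0x38112) (nat_lit 0) (p (nat_lit 0x20092) (nat_lit 0) (p (nat_lit 0x10012) (nat_lit 0) pn)))))))))))))))))))))))))) :=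
  Cl.node (nat_lit 0x380c2) (nat_lit 1) (by decide +kernel) (ClAll.succ ClAll.zero n95)

def n156 : Cl (O (nat_lit 4)) (R (nat_lit 14353))
    (p (nat_lit 0x44c2a) (nat_lit 2) (p (nat_lit 0x109) (nat_lit 1) (p (nat_lit 0x200014) (nat_lit 0) (p (nat_lit 0xd1) (nat_lit 0) (p (nat_lit 0xc1) (nat_lit 0) (p (nat_lit 0x101) (nat_lit 1) (p (nat_lit 0x119) (nat_lit 0) (p (nat_lit 0xc9) (nat_lit 0) (p (nat_lit 0x89) (nat_lit 1) (p (nat_lit 0x41) (nat_lit 0) (p (nat_lit 0x108090887069a) (nat_lit 0) (p (nat_lit 0x107870806861a) (nat_lit 0) (p (nat_lit 0x8000000000000070786058a) (nat_lit 0) (p (nat_lit 0x10787058502) (nat_lit 0) (p (nat_lit 0x10586850482) (nat_lit 0) (p (nat_lit 0x16000c) (nat_lit 0) (p (nat_lit 0x160004) (nat_lit 0) (p (nat_lit 0x68612) (nat_lit 0) (p (nat_lit 0x50592) (nat_lit 0) (p (nat_lit 0x40512) (nat_lit 0) (p (nat_lit 0x50312) (nat_lit 0) (p (nat_lit 0x38292) (nat_lit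 0) (p (nat_lit 0x28212) (nat_lit 0) (p (nat_lit 0x38112) (nat_lit 0) (p (nat_lit 0x20092) (nat_lit 0) (p (nat_lit 0x10012) (nat_lit 0) pn)))))))))))))))))))))))))) :=
  Cl.node (nat_lit 0x380c2) (nat_lit 2) (by decide +kernel) (ClAll.succ (ClAll.succ ClAll.zero s400) s401)

def n157 : Cl (O (nat_lit 4)) (R (nat_lit 14353))
    (p (nat_lit 0xc9) (nat_lit 0) (p (nat_lit 0x380c2) (nat_lit 0) (p (nat_lit 0x444aa) (nat_lit 7) (p (nat_lit 0xd1) (nat_lit 1) (p (nat_lit 0xc1) (nat_lit 0) (p (nat_lit 0x101) (nat_lit 1) (p (nat_lit 0x119) (nat_lit 0) (p (nat_lit 0xc9) (nat_lit 0) (p (nat_lit 0x89) (nat_lit 1) (p (nat_lit 0x41) (nat_lit 0) (p (nat_lit 0x108090887069a) (nat_lit 0) (p (nat_lit 0x107870806861a) (nat_lit 0) (p (nat_lit 0x8000000000000070786058a) (nat_lit 0) (p (nat_lit 0x10787058502) (nat_lit 0) (p (nat_lit 0x10586850482) (nat_lit 0) (p (nat_lit 0x16000c) (nat_lit 0) (p (nat_lit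 0x160004) (nat_lit 0) (p (nat_lit 0x68612) (nat_lit 0) (p (nat_lit 0x50592) (nat_lit 0) (p (nat_lit 0x40512) (nat_lit 0) (p (nat_lit 0x50312) (nat_lit 0) (p (nat_lit 0x38292) (nat_lit 0) (p (nat_lit 0x28212) (nat_lit 0) (p (nat_lit 0x38112) (nat_lit 0) (p (nat_lit 0x20092) (nat_lit 0) (p (nat_lit 0x10012) (nat_lit 0) pn)))))))))))))))))))))))))) :=
  Cl.node (nat_lit 0x119) (nat_lit 2) (by decide +kernel) (ClAll.succ (ClAll.succ ClAll.zero s419) n96)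

def n158 : Cl (O (nat_lit 4)) (R (nat_lit 14353))
    (p (nat_lit 0xc9) (nat_lit 0) (p (nat_lit 0x380c2) (nat_lit 1) (p (nat_lit 0x444aa) (nat_lit 7) (p (nat_lit 0xd1) (nat_lit 1) (p (nat_lit 0xc1) (nat_lit 0) (p (nat_lit 0x101) (nat_lit 1) (p (nat_lit 0x119) (nat_lit 0) (p (nat_lit 0xc9) (nat_lit 0) (p (nat_lit 0x89) (nat_lit 1) (p (nat_lit 0x41) (nat_lit 0) (p (nat_lit 0x108090887069a) (nat_lit 0) (p (nat_lit 0x107870806861a) (nat_lit 0) (p (nat_lit 0x8000000000000070786058a) (nat_lit 0) (p (nat_lit 0x10787058502) (nat_lit 0) (p (nat_lit 0x10586850482) (nat_lit 0) (p (nat_lit 0x16000c) (nat_lit 0) (p (nat_lit 0x160004) (nat_lit 0) (p (nat_lit 0x68612) (nat_lit 0) (p (nat_lit 0x50592) (nat_lit 0) (p (nat_lit 0x40512) (nat_lit 0) (p (nat_lit 0x50312) (nat_lit 0) (p (nat_lit 0x38292) (nat_lit 0) (p (nat_lit 0x28212) (nat_lit 0) (p (nat_lit 0x38112) (nat_lit 0) (p (nat_lit 0x20092)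 (nat_lit 0) (p (nat_lit 0x10012) (nat_lit 0) pn)))))))))))))))))))))))))) :=
  Cl.node (nat_lit 0x119) (nat_lit 2) (by decide +kernel) (ClAll.succ (ClAll.succ ClAll.zero s434) n97)

def n159 : Cl (O (nat_lit 4)) (R (nat_lit 14353))
    (p (nat_lit 0x109) (nat_lit 0) (p (nat_lit 0x380c2) (nat_lit 0) (p (nat_lit 0x444aa) (nat_lit 7) (p (nat_lit 0x111) (nat_lit 1) (p (nat_lit 0xd1) (nat_lit 1) (p (nat_lit 0xc1) (nat_lit 0) (p (nat_lit 0x119) (nat_lit 1) (p (nat_lit 0xc9) (nat_lit 0) (p (nat_lit 0x89) (nat_lit 1) (p (nat_lit 0x41) (nat_lit 0) (p (nat_lit 0x108090887069a) (nat_lit 0) (p (nat_lit 0x107870806861a) (nat_lit 0) (p (nat_lit 0x8000000000000070786058a) (nat_lit 0) (p (nat_lit 0x10787058502) (nat_lit 0) (p (nat_lit 0x10586850482) (nat_lit 0) (p (nat_lit 0x16000c) (nat_lit 0) (p (nat_lit 0x160004) (nat_lit 0) (p (nat_lit 0x68612) (nat_lit 0) (p (nat_lit 0x50592) (nat_lit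 0) (p (nat_lit 0x40512) (nat_lit 0) (p (nat_lit 0x50312) (nat_lit 0) (p (nat_lit 0x38292) (nat_lit 0) (p (nat_lit 0x28212) (nat_lit 0) (p (nat_lit 0x38112) (nat_lit 0) (p (nat_lit 0x20092) (nat_lit 0) (p (nat_lit 0x10012) (nat_lit 0) pn)))))))))))))))))))))))))) :=
  Cl.node (nat_lit 0xb000c) (nat_lit 2) (by decide +kernel) (ClAll.succ (ClAll.succ ClAll.zero n98) s455)

def n160 : Cl (O (nat_lit 4)) (R (nat_lit 14353))
    (p (nat_lit 0x109) (nat_lit 0) (p (nat_lit 0x380c2) (nat_lit 1) (p (nat_lit 0x444aa) (nat_lit 7) (p (nat_lit 0x111) (nat_lit 1) (p (nat_lit 0xd1) (nat_lit 1) (p (nat_lit 0xc1) (nat_lit 0) (p (nat_lit 0x119) (nat_lit 1) (p (nat_lit 0xc9) (nat_lit 0) (p (nat_lit 0x89) (nat_lit 1) (p (nat_lit 0x41) (nat_lit 0) (p (nat_lit 0x108090887069a) (nat_lit 0) (p (nat_lit 0x107870806861a) (nat_lit 0) (p (nat_lit 0x8000000000000070786058a) (nat_lit 0) (p (nat_lit 0x10787058502)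 (nat_lit 0) (p (nat_lit 0x10586850482) (nat_lit 0) (p (nat_lit 0x16000c) (nat_lit 0) (p (nat_lit 0x160004) (nat_lit 0) (p (nat_lit 0x68612) (nat_lit 0) (p (nat_lit 0x50592) (nat_lit 0) (p (nat_lit 0x40512) (nat_lit 0) (p (nat_lit 0x50312) (nat_lit 0) (p (nat_lit 0x38292) (nat_lit 0) (p (nat_lit 0x28212) (nat_lit 0) (p (nat_lit 0x38112) (nat_lit 0) (p (nat_lit 0x20092) (nat_lit 0) (p (nat_lit 0x10012) (nat_lit 0) pn)))))))))))))))))))))))))) :=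
  Cl.node (nat_lit 0xb0004) (nat_lit 2) (by decide +kernel) (ClAll.succ (ClAll.succ ClAll.zero n99) s467)

def n161 : Cl (O (nat_lit 4)) (R (nat_lit 14353))
    (p (nat_lit 0x200014) (nat_lit 1) (p (nat_lit 0x380c2) (nat_lit 1) (p (nat_lit 0x444aa) (nat_lit 8) (p (nat_lit 0x111) (nat_lit 1) (p (nat_lit 0xd1) (nat_lit 1) (p (nat_lit 0xc1) (nat_lit 0) (p (nat_lit 0x119) (nat_lit 1) (p (nat_lit 0xc9) (nat_lit 0) (p (nat_lit 0x89) (nat_lit 1) (p (nat_lit 0x41) (nat_lit 0) (p (nat_lit 0x108090887069a) (nat_lit 0) (p (nat_lit 0x107870806861a) (nat_lit 0) (p (nat_lit 0x8000000000000070786058a) (nat_lit 0) (p (nat_lit 0x10787058502) (nat_lit 0) (p (nat_lit 0x10586850482) (nat_lit 0) (p (nat_lit 0x16000c) (nat_lit 0) (p (nat_lit 0x160004) (nat_lit 0) (p (nat_lit 0x68612) (nat_lit 0) (p (nat_lit 0x50592) (nat_lit 0) (p (nat_lit 0x40512) (nat_lit 0) (p (nat_lit 0x50312) (nat_lit 0) (p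 (nat_lit 0x38292) (nat_lit 0) (p (nat_lit 0x28212) (nat_lit 0) (p (nat_lit 0x38112) (nat_lit 0) (p (nat_lit 0x20092) (nat_lit 0) (p (nat_lit 0x10012) (nat_lit 0) pn)))))))))))))))))))))))))) :=
  Cl.node (nat_lit 0xb0004) (nat_lit 2) (by decide +kernel) (ClAll.succ (ClAll.succ ClAll.zero n100) s474)

def n162 : Cl (O (nat_lit 4)) (R (nat_lit 14353))
    (p (nat_lit 0x109) (nat_lit 0) (p (nat_lit 0x380c2) (nat_lit 0) (p (nat_lit 0x444aa) (nat_lit 7) (p (nat_lit 0x111) (nat_lit 1) (p (nat_lit 0x101) (nat_lit 0) (p (nat_lit 0xc1) (nat_lit 1) (p (nat_lit 0x119) (nat_lit 1) (p (nat_lit 0xc9) (nat_lit 0) (p (nat_lit 0x89) (nat_lit 1) (p (nat_lit 0x41) (nat_lit 0) (p (nat_lit 0x108090887069a) (nat_lit 0) (p (nat_lit 0x107870806861a) (nat_lit 0) (p (nat_lit 0x8000000000000070786058a) (nat_lit 0) (p (nat_lit 0x10787058502) (nat_lit 0) (p (nat_lit 0x10586850482) (nat_lit 0) (p (nat_lit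 0x16000c) (nat_lit 0) (p (nat_lit 0x160004) (nat_lit 0) (p (nat_lit 0x68612) (nat_lit 0) (p (nat_lit 0x50592) (nat_lit 0) (p (nat_lit 0x40512) (nat_lit 0) (p (nat_lit 0x50312) (nat_lit 0) (p (nat_lit 0x38292) (nat_lit 0) (p (nat_lit 0x28212) (nat_lit 0) (p (nat_lit 0x38112) (nat_lit 0) (p (nat_lit 0x20092) (nat_lit 0) (p (nat_lit 0x10012) (nat_lit 0) pn)))))))))))))))))))))))))) :=
  Cl.node (nat_lit 0x119) (nat_lit 2) (by decide +kernel) (ClAll.succ (ClAll.succ ClAll.zero n101) s509)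

def n163 : Cl (O (nat_lit 4)) (R (nat_lit 14353))
    (p (nat_lit 0xc9) (nat_lit 1) (p (nat_lit 0x380c2) (nat_lit 1) (p (nat_lit 0x3c4aa) (nat_lit 7) (p (nat_lit 0x89) (nat_lit 1) (p (nat_lit 0xc1) (nat_lit 1) (p (nat_lit 0x101) (nat_lit 1) (p (nat_lit 0x119) (nat_lit 0) (p (nat_lit 0xd1) (nat_lit 0) (p (nat_lit 0x81) (nat_lit 0) (p (nat_lit 0x41) (nat_lit 1) (p (nat_lit 0x108090887069a) (nat_lit 0) (p (nat_lit 0x107870806861a) (nat_lit 0) (p (nat_lit 0x8000000000000070786058a) (nat_lit 0) (p (nat_lit 0x10787058502) (nat_lit 0) (p (nat_lit 0x10586850482) (nat_lit 0) (p (nat_lit 0x16000c) (nat_lit 0) (p (nat_lit 0x160004) (nat_lit 0) (p (nat_lit 0x68612) (nat_lit 0) (p (nat_lit 0x50592) (nat_lit 0) (p (nat_lit 0x40512) (nat_lit 0) (p (nat_lit 0x50312) (nat_lit 0) (p (nat_lit 0x38292) (nat_lit 0) (p (nat_lit 0x28212) (nat_lit 0) (p (nat_lit 0x38112) (nat_lit 0) (p (nat_lit 0x20092)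 (nat_lit 0) (p (nat_lit 0x10012) (nat_lit 0) pn)))))))))))))))))))))))))) :=
  Cl.node (nat_lit 0x101) (nat_lit 2) (by decide +kernel) (ClAll.succ (ClAll.succ ClAll.zero n102) s624)

def n164 : Cl (O (nat_lit 4)) (R (nat_lit 14353))
    (p (nat_lit 0x380c2) (nat_lit 0) (p (nat_lit 0x44c2a) (nat_lit 1) (p (nat_lit 0x109) (nat_lit 0) (p (nat_lit 0x89) (nat_lit 1) (p (nat_lit 0xc9) (nat_lit 1) (p (nat_lit 0xc1) (nat_lit 0) (p (nat_lit 0x119) (nat_lit 1) (p (nat_lit 0xd1) (nat_lit 0) (p (nat_lit 0x81) (nat_lit 0) (p (nat_lit 0x41) (nat_lit 1) (p (nat_lit 0x108090887069a) (nat_lit 0) (p (nat_lit 0x107870806861a) (nat_lit 0) (p (nat_lit 0x8000000000000070786058a) (nat_lit 0) (p (nat_lit 0x10787058502) (nat_lit 0) (p (nat_lit 0x10586850482) (nat_lit 0) (p (nat_lit 0x16000c) (nat_lit 0) (p (nat_lit 0x160004) (nat_lit 0) (p (nat_lit 0x68612) (nat_lit 0) (p (nat_lit 0x50592) (nat_lit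 0) (p (nat_lit 0x40512) (nat_lit 0) (p (nat_lit 0x50312) (nat_lit 0) (p (nat_lit 0x38292) (nat_lit 0) (p (nat_lit 0x28212) (nat_lit 0) (p (nat_lit 0x38112) (nat_lit 0) (p (nat_lit 0x20092) (nat_lit 0) (p (nat_lit 0x10012) (nat_lit 0) pn)))))))))))))))))))))))))) :=
  Cl.node (nat_lit 0xb000c) (nat_lit 2) (by decide +kernel) (ClAll.succ (ClAll.succ ClAll.zero s634) s635)

def n165 : Cl (O (nat_lit 4)) (R (nat_lit 14353))
    (p (nat_lit 0x380c2) (nat_lit 1) (p (nat_lit 0x3c4aa) (nat_lit 7) (p (nat_lit 0x109) (nat_lit 1) (p (nat_lit 0x89) (nat_lit 1) (p (nat_lit 0xc9) (nat_lit 1) (p (nat_lit 0xc1) (nat_lit 0) (p (nat_lit 0x119) (nat_lit 1) (p (nat_lit 0xd1) (nat_lit 0) (p (nat_lit 0x81) (nat_lit 0) (p (nat_lit 0x41) (nat_lit 1) (p (nat_lit 0x108090887069a) (nat_lit 0) (p (nat_lit 0x107870806861a) (nat_lit 0) (p (nat_lit 0x8000000000000070786058a) (nat_lit 0) (p (nat_lit 0x10787058502)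 (nat_lit 0) (p (nat_lit 0x10586850482) (nat_lit 0) (p (nat_lit 0x16000c) (nat_lit 0) (p (nat_lit 0x160004) (nat_lit 0) (p (nat_lit 0x68612) (nat_lit 0) (p (nat_lit 0x50592) (nat_lit 0) (p (nat_lit 0x40512) (nat_lit 0) (p (nat_lit 0x50312) (nat_lit 0) (p (nat_lit 0x38292) (nat_lit 0) (p (nat_lit 0x28212) (nat_lit 0) (p (nat_lit 0x38112) (nat_lit 0) (p (nat_lit 0x20092) (nat_lit 0) (p (nat_lit 0x10012) (nat_lit 0) pn)))))))))))))))))))))))))) :=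
  Cl.node (nat_lit 0xb000c) (nat_lit 2) (by decide +kernel) (ClAll.succ (ClAll.succ ClAll.zero n103) s657)

def n166 : Cl (O (nat_lit 4)) (R (nat_lit 14353))
    (p (nat_lit 0x380c2) (nat_lit 1) (p (nat_lit 0x3c4aa) (nat_lit 10) (p (nat_lit 0x109) (nat_lit 1) (p (nat_lit 0x89) (nat_lit 1) (p (nat_lit 0xc9) (nat_lit 1) (p (nat_lit 0xc1) (nat_lit 0) (p (nat_lit 0x119) (nat_lit 1) (p (nat_lit 0xd1) (nat_lit 0) (p (nat_lit 0x81) (nat_lit 0) (p (nat_lit 0x41) (nat_lit 1) (p (nat_lit 0x108090887069a) (nat_lit 0) (p (nat_lit 0x107870806861a) (nat_lit 0) (p (nat_lit 0x8000000000000070786058a) (nat_lit 0) (p (nat_lit 0x10787058502) (nat_lit 0) (p (nat_lit 0x10586850482) (nat_lit 0) (p (nat_lit 0x16000c) (nat_lit 0) (p (nat_lit 0x160004) (nat_lit 0) (p (nat_lit 0x68612) (nat_lit 0) (p (nat_lit 0x50592) (nat_lit 0) (p (nat_lit 0x40512) (nat_lit 0) (p (nat_lit 0x50312) (nat_lit 0) (p (nat_lit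 0x38292) (nat_lit 0) (p (nat_lit 0x28212) (nat_lit 0) (p (nat_lit 0x38112) (nat_lit 0) (p (nat_lit 0x20092) (nat_lit 0) (p (nat_lit 0x10012) (nat_lit 0) pn)))))))))))))))))))))))))) :=
  Cl.node (nat_lit 0x200014) (nat_lit 2) (by decide +kernel) (ClAll.succ (ClAll.succ ClAll.zero n104) s664)

def n167 : Cl (O (nat_lit 4)) (R (nat_lit 14353))
    (p (nat_lit 0x380c2) (nat_lit 0) (p (nat_lit 0x44c2a) (nat_lit 1) (p (nat_lit 0x109) (nat_lit 0) (p (nat_lit 0x89) (nat_lit 1) (p (nat_lit 0x101) (nat_lit 0) (p (nat_lit 0xc1) (nat_lit 1) (p (nat_lit 0x119) (nat_lit 1) (p (nat_lit 0xd1) (nat_lit 0) (p (nat_lit 0x81) (nat_lit 0) (p (nat_lit 0x41) (nat_lit 1) (p (nat_lit 0x108090887069a) (nat_lit 0) (p (nat_lit 0x107870806861a) (nat_lit 0) (p (nat_lit 0x8000000000000070786058a) (nat_lit 0) (p (nat_lit 0x10787058502) (nat_lit 0) (p (nat_lit 0x10586850482) (nat_lit 0) (p (nat_lit 0x16000c)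 (nat_lit 0) (p (nat_lit 0x160004) (nat_lit 0) (p (nat_lit 0x68612) (nat_lit 0) (p (nat_lit 0x50592) (nat_lit 0) (p (nat_lit 0x40512) (nat_lit 0) (p (nat_lit 0x50312) (nat_lit 0) (p (nat_lit 0x38292) (nat_lit 0) (p (nat_lit 0x28212) (nat_lit 0) (p (nat_lit 0x38112) (nat_lit 0) (p (nat_lit 0x20092) (nat_lit 0) (p (nat_lit 0x10012) (nat_lit 0) pn)))))))))))))))))))))))))) :=
  Cl.node (nat_lit 0xb0004) (nat_lit 2) (by decide +kernel) (ClAll.succ (ClAll.succ ClAll.zero s668) s669)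

def n168 : Cl (O (nat_lit 4)) (R (nat_lit 14353))
    (p (nat_lit 0x380c2) (nat_lit 0) (p (nat_lit 0x3c4aa) (nat_lit 7) (p (nat_lit 0x109) (nat_lit 1) (p (nat_lit 0x89) (nat_lit 1) (p (nat_lit 0x101) (nat_lit 0) (p (nat_lit 0xc1) (nat_lit 1) (p (nat_lit 0x119) (nat_lit 1) (p (nat_lit 0xd1) (nat_lit 0) (p (nat_lit 0x81) (nat_lit 0) (p (nat_lit 0x41) (nat_lit 1) (p (nat_lit 0x108090887069a) (nat_lit 0) (p (nat_lit 0x107870806861a) (nat_lit 0) (p (nat_lit 0x8000000000000070786058a) (nat_lit 0) (p (nat_lit 0x10787058502) (nat_lit 0) (p (nat_lit 0x10586850482) (nat_lit 0) (p (nat_lit 0x16000c) (nat_lit 0) (p (nat_lit 0x160004) (nat_lit 0) (p (nat_lit 0x68612) (nat_lit 0) (p (nat_lit 0x50592) (nat_lit 0) (p (nat_lit 0x40512) (nat_lit 0) (p (nat_lit 0x50312) (nat_lit 0) (p (nat_lit 0x38292) (nat_lit 0) (p (nat_lit 0x28212) (nat_lit 0) (p (nat_lit 0x38112) (nat_lit 0) (p (nat_lit 0x20092)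 (nat_lit 0) (p (nat_lit 0x10012) (nat_lit 0) pn)))))))))))))))))))))))))) :=
  Cl.node (nat_lit 0xb000c) (nat_lit 2) (by decide +kernel) (ClAll.succ (ClAll.succ ClAll.zero n105) s691)

def n169 : Cl (O (nat_lit 4)) (R (nat_lit 14353))
    (p (nat_lit 0x380c2) (nat_lit 1) (p (nat_lit 0x3c4aa) (nat_lit 7) (p (nat_lit 0x109) (nat_lit 1) (p (nat_lit 0x89) (nat_lit 1) (p (nat_lit 0x101) (nat_lit 0) (p (nat_lit 0xc1) (nat_lit 1) (p (nat_lit 0x119) (nat_lit 1) (p (nat_lit 0xd1) (nat_lit 0) (p (nat_lit 0x81) (nat_lit 0) (p (nat_lit 0x41) (nat_lit 1) (p (nat_lit 0x108090887069a) (nat_lit 0) (p (nat_lit 0x107870806861a) (nat_lit 0) (p (nat_lit 0x8000000000000070786058a) (nat_lit 0) (p (nat_lit 0x10787058502) (nat_lit 0) (p (nat_lit 0x10586850482) (nat_lit 0) (p (nat_lit 0x16000c) (nat_lit 0) (p (nat_lit 0x160004) (nat_lit 0) (p (nat_lit 0x68612) (nat_lit 0) (p (nat_lit 0x50592) (nat_lit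 0) (p (nat_lit 0x40512) (nat_lit 0) (p (nat_lit 0x50312) (nat_lit 0) (p (nat_lit 0x38292) (nat_lit 0) (p (nat_lit 0x28212) (nat_lit 0) (p (nat_lit 0x38112) (nat_lit 0) (p (nat_lit 0x20092) (nat_lit 0) (p (nat_lit 0x10012) (nat_lit 0) pn)))))))))))))))))))))))))) :=
  Cl.node (nat_lit 0xb000c) (nat_lit 2) (by decide +kernel) (ClAll.succ (ClAll.succ ClAll.zero n106) n107)

def n170 : Cl (O (nat_lit 4)) (R (nat_lit 14353))
    (p (nat_lit 0x380c2) (nat_lit 1) (p (nat_lit 0x3c4aa) (nat_lit 10) (p (nat_lit 0x109) (nat_lit 1) (p (nat_lit 0x89) (nat_lit 1) (p (nat_lit 0x101) (nat_lit 0) (p (nat_lit 0xc1) (nat_lit 1) (p (nat_lit 0x119) (nat_lit 1) (p (nat_lit 0xd1) (nat_lit 0) (p (nat_lit 0x81) (nat_lit 0) (p (nat_lit 0x41) (nat_lit 1) (p (nat_lit 0x108090887069a) (nat_lit 0) (p (nat_lit 0x107870806861a) (nat_lit 0) (p (nat_lit 0x8000000000000070786058a) (nat_lit 0) (p (nat_lit 0x10787058502)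 (nat_lit 0) (p (nat_lit 0x10586850482) (nat_lit 0) (p (nat_lit 0x16000c) (nat_lit 0) (p (nat_lit 0x160004) (nat_lit 0) (p (nat_lit 0x68612) (nat_lit 0) (p (nat_lit 0x50592) (nat_lit 0) (p (nat_lit 0x40512) (nat_lit 0) (p (nat_lit 0x50312) (nat_lit 0) (p (nat_lit 0x38292) (nat_lit 0) (p (nat_lit 0x28212) (nat_lit 0) (p (nat_lit 0x38112) (nat_lit 0) (p (nat_lit 0x20092) (nat_lit 0) (p (nat_lit 0x10012) (nat_lit 0) pn)))))))))))))))))))))))))) :=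
  Cl.node (nat_lit 0x200014) (nat_lit 2) (by decide +kernel) (ClAll.succ (ClAll.succ ClAll.zero n108) s721)

def n171 : Cl (O (nat_lit 4)) (R (nat_lit 14353))
    (p (nat_lit 0x81) (nat_lit 0) (p (nat_lit 0x380c2) (nat_lit 0) (p (nat_lit 0x3c4aa) (nat_lit 7) (p (nat_lit 0x89) (nat_lit 1) (p (nat_lit 0x101) (nat_lit 1) (p (nat_lit 0xc1) (nat_lit 1) (p (nat_lit 0x119) (nat_lit 1) (p (nat_lit 0xd1) (nat_lit 0) (p (nat_lit 0x81) (nat_lit 0) (p (nat_lit 0x41) (nat_lit 1) (p (nat_lit 0x108090887069a) (nat_lit 0) (p (nat_lit 0x107870806861a) (nat_lit 0) (p (nat_lit 0x8000000000000070786058a) (nat_lit 0) (p (nat_lit 0x10787058502) (nat_lit 0) (p (nat_lit 0x10586850482) (nat_lit 0) (p (nat_lit 0x16000c) (nat_lit 0) (p (nat_lit 0x160004) (nat_lit 0) (p (nat_lit 0x68612) (nat_lit 0) (p (nat_lit 0x50592) (nat_lit 0) (p (nat_lit 0x40512) (nat_lit 0) (p (nat_lit 0x50312) (nat_lit 0) (p (nat_lit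 0x38292) (nat_lit 0) (p (nat_lit 0x28212) (nat_lit 0) (p (nat_lit 0x38112) (nat_lit 0) (p (nat_lit 0x20092) (nat_lit 0) (p (nat_lit 0x10012) (nat_lit 0) pn)))))))))))))))))))))))))) :=
  Cl.node (nat_lit 0x101) (nat_lit 2) (by decide +kernel) (ClAll.succ (ClAll.succ ClAll.zero n109) s733)

def n172 : Cl (O (nat_lit 4)) (R (nat_lit 14353))
    (p (nat_lit 0x81) (nat_lit 1) (p (nat_lit 0x380c2) (nat_lit 0) (p (nat_lit 0x3c4aa) (nat_lit 7) (p (nat_lit 0x89) (nat_lit 1) (p (nat_lit 0x101) (nat_lit 1) (p (nat_lit 0xc1) (nat_lit 1) (p (nat_lit 0x119) (nat_lit 1) (p (nat_lit 0xd1) (nat_lit 0) (p (nat_lit 0x81) (nat_lit 0) (p (nat_lit 0x41) (nat_lit 1) (p (nat_lit 0x108090887069a) (nat_lit 0) (p (nat_lit 0x107870806861a) (nat_lit 0) (p (nat_lit 0x8000000000000070786058a) (nat_lit 0) (p (nat_lit 0x10787058502) (nat_lit 0) (p (nat_lit 0x10586850482) (nat_lit 0) (p (nat_lit 0x16000c) (nat_lit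 0) (p (nat_lit 0x160004) (nat_lit 0) (p (nat_lit 0x68612) (nat_lit 0) (p (nat_lit 0x50592) (nat_lit 0) (p (nat_lit 0x40512) (nat_lit 0) (p (nat_lit 0x50312) (nat_lit 0) (p (nat_lit 0x38292) (nat_lit 0) (p (nat_lit 0x28212) (nat_lit 0) (p (nat_lit 0x38112) (nat_lit 0) (p (nat_lit 0x20092) (nat_lit 0) (p (nat_lit 0x10012) (nat_lit 0) pn)))))))))))))))))))))))))) :=
  Cl.node (nat_lit 0xc1) (nat_lit 2) (by decide +kernel) (ClAll.succ (ClAll.succ ClAll.zero n110) s737)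

def n173 : Cl (O (nat_lit 4)) (R (nat_lit 14353))
    (p (nat_lit 0x109) (nat_lit 0) (p (nat_lit 0x380c2) (nat_lit 1) (p (nat_lit 0x3c4aa) (nat_lit 7) (p (nat_lit 0x89) (nat_lit 1) (p (nat_lit 0x101) (nat_lit 1) (p (nat_lit 0xc1) (nat_lit 1) (p (nat_lit 0x119) (nat_lit 1) (p (nat_lit 0xd1) (nat_lit 0) (p (nat_lit 0x81) (nat_lit 0) (p (nat_lit 0x41) (nat_lit 1) (p (nat_lit 0x108090887069a) (nat_lit 0) (p (nat_lit 0x107870806861a) (nat_lit 0) (p (nat_lit 0x8000000000000070786058a) (nat_lit 0) (p (nat_lit 0x10787058502) (nat_lit 0) (p (nat_lit 0x10586850482) (nat_lit 0) (p (nat_lit 0x16000c) (nat_lit 0) (p (nat_lit 0x160004) (nat_lit 0) (p (nat_lit 0x68612) (nat_lit 0) (p (nat_lit 0x50592) (nat_lit 0) (p (nat_lit 0x40512) (nat_lit 0) (p (nat_lit 0x50312) (nat_lit 0) (p (nat_lit 0x38292) (nat_lit 0) (p (nat_lit 0x28212) (nat_lit 0) (p (nat_lit 0x38112) (nat_lit 0) (p (nat_lit 0x20092)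 (nat_lit 0) (p (nat_lit 0x10012) (nat_lit 0) pn)))))))))))))))))))))))))) :=
  Cl.node (nat_lit 0xb000c) (nat_lit 2) (by decide +kernel) (ClAll.succ (ClAll.succ ClAll.zero n111) s752)

def n174 : Cl (O (nat_lit 4)) (R (nat_lit 14353))
    (p (nat_lit 0x109) (nat_lit 1) (p (nat_lit 0x380c2) (nat_lit 1) (p (nat_lit 0x3c4aa) (nat_lit 7) (p (nat_lit 0x89) (nat_lit 1) (p (nat_lit 0x101) (nat_lit 1) (p (nat_lit 0xc1) (nat_lit 1) (p (nat_lit 0x119) (nat_lit 1) (p (nat_lit 0xd1) (nat_lit 0) (p (nat_lit 0x81) (nat_lit 0) (p (nat_lit 0x41) (nat_lit 1) (p (nat_lit 0x108090887069a) (nat_lit 0) (p (nat_lit 0x107870806861a) (nat_lit 0) (p (nat_lit 0x8000000000000070786058a) (nat_lit 0) (p (nat_lit 0x10787058502) (nat_lit 0) (p (nat_lit 0x10586850482) (nat_lit 0) (p (nat_lit 0x16000c) (nat_lit 0) (p (nat_lit 0x160004) (nat_lit 0) (p (nat_lit 0x68612) (nat_lit 0) (p (nat_lit 0x50592) (nat_lit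 0) (p (nat_lit 0x40512) (nat_lit 0) (p (nat_lit 0x50312) (nat_lit 0) (p (nat_lit 0x38292) (nat_lit 0) (p (nat_lit 0x28212) (nat_lit 0) (p (nat_lit 0x38112) (nat_lit 0) (p (nat_lit 0x20092) (nat_lit 0) (p (nat_lit 0x10012) (nat_lit 0) pn)))))))))))))))))))))))))) :=
  Cl.node (nat_lit 0xb000c) (nat_lit 2) (by decide +kernel) (ClAll.succ (ClAll.succ ClAll.zero n112) s758)

def n175 : Cl (O (nat_lit 4)) (R (nat_lit 14353))
    (p (nat_lit 0xb000c) (nat_lit 0) (p (nat_lit 0x380c2) (nat_lit 1) (p (nat_lit 0x3c4aa) (nat_lit 10) (p (nat_lit 0x89) (nat_lit 1) (p (nat_lit 0x101) (nat_lit 1) (p (nat_lit 0xc1) (nat_lit 1) (p (nat_lit 0x119) (nat_lit 1) (p (nat_lit 0xd1) (nat_lit 0) (p (nat_lit 0x81) (nat_lit 0) (p (nat_lit 0x41) (nat_lit 1) (p (nat_lit 0x108090887069a) (nat_lit 0) (p (nat_lit 0x107870806861a) (nat_lit 0) (p (nat_lit 0x8000000000000070786058a) (nat_lit 0) (p (nat_lit 0x10787058502)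 (nat_lit 0) (p (nat_lit 0x10586850482) (nat_lit 0) (p (nat_lit 0x16000c) (nat_lit 0) (p (nat_lit 0x160004) (nat_lit 0) (p (nat_lit 0x68612) (nat_lit 0) (p (nat_lit 0x50592) (nat_lit 0) (p (nat_lit 0x40512) (nat_lit 0) (p (nat_lit 0x50312) (nat_lit 0) (p (nat_lit 0x38292) (nat_lit 0) (p (nat_lit 0x28212) (nat_lit 0) (p (nat_lit 0x38112) (nat_lit 0) (p (nat_lit 0x20092) (nat_lit 0) (p (nat_lit 0x10012) (nat_lit 0) pn)))))))))))))))))))))))))) :=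
  Cl.node (nat_lit 0xb0004) (nat_lit 2) (by decide +kernel) (ClAll.succ (ClAll.succ ClAll.zero n113) s764)

def n176 : Cl (O (nat_lit 4)) (R (nat_lit 14353))
    (p (nat_lit 0x380c2) (nat_lit 1) (p (nat_lit 0x3c4aa) (nat_lit 7) (p (nat_lit 0xc9) (nat_lit 1) (p (nat_lit 0x89) (nat_lit 1) (p (nat_lit 0x109) (nat_lit 1) (p (nat_lit 0x101) (nat_lit 0) (p (nat_lit 0x111) (nat_lit 0) (p (nat_lit 0xd1) (nat_lit 1) (p (nat_lit 0x81) (nat_lit 0) (p (nat_lit 0x41) (nat_lit 1) (p (nat_lit 0x108090887069a) (nat_lit 0) (p (nat_lit 0x107870806861a) (nat_lit 0) (p (nat_lit 0x8000000000000070786058a) (nat_lit 0) (p (nat_lit 0x10787058502) (nat_lit 0) (p (nat_lit 0x10586850482) (nat_lit 0) (p (nat_lit 0x16000c) (nat_lit 0) (p (nat_lit 0x160004) (nat_lit 0) (p (nat_lit 0x68612) (nat_lit 0) (p (nat_lit 0x50592) (nat_lit 0) (p (nat_lit 0x40512) (nat_lit 0) (p (nat_lit 0x50312) (nat_lit 0) (p (nat_lit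 0x38292) (nat_lit 0) (p (nat_lit 0x28212) (nat_lit 0) (p (nat_lit 0x38112) (nat_lit 0) (p (nat_lit 0x20092) (nat_lit 0) (p (nat_lit 0x10012) (nat_lit 0) pn)))))))))))))))))))))))))) :=
  Cl.node (nat_lit 0x41) (nat_lit 2) (by decide +kernel) (ClAll.succ (ClAll.succ ClAll.zero s790) n114)

def n177 : Cl (O (nat_lit 4)) (R (nat_lit 14353))
    (p (nat_lit 0xb0004) (nat_lit 0) (p (nat_lit 0xc9) (nat_lit 1) (p (nat_lit 0x380c2) (nat_lit 0) (p (nat_lit 0x3cc2a) (nat_lit 0) (p (nat_lit 0x89) (nat_lit 0) (p (nat_lit 0x101) (nat_lit 1) (p (nat_lit 0x111) (nat_lit 0) (p (nat_lit 0xd1) (nat_lit 1) (p (nat_lit 0x81) (nat_lit 0) (p (nat_lit 0x41) (nat_lit 1) (p (nat_lit 0x108090887069a) (nat_lit 0) (p (nat_lit 0x107870806861a) (nat_lit 0) (p (nat_lit 0x8000000000000070786058a) (nat_lit 0) (p (nat_lit 0x10787058502) (nat_lit 0) (p (nat_lit 0x10586850482) (nat_lit 0) (p (nat_lit 0x16000c)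 (nat_lit 0) (p (nat_lit 0x160004) (nat_lit 0) (p (nat_lit 0x68612) (nat_lit 0) (p (nat_lit 0x50592) (nat_lit 0) (p (nat_lit 0x40512) (nat_lit 0) (p (nat_lit 0x50312) (nat_lit 0) (p (nat_lit 0x38292) (nat_lit 0) (p (nat_lit 0x28212) (nat_lit 0) (p (nat_lit 0x38112) (nat_lit 0) (p (nat_lit 0x20092) (nat_lit 0) (p (nat_lit 0x10012) (nat_lit 0) pn)))))))))))))))))))))))))) :=
  Cl.node (nat_lit 0x89) (nat_lit 2) (by decide +kernel) (ClAll.succ (ClAll.succ ClAll.zero s798) n115)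

def n178 : Cl (O (nat_lit 4)) (R (nat_lit 14353))
    (p (nat_lit 0xd1) (nat_lit 1) (p (nat_lit 0x380c2) (nat_lit 0) (p (nat_lit 0x3cc2a) (nat_lit 0) (p (nat_lit 0xc9) (nat_lit 0) (p (nat_lit 0x89) (nat_lit 1) (p (nat_lit 0x101) (nat_lit 1) (p (nat_lit 0x111) (nat_lit 0) (p (nat_lit 0xd1) (nat_lit 1) (p (nat_lit 0x81) (nat_lit 0) (p (nat_lit 0x41) (nat_lit 1) (p (nat_lit 0x108090887069a) (nat_lit 0) (p (nat_lit 0x107870806861a) (nat_lit 0) (p (nat_lit 0x8000000000000070786058a) (nat_lit 0) (p (nat_lit 0x10787058502) (nat_lit 0) (p (nat_lit 0x10586850482) (nat_lit 0) (p (nat_lit 0x16000c) (nat_lit 0) (p (nat_lit 0x160004) (nat_lit 0) (p (nat_lit 0x68612) (nat_lit 0) (p (nat_lit 0x50592) (nat_lit 0) (p (nat_lit 0x40512) (nat_lit 0) (p (nat_lit 0x50312) (nat_lit 0) (p (nat_lit 0x38292) (nat_lit 0) (p (nat_lit 0x28212) (nat_lit 0) (p (nat_lit 0x38112) (nat_lit 0) (p (nat_lit 0x20092)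 (nat_lit 0) (p (nat_lit 0x10012) (nat_lit 0) pn)))))))))))))))))))))))))) :=
  Cl.node (nat_lit 0xb0004) (nat_lit 2) (by decide +kernel) (ClAll.succ (ClAll.succ ClAll.zero n116) s837)

def n179 : Cl (O (nat_lit 4)) (R (nat_lit 14353))
    (p (nat_lit 0x101) (nat_lit 0) (p (nat_lit 0x380c2) (nat_lit 1) (p (nat_lit 0x3c4aa) (nat_lit 7) (p (nat_lit 0xc9) (nat_lit 1) (p (nat_lit 0x89) (nat_lit 1) (p (nat_lit 0x101) (nat_lit 1) (p (nat_lit 0x111) (nat_lit 0) (p (nat_lit 0xd1) (nat_lit 1) (p (nat_lit 0x81) (nat_lit 0) (p (nat_lit 0x41) (nat_lit 1) (p (nat_lit 0x108090887069a) (nat_lit 0) (p (nat_lit 0x107870806861a) (nat_lit 0) (p (nat_lit 0x8000000000000070786058a) (nat_lit 0) (p (nat_lit 0x10787058502) (nat_lit 0) (p (nat_lit 0x10586850482) (nat_lit 0) (p (nat_lit 0x16000c) (nat_lit 0) (p (nat_lit 0x160004) (nat_lit 0) (p (nat_lit 0x68612) (nat_lit 0) (p (nat_lit 0x50592) (nat_lit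 0) (p (nat_lit 0x40512) (nat_lit 0) (p (nat_lit 0x50312) (nat_lit 0) (p (nat_lit 0x38292) (nat_lit 0) (p (nat_lit 0x28212) (nat_lit 0) (p (nat_lit 0x38112) (nat_lit 0) (p (nat_lit 0x20092) (nat_lit 0) (p (nat_lit 0x10012) (nat_lit 0) pn)))))))))))))))))))))))))) :=
  Cl.node (nat_lit 0x119) (nat_lit 2) (by decide +kernel) (ClAll.succ (ClAll.succ ClAll.zero s857) n117)

def n180 : Cl (O (nat_lit 4)) (R (nat_lit 14353))
    (p (nat_lit 0x380c2) (nat_lit 0) (p (nat_lit 0x3c4aa) (nat_lit 7) (p (nat_lit 0xd1) (nat_lit 1) (p (nat_lit 0x111) (nat_lit 1) (p (nat_lit 0x109) (nat_lit 0) (p (nat_lit 0x101) (nat_lit 0) (p (nat_lit 0x119) (nat_lit 0) (p (nat_lit 0xc1) (nat_lit 0) (p (nat_lit 0x81) (nat_lit 1) (p (nat_lit 0x41) (nat_lit 1) (p (nat_lit 0x108090887069a) (nat_lit 0) (p (nat_lit 0x107870806861a) (nat_lit 0) (p (nat_lit 0x8000000000000070786058a) (nat_lit 0) (p (nat_lit 0x10787058502)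 (nat_lit 0) (p (nat_lit 0x10586850482) (nat_lit 0) (p (nat_lit 0x16000c) (nat_lit 0) (p (nat_lit 0x160004) (nat_lit 0) (p (nat_lit 0x68612) (nat_lit 0) (p (nat_lit 0x50592) (nat_lit 0) (p (nat_lit 0x40512) (nat_lit 0) (p (nat_lit 0x50312) (nat_lit 0) (p (nat_lit 0x38292) (nat_lit 0) (p (nat_lit 0x28212) (nat_lit 0) (p (nat_lit 0x38112) (nat_lit 0) (p (nat_lit 0x20092) (nat_lit 0) (p (nat_lit 0x10012) (nat_lit 0) pn)))))))))))))))))))))))))) :=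
  Cl.node (nat_lit 0xb000c) (nat_lit 2) (by decide +kernel) (ClAll.succ (ClAll.succ ClAll.zero n118) s929)

def n181 : Cl (O (nat_lit 4)) (R (nat_lit 14353))
    (p (nat_lit 0x380c2) (nat_lit 1) (p (nat_lit 0x3c4aa) (nat_lit 7) (p (nat_lit 0xd1) (nat_lit 1) (p (nat_lit 0x111) (nat_lit 1) (p (nat_lit 0x109) (nat_lit 0) (p (nat_lit 0x101) (nat_lit 0) (p (nat_lit 0x119) (nat_lit 0) (p (nat_lit 0xc1) (nat_lit 0) (p (nat_lit 0x81) (nat_lit 1) (p (nat_lit 0x41) (nat_lit 1) (p (nat_lit 0x108090887069a) (nat_lit 0) (p (nat_lit 0x107870806861a) (nat_lit 0) (p (nat_lit 0x8000000000000070786058a) (nat_lit 0) (p (nat_lit 0x10787058502) (nat_lit 0) (p (nat_lit 0x10586850482) (nat_lit 0) (p (nat_lit 0x16000c) (nat_lit 0) (p (nat_lit 0x160004) (nat_lit 0) (p (nat_lit 0x68612) (nat_lit 0) (p (nat_lit 0x50592) (nat_lit 0) (p (nat_lit 0x40512) (nat_lit 0) (p (nat_lit 0x50312) (nat_lit 0) (p (nat_lit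 0x38292) (nat_lit 0) (p (nat_lit 0x28212) (nat_lit 0) (p (nat_lit 0x38112) (nat_lit 0) (p (nat_lit 0x20092) (nat_lit 0) (p (nat_lit 0x10012) (nat_lit 0) pn)))))))))))))))))))))))))) :=
  Cl.node (nat_lit 0xb000c) (nat_lit 2) (by decide +kernel) (ClAll.succ (ClAll.succ ClAll.zero n119) s935)

def n182 : Cl (O (nat_lit 4)) (R (nat_lit 14353))
    (p (nat_lit 0x380c2) (nat_lit 0) (p (nat_lit 0x3c4aa) (nat_lit 7) (p (nat_lit 0xd1) (nat_lit 1) (p (nat_lit 0xc9) (nat_lit 0) (p (nat_lit 0x109) (nat_lit 1) (p (nat_lit 0x101) (nat_lit 0) (p (nat_lit 0x119) (nat_lit 0) (p (nat_lit 0xc1) (nat_lit 0) (p (nat_lit 0x81) (nat_lit 1) (p (nat_lit 0x41) (nat_lit 1) (p (nat_lit 0x108090887069a) (nat_lit 0) (p (nat_lit 0x107870806861a) (nat_lit 0) (p (nat_lit 0x8000000000000070786058a) (nat_lit 0) (p (nat_lit 0x10787058502) (nat_lit 0) (p (nat_lit 0x10586850482) (nat_lit 0) (p (nat_lit 0x16000c)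 (nat_lit 0) (p (nat_lit 0x160004) (nat_lit 0) (p (nat_lit 0x68612) (nat_lit 0) (p (nat_lit 0x50592) (nat_lit 0) (p (nat_lit 0x40512) (nat_lit 0) (p (nat_lit 0x50312) (nat_lit 0) (p (nat_lit 0x38292) (nat_lit 0) (p (nat_lit 0x28212) (nat_lit 0) (p (nat_lit 0x38112) (nat_lit 0) (p (nat_lit 0x20092) (nat_lit 0) (p (nat_lit 0x10012) (nat_lit 0) pn)))))))))))))))))))))))))) :=
  Cl.node (nat_lit 0xb000c) (nat_lit 2) (by decide +kernel) (ClAll.succ (ClAll.succ ClAll.zero s948) s949)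

def n183 : Cl (O (nat_lit 4)) (R (nat_lit 14353))
    (p (nat_lit 0x380c2) (nat_lit 1) (p (nat_lit 0x3c4aa) (nat_lit 7) (p (nat_lit 0xd1) (nat_lit 1) (p (nat_lit 0xc9) (nat_lit 0) (p (nat_lit 0x109) (nat_lit 1) (p (nat_lit 0x101) (nat_lit 0) (p (nat_lit 0x119) (nat_lit 0) (p (nat_lit 0xc1) (nat_lit 0) (p (nat_lit 0x81) (nat_lit 1) (p (nat_lit 0x41) (nat_lit 1) (p (nat_lit 0x108090887069a) (nat_lit 0) (p (nat_lit 0x107870806861a) (nat_lit 0) (p (nat_lit 0x8000000000000070786058a) (nat_lit 0) (p (nat_lit 0x10787058502) (nat_lit 0) (p (nat_lit 0x10586850482) (nat_lit 0) (p (nat_lit 0x16000c) (nat_lit 0) (p (nat_lit 0x160004) (nat_lit 0) (p (nat_lit 0x68612) (nat_lit 0) (p (nat_lit 0x50592) (nat_lit 0) (p (nat_lit 0x40512) (nat_lit 0) (p (nat_lit 0x50312) (nat_lit 0) (p (nat_lit 0x38292) (nat_lit 0) (p (nat_lit 0x28212) (nat_lit 0) (p (nat_lit 0x38112) (nat_lit 0) (p (nat_lit 0x20092)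 (nat_lit 0) (p (nat_lit 0x10012) (nat_lit 0) pn)))))))))))))))))))))))))) :=
  Cl.node (nat_lit 0x119) (nat_lit 2) (by decide +kernel) (ClAll.succ (ClAll.succ ClAll.zero s950) n120)

def n184 : Cl (O (nat_lit 4)) (R (nat_lit 14353))
    (p (nat_lit 0xb000c) (nat_lit 0) (p (nat_lit 0x380c2) (nat_lit 0) (p (nat_lit 0x3c4aa) (nat_lit 7) (p (nat_lit 0xd1) (nat_lit 1) (p (nat_lit 0xc9) (nat_lit 0) (p (nat_lit 0x101) (nat_lit 1) (p (nat_lit 0x119) (nat_lit 0) (p (nat_lit 0xc1) (nat_lit 0) (p (nat_lit 0x81) (nat_lit 1) (p (nat_lit 0x41) (nat_lit 1) (p (nat_lit 0x108090887069a) (nat_lit 0) (p (nat_lit 0x107870806861a) (nat_lit 0) (p (nat_lit 0x8000000000000070786058a) (nat_lit 0) (p (nat_lit 0x10787058502) (nat_lit 0) (p (nat_lit 0x10586850482) (nat_lit 0) (p (nat_lit 0x16000c) (nat_lit 0) (p (nat_lit 0x160004) (nat_lit 0) (p (nat_lit 0x68612) (nat_lit 0) (p (nat_lit 0x50592) (nat_lit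 0) (p (nat_lit 0x40512) (nat_lit 0) (p (nat_lit 0x50312) (nat_lit 0) (p (nat_lit 0x38292) (nat_lit 0) (p (nat_lit 0x28212) (nat_lit 0) (p (nat_lit 0x38112) (nat_lit 0) (p (nat_lit 0x20092) (nat_lit 0) (p (nat_lit 0x10012) (nat_lit 0) pn)))))))))))))))))))))))))) :=
  Cl.node (nat_lit 0xc1) (nat_lit 2) (by decide +kernel) (ClAll.succ (ClAll.succ ClAll.zero n121) s980)

def n185 : Cl (O (nat_lit 4)) (R (nat_lit 14353))
    (p (nat_lit 0xc1) (nat_lit 0) (p (nat_lit 0x380c2) (nat_lit 1) (p (nat_lit 0x3c4aa) (nat_lit 7) (p (nat_lit 0xd1) (nat_lit 1) (p (nat_lit 0xc9) (nat_lit 0) (p (nat_lit 0x101) (nat_lit 1) (p (nat_lit 0x119) (nat_lit 0) (p (nat_lit 0xc1) (nat_lit 0) (p (nat_lit 0x81) (nat_lit 1) (p (nat_lit 0x41) (nat_lit 1) (p (nat_lit 0x108090887069a) (nat_lit 0) (p (nat_lit 0x107870806861a) (nat_lit 0) (p (nat_lit 0x8000000000000070786058a) (nat_lit 0) (p (nat_lit 0x10787058502)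 (nat_lit 0) (p (nat_lit 0x10586850482) (nat_lit 0) (p (nat_lit 0x16000c) (nat_lit 0) (p (nat_lit 0x160004) (nat_lit 0) (p (nat_lit 0x68612) (nat_lit 0) (p (nat_lit 0x50592) (nat_lit 0) (p (nat_lit 0x40512) (nat_lit 0) (p (nat_lit 0x50312) (nat_lit 0) (p (nat_lit 0x38292) (nat_lit 0) (p (nat_lit 0x28212) (nat_lit 0) (p (nat_lit 0x38112) (nat_lit 0) (p (nat_lit 0x20092) (nat_lit 0) (p (nat_lit 0x10012) (nat_lit 0) pn)))))))))))))))))))))))))) :=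
  Cl.node (nat_lit 0xb000c) (nat_lit 2) (by decide +kernel) (ClAll.succ (ClAll.succ ClAll.zero n122) s994)

def n186 : Cl (O (nat_lit 4)) (R (nat_lit 14353))
    (p (nat_lit 0xc1) (nat_lit 1) (p (nat_lit 0x380c2) (nat_lit 1) (p (nat_lit 0x3c4aa) (nat_lit 7) (p (nat_lit 0xd1) (nat_lit 1) (p (nat_lit 0xc9) (nat_lit 0) (p (nat_lit 0x101) (nat_lit 1) (p (nat_lit 0x119) (nat_lit 0) (p (nat_lit 0xc1) (nat_lit 0) (p (nat_lit 0x81) (nat_lit 1) (p (nat_lit 0x41) (nat_lit 1) (p (nat_lit 0x108090887069a) (nat_lit 0) (p (nat_lit 0x107870806861a) (nat_lit 0) (p (nat_lit 0x8000000000000070786058a) (nat_lit 0) (p (nat_lit 0x10787058502) (nat_lit 0) (p (nat_lit 0x10586850482) (nat_lit 0) (p (nat_lit 0x16000c) (nat_lit 0) (p (nat_lit 0x160004) (nat_lit 0) (p (nat_lit 0x68612) (nat_lit 0) (p (nat_lit 0x50592) (nat_lit 0) (p (nat_lit 0x40512) (nat_lit 0) (p (nat_lit 0x50312) (nat_lit 0) (p (nat_lit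 0x38292) (nat_lit 0) (p (nat_lit 0x28212) (nat_lit 0) (p (nat_lit 0x38112) (nat_lit 0) (p (nat_lit 0x20092) (nat_lit 0) (p (nat_lit 0x10012) (nat_lit 0) pn)))))))))))))))))))))))))) :=
  Cl.node (nat_lit 0xb000c) (nat_lit 2) (by decide +kernel) (ClAll.succ (ClAll.succ ClAll.zero n123) s1000)

def n187 : Cl (O (nat_lit 4)) (R (nat_lit 14353))
    (p (nat_lit 0xb0004) (nat_lit 0) (p (nat_lit 0x380c2) (nat_lit 0) (p (nat_lit 0x3c4aa) (nat_lit 7) (p (nat_lit 0x111) (nat_lit 1) (p (nat_lit 0xd1) (nat_lit 1) (p (nat_lit 0xc9) (nat_lit 0) (p (nat_lit 0x119) (nat_lit 1) (p (nat_lit 0xc1) (nat_lit 0) (p (nat_lit 0x81) (nat_lit 1) (p (nat_lit 0x41) (nat_lit 1) (p (nat_lit 0x108090887069a) (nat_lit 0) (p (nat_lit 0x107870806861a) (nat_lit 0) (p (nat_lit 0x8000000000000070786058a) (nat_lit 0) (p (nat_lit 0x10787058502) (nat_lit 0) (p (nat_lit 0x10586850482) (nat_lit 0) (p (nat_lit 0x16000c)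 (nat_lit 0) (p (nat_lit 0x160004) (nat_lit 0) (p (nat_lit 0x68612) (nat_lit 0) (p (nat_lit 0x50592) (nat_lit 0) (p (nat_lit 0x40512) (nat_lit 0) (p (nat_lit 0x50312) (nat_lit 0) (p (nat_lit 0x38292) (nat_lit 0) (p (nat_lit 0x28212) (nat_lit 0) (p (nat_lit 0x38112) (nat_lit 0) (p (nat_lit 0x20092) (nat_lit 0) (p (nat_lit 0x10012) (nat_lit 0) pn)))))))))))))))))))))))))) :=
  Cl.node (nat_lit 0x101) (nat_lit 2) (by decide +kernel) (ClAll.succ (ClAll.succ ClAll.zero n124) s1017)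

def n188 : Cl (O (nat_lit 4)) (R (nat_lit 14353))
    (p (nat_lit 0xb000c) (nat_lit 0) (p (nat_lit 0x380c2) (nat_lit 1) (p (nat_lit 0x3c4aa) (nat_lit 7) (p (nat_lit 0x111) (nat_lit 1) (p (nat_lit 0xd1) (nat_lit 1) (p (nat_lit 0xc9) (nat_lit 0) (p (nat_lit 0x119) (nat_lit 1) (p (nat_lit 0xc1) (nat_lit 0) (p (nat_lit 0x81) (nat_lit 1) (p (nat_lit 0x41) (nat_lit 1) (p (nat_lit 0x108090887069a) (nat_lit 0) (p (nat_lit 0x107870806861a) (nat_lit 0) (p (nat_lit 0x8000000000000070786058a) (nat_lit 0) (p (nat_lit 0x10787058502) (nat_lit 0) (p (nat_lit 0x10586850482) (nat_lit 0) (p (nat_lit 0x16000c) (nat_lit 0) (p (nat_lit 0x160004) (nat_lit 0) (p (nat_lit 0x68612) (nat_lit 0) (p (nat_lit 0x50592) (nat_lit 0) (p (nat_lit 0x40512) (nat_lit 0) (p (nat_lit 0x50312) (nat_lit 0) (p (nat_lit 0x38292) (nat_lit 0) (p (nat_lit 0x28212) (nat_lit 0) (p (nat_lit 0x38112) (nat_lit 0) (p (nat_lit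 0x20092) (nat_lit 0) (p (nat_lit 0x10012) (nat_lit 0) pn)))))))))))))))))))))))))) :=
  Cl.node (nat_lit 0x101) (nat_lit 2) (by decide +kernel) (ClAll.succ (ClAll.succ ClAll.zero n125) s1028)

def n189 : Cl (O (nat_lit 4)) (R (nat_lit 14353))
    (p (nat_lit 0xb000c) (nat_lit 1) (p (nat_lit 0x380c2) (nat_lit 1) (p (nat_lit 0x3c4aa) (nat_lit 7) (p (nat_lit 0x111) (nat_lit 1) (p (nat_lit 0xd1) (nat_lit 1) (p (nat_lit 0xc9) (nat_lit 0) (p (nat_lit 0x119) (nat_lit 1) (p (nat_lit 0xc1) (nat_lit 0) (p (nat_lit 0x81) (nat_lit 1) (p (nat_lit 0x41) (nat_lit 1) (p (nat_lit 0x108090887069a) (nat_lit 0) (p (nat_lit 0x107870806861a) (nat_lit 0) (p (nat_lit 0x8000000000000070786058a) (nat_lit 0) (p (nat_lit 0x10787058502) (nat_lit 0) (p (nat_lit 0x10586850482) (nat_lit 0) (p (nat_lit 0x16000c) (nat_lit 0) (p (nat_lit 0x160004) (nat_lit 0) (p (nat_lit 0x68612) (nat_lit 0) (p (nat_lit 0x50592)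 (nat_lit 0) (p (nat_lit 0x40512) (nat_lit 0) (p (nat_lit 0x50312) (nat_lit 0) (p (nat_lit 0x38292) (nat_lit 0) (p (nat_lit 0x28212) (nat_lit 0) (p (nat_lit 0x38112) (nat_lit 0) (p (nat_lit 0x20092) (nat_lit 0) (p (nat_lit 0x10012) (nat_lit 0) pn)))))))))))))))))))))))))) :=
  Cl.node (nat_lit 0xb0004) (nat_lit 2) (by decide +kernel) (ClAll.succ (ClAll.succ ClAll.zero n126) s1043)

def n190 : Cl (O (nat_lit 4)) (R (nat_lit 14353))
    (p (nat_lit 0x380c2) (nat_lit 0) (p (nat_lit 0x44c2a) (nat_lit 0) (p (nat_lit 0x101) (nat_lit 1) (p (nat_lit 0x111) (nat_lit 0) (p (nat_lit 0x109) (nat_lit 0) (p (nat_lit 0xc9) (nat_lit 1) (p (nat_lit 0x119) (nat_lit 1) (p (nat_lit 0xc1) (nat_lit 0) (p (nat_lit 0x81) (nat_lit 1) (p (nat_lit 0x41) (nat_lit 1) (p (nat_lit 0x108090887069a) (nat_lit 0) (p (nat_lit 0x107870806861a) (nat_lit 0) (p (nat_lit 0x8000000000000070786058a) (nat_lit 0) (p (nat_lit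 0x10787058502) (nat_lit 0) (p (nat_lit 0x10586850482) (nat_lit 0) (p (nat_lit 0x16000c) (nat_lit 0) (p (nat_lit 0x160004) (nat_lit 0) (p (nat_lit 0x68612) (nat_lit 0) (p (nat_lit 0x50592) (nat_lit 0) (p (nat_lit 0x40512) (nat_lit 0) (p (nat_lit 0x50312) (nat_lit 0) (p (nat_lit 0x38292) (nat_lit 0) (p (nat_lit 0x28212) (nat_lit 0) (p (nat_lit 0x38112) (nat_lit 0) (p (nat_lit 0x20092) (nat_lit 0) (p (nat_lit 0x10012) (nat_lit 0) pn)))))))))))))))))))))))))) :=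
  Cl.node (nat_lit 0x41) (nat_lit 2) (by decide +kernel) (ClAll.succ (ClAll.succ ClAll.zero n127) s1079)

def n191 : Cl (O (nat_lit 4)) (R (nat_lit 14353))
    (p (nat_lit 0x101) (nat_lit 0) (p (nat_lit 0x380c2) (nat_lit 0) (p (nat_lit 0x3c4aa) (nat_lit 7) (p (nat_lit 0x111) (nat_lit 1) (p (nat_lit 0x109) (nat_lit 0) (p (nat_lit 0xc9) (nat_lit 1) (p (nat_lit 0x119) (nat_lit 1) (p (nat_lit 0xc1) (nat_lit 0) (p (nat_lit 0x81) (nat_lit 1) (p (nat_lit 0x41) (nat_lit 1) (p (nat_lit 0x108090887069a) (nat_lit 0) (p (nat_lit 0x107870806861a) (nat_lit 0) (p (nat_lit 0x8000000000000070786058a) (nat_lit 0) (p (nat_lit 0x10787058502) (nat_lit 0) (p (nat_lit 0x10586850482) (nat_lit 0) (p (nat_lit 0x16000c) (nat_lit 0) (p (nat_lit 0x160004) (nat_lit 0) (p (nat_lit 0x68612) (nat_lit 0) (p (nat_lit 0x50592) (nat_lit 0) (p (nat_lit 0x40512) (nat_lit 0) (p (nat_lit 0x50312) (nat_lit 0) (p (nat_lit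 0x38292) (nat_lit 0) (p (nat_lit 0x28212) (nat_lit 0) (p (nat_lit 0x38112) (nat_lit 0) (p (nat_lit 0x20092) (nat_lit 0) (p (nat_lit 0x10012) (nat_lit 0) pn)))))))))))))))))))))))))) :=
  Cl.node (nat_lit 0xb000c) (nat_lit 2) (by decide +kernel) (ClAll.succ (ClAll.succ ClAll.zero n128) s1100)

def n192 : Cl (O (nat_lit 4)) (R (nat_lit 14353))
    (p (nat_lit 0x101) (nat_lit 0) (p (nat_lit 0x380c2) (nat_lit 1) (p (nat_lit 0x3c4aa) (nat_lit 7) (p (nat_lit 0x111) (nat_lit 1) (p (nat_lit 0x109) (nat_lit 0) (p (nat_lit 0xc9) (nat_lit 1) (p (nat_lit 0x119) (nat_lit 1) (p (nat_lit 0xc1) (nat_lit 0) (p (nat_lit 0x81) (nat_lit 1) (p (nat_lit 0x41) (nat_lit 1) (p (nat_lit 0x108090887069a) (nat_lit 0) (p (nat_lit 0x107870806861a) (nat_lit 0) (p (nat_lit 0x8000000000000070786058a) (nat_lit 0) (p (nat_lit 0x10787058502) (nat_lit 0) (p (nat_lit 0x10586850482) (nat_lit 0) (p (nat_lit 0x16000c)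 (nat_lit 0) (p (nat_lit 0x160004) (nat_lit 0) (p (nat_lit 0x68612) (nat_lit 0) (p (nat_lit 0x50592) (nat_lit 0) (p (nat_lit 0x40512) (nat_lit 0) (p (nat_lit 0x50312) (nat_lit 0) (p (nat_lit 0x38292) (nat_lit 0) (p (nat_lit 0x28212) (nat_lit 0) (p (nat_lit 0x38112) (nat_lit 0) (p (nat_lit 0x20092) (nat_lit 0) (p (nat_lit 0x10012) (nat_lit 0) pn)))))))))))))))))))))))))) :=
  Cl.node (nat_lit 0xb000c) (nat_lit 2) (by decide +kernel) (ClAll.succ (ClAll.succ ClAll.zero n129) s1105)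

def n193 : Cl (O (nat_lit 4)) (R (nat_lit 14353))
    (p (nat_lit 0x444aa) (nat_lit 7) (p (nat_lit 0x81) (nat_lit 1) (p (nat_lit 0xc9) (nat_lit 1) (p (nat_lit 0x109) (nat_lit 1) (p (nat_lit 0x101) (nat_lit 0) (p (nat_lit 0x119) (nat_lit 0) (p (nat_lit 0xd1) (nat_lit 0) (p (nat_lit 0x89) (nat_lit 0) (p (nat_lit 0x41) (nat_lit 0) (p (nat_lit 0x108090887069a) (nat_lit 0) (p (nat_lit 0x107870806861a) (nat_lit 0) (p (nat_lit 0x8000000000000070786058a) (nat_lit 0) (p (nat_lit 0x10787058502) (nat_lit 0) (p (nat_lit 0x10586850482) (nat_lit 0) (p (nat_lit 0x16000c) (nat_lit 0) (p (nat_lit 0x160004) (nat_lit 0) (p (nat_lit 0x68612) (nat_lit 0) (p (nat_lit 0x50592) (nat_lit 0) (p (nat_lit 0x40512) (nat_lit 0) (p (nat_lit 0x50312) (nat_lit 0) (p (nat_lit 0x38292) (nat_lit 0) (p (nat_lit 0x28212) (nat_lit 0) (p (nat_lit 0x38112) (nat_lit 0) (p (nat_lit 0x20092) (nat_lit 0) (p (nat_lit 0x10012)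 (nat_lit 0) pn))))))))))))))))))))))))) :=
  Cl.node (nat_lit 0x380c2) (nat_lit 2) (by decide +kernel) (ClAll.succ (ClAll.succ ClAll.zero n130) n131)

def n194 : Cl (O (nat_lit 4)) (R (nat_lit 14353))
    (p (nat_lit 0xc1) (nat_lit 1) (p (nat_lit 0x111) (nat_lit 0) (p (nat_lit 0xc9) (nat_lit 0) (p (nat_lit 0x81) (nat_lit 0) (p (nat_lit 0x101) (nat_lit 1) (p (nat_lit 0x119) (nat_lit 0) (p (nat_lit 0xd1) (nat_lit 0) (p (nat_lit 0x89) (nat_lit 0) (p (nat_lit 0x41) (nat_lit 0) (p (nat_lit 0x108090887069a) (nat_lit 0) (p (nat_lit 0x107870806861a) (nat_lit 0) (p (nat_lit 0x8000000000000070786058a) (nat_lit 0) (p (nat_lit 0x10787058502) (nat_lit 0) (p (nat_lit 0x10586850482) (nat_lit 0) (p (nat_lit 0x16000c) (nat_lit 0) (p (nat_lit 0x160004) (nat_lit 0) (p (nat_lit 0x68612) (nat_lit 0) (p (nat_lit 0x50592) (nat_lit 0) (p (nat_lit 0x40512) (nat_lit 0) (p (nat_lit 0x50312) (nat_lit 0)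 (p (nat_lit 0x38292) (nat_lit 0) (p (nat_lit 0x28212) (nat_lit 0) (p (nat_lit 0x38112) (nat_lit 0) (p (nat_lit 0x20092) (nat_lit 0) (p (nat_lit 0x10012) (nat_lit 0) pn))))))))))))))))))))))))) :=
  Cl.node (nat_lit 0x101) (nat_lit 2) (by decide +kernel) (ClAll.succ (ClAll.succ ClAll.zero s23) n132)

def n195 : Cl (O (nat_lit 4)) (R (nat_lit 14353))
    (p (nat_lit 0x444aa) (nat_lit 7) (p (nat_lit 0x111) (nat_lit 0) (p (nat_lit 0xc9) (nat_lit 1) (p (nat_lit 0x81) (nat_lit 0) (p (nat_lit 0x101) (nat_lit 1) (p (nat_lit 0x119) (nat_lit 0) (p (nat_lit 0xd1) (nat_lit 0) (p (nat_lit 0x89) (nat_lit 0) (p (nat_lit 0x41) (nat_lit 0) (p (nat_lit 0x108090887069a) (nat_lit 0) (p (nat_lit 0x107870806861a) (nat_lit 0) (p (nat_lit 0x8000000000000070786058a) (nat_lit 0) (p (nat_lit 0x10787058502) (nat_lit 0) (p (nat_lit 0x10586850482) (nat_lit 0) (p (nat_lit 0x16000c) (nat_lit 0) (p (nat_lit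 0x160004) (nat_lit 0) (p (nat_lit 0x68612) (nat_lit 0) (p (nat_lit 0x50592) (nat_lit 0) (p (nat_lit 0x40512) (nat_lit 0) (p (nat_lit 0x50312) (nat_lit 0) (p (nat_lit 0x38292) (nat_lit 0) (p (nat_lit 0x28212) (nat_lit 0) (p (nat_lit 0x38112) (nat_lit 0) (p (nat_lit 0x20092) (nat_lit 0) (p (nat_lit 0x10012) (nat_lit 0) pn))))))))))))))))))))))))) :=
  Cl.node (nat_lit 0x380c2) (nat_lit 2) (by decide +kernel) (ClAll.succ (ClAll.succ ClAll.zero n133) n134)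

def n196 : Cl (O (nat_lit 4)) (R (nat_lit 14353))
    (p (nat_lit 0x444aa) (nat_lit 7) (p (nat_lit 0xc9) (nat_lit 1) (p (nat_lit 0xc1) (nat_lit 0) (p (nat_lit 0x81) (nat_lit 1) (p (nat_lit 0x101) (nat_lit 1) (p (nat_lit 0x119) (nat_lit 0) (p (nat_lit 0xd1) (nat_lit 0) (p (nat_lit 0x89) (nat_lit 0) (p (nat_lit 0x41) (nat_lit 0) (p (nat_lit 0x108090887069a) (nat_lit 0) (p (nat_lit 0x107870806861a) (nat_lit 0) (p (nat_lit 0x8000000000000070786058a) (nat_lit 0) (p (nat_lit 0x10787058502) (nat_lit 0) (p (nat_lit 0x10586850482) (nat_lit 0) (p (nat_lit 0x16000c) (nat_lit 0) (p (nat_lit 0x160004) (nat_lit 0) (p (nat_lit 0x68612) (nat_lit 0) (p (nat_lit 0x50592) (nat_lit 0) (p (nat_lit 0x40512) (nat_lit 0) (p (nat_lit 0x50312) (nat_lit 0) (p (nat_lit 0x38292) (nat_lit 0) (p (nat_lit 0x28212) (nat_lit 0) (p (nat_lit 0x38112) (nat_lit 0) (p (nat_lit 0x20092) (nat_lit 0) (p (nat_lit 0x10012)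 (nat_lit 0) pn))))))))))))))))))))))))) :=
  Cl.node (nat_lit 0x380c2) (nat_lit 2) (by decide +kernel) (ClAll.succ (ClAll.succ ClAll.zero n135) s77)

def n197 : Cl (O (nat_lit 4)) (R (nat_lit 14353))
    (p (nat_lit 0x380c2) (nat_lit 0) (p (nat_lit 0x3cc2a) (nat_lit 10) (p (nat_lit 0x109) (nat_lit 1) (p (nat_lit 0xc9) (nat_lit 1) (p (nat_lit 0xc1) (nat_lit 0) (p (nat_lit 0x119) (nat_lit 1) (p (nat_lit 0xd1) (nat_lit 0) (p (nat_lit 0x89) (nat_lit 0) (p (nat_lit 0x41) (nat_lit 0) (p (nat_lit 0x108090887069a) (nat_lit 0) (p (nat_lit 0x107870806861a) (nat_lit 0) (p (nat_lit 0x8000000000000070786058a) (nat_lit 0) (p (nat_lit 0x10787058502) (nat_lit 0) (p (nat_lit 0x10586850482) (nat_lit 0) (p (nat_lit 0x16000c) (nat_lit 0) (p (nat_lit 0x160004) (nat_lit 0) (p (nat_lit 0x68612) (nat_lit 0) (p (nat_lit 0x50592) (nat_lit 0) (p (nat_lit 0x40512) (nat_lit 0) (p (nat_lit 0x50312) (nat_lit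 0) (p (nat_lit 0x38292) (nat_lit 0) (p (nat_lit 0x28212) (nat_lit 0) (p (nat_lit 0x38112) (nat_lit 0) (p (nat_lit 0x20092) (nat_lit 0) (p (nat_lit 0x10012) (nat_lit 0) pn))))))))))))))))))))))))) :=
  Cl.node (nat_lit 0x200014) (nat_lit 2) (by decide +kernel) (ClAll.succ (ClAll.succ ClAll.zero n136) s108)

def n198 : Cl (O (nat_lit 4)) (R (nat_lit 14353))
    (p (nat_lit 0x380c2) (nat_lit 1) (p (nat_lit 0x3cc2a) (nat_lit 10) (p (nat_lit 0x109) (nat_lit 1) (p (nat_lit 0xc9) (nat_lit 1) (p (nat_lit 0xc1) (nat_lit 0) (p (nat_lit 0x119) (nat_lit 1) (p (nat_lit 0xd1) (nat_lit 0) (p (nat_lit 0x89) (nat_lit 0) (p (nat_lit 0x41) (nat_lit 0) (p (nat_lit 0x108090887069a) (nat_lit 0) (p (nat_lit 0x107870806861a) (nat_lit 0) (p (nat_lit 0x8000000000000070786058a) (nat_lit 0) (p (nat_lit 0x10787058502) (nat_lit 0) (p (nat_lit 0x10586850482) (nat_lit 0) (p (nat_lit 0x16000c) (nat_lit 0) (p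 (nat_lit 0x160004) (nat_lit 0) (p (nat_lit 0x68612) (nat_lit 0) (p (nat_lit 0x50592) (nat_lit 0) (p (nat_lit 0x40512) (nat_lit 0) (p (nat_lit 0x50312) (nat_lit 0) (p (nat_lit 0x38292) (nat_lit 0) (p (nat_lit 0x28212) (nat_lit 0) (p (nat_lit 0x38112) (nat_lit 0) (p (nat_lit 0x20092) (nat_lit 0) (p (nat_lit 0x10012) (nat_lit 0) pn))))))))))))))))))))))))) :=
  Cl.node (nat_lit 0x200014) (nat_lit 2) (by decide +kernel) (ClAll.succ (ClAll.succ ClAll.zero n137) s122)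

def n199 : Cl (O (nat_lit 4)) (R (nat_lit 14353))
    (p (nat_lit 0x380c2) (nat_lit 0) (p (nat_lit 0x3cc2a) (nat_lit 10) (p (nat_lit 0x109) (nat_lit 1) (p (nat_lit 0x81) (nat_lit 0) (p (nat_lit 0xc1) (nat_lit 1) (p (nat_lit 0x119) (nat_lit 1) (p (nat_lit 0xd1) (nat_lit 0) (p (nat_lit 0x89) (nat_lit 0) (p (nat_lit 0x41) (nat_lit 0) (p (nat_lit 0x108090887069a) (nat_lit 0) (p (nat_lit 0x107870806861a) (nat_lit 0) (p (nat_lit 0x8000000000000070786058a) (nat_lit 0) (p (nat_lit 0x10787058502) (nat_lit 0) (p (nat_lit 0x10586850482) (nat_lit 0) (p (nat_lit 0x16000c) (nat_lit 0) (p (nat_lit 0x160004) (nat_lit 0) (p (nat_lit 0x68612) (nat_lit 0) (p (nat_lit 0x50592) (nat_lit 0) (p (nat_lit 0x40512) (nat_lit 0) (p (nat_lit 0x50312) (nat_lit 0) (p (nat_lit 0x38292) (nat_lit 0) (p (nat_lit 0x28212) (nat_lit 0) (p (nat_lit 0x38112) (nat_lit 0) (p (nat_lit 0x20092) (nat_lit 0) (p (nat_lit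 0x10012) (nat_lit 0) pn))))))))))))))))))))))))) :=
  Cl.node (nat_lit 0xd1) (nat_lit 2) (by decide +kernel) (ClAll.succ (ClAll.succ ClAll.zero n138) s138)

def n200 : Cl (O (nat_lit 4)) (R (nat_lit 14353))
    (p (nat_lit 0x111) (nat_lit 0) (p (nat_lit 0x109) (nat_lit 0) (p (nat_lit 0x101) (nat_lit 0) (p (nat_lit 0x81) (nat_lit 1) (p (nat_lit 0xc1) (nat_lit 1) (p (nat_lit 0x119) (nat_lit 1) (p (nat_lit 0xd1) (nat_lit 0) (p (nat_lit 0x89) (nat_lit 0) (p (nat_lit 0x41) (nat_lit 0) (p (nat_lit 0x108090887069a) (nat_lit 0) (p (nat_lit 0x107870806861a) (nat_lit 0) (p (nat_lit 0x8000000000000070786058a) (nat_lit 0) (p (nat_lit 0x10787058502) (nat_lit 0) (p (nat_lit 0x10586850482) (nat_lit 0) (p (nat_lit 0x16000c) (nat_lit 0) (p (nat_lit 0x160004) (nat_lit 0) (p (nat_lit 0x68612) (nat_lit 0) (p (nat_lit 0x50592) (nat_lit 0) (p (nat_lit 0x40512) (nat_lit 0) (p (nat_lit 0x50312) (nat_lit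 0) (p (nat_lit 0x38292) (nat_lit 0) (p (nat_lit 0x28212) (nat_lit 0) (p (nat_lit 0x38112) (nat_lit 0) (p (nat_lit 0x20092) (nat_lit 0) (p (nat_lit 0x10012) (nat_lit 0) pn))))))))))))))))))))))))) :=
  Cl.node (nat_lit 0x119) (nat_lit 2) (by decide +kernel) (ClAll.succ (ClAll.succ ClAll.zero s141) n139)

def n201 : Cl (O (nat_lit 4)) (R (nat_lit 14353))
    (p (nat_lit 0x111) (nat_lit 1) (p (nat_lit 0x109) (nat_lit 0) (p (nat_lit 0x101) (nat_lit 0) (p (nat_lit 0x81) (nat_lit 1) (p (nat_lit 0xc1) (nat_lit 1) (p (nat_lit 0x119) (nat_lit 1) (p (nat_lit 0xd1) (nat_lit 0) (p (nat_lit 0x89) (nat_lit 0) (p (nat_lit 0x41) (nat_lit 0) (p (nat_lit 0x108090887069a) (nat_lit 0) (p (nat_lit 0x107870806861a) (nat_lit 0) (p (nat_lit 0x8000000000000070786058a) (nat_lit 0) (p (nat_lit 0x10787058502) (nat_lit 0) (p (nat_lit 0x10586850482) (nat_lit 0) (p (nat_lit 0x16000c) (nat_lit 0) (p (nat_lit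 0x160004) (nat_lit 0) (p (nat_lit 0x68612) (nat_lit 0) (p (nat_lit 0x50592) (nat_lit 0) (p (nat_lit 0x40512) (nat_lit 0) (p (nat_lit 0x50312) (nat_lit 0) (p (nat_lit 0x38292) (nat_lit 0) (p (nat_lit 0x28212) (nat_lit 0) (p (nat_lit 0x38112) (nat_lit 0) (p (nat_lit 0x20092) (nat_lit 0) (p (nat_lit 0x10012) (nat_lit 0) pn))))))))))))))))))))))))) :=
  Cl.node (nat_lit 0x44c2a) (nat_lit 12) (by decide +kernel) (ClAll.succ (ClAll.succ (ClAll.succ (ClAll.succ (ClAll.succ (ClAll.succ (ClAll.succ (ClAll.succ (ClAll.succ (ClAll.succ (ClAll.succ (ClAll.succ ClAll.zero n140) s156) n141) s159) s160) s161) s162) s163) s164) s165) s166) s167)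

def n202 : Cl (O (nat_lit 4)) (R (nat_lit 14353))
    (p (nat_lit 0x444aa) (nat_lit 7) (p (nat_lit 0x109) (nat_lit 1) (p (nat_lit 0x101) (nat_lit 0) (p (nat_lit 0x81) (nat_lit 1) (p (nat_lit 0xc1) (nat_lit 1) (p (nat_lit 0x119) (nat_lit 1) (p (nat_lit 0xd1) (nat_lit 0) (p (nat_lit 0x89) (nat_lit 0) (p (nat_lit 0x41) (nat_lit 0) (p (nat_lit 0x108090887069a) (nat_lit 0) (p (nat_lit 0x107870806861a) (nat_lit 0) (p (nat_lit 0x8000000000000070786058a) (nat_lit 0) (p (nat_lit 0x10787058502) (nat_lit 0) (p (nat_lit 0x10586850482) (nat_lit 0) (p (nat_lit 0x16000c) (nat_lit 0) (p (nat_lit 0x160004) (nat_lit 0) (p (nat_lit 0x68612) (nat_lit 0) (p (nat_lit 0x50592) (nat_lit 0) (p (nat_lit 0x40512) (nat_lit 0) (p (nat_lit 0x50312) (nat_lit 0) (p (nat_lit 0x38292) (nat_lit 0) (p (nat_lit 0x28212) (nat_lit 0) (p (nat_lit 0x38112) (nat_lit 0) (p (nat_lit 0x20092) (nat_lit 0) (p (nat_lit 0x10012)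 (nat_lit 0) pn))))))))))))))))))))))))) :=
  Cl.node (nat_lit 0x380c2) (nat_lit 2) (by decide +kernel) (ClAll.succ (ClAll.succ ClAll.zero n142) n143)

def n203 : Cl (O (nat_lit 4)) (R (nat_lit 14353))
    (p (nat_lit 0x444aa) (nat_lit 8) (p (nat_lit 0x109) (nat_lit 1) (p (nat_lit 0x101) (nat_lit 0) (p (nat_lit 0x81) (nat_lit 1) (p (nat_lit 0xc1) (nat_lit 1) (p (nat_lit 0x119) (nat_lit 1) (p (nat_lit 0xd1) (nat_lit 0) (p (nat_lit 0x89) (nat_lit 0) (p (nat_lit 0x41) (nat_lit 0) (p (nat_lit 0x108090887069a) (nat_lit 0) (p (nat_lit 0x107870806861a) (nat_lit 0) (p (nat_lit 0x8000000000000070786058a) (nat_lit 0) (p (nat_lit 0x10787058502) (nat_lit 0) (p (nat_lit 0x10586850482) (nat_lit 0) (p (nat_lit 0x16000c) (nat_lit 0) (p (nat_lit 0x160004) (nat_lit 0) (p (nat_lit 0x68612) (nat_lit 0) (p (nat_lit 0x50592) (nat_lit 0) (p (nat_lit 0x40512) (nat_lit 0) (p (nat_lit 0x50312) (nat_lit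 0) (p (nat_lit 0x38292) (nat_lit 0) (p (nat_lit 0x28212) (nat_lit 0) (p (nat_lit 0x38112) (nat_lit 0) (p (nat_lit 0x20092) (nat_lit 0) (p (nat_lit 0x10012) (nat_lit 0) pn))))))))))))))))))))))))) :=
  Cl.node (nat_lit 0x380c2) (nat_lit 2) (by decide +kernel) (ClAll.succ (ClAll.succ ClAll.zero s194) n144)

def n204 : Cl (O (nat_lit 4)) (R (nat_lit 14353))
    (p (nat_lit 0x380c2) (nat_lit 0) (p (nat_lit 0x3cc2a) (nat_lit 0) (p (nat_lit 0xc1) (nat_lit 0) (p (nat_lit 0x109) (nat_lit 1) (p (nat_lit 0x101) (nat_lit 0) (p (nat_lit 0x111) (nat_lit 0) (p (nat_lit 0xd1) (nat_lit 1) (p (nat_lit 0x89) (nat_lit 0) (p (nat_lit 0x41) (nat_lit 0) (p (nat_lit 0x108090887069a) (nat_lit 0) (p (nat_lit 0x107870806861a) (nat_lit 0) (p (nat_lit 0x8000000000000070786058a) (nat_lit 0) (p (nat_lit 0x10787058502) (nat_lit 0) (p (nat_lit 0x10586850482) (nat_lit 0) (p (nat_lit 0x16000c) (nat_lit 0) (p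 (nat_lit 0x160004) (nat_lit 0) (p (nat_lit 0x68612) (nat_lit 0) (p (nat_lit 0x50592) (nat_lit 0) (p (nat_lit 0x40512) (nat_lit 0) (p (nat_lit 0x50312) (nat_lit 0) (p (nat_lit 0x38292) (nat_lit 0) (p (nat_lit 0x28212) (nat_lit 0) (p (nat_lit 0x38112) (nat_lit 0) (p (nat_lit 0x20092) (nat_lit 0) (p (nat_lit 0x10012) (nat_lit 0) pn))))))))))))))))))))))))) :=
  Cl.node (nat_lit 0x119) (nat_lit 2) (by decide +kernel) (ClAll.succ (ClAll.succ ClAll.zero n145) s217)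

def n205 : Cl (O (nat_lit 4)) (R (nat_lit 14353))
    (p (nat_lit 0x41) (nat_lit 0) (p (nat_lit 0x200014) (nat_lit 0) (p (nat_lit 0xc1) (nat_lit 1) (p (nat_lit 0x109) (nat_lit 1) (p (nat_lit 0x101) (nat_lit 0) (p (nat_lit 0x111) (nat_lit 0) (p (nat_lit 0xd1) (nat_lit 1) (p (nat_lit 0x89) (nat_lit 0) (p (nat_lit 0x41) (nat_lit 0) (p (nat_lit 0x108090887069a) (nat_lit 0) (p (nat_lit 0x107870806861a) (nat_lit 0) (p (nat_lit 0x8000000000000070786058a) (nat_lit 0) (p (nat_lit 0x10787058502) (nat_lit 0) (p (nat_lit 0x10586850482) (nat_lit 0) (p (nat_lit 0x16000c) (nat_lit 0) (p (nat_lit 0x160004) (nat_lit 0) (p (nat_lit 0x68612) (nat_lit 0) (p (nat_lit 0x50592) (nat_lit 0) (p (nat_lit 0x40512) (nat_lit 0) (p (nat_lit 0x50312) (nat_lit 0) (p (nat_lit 0x38292) (nat_lit 0) (p (nat_lit 0x28212) (nat_lit 0) (p (nat_lit 0x38112) (nat_lit 0) (p (nat_lit 0x20092) (nat_lit 0) (p (nat_lit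 0x10012) (nat_lit 0) pn))))))))))))))))))))))))) :=
  Cl.node (nat_lit 0x3cc2a) (nat_lit 12) (by decide +kernel) (ClAll.succ (ClAll.succ (ClAll.succ (ClAll.succ (ClAll.succ (ClAll.succ (ClAll.succ (ClAll.succ (ClAll.succ (ClAll.succ (ClAll.succ (ClAll.succ ClAll.zero n146) s232) s233) s234) s235) s236) s237) s238) s239) s240) s241) s242)

def n206 : Cl (O (nat_lit 4)) (R (nat_lit 14353))
    (p (nat_lit 0x109) (nat_lit 1) (p (nat_lit 0x200014) (nat_lit 0) (p (nat_lit 0x119) (nat_lit 0) (p (nat_lit 0x81) (nat_lit 0) (p (nat_lit 0x101) (nat_lit 1) (p (nat_lit 0x111) (nat_lit 0) (p (nat_lit 0xd1) (nat_lit 1) (p (nat_lit 0x89) (nat_lit 0) (p (nat_lit 0x41) (nat_lit 0) (p (nat_lit 0x108090887069a) (nat_lit 0) (p (nat_lit 0x107870806861a) (nat_lit 0) (p (nat_lit 0x8000000000000070786058a) (nat_lit 0) (p (nat_lit 0x10787058502) (nat_lit 0) (p (nat_lit 0x10586850482) (nat_lit 0) (p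 (nat_lit 0x16000c) (nat_lit 0) (p (nat_lit 0x160004) (nat_lit 0) (p (nat_lit 0x68612) (nat_lit 0) (p (nat_lit 0x50592) (nat_lit 0) (p (nat_lit 0x40512) (nat_lit 0) (p (nat_lit 0x50312) (nat_lit 0) (p (nat_lit 0x38292) (nat_lit 0) (p (nat_lit 0x28212) (nat_lit 0) (p (nat_lit 0x38112) (nat_lit 0) (p (nat_lit 0x20092) (nat_lit 0) (p (nat_lit 0x10012) (nat_lit 0) pn))))))))))))))))))))))))) :=
  Cl.node (nat_lit 0x3cc2a) (nat_lit 12) (by decide +kernel) (ClAll.succ (ClAll.succ (ClAll.succ (ClAll.succ (ClAll.succ (ClAll.succ (ClAll.succ (ClAll.succ (ClAll.succ (ClAll.succ (ClAll.succ (ClAll.succ ClAll.zero n147) s248) s249) s250) s251) s252) s253) s254) s255) s256) s257) s258)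

def n207 : Cl (O (nat_lit 4)) (R (nat_lit 14353))
    (p (nat_lit 0x444aa) (nat_lit 7) (p (nat_lit 0x119) (nat_lit 0) (p (nat_lit 0xc1) (nat_lit 0) (p (nat_lit 0x81) (nat_lit 1) (p (nat_lit 0x101) (nat_lit 1) (p (nat_lit 0x111) (nat_lit 0) (p (nat_lit 0xd1) (nat_lit 1) (p (nat_lit 0x89) (nat_lit 0) (p (nat_lit 0x41) (nat_lit 0) (p (nat_lit 0x108090887069a) (nat_lit 0) (p (nat_lit 0x107870806861a) (nat_lit 0) (p (nat_lit 0x8000000000000070786058a) (nat_lit 0) (p (nat_lit 0x10787058502) (nat_lit 0) (p (nat_lit 0x10586850482) (nat_lit 0) (p (nat_lit 0x16000c) (nat_lit 0) (p (nat_lit 0x160004) (nat_lit 0) (p (nat_lit 0x68612) (nat_lit 0) (p (nat_lit 0x50592) (nat_lit 0) (p (nat_lit 0x40512) (nat_lit 0) (p (nat_lit 0x50312) (nat_lit 0) (p (nat_lit 0x38292) (nat_lit 0) (p (nat_lit 0x28212) (nat_lit 0) (p (nat_lit 0x38112) (nat_lit 0) (p (nat_lit 0x20092) (nat_lit 0) (p (nat_lit 0x10012)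 (nat_lit 0) pn))))))))))))))))))))))))) :=
  Cl.node (nat_lit 0x380c2) (nat_lit 2) (by decide +kernel) (ClAll.succ (ClAll.succ ClAll.zero n148) s294)

def n208 : Cl (O (nat_lit 4)) (R (nat_lit 14353))
    (p (nat_lit 0x380c2) (nat_lit 0) (p (nat_lit 0x3cc2a) (nat_lit 0) (p (nat_lit 0x101) (nat_lit 0) (p (nat_lit 0xc1) (nat_lit 1) (p (nat_lit 0x81) (nat_lit 1) (p (nat_lit 0x111) (nat_lit 1) (p (nat_lit 0xd1) (nat_lit 1) (p (nat_lit 0x89) (nat_lit 0) (p (nat_lit 0x41) (nat_lit 0) (p (nat_lit 0x108090887069a) (nat_lit 0) (p (nat_lit 0x107870806861a) (nat_lit 0) (p (nat_lit 0x8000000000000070786058a) (nat_lit 0) (p (nat_lit 0x10787058502) (nat_lit 0) (p (nat_lit 0x10586850482) (nat_lit 0) (p (nat_lit 0x16000c) (nat_lit 0) (p (nat_lit 0x160004) (nat_lit 0) (p (nat_lit 0x68612) (nat_lit 0) (p (nat_lit 0x50592) (nat_lit 0) (p (nat_lit 0x40512) (nat_lit 0) (p (nat_lit 0x50312) (nat_lit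 0) (p (nat_lit 0x38292) (nat_lit 0) (p (nat_lit 0x28212) (nat_lit 0) (p (nat_lit 0x38112) (nat_lit 0) (p (nat_lit 0x20092) (nat_lit 0) (p (nat_lit 0x10012) (nat_lit 0) pn))))))))))))))))))))))))) :=
  Cl.node (nat_lit 0xb0004) (nat_lit 2) (by decide +kernel) (ClAll.succ (ClAll.succ ClAll.zero n149) s318)

def n209 : Cl (O (nat_lit 4)) (R (nat_lit 14353))
    (p (nat_lit 0x81) (nat_lit 0) (p (nat_lit 0xd1) (nat_lit 1) (p (nat_lit 0x111) (nat_lit 1) (p (nat_lit 0x109) (nat_lit 0) (p (nat_lit 0x101) (nat_lit 0) (p (nat_lit 0x119) (nat_lit 0) (p (nat_lit 0xc9) (nat_lit 0) (p (nat_lit 0x89) (nat_lit 1) (p (nat_lit 0x41) (nat_lit 0) (p (nat_lit 0x108090887069a) (nat_lit 0) (p (nat_lit 0x107870806861a) (nat_lit 0) (p (nat_lit 0x8000000000000070786058a) (nat_lit 0) (p (nat_lit 0x10787058502) (nat_lit 0) (p (nat_lit 0x10586850482) (nat_lit 0) (p (nat_lit 0x16000c) (nat_lit 0) (p (nat_lit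 0x160004) (nat_lit 0) (p (nat_lit 0x68612) (nat_lit 0) (p (nat_lit 0x50592) (nat_lit 0) (p (nat_lit 0x40512) (nat_lit 0) (p (nat_lit 0x50312) (nat_lit 0) (p (nat_lit 0x38292) (nat_lit 0) (p (nat_lit 0x28212) (nat_lit 0) (p (nat_lit 0x38112) (nat_lit 0) (p (nat_lit 0x20092) (nat_lit 0) (p (nat_lit 0x10012) (nat_lit 0) pn))))))))))))))))))))))))) :=
  Cl.node (nat_lit 0x89) (nat_lit 2) (by decide +kernel) (ClAll.succ (ClAll.succ ClAll.zero n150) s347)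

def n210 : Cl (O (nat_lit 4)) (R (nat_lit 14353))
    (p (nat_lit 0x41) (nat_lit 0) (p (nat_lit 0x200014) (nat_lit 0) (p (nat_lit 0xd1) (nat_lit 0) (p (nat_lit 0x109) (nat_lit 1) (p (nat_lit 0x101) (nat_lit 0) (p (nat_lit 0x119) (nat_lit 0) (p (nat_lit 0xc9) (nat_lit 0) (p (nat_lit 0x89) (nat_lit 1) (p (nat_lit 0x41) (nat_lit 0) (p (nat_lit 0x108090887069a) (nat_lit 0) (p (nat_lit 0x107870806861a) (nat_lit 0) (p (nat_lit 0x8000000000000070786058a) (nat_lit 0) (p (nat_lit 0x10787058502) (nat_lit 0) (p (nat_lit 0x10586850482) (nat_lit 0) (p (nat_lit 0x16000c) (nat_lit 0) (p (nat_lit 0x160004) (nat_lit 0) (p (nat_lit 0x68612) (nat_lit 0) (p (nat_lit 0x50592) (nat_lit 0) (p (nat_lit 0x40512) (nat_lit 0) (p (nat_lit 0x50312) (nat_lit 0) (p (nat_lit 0x38292) (nat_lit 0) (p (nat_lit 0x28212) (nat_lit 0) (p (nat_lit 0x38112) (nat_lit 0) (p (nat_lit 0x20092) (nat_lit 0) (p (nat_lit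 0x10012) (nat_lit 0) pn))))))))))))))))))))))))) :=
  Cl.node (nat_lit 0x44c2a) (nat_lit 12) (by decide +kernel) (ClAll.succ (ClAll.succ (ClAll.succ (ClAll.succ (ClAll.succ (ClAll.succ (ClAll.succ (ClAll.succ (ClAll.succ (ClAll.succ (ClAll.succ (ClAll.succ ClAll.zero n151) s351) n152) s354) s355) s356) s357) s358) s359) s360) s361) s362)

def n211 : Cl (O (nat_lit 4)) (R (nat_lit 14353))
    (p (nat_lit 0x380c2) (nat_lit 0) (p (nat_lit 0x444aa) (nat_lit 7) (p (nat_lit 0xd1) (nat_lit 1) (p (nat_lit 0x109) (nat_lit 1) (p (nat_lit 0x101) (nat_lit 0) (p (nat_lit 0x119) (nat_lit 0) (p (nat_lit 0xc9) (nat_lit 0) (p (nat_lit 0x89) (nat_lit 1) (p (nat_lit 0x41) (nat_lit 0) (p (nat_lit 0x108090887069a) (nat_lit 0) (p (nat_lit 0x107870806861a) (nat_lit 0) (p (nat_lit 0x8000000000000070786058a) (nat_lit 0) (p (nat_lit 0x10787058502) (nat_lit 0) (p (nat_lit 0x10586850482) (nat_lit 0) (p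 (nat_lit 0x16000c) (nat_lit 0) (p (nat_lit 0x160004) (nat_lit 0) (p (nat_lit 0x68612) (nat_lit 0) (p (nat_lit 0x50592) (nat_lit 0) (p (nat_lit 0x40512) (nat_lit 0) (p (nat_lit 0x50312) (nat_lit 0) (p (nat_lit 0x38292) (nat_lit 0) (p (nat_lit 0x28212) (nat_lit 0) (p (nat_lit 0x38112) (nat_lit 0) (p (nat_lit 0x20092) (nat_lit 0) (p (nat_lit 0x10012) (nat_lit 0) pn))))))))))))))))))))))))) :=
  Cl.node (nat_lit 0xc1) (nat_lit 2) (by decide +kernel) (ClAll.succ (ClAll.succ ClAll.zero n153) s386)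

def n212 : Cl (O (nat_lit 4)) (R (nat_lit 14353))
    (p (nat_lit 0x380c2) (nat_lit 1) (p (nat_lit 0x444aa) (nat_lit 7) (p (nat_lit 0xd1) (nat_lit 1) (p (nat_lit 0x109) (nat_lit 1) (p (nat_lit 0x101) (nat_lit 0) (p (nat_lit 0x119) (nat_lit 0) (p (nat_lit 0xc9) (nat_lit 0) (p (nat_lit 0x89) (nat_lit 1) (p (nat_lit 0x41) (nat_lit 0) (p (nat_lit 0x108090887069a) (nat_lit 0) (p (nat_lit 0x107870806861a) (nat_lit 0) (p (nat_lit 0x8000000000000070786058a) (nat_lit 0) (p (nat_lit 0x10787058502) (nat_lit 0) (p (nat_lit 0x10586850482) (nat_lit 0) (p (nat_lit 0x16000c) (nat_lit 0) (p (nat_lit 0x160004) (nat_lit 0) (p (nat_lit 0x68612) (nat_lit 0) (p (nat_lit 0x50592) (nat_lit 0) (p (nat_lit 0x40512) (nat_lit 0) (p (nat_lit 0x50312) (nat_lit 0) (p (nat_lit 0x38292) (nat_lit 0) (p (nat_lit 0x28212) (nat_lit 0) (p (nat_lit 0x38112) (nat_lit 0) (p (nat_lit 0x20092) (nat_lit 0) (p (nat_lit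 0x10012) (nat_lit 0) pn))))))))))))))))))))))))) :=
  Cl.node (nat_lit 0xc1) (nat_lit 2) (by decide +kernel) (ClAll.succ (ClAll.succ ClAll.zero n154) s391)

def n213 : Cl (O (nat_lit 4)) (R (nat_lit 14353))
    (p (nat_lit 0x109) (nat_lit 1) (p (nat_lit 0x200014) (nat_lit 0) (p (nat_lit 0xd1) (nat_lit 0) (p (nat_lit 0xc1) (nat_lit 0) (p (nat_lit 0x101) (nat_lit 1) (p (nat_lit 0x119) (nat_lit 0) (p (nat_lit 0xc9) (nat_lit 0) (p (nat_lit 0x89) (nat_lit 1) (p (nat_lit 0x41) (nat_lit 0) (p (nat_lit 0x108090887069a) (nat_lit 0) (p (nat_lit 0x107870806861a) (nat_lit 0) (p (nat_lit 0x8000000000000070786058a) (nat_lit 0) (p (nat_lit 0x10787058502) (nat_lit 0) (p (nat_lit 0x10586850482) (nat_lit 0) (p (nat_lit 0x16000c) (nat_lit 0) (p (nat_lit 0x160004) (nat_lit 0) (p (nat_lit 0x68612) (nat_lit 0) (p (nat_lit 0x50592) (nat_lit 0) (p (nat_lit 0x40512) (nat_lit 0) (p (nat_lit 0x50312)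 (nat_lit 0) (p (nat_lit 0x38292) (nat_lit 0) (p (nat_lit 0x28212) (nat_lit 0) (p (nat_lit 0x38112) (nat_lit 0) (p (nat_lit 0x20092) (nat_lit 0) (p (nat_lit 0x10012) (nat_lit 0) pn))))))))))))))))))))))))) :=
  Cl.node (nat_lit 0x44c2a) (nat_lit 12) (by decide +kernel) (ClAll.succ (ClAll.succ (ClAll.succ (ClAll.succ (ClAll.succ (ClAll.succ (ClAll.succ (ClAll.succ (ClAll.succ (ClAll.succ (ClAll.succ (ClAll.succ ClAll.zero n155) s399) n156) s402) s403) s404) s405) s406) s407) s408) s409) s410)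

def n214 : Cl (O (nat_lit 4)) (R (nat_lit 14353))
    (p (nat_lit 0x380c2) (nat_lit 0) (p (nat_lit 0x444aa) (nat_lit 7) (p (nat_lit 0xd1) (nat_lit 1) (p (nat_lit 0xc1) (nat_lit 0) (p (nat_lit 0x101) (nat_lit 1) (p (nat_lit 0x119) (nat_lit 0) (p (nat_lit 0xc9) (nat_lit 0) (p (nat_lit 0x89) (nat_lit 1) (p (nat_lit 0x41) (nat_lit 0) (p (nat_lit 0x108090887069a) (nat_lit 0) (p (nat_lit 0x107870806861a) (nat_lit 0) (p (nat_lit 0x8000000000000070786058a) (nat_lit 0) (p (nat_lit 0x10787058502) (nat_lit 0) (p (nat_lit 0x10586850482) (nat_lit 0) (p (nat_lit 0x16000c) (nat_lit 0) (p (nat_lit 0x160004) (nat_lit 0) (p (nat_lit 0x68612) (nat_lit 0) (p (nat_lit 0x50592) (nat_lit 0) (p (nat_lit 0x40512) (nat_lit 0) (p (nat_lit 0x50312) (nat_lit 0) (p (nat_lit 0x38292) (nat_lit 0) (p (nat_lit 0x28212) (nat_lit 0) (p (nat_lit 0x38112) (nat_lit 0) (p (nat_lit 0x20092) (nat_lit 0) (p (nat_lit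 0x10012) (nat_lit 0) pn))))))))))))))))))))))))) :=
  Cl.node (nat_lit 0xc9) (nat_lit 2) (by decide +kernel) (ClAll.succ (ClAll.succ ClAll.zero n157) s433)

def n215 : Cl (O (nat_lit 4)) (R (nat_lit 14353))
    (p (nat_lit 0x380c2) (nat_lit 1) (p (nat_lit 0x444aa) (nat_lit 7) (p (nat_lit 0xd1) (nat_lit 1) (p (nat_lit 0xc1) (nat_lit 0) (p (nat_lit 0x101) (nat_lit 1) (p (nat_lit 0x119) (nat_lit 0) (p (nat_lit 0xc9) (nat_lit 0) (p (nat_lit 0x89) (nat_lit 1) (p (nat_lit 0x41) (nat_lit 0) (p (nat_lit 0x108090887069a) (nat_lit 0) (p (nat_lit 0x107870806861a) (nat_lit 0) (p (nat_lit 0x8000000000000070786058a) (nat_lit 0) (p (nat_lit 0x10787058502) (nat_lit 0) (p (nat_lit 0x10586850482) (nat_lit 0) (p (nat_lit 0x16000c) (nat_lit 0) (p (nat_lit 0x160004) (nat_lit 0) (p (nat_lit 0x68612) (nat_lit 0) (p (nat_lit 0x50592) (nat_lit 0) (p (nat_lit 0x40512) (nat_lit 0) (p (nat_lit 0x50312)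 (nat_lit 0) (p (nat_lit 0x38292) (nat_lit 0) (p (nat_lit 0x28212) (nat_lit 0) (p (nat_lit 0x38112) (nat_lit 0) (p (nat_lit 0x20092) (nat_lit 0) (p (nat_lit 0x10012) (nat_lit 0) pn))))))))))))))))))))))))) :=
  Cl.node (nat_lit 0xc9) (nat_lit 2) (by decide +kernel) (ClAll.succ (ClAll.succ ClAll.zero n158) s437)

def n216 : Cl (O (nat_lit 4)) (R (nat_lit 14353))
    (p (nat_lit 0x380c2) (nat_lit 0) (p (nat_lit 0x444aa) (nat_lit 7) (p (nat_lit 0x111) (nat_lit 1) (p (nat_lit 0xd1) (nat_lit 1) (p (nat_lit 0xc1) (nat_lit 0) (p (nat_lit 0x119) (nat_lit 1) (p (nat_lit 0xc9) (nat_lit 0) (p (nat_lit 0x89) (nat_lit 1) (p (nat_lit 0x41) (nat_lit 0) (p (nat_lit 0x108090887069a) (nat_lit 0) (p (nat_lit 0x107870806861a) (nat_lit 0) (p (nat_lit 0x8000000000000070786058a) (nat_lit 0) (p (nat_lit 0x10787058502) (nat_lit 0) (p (nat_lit 0x10586850482) (nat_lit 0) (p (nat_lit 0x16000c) (nat_lit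 0) (p (nat_lit 0x160004) (nat_lit 0) (p (nat_lit 0x68612) (nat_lit 0) (p (nat_lit 0x50592) (nat_lit 0) (p (nat_lit 0x40512) (nat_lit 0) (p (nat_lit 0x50312) (nat_lit 0) (p (nat_lit 0x38292) (nat_lit 0) (p (nat_lit 0x28212) (nat_lit 0) (p (nat_lit 0x38112) (nat_lit 0) (p (nat_lit 0x20092) (nat_lit 0) (p (nat_lit 0x10012) (nat_lit 0) pn))))))))))))))))))))))))) :=
  Cl.node (nat_lit 0x109) (nat_lit 2) (by decide +kernel) (ClAll.succ (ClAll.succ ClAll.zero n159) s456)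

def n217 : Cl (O (nat_lit 4)) (R (nat_lit 14353))
    (p (nat_lit 0x380c2) (nat_lit 1) (p (nat_lit 0x444aa) (nat_lit 7) (p (nat_lit 0x111) (nat_lit 1) (p (nat_lit 0xd1) (nat_lit 1) (p (nat_lit 0xc1) (nat_lit 0) (p (nat_lit 0x119) (nat_lit 1) (p (nat_lit 0xc9) (nat_lit 0) (p (nat_lit 0x89) (nat_lit 1) (p (nat_lit 0x41) (nat_lit 0) (p (nat_lit 0x108090887069a) (nat_lit 0) (p (nat_lit 0x107870806861a) (nat_lit 0) (p (nat_lit 0x8000000000000070786058a) (nat_lit 0) (p (nat_lit 0x10787058502) (nat_lit 0) (p (nat_lit 0x10586850482) (nat_lit 0) (p (nat_lit 0x16000c) (nat_lit 0) (p (nat_lit 0x160004) (nat_lit 0) (p (nat_lit 0x68612) (nat_lit 0) (p (nat_lit 0x50592) (nat_lit 0) (p (nat_lit 0x40512) (nat_lit 0) (p (nat_lit 0x50312) (nat_lit 0) (p (nat_lit 0x38292) (nat_lit 0) (p (nat_lit 0x28212) (nat_lit 0) (p (nat_lit 0x38112) (nat_lit 0) (p (nat_lit 0x20092) (nat_lit 0) (p (nat_lit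 0x10012) (nat_lit 0) pn))))))))))))))))))))))))) :=
  Cl.node (nat_lit 0x109) (nat_lit 2) (by decide +kernel) (ClAll.succ (ClAll.succ ClAll.zero n160) s468)

def n218 : Cl (O (nat_lit 4)) (R (nat_lit 14353))
    (p (nat_lit 0x380c2) (nat_lit 1) (p (nat_lit 0x444aa) (nat_lit 8) (p (nat_lit 0x111) (nat_lit 1) (p (nat_lit 0xd1) (nat_lit 1) (p (nat_lit 0xc1) (nat_lit 0) (p (nat_lit 0x119) (nat_lit 1) (p (nat_lit 0xc9) (nat_lit 0) (p (nat_lit 0x89) (nat_lit 1) (p (nat_lit 0x41) (nat_lit 0) (p (nat_lit 0x108090887069a) (nat_lit 0) (p (nat_lit 0x107870806861a) (nat_lit 0) (p (nat_lit 0x8000000000000070786058a) (nat_lit 0) (p (nat_lit 0x10787058502) (nat_lit 0) (p (nat_lit 0x10586850482) (nat_lit 0) (p (nat_lit 0x16000c) (nat_lit 0) (p (nat_lit 0x160004) (nat_lit 0) (p (nat_lit 0x68612) (nat_lit 0) (p (nat_lit 0x50592) (nat_lit 0) (p (nat_lit 0x40512) (nat_lit 0) (p (nat_lit 0x50312)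 (nat_lit 0) (p (nat_lit 0x38292) (nat_lit 0) (p (nat_lit 0x28212) (nat_lit 0) (p (nat_lit 0x38112) (nat_lit 0) (p (nat_lit 0x20092) (nat_lit 0) (p (nat_lit 0x10012) (nat_lit 0) pn))))))))))))))))))))))))) :=
  Cl.node (nat_lit 0x200014) (nat_lit 2) (by decide +kernel) (ClAll.succ (ClAll.succ ClAll.zero s470) n161)

def n219 : Cl (O (nat_lit 4)) (R (nat_lit 14353))
    (p (nat_lit 0x380c2) (nat_lit 0) (p (nat_lit 0x444aa) (nat_lit 7) (p (nat_lit 0x111) (nat_lit 1) (p (nat_lit 0x101) (nat_lit 0) (p (nat_lit 0xc1) (nat_lit 1) (p (nat_lit 0x119) (nat_lit 1) (p (nat_lit 0xc9) (nat_lit 0) (p (nat_lit 0x89) (nat_lit 1) (p (nat_lit 0x41) (nat_lit 0) (p (nat_lit 0x108090887069a) (nat_lit 0) (p (nat_lit 0x107870806861a) (nat_lit 0) (p (nat_lit 0x8000000000000070786058a) (nat_lit 0) (p (nat_lit 0x10787058502) (nat_lit 0) (p (nat_lit 0x10586850482) (nat_lit 0) (p (nat_lit 0x16000c) (nat_lit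 0) (p (nat_lit 0x160004) (nat_lit 0) (p (nat_lit 0x68612) (nat_lit 0) (p (nat_lit 0x50592) (nat_lit 0) (p (nat_lit 0x40512) (nat_lit 0) (p (nat_lit 0x50312) (nat_lit 0) (p (nat_lit 0x38292) (nat_lit 0) (p (nat_lit 0x28212) (nat_lit 0) (p (nat_lit 0x38112) (nat_lit 0) (p (nat_lit 0x20092) (nat_lit 0) (p (nat_lit 0x10012) (nat_lit 0) pn))))))))))))))))))))))))) :=
  Cl.node (nat_lit 0x109) (nat_lit 2) (by decide +kernel) (ClAll.succ (ClAll.succ ClAll.zero n162) s510)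

def n220 : Cl (O (nat_lit 4)) (R (nat_lit 14353))
    (p (nat_lit 0x380c2) (nat_lit 1) (p (nat_lit 0x444aa) (nat_lit 7) (p (nat_lit 0x111) (nat_lit 1) (p (nat_lit 0x101) (nat_lit 0) (p (nat_lit 0xc1) (nat_lit 1) (p (nat_lit 0x119) (nat_lit 1) (p (nat_lit 0xc9) (nat_lit 0) (p (nat_lit 0x89) (nat_lit 1) (p (nat_lit 0x41) (nat_lit 0) (p (nat_lit 0x108090887069a) (nat_lit 0) (p (nat_lit 0x107870806861a) (nat_lit 0) (p (nat_lit 0x8000000000000070786058a) (nat_lit 0) (p (nat_lit 0x10787058502) (nat_lit 0) (p (nat_lit 0x10586850482) (nat_lit 0) (p (nat_lit 0x16000c) (nat_lit 0) (p (nat_lit 0x160004) (nat_lit 0) (p (nat_lit 0x68612) (nat_lit 0) (p (nat_lit 0x50592) (nat_lit 0) (p (nat_lit 0x40512) (nat_lit 0) (p (nat_lit 0x50312) (nat_lit 0) (p (nat_lit 0x38292) (nat_lit 0) (p (nat_lit 0x28212) (nat_lit 0) (p (nat_lit 0x38112) (nat_lit 0) (p (nat_lit 0x20092) (nat_lit 0) (p (nat_lit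 0x10012) (nat_lit 0) pn))))))))))))))))))))))))) :=
  Cl.node (nat_lit 0x109) (nat_lit 2) (by decide +kernel) (ClAll.succ (ClAll.succ ClAll.zero s511) s512)

def n221 : Cl (O (nat_lit 4)) (R (nat_lit 14353))
    (p (nat_lit 0x4c42a) (nat_lit 2) (p (nat_lit 0xc9) (nat_lit 0) (p (nat_lit 0x89) (nat_lit 1) (p (nat_lit 0x109) (nat_lit 1) (p (nat_lit 0x101) (nat_lit 0) (p (nat_lit 0x119) (nat_lit 0) (p (nat_lit 0xd1) (nat_lit 0) (p (nat_lit 0x81) (nat_lit 0) (p (nat_lit 0x41) (nat_lit 1) (p (nat_lit 0x108090887069a) (nat_lit 0) (p (nat_lit 0x107870806861a) (nat_lit 0) (p (nat_lit 0x8000000000000070786058a) (nat_lit 0) (p (nat_lit 0x10787058502) (nat_lit 0) (p (nat_lit 0x10586850482) (nat_lit 0) (p (nat_lit 0x16000c) (nat_lit 0) (p (nat_lit 0x160004) (nat_lit 0) (p (nat_lit 0x68612) (nat_lit 0) (p (nat_lit 0x50592) (nat_lit 0) (p (nat_lit 0x40512) (nat_lit 0) (p (nat_lit 0x50312)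 (nat_lit 0) (p (nat_lit 0x38292) (nat_lit 0) (p (nat_lit 0x28212) (nat_lit 0) (p (nat_lit 0x38112) (nat_lit 0) (p (nat_lit 0x20092) (nat_lit 0) (p (nat_lit 0x10012) (nat_lit 0) pn))))))))))))))))))))))))) :=
  Cl.node (nat_lit 0x380c2) (nat_lit 2) (by decide +kernel) (ClAll.succ (ClAll.succ ClAll.zero s550) s551)

def n222 : Cl (O (nat_lit 4)) (R (nat_lit 14353))
    (p (nat_lit 0x4c42a) (nat_lit 2) (p (nat_lit 0xc9) (nat_lit 0) (p (nat_lit 0x89) (nat_lit 1) (p (nat_lit 0xc1) (nat_lit 0) (p (nat_lit 0x101) (nat_lit 1) (p (nat_lit 0x119) (nat_lit 0) (p (nat_lit 0xd1) (nat_lit 0) (p (nat_lit 0x81) (nat_lit 0) (p (nat_lit 0x41) (nat_lit 1) (p (nat_lit 0x108090887069a) (nat_lit 0) (p (nat_lit 0x107870806861a) (nat_lit 0) (p (nat_lit 0x8000000000000070786058a) (nat_lit 0) (p (nat_lit 0x10787058502) (nat_lit 0) (p (nat_lit 0x10586850482) (nat_lit 0) (p (nat_lit 0x16000c) (nat_lit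 0) (p (nat_lit 0x160004) (nat_lit 0) (p (nat_lit 0x68612) (nat_lit 0) (p (nat_lit 0x50592) (nat_lit 0) (p (nat_lit 0x40512) (nat_lit 0) (p (nat_lit 0x50312) (nat_lit 0) (p (nat_lit 0x38292) (nat_lit 0) (p (nat_lit 0x28212) (nat_lit 0) (p (nat_lit 0x38112) (nat_lit 0) (p (nat_lit 0x20092) (nat_lit 0) (p (nat_lit 0x10012) (nat_lit 0) pn))))))))))))))))))))))))) :=
  Cl.node (nat_lit 0x380c2) (nat_lit 2) (by decide +kernel) (ClAll.succ (ClAll.succ ClAll.zero s576) s577)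

def n223 : Cl (O (nat_lit 4)) (R (nat_lit 14353))
    (p (nat_lit 0x4c42a) (nat_lit 2) (p (nat_lit 0xc9) (nat_lit 1) (p (nat_lit 0x89) (nat_lit 1) (p (nat_lit 0xc1) (nat_lit 0) (p (nat_lit 0x101) (nat_lit 1) (p (nat_lit 0x119) (nat_lit 0) (p (nat_lit 0xd1) (nat_lit 0) (p (nat_lit 0x81) (nat_lit 0) (p (nat_lit 0x41) (nat_lit 1) (p (nat_lit 0x108090887069a) (nat_lit 0) (p (nat_lit 0x107870806861a) (nat_lit 0) (p (nat_lit 0x8000000000000070786058a) (nat_lit 0) (p (nat_lit 0x10787058502) (nat_lit 0) (p (nat_lit 0x10586850482) (nat_lit 0) (p (nat_lit 0x16000c) (nat_lit 0) (p (nat_lit 0x160004) (nat_lit 0) (p (nat_lit 0x68612) (nat_lit 0) (p (nat_lit 0x50592) (nat_lit 0) (p (nat_lit 0x40512) (nat_lit 0) (p (nat_lit 0x50312) (nat_lit 0) (p (nat_lit 0x38292) (nat_lit 0) (p (nat_lit 0x28212) (nat_lit 0) (p (nat_lit 0x38112) (nat_lit 0) (p (nat_lit 0x20092) (nat_lit 0) (p (nat_lit 0x10012)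 (nat_lit 0) pn))))))))))))))))))))))))) :=
  Cl.node (nat_lit 0x380c2) (nat_lit 2) (by decide +kernel) (ClAll.succ (ClAll.succ ClAll.zero s589) s590)

def n224 : Cl (O (nat_lit 4)) (R (nat_lit 14353))
    (p (nat_lit 0x380c2) (nat_lit 1) (p (nat_lit 0x3c4aa) (nat_lit 7) (p (nat_lit 0x89) (nat_lit 1) (p (nat_lit 0xc1) (nat_lit 1) (p (nat_lit 0x101) (nat_lit 1) (p (nat_lit 0x119) (nat_lit 0) (p (nat_lit 0xd1) (nat_lit 0) (p (nat_lit 0x81) (nat_lit 0) (p (nat_lit 0x41) (nat_lit 1) (p (nat_lit 0x108090887069a) (nat_lit 0) (p (nat_lit 0x107870806861a) (nat_lit 0) (p (nat_lit 0x8000000000000070786058a) (nat_lit 0) (p (nat_lit 0x10787058502) (nat_lit 0) (p (nat_lit 0x10586850482) (nat_lit 0) (p (nat_lit 0x16000c) (nat_lit 0) (p (nat_lit 0x160004) (nat_lit 0) (p (nat_lit 0x68612) (nat_lit 0) (p (nat_lit 0x50592) (nat_lit 0) (p (nat_lit 0x40512) (nat_lit 0) (p (nat_lit 0x50312) (nat_lit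 0) (p (nat_lit 0x38292) (nat_lit 0) (p (nat_lit 0x28212) (nat_lit 0) (p (nat_lit 0x38112) (nat_lit 0) (p (nat_lit 0x20092) (nat_lit 0) (p (nat_lit 0x10012) (nat_lit 0) pn))))))))))))))))))))))))) :=
  Cl.node (nat_lit 0xc9) (nat_lit 2) (by decide +kernel) (ClAll.succ (ClAll.succ ClAll.zero s620) n163)

def n225 : Cl (O (nat_lit 4)) (R (nat_lit 14353))
    (p (nat_lit 0x380c2) (nat_lit 1) (p (nat_lit 0x3c4aa) (nat_lit 10) (p (nat_lit 0x89) (nat_lit 1) (p (nat_lit 0xc1) (nat_lit 1) (p (nat_lit 0x101) (nat_lit 1) (p (nat_lit 0x119) (nat_lit 0) (p (nat_lit 0xd1) (nat_lit 0) (p (nat_lit 0x81) (nat_lit 0) (p (nat_lit 0x41) (nat_lit 1) (p (nat_lit 0x108090887069a) (nat_lit 0) (p (nat_lit 0x107870806861a) (nat_lit 0) (p (nat_lit 0x8000000000000070786058a) (nat_lit 0) (p (nat_lit 0x10787058502) (nat_lit 0) (p (nat_lit 0x10586850482) (nat_lit 0) (p (nat_lit 0x16000c) (nat_lit 0) (p (nat_lit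 0x160004) (nat_lit 0) (p (nat_lit 0x68612) (nat_lit 0) (p (nat_lit 0x50592) (nat_lit 0) (p (nat_lit 0x40512) (nat_lit 0) (p (nat_lit 0x50312) (nat_lit 0) (p (nat_lit 0x38292) (nat_lit 0) (p (nat_lit 0x28212) (nat_lit 0) (p (nat_lit 0x38112) (nat_lit 0) (p (nat_lit 0x20092) (nat_lit 0) (p (nat_lit 0x10012) (nat_lit 0) pn))))))))))))))))))))))))) :=
  Cl.node (nat_lit 0xb000c) (nat_lit 2) (by decide +kernel) (ClAll.succ (ClAll.succ ClAll.zero s628) s629)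

def n226 : Cl (O (nat_lit 4)) (R (nat_lit 14353))
    (p (nat_lit 0x44c2a) (nat_lit 1) (p (nat_lit 0x109) (nat_lit 0) (p (nat_lit 0x89) (nat_lit 1) (p (nat_lit 0xc9) (nat_lit 1) (p (nat_lit 0xc1) (nat_lit 0) (p (nat_lit 0x119) (nat_lit 1) (p (nat_lit 0xd1) (nat_lit 0) (p (nat_lit 0x81) (nat_lit 0) (p (nat_lit 0x41) (nat_lit 1) (p (nat_lit 0x108090887069a) (nat_lit 0) (p (nat_lit 0x107870806861a) (nat_lit 0) (p (nat_lit 0x8000000000000070786058a) (nat_lit 0) (p (nat_lit 0x10787058502) (nat_lit 0) (p (nat_lit 0x10586850482) (nat_lit 0) (p (nat_lit 0x16000c) (nat_lit 0) (p (nat_lit 0x160004) (nat_lit 0) (p (nat_lit 0x68612) (nat_lit 0) (p (nat_lit 0x50592) (nat_lit 0) (p (nat_lit 0x40512) (nat_lit 0) (p (nat_lit 0x50312) (nat_lit 0) (p (nat_lit 0x38292) (nat_lit 0) (p (nat_lit 0x28212) (nat_lit 0) (p (nat_lit 0x38112) (nat_lit 0) (p (nat_lit 0x20092) (nat_lit 0) (p (nat_lit 0x10012)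 (nat_lit 0) pn))))))))))))))))))))))))) :=
  Cl.node (nat_lit 0x380c2) (nat_lit 1) (by decide +kernel) (ClAll.succ ClAll.zero n164)

def n227 : Cl (O (nat_lit 4)) (R (nat_lit 14353))
    (p (nat_lit 0x44c2a) (nat_lit 2) (p (nat_lit 0x109) (nat_lit 0) (p (nat_lit 0x89) (nat_lit 1) (p (nat_lit 0xc9) (nat_lit 1) (p (nat_lit 0xc1) (nat_lit 0) (p (nat_lit 0x119) (nat_lit 1) (p (nat_lit 0xd1) (nat_lit 0) (p (nat_lit 0x81) (nat_lit 0) (p (nat_lit 0x41) (nat_lit 1) (p (nat_lit 0x108090887069a) (nat_lit 0) (p (nat_lit 0x107870806861a) (nat_lit 0) (p (nat_lit 0x8000000000000070786058a) (nat_lit 0) (p (nat_lit 0x10787058502) (nat_lit 0) (p (nat_lit 0x10586850482) (nat_lit 0) (p (nat_lit 0x16000c) (nat_lit 0) (p (nat_lit 0x160004) (nat_lit 0) (p (nat_lit 0x68612) (nat_lit 0) (p (nat_lit 0x50592) (nat_lit 0) (p (nat_lit 0x40512) (nat_lit 0) (p (nat_lit 0x50312) (nat_lit 0) (p (nat_lit 0x38292)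 (nat_lit 0) (p (nat_lit 0x28212) (nat_lit 0) (p (nat_lit 0x38112) (nat_lit 0) (p (nat_lit 0x20092) (nat_lit 0) (p (nat_lit 0x10012) (nat_lit 0) pn))))))))))))))))))))))))) :=
  Cl.node (nat_lit 0x380c2) (nat_lit 2) (by decide +kernel) (ClAll.succ (ClAll.succ ClAll.zero s636) s637)

def n228 : Cl (O (nat_lit 4)) (R (nat_lit 14353))
    (p (nat_lit 0x3c4aa) (nat_lit 7) (p (nat_lit 0x109) (nat_lit 1) (p (nat_lit 0x89) (nat_lit 1) (p (nat_lit 0xc9) (nat_lit 1) (p (nat_lit 0xc1) (nat_lit 0) (p (nat_lit 0x119) (nat_lit 1) (p (nat_lit 0xd1) (nat_lit 0) (p (nat_lit 0x81) (nat_lit 0) (p (nat_lit 0x41) (nat_lit 1) (p (nat_lit 0x108090887069a) (nat_lit 0) (p (nat_lit 0x107870806861a) (nat_lit 0) (p (nat_lit 0x8000000000000070786058a) (nat_lit 0) (p (nat_lit 0x10787058502) (nat_lit 0) (p (nat_lit 0x10586850482) (nat_lit 0) (p (nat_lit 0x16000c) (nat_lit 0) (p (nat_lit 0x160004) (nat_lit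 0) (p (nat_lit 0x68612) (nat_lit 0) (p (nat_lit 0x50592) (nat_lit 0) (p (nat_lit 0x40512) (nat_lit 0) (p (nat_lit 0x50312) (nat_lit 0) (p (nat_lit 0x38292) (nat_lit 0) (p (nat_lit 0x28212) (nat_lit 0) (p (nat_lit 0x38112) (nat_lit 0) (p (nat_lit 0x20092) (nat_lit 0) (p (nat_lit 0x10012) (nat_lit 0) pn))))))))))))))))))))))))) :=
  Cl.node (nat_lit 0x380c2) (nat_lit 2) (by decide +kernel) (ClAll.succ (ClAll.succ ClAll.zero s654) n165)

def n229 : Cl (O (nat_lit 4)) (R (nat_lit 14353))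
    (p (nat_lit 0x3c4aa) (nat_lit 10) (p (nat_lit 0x109) (nat_lit 1) (p (nat_lit 0x89) (nat_lit 1) (p (nat_lit 0xc9) (nat_lit 1) (p (nat_lit 0xc1) (nat_lit 0) (p (nat_lit 0x119) (nat_lit 1) (p (nat_lit 0xd1) (nat_lit 0) (p (nat_lit 0x81) (nat_lit 0) (p (nat_lit 0x41) (nat_lit 1) (p (nat_lit 0x108090887069a) (nat_lit 0) (p (nat_lit 0x107870806861a) (nat_lit 0) (p (nat_lit 0x8000000000000070786058a) (nat_lit 0) (p (nat_lit 0x10787058502) (nat_lit 0) (p (nat_lit 0x10586850482) (nat_lit 0) (p (nat_lit 0x16000c) (nat_lit 0) (p (nat_lit 0x160004) (nat_lit 0) (p (nat_lit 0x68612) (nat_lit 0) (p (nat_lit 0x50592) (nat_lit 0) (p (nat_lit 0x40512) (nat_lit 0) (p (nat_lit 0x50312) (nat_lit 0) (p (nat_lit 0x38292) (nat_lit 0) (p (nat_lit 0x28212) (nat_lit 0) (p (nat_lit 0x38112) (nat_lit 0) (p (nat_lit 0x20092) (nat_lit 0) (p (nat_lit 0x10012) (nat_lit 0) pn))))))))))))))))))))))))) :=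
  Cl.node (nat_lit 0x380c2) (nat_lit 2) (by decide +kernel) (ClAll.succ (ClAll.succ ClAll.zero s660) n166)

def n230 : Cl (O (nat_lit 4)) (R (nat_lit 14353))
    (p (nat_lit 0x44c2a) (nat_lit 1) (p (nat_lit 0x109) (nat_lit 0) (p (nat_lit 0x89) (nat_lit 1) (p (nat_lit 0x101) (nat_lit 0) (p (nat_lit 0xc1) (nat_lit 1) (p (nat_lit 0x119) (nat_lit 1) (p (nat_lit 0xd1) (nat_lit 0) (p (nat_lit 0x81) (nat_lit 0) (p (nat_lit 0x41) (nat_lit 1) (p (nat_lit 0x108090887069a) (nat_lit 0) (p (nat_lit 0x107870806861a) (nat_lit 0) (p (nat_lit 0x8000000000000070786058a) (nat_lit 0) (p (nat_lit 0x10787058502) (nat_lit 0) (p (nat_lit 0x10586850482) (nat_lit 0) (p (nat_lit 0x16000c) (nat_lit 0) (p (nat_lit 0x160004) (nat_lit 0) (p (nat_lit 0x68612) (nat_lit 0) (p (nat_lit 0x50592) (nat_lit 0) (p (nat_lit 0x40512) (nat_lit 0) (p (nat_lit 0x50312) (nat_lit 0) (p (nat_lit 0x38292) (nat_lit 0) (p (nat_lit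 0x28212) (nat_lit 0) (p (nat_lit 0x38112) (nat_lit 0) (p (nat_lit 0x20092) (nat_lit 0) (p (nat_lit 0x10012) (nat_lit 0) pn))))))))))))))))))))))))) :=
  Cl.node (nat_lit 0x380c2) (nat_lit 1) (by decide +kernel) (ClAll.succ ClAll.zero n167)

def n231 : Cl (O (nat_lit 4)) (R (nat_lit 14353))
    (p (nat_lit 0x44c2a) (nat_lit 2) (p (nat_lit 0x109) (nat_lit 0) (p (nat_lit 0x89) (nat_lit 1) (p (nat_lit 0x101) (nat_lit 0) (p (nat_lit 0xc1) (nat_lit 1) (p (nat_lit 0x119) (nat_lit 1) (p (nat_lit 0xd1) (nat_lit 0) (p (nat_lit 0x81) (nat_lit 0) (p (nat_lit 0x41) (nat_lit 1) (p (nat_lit 0x108090887069a) (nat_lit 0) (p (nat_lit 0x107870806861a) (nat_lit 0) (p (nat_lit 0x8000000000000070786058a) (nat_lit 0) (p (nat_lit 0x10787058502) (nat_lit 0) (p (nat_lit 0x10586850482) (nat_lit 0) (p (nat_lit 0x16000c) (nat_lit 0) (p (nat_lit 0x160004) (nat_lit 0) (p (nat_lit 0x68612) (nat_lit 0) (p (nat_lit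 0x50592) (nat_lit 0) (p (nat_lit 0x40512) (nat_lit 0) (p (nat_lit 0x50312) (nat_lit 0) (p (nat_lit 0x38292) (nat_lit 0) (p (nat_lit 0x28212) (nat_lit 0) (p (nat_lit 0x38112) (nat_lit 0) (p (nat_lit 0x20092) (nat_lit 0) (p (nat_lit 0x10012) (nat_lit 0) pn))))))))))))))))))))))))) :=
  Cl.node (nat_lit 0x380c2) (nat_lit 2) (by decide +kernel) (ClAll.succ (ClAll.succ ClAll.zero s670) s671)

def n232 : Cl (O (nat_lit 4)) (R (nat_lit 14353))
    (p (nat_lit 0x3c4aa) (nat_lit 7) (p (nat_lit 0x109) (nat_lit 1) (p (nat_lit 0x89) (nat_lit 1) (p (nat_lit 0x101) (nat_lit 0) (p (nat_lit 0xc1) (nat_lit 1) (p (nat_lit 0x119) (nat_lit 1) (p (nat_lit 0xd1) (nat_lit 0) (p (nat_lit 0x81) (nat_lit 0) (p (nat_lit 0x41) (nat_lit 1) (p (nat_lit 0x108090887069a) (nat_lit 0) (p (nat_lit 0x107870806861a) (nat_lit 0) (p (nat_lit 0x8000000000000070786058a) (nat_lit 0) (p (nat_lit 0x10787058502) (nat_lit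 0) (p (nat_lit 0x10586850482) (nat_lit 0) (p (nat_lit 0x16000c) (nat_lit 0) (p (nat_lit 0x160004) (nat_lit 0) (p (nat_lit 0x68612) (nat_lit 0) (p (nat_lit 0x50592) (nat_lit 0) (p (nat_lit 0x40512) (nat_lit 0) (p (nat_lit 0x50312) (nat_lit 0) (p (nat_lit 0x38292) (nat_lit 0) (p (nat_lit 0x28212) (nat_lit 0) (p (nat_lit 0x38112) (nat_lit 0) (p (nat_lit 0x20092) (nat_lit 0) (p (nat_lit 0x10012) (nat_lit 0) pn))))))))))))))))))))))))) :=
  Cl.node (nat_lit 0x380c2) (nat_lit 2) (by decide +kernel) (ClAll.succ (ClAll.succ ClAll.zero n168) n169)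

def n233 : Cl (O (nat_lit 4)) (R (nat_lit 14353))
    (p (nat_lit 0x3c4aa) (nat_lit 10) (p (nat_lit 0x109) (nat_lit 1) (p (nat_lit 0x89) (nat_lit 1) (p (nat_lit 0x101) (nat_lit 0) (p (nat_lit 0xc1) (nat_lit 1) (p (nat_lit 0x119) (nat_lit 1) (p (nat_lit 0xd1) (nat_lit 0) (p (nat_lit 0x81) (nat_lit 0) (p (nat_lit 0x41) (nat_lit 1) (p (nat_lit 0x108090887069a) (nat_lit 0) (p (nat_lit 0x107870806861a) (nat_lit 0) (p (nat_lit 0x8000000000000070786058a) (nat_lit 0) (p (nat_lit 0x10787058502) (nat_lit 0) (p (nat_lit 0x10586850482) (nat_lit 0) (p (nat_lit 0x16000c) (nat_lit 0) (p (nat_lit 0x160004) (nat_lit 0) (p (nat_lit 0x68612) (nat_lit 0) (p (nat_lit 0x50592) (nat_lit 0) (p (nat_lit 0x40512) (nat_lit 0) (p (nat_lit 0x50312) (nat_lit 0) (p (nat_lit 0x38292) (nat_lit 0) (p (nat_lit 0x28212) (nat_lit 0) (p (nat_lit 0x38112) (nat_lit 0) (p (nat_lit 0x20092) (nat_lit 0) (p (nat_lit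 0x10012) (nat_lit 0) pn))))))))))))))))))))))))) :=
  Cl.node (nat_lit 0x380c2) (nat_lit 2) (by decide +kernel) (ClAll.succ (ClAll.succ ClAll.zero s715) n170)

def n234 : Cl (O (nat_lit 4)) (R (nat_lit 14353))
    (p (nat_lit 0x380c2) (nat_lit 0) (p (nat_lit 0x3c4aa) (nat_lit 7) (p (nat_lit 0x89) (nat_lit 1) (p (nat_lit 0x101) (nat_lit 1) (p (nat_lit 0xc1) (nat_lit 1) (p (nat_lit 0x119) (nat_lit 1) (p (nat_lit 0xd1) (nat_lit 0) (p (nat_lit 0x81) (nat_lit 0) (p (nat_lit 0x41) (nat_lit 1) (p (nat_lit 0x108090887069a) (nat_lit 0) (p (nat_lit 0x107870806861a) (nat_lit 0) (p (nat_lit 0x8000000000000070786058a) (nat_lit 0) (p (nat_lit 0x10787058502) (nat_lit 0) (p (nat_lit 0x10586850482) (nat_lit 0) (p (nat_lit 0x16000c) (nat_lit 0) (p (nat_lit 0x160004) (nat_lit 0) (p (nat_lit 0x68612) (nat_lit 0) (p (nat_lit 0x50592) (nat_lit 0) (p (nat_lit 0x40512) (nat_lit 0) (p (nat_lit 0x50312)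 (nat_lit 0) (p (nat_lit 0x38292) (nat_lit 0) (p (nat_lit 0x28212) (nat_lit 0) (p (nat_lit 0x38112) (nat_lit 0) (p (nat_lit 0x20092) (nat_lit 0) (p (nat_lit 0x10012) (nat_lit 0) pn))))))))))))))))))))))))) :=
  Cl.node (nat_lit 0x81) (nat_lit 2) (by decide +kernel) (ClAll.succ (ClAll.succ ClAll.zero n171) n172)

def n235 : Cl (O (nat_lit 4)) (R (nat_lit 14353))
    (p (nat_lit 0x380c2) (nat_lit 1) (p (nat_lit 0x3c4aa) (nat_lit 7) (p (nat_lit 0x89) (nat_lit 1) (p (nat_lit 0x101) (nat_lit 1) (p (nat_lit 0xc1) (nat_lit 1) (p (nat_lit 0x119) (nat_lit 1) (p (nat_lit 0xd1) (nat_lit 0) (p (nat_lit 0x81) (nat_lit 0) (p (nat_lit 0x41) (nat_lit 1) (p (nat_lit 0x108090887069a) (nat_lit 0) (p (nat_lit 0x107870806861a) (nat_lit 0) (p (nat_lit 0x8000000000000070786058a) (nat_lit 0) (p (nat_lit 0x10787058502) (nat_lit 0) (p (nat_lit 0x10586850482) (nat_lit 0) (p (nat_lit 0x16000c) (nat_lit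 0) (p (nat_lit 0x160004) (nat_lit 0) (p (nat_lit 0x68612) (nat_lit 0) (p (nat_lit 0x50592) (nat_lit 0) (p (nat_lit 0x40512) (nat_lit 0) (p (nat_lit 0x50312) (nat_lit 0) (p (nat_lit 0x38292) (nat_lit 0) (p (nat_lit 0x28212) (nat_lit 0) (p (nat_lit 0x38112) (nat_lit 0) (p (nat_lit 0x20092) (nat_lit 0) (p (nat_lit 0x10012) (nat_lit 0) pn))))))))))))))))))))))))) :=
  Cl.node (nat_lit 0x109) (nat_lit 2) (by decide +kernel) (ClAll.succ (ClAll.succ ClAll.zero n173) n174)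

def n236 : Cl (O (nat_lit 4)) (R (nat_lit 14353))
    (p (nat_lit 0x380c2) (nat_lit 1) (p (nat_lit 0x3c4aa) (nat_lit 10) (p (nat_lit 0x89) (nat_lit 1) (p (nat_lit 0x101) (nat_lit 1) (p (nat_lit 0xc1) (nat_lit 1) (p (nat_lit 0x119) (nat_lit 1) (p (nat_lit 0xd1) (nat_lit 0) (p (nat_lit 0x81) (nat_lit 0) (p (nat_lit 0x41) (nat_lit 1) (p (nat_lit 0x108090887069a) (nat_lit 0) (p (nat_lit 0x107870806861a) (nat_lit 0) (p (nat_lit 0x8000000000000070786058a) (nat_lit 0) (p (nat_lit 0x10787058502) (nat_lit 0) (p (nat_lit 0x10586850482) (nat_lit 0) (p (nat_lit 0x16000c) (nat_lit 0) (p (nat_lit 0x160004) (nat_lit 0) (p (nat_lit 0x68612) (nat_lit 0) (p (nat_lit 0x50592) (nat_lit 0) (p (nat_lit 0x40512) (nat_lit 0) (p (nat_lit 0x50312) (nat_lit 0) (p (nat_lit 0x38292) (nat_lit 0) (p (nat_lit 0x28212) (nat_lit 0) (p (nat_lit 0x38112) (nat_lit 0) (p (nat_lit 0x20092) (nat_lit 0) (p (nat_lit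 0x10012) (nat_lit 0) pn))))))))))))))))))))))))) :=
  Cl.node (nat_lit 0xb000c) (nat_lit 2) (by decide +kernel) (ClAll.succ (ClAll.succ ClAll.zero n175) s765)

def n237 : Cl (O (nat_lit 4)) (R (nat_lit 14353))
    (p (nat_lit 0x119) (nat_lit 0) (p (nat_lit 0xc9) (nat_lit 0) (p (nat_lit 0x89) (nat_lit 1) (p (nat_lit 0x109) (nat_lit 1) (p (nat_lit 0x101) (nat_lit 0) (p (nat_lit 0x111) (nat_lit 0) (p (nat_lit 0xd1) (nat_lit 1) (p (nat_lit 0x81) (nat_lit 0) (p (nat_lit 0x41) (nat_lit 1) (p (nat_lit 0x108090887069a) (nat_lit 0) (p (nat_lit 0x107870806861a) (nat_lit 0) (p (nat_lit 0x8000000000000070786058a) (nat_lit 0) (p (nat_lit 0x10787058502) (nat_lit 0) (p (nat_lit 0x10586850482) (nat_lit 0) (p (nat_lit 0x16000c) (nat_lit 0) (p (nat_lit 0x160004) (nat_lit 0) (p (nat_lit 0x68612) (nat_lit 0) (p (nat_lit 0x50592) (nat_lit 0) (p (nat_lit 0x40512) (nat_lit 0) (p (nat_lit 0x50312)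 (nat_lit 0) (p (nat_lit 0x38292) (nat_lit 0) (p (nat_lit 0x28212) (nat_lit 0) (p (nat_lit 0x38112) (nat_lit 0) (p (nat_lit 0x20092) (nat_lit 0) (p (nat_lit 0x10012) (nat_lit 0) pn))))))))))))))))))))))))) :=
  Cl.node (nat_lit 0x4c42a) (nat_lit 12) (by decide +kernel) (ClAll.succ (ClAll.succ (ClAll.succ (ClAll.succ (ClAll.succ (ClAll.succ (ClAll.succ (ClAll.succ (ClAll.succ (ClAll.succ (ClAll.succ (ClAll.succ ClAll.zero s769) s770) s771) s772) s773) s774) s775) s776) s777) s778) s779) s780)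

def n238 : Cl (O (nat_lit 4)) (R (nat_lit 14353))
    (p (nat_lit 0x3c4aa) (nat_lit 7) (p (nat_lit 0xc9) (nat_lit 1) (p (nat_lit 0x89) (nat_lit 1) (p (nat_lit 0x109) (nat_lit 1) (p (nat_lit 0x101) (nat_lit 0) (p (nat_lit 0x111) (nat_lit 0) (p (nat_lit 0xd1) (nat_lit 1) (p (nat_lit 0x81) (nat_lit 0) (p (nat_lit 0x41) (nat_lit 1) (p (nat_lit 0x108090887069a) (nat_lit 0) (p (nat_lit 0x107870806861a) (nat_lit 0) (p (nat_lit 0x8000000000000070786058a) (nat_lit 0) (p (nat_lit 0x10787058502) (nat_lit 0) (p (nat_lit 0x10586850482) (nat_lit 0) (p (nat_lit 0x16000c) (nat_lit 0) (p (nat_lit 0x160004) (nat_lit 0) (p (nat_lit 0x68612) (nat_lit 0) (p (nat_lit 0x50592) (nat_lit 0) (p (nat_lit 0x40512) (nat_lit 0) (p (nat_lit 0x50312) (nat_lit 0) (p (nat_lit 0x38292) (nat_lit 0) (p (nat_lit 0x28212) (nat_lit 0) (p (nat_lit 0x38112) (nat_lit 0) (p (nat_lit 0x20092) (nat_lit 0) (p (nat_lit 0x10012)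 (nat_lit 0) pn))))))))))))))))))))))))) :=
  Cl.node (nat_lit 0x380c2) (nat_lit 2) (by decide +kernel) (ClAll.succ (ClAll.succ ClAll.zero s789) n176)

def n239 : Cl (O (nat_lit 4)) (R (nat_lit 14353))
    (p (nat_lit 0xc9) (nat_lit 1) (p (nat_lit 0x380c2) (nat_lit 0) (p (nat_lit 0x3cc2a) (nat_lit 0) (p (nat_lit 0x89) (nat_lit 0) (p (nat_lit 0x101) (nat_lit 1) (p (nat_lit 0x111) (nat_lit 0) (p (nat_lit 0xd1) (nat_lit 1) (p (nat_lit 0x81) (nat_lit 0) (p (nat_lit 0x41) (nat_lit 1) (p (nat_lit 0x108090887069a) (nat_lit 0) (p (nat_lit 0x107870806861a) (nat_lit 0) (p (nat_lit 0x8000000000000070786058a) (nat_lit 0) (p (nat_lit 0x10787058502) (nat_lit 0) (p (nat_lit 0x10586850482) (nat_lit 0) (p (nat_lit 0x16000c) (nat_lit 0) (p (nat_lit 0x160004) (nat_lit 0) (p (nat_lit 0x68612) (nat_lit 0) (p (nat_lit 0x50592) (nat_lit 0) (p (nat_lit 0x40512) (nat_lit 0) (p (nat_lit 0x50312) (nat_lit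 0) (p (nat_lit 0x38292) (nat_lit 0) (p (nat_lit 0x28212) (nat_lit 0) (p (nat_lit 0x38112) (nat_lit 0) (p (nat_lit 0x20092) (nat_lit 0) (p (nat_lit 0x10012) (nat_lit 0) pn))))))))))))))))))))))))) :=
  Cl.node (nat_lit 0xb0004) (nat_lit 2) (by decide +kernel) (ClAll.succ (ClAll.succ ClAll.zero n177) s812)

def n240 : Cl (O (nat_lit 4)) (R (nat_lit 14353))
    (p (nat_lit 0x380c2) (nat_lit 0) (p (nat_lit 0x3cc2a) (nat_lit 0) (p (nat_lit 0xc9) (nat_lit 0) (p (nat_lit 0x89) (nat_lit 1) (p (nat_lit 0x101) (nat_lit 1) (p (nat_lit 0x111) (nat_lit 0) (p (nat_lit 0xd1) (nat_lit 1) (p (nat_lit 0x81) (nat_lit 0) (p (nat_lit 0x41) (nat_lit 1) (p (nat_lit 0x108090887069a) (nat_lit 0) (p (nat_lit 0x107870806861a) (nat_lit 0) (p (nat_lit 0x8000000000000070786058a) (nat_lit 0) (p (nat_lit 0x10787058502) (nat_lit 0) (p (nat_lit 0x10586850482) (nat_lit 0) (p (nat_lit 0x16000c) (nat_lit 0) (p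 (nat_lit 0x160004) (nat_lit 0) (p (nat_lit 0x68612) (nat_lit 0) (p (nat_lit 0x50592) (nat_lit 0) (p (nat_lit 0x40512) (nat_lit 0) (p (nat_lit 0x50312) (nat_lit 0) (p (nat_lit 0x38292) (nat_lit 0) (p (nat_lit 0x28212) (nat_lit 0) (p (nat_lit 0x38112) (nat_lit 0) (p (nat_lit 0x20092) (nat_lit 0) (p (nat_lit 0x10012) (nat_lit 0) pn))))))))))))))))))))))))) :=
  Cl.node (nat_lit 0xd1) (nat_lit 2) (by decide +kernel) (ClAll.succ (ClAll.succ ClAll.zero s824) n178)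

def n241 : Cl (O (nat_lit 4)) (R (nat_lit 14353))
    (p (nat_lit 0x380c2) (nat_lit 1) (p (nat_lit 0x3c4aa) (nat_lit 7) (p (nat_lit 0xc9) (nat_lit 1) (p (nat_lit 0x89) (nat_lit 1) (p (nat_lit 0x101) (nat_lit 1) (p (nat_lit 0x111) (nat_lit 0) (p (nat_lit 0xd1) (nat_lit 1) (p (nat_lit 0x81) (nat_lit 0) (p (nat_lit 0x41) (nat_lit 1) (p (nat_lit 0x108090887069a) (nat_lit 0) (p (nat_lit 0x107870806861a) (nat_lit 0) (p (nat_lit 0x8000000000000070786058a) (nat_lit 0) (p (nat_lit 0x10787058502) (nat_lit 0) (p (nat_lit 0x10586850482) (nat_lit 0) (p (nat_lit 0x16000c) (nat_lit 0) (p (nat_lit 0x160004) (nat_lit 0) (p (nat_lit 0x68612) (nat_lit 0) (p (nat_lit 0x50592) (nat_lit 0) (p (nat_lit 0x40512) (nat_lit 0) (p (nat_lit 0x50312) (nat_lit 0) (p (nat_lit 0x38292) (nat_lit 0) (p (nat_lit 0x28212) (nat_lit 0) (p (nat_lit 0x38112) (nat_lit 0) (p (nat_lit 0x20092) (nat_lit 0) (p (nat_lit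 0x10012) (nat_lit 0) pn))))))))))))))))))))))))) :=
  Cl.node (nat_lit 0x101) (nat_lit 2) (by decide +kernel) (ClAll.succ (ClAll.succ ClAll.zero n179) s861)

def n242 : Cl (O (nat_lit 4)) (R (nat_lit 14353))
    (p (nat_lit 0x3c4aa) (nat_lit 7) (p (nat_lit 0xd1) (nat_lit 1) (p (nat_lit 0x111) (nat_lit 1) (p (nat_lit 0x109) (nat_lit 0) (p (nat_lit 0x101) (nat_lit 0) (p (nat_lit 0x119) (nat_lit 0) (p (nat_lit 0xc1) (nat_lit 0) (p (nat_lit 0x81) (nat_lit 1) (p (nat_lit 0x41) (nat_lit 1) (p (nat_lit 0x108090887069a) (nat_lit 0) (p (nat_lit 0x107870806861a) (nat_lit 0) (p (nat_lit 0x8000000000000070786058a) (nat_lit 0) (p (nat_lit 0x10787058502) (nat_lit 0) (p (nat_lit 0x10586850482) (nat_lit 0) (p (nat_lit 0x16000c) (nat_lit 0) (p (nat_lit 0x160004) (nat_lit 0) (p (nat_lit 0x68612) (nat_lit 0) (p (nat_lit 0x50592) (nat_lit 0) (p (nat_lit 0x40512) (nat_lit 0) (p (nat_lit 0x50312)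 (nat_lit 0) (p (nat_lit 0x38292) (nat_lit 0) (p (nat_lit 0x28212) (nat_lit 0) (p (nat_lit 0x38112) (nat_lit 0) (p (nat_lit 0x20092) (nat_lit 0) (p (nat_lit 0x10012) (nat_lit 0) pn))))))))))))))))))))))))) :=
  Cl.node (nat_lit 0x380c2) (nat_lit 2) (by decide +kernel) (ClAll.succ (ClAll.succ ClAll.zero n180) n181)

def n243 : Cl (O (nat_lit 4)) (R (nat_lit 14353))
    (p (nat_lit 0x3c4aa) (nat_lit 7) (p (nat_lit 0xd1) (nat_lit 1) (p (nat_lit 0xc9) (nat_lit 0) (p (nat_lit 0x109) (nat_lit 1) (p (nat_lit 0x101) (nat_lit 0) (p (nat_lit 0x119) (nat_lit 0) (p (nat_lit 0xc1) (nat_lit 0) (p (nat_lit 0x81) (nat_lit 1) (p (nat_lit 0x41) (nat_lit 1) (p (nat_lit 0x108090887069a) (nat_lit 0) (p (nat_lit 0x107870806861a) (nat_lit 0) (p (nat_lit 0x8000000000000070786058a) (nat_lit 0) (p (nat_lit 0x10787058502) (nat_lit 0) (p (nat_lit 0x10586850482) (nat_lit 0) (p (nat_lit 0x16000c) (nat_lit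 0) (p (nat_lit 0x160004) (nat_lit 0) (p (nat_lit 0x68612) (nat_lit 0) (p (nat_lit 0x50592) (nat_lit 0) (p (nat_lit 0x40512) (nat_lit 0) (p (nat_lit 0x50312) (nat_lit 0) (p (nat_lit 0x38292) (nat_lit 0) (p (nat_lit 0x28212) (nat_lit 0) (p (nat_lit 0x38112) (nat_lit 0) (p (nat_lit 0x20092) (nat_lit 0) (p (nat_lit 0x10012) (nat_lit 0) pn))))))))))))))))))))))))) :=
  Cl.node (nat_lit 0x380c2) (nat_lit 2) (by decide +kernel) (ClAll.succ (ClAll.succ ClAll.zero n182) n183)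

def n244 : Cl (O (nat_lit 4)) (R (nat_lit 14353))
    (p (nat_lit 0x380c2) (nat_lit 0) (p (nat_lit 0x3c4aa) (nat_lit 7) (p (nat_lit 0xd1) (nat_lit 1) (p (nat_lit 0xc9) (nat_lit 0) (p (nat_lit 0x101) (nat_lit 1) (p (nat_lit 0x119) (nat_lit 0) (p (nat_lit 0xc1) (nat_lit 0) (p (nat_lit 0x81) (nat_lit 1) (p (nat_lit 0x41) (nat_lit 1) (p (nat_lit 0x108090887069a) (nat_lit 0) (p (nat_lit 0x107870806861a) (nat_lit 0) (p (nat_lit 0x8000000000000070786058a) (nat_lit 0) (p (nat_lit 0x10787058502) (nat_lit 0) (p (nat_lit 0x10586850482) (nat_lit 0) (p (nat_lit 0x16000c) (nat_lit 0) (p (nat_lit 0x160004) (nat_lit 0) (p (nat_lit 0x68612) (nat_lit 0) (p (nat_lit 0x50592) (nat_lit 0) (p (nat_lit 0x40512) (nat_lit 0) (p (nat_lit 0x50312) (nat_lit 0) (p (nat_lit 0x38292) (nat_lit 0) (p (nat_lit 0x28212) (nat_lit 0) (p (nat_lit 0x38112) (nat_lit 0) (p (nat_lit 0x20092) (nat_lit 0) (p (nat_lit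 0x10012) (nat_lit 0) pn))))))))))))))))))))))))) :=
  Cl.node (nat_lit 0xb000c) (nat_lit 2) (by decide +kernel) (ClAll.succ (ClAll.succ ClAll.zero n184) s981)

def n245 : Cl (O (nat_lit 4)) (R (nat_lit 14353))
    (p (nat_lit 0x380c2) (nat_lit 1) (p (nat_lit 0x3c4aa) (nat_lit 7) (p (nat_lit 0xd1) (nat_lit 1) (p (nat_lit 0xc9) (nat_lit 0) (p (nat_lit 0x101) (nat_lit 1) (p (nat_lit 0x119) (nat_lit 0) (p (nat_lit 0xc1) (nat_lit 0) (p (nat_lit 0x81) (nat_lit 1) (p (nat_lit 0x41) (nat_lit 1) (p (nat_lit 0x108090887069a) (nat_lit 0) (p (nat_lit 0x107870806861a) (nat_lit 0) (p (nat_lit 0x8000000000000070786058a) (nat_lit 0) (p (nat_lit 0x10787058502) (nat_lit 0) (p (nat_lit 0x10586850482) (nat_lit 0) (p (nat_lit 0x16000c) (nat_lit 0) (p (nat_lit 0x160004) (nat_lit 0) (p (nat_lit 0x68612) (nat_lit 0) (p (nat_lit 0x50592) (nat_lit 0) (p (nat_lit 0x40512) (nat_lit 0) (p (nat_lit 0x50312)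 (nat_lit 0) (p (nat_lit 0x38292) (nat_lit 0) (p (nat_lit 0x28212) (nat_lit 0) (p (nat_lit 0x38112) (nat_lit 0) (p (nat_lit 0x20092) (nat_lit 0) (p (nat_lit 0x10012) (nat_lit 0) pn))))))))))))))))))))))))) :=
  Cl.node (nat_lit 0xc1) (nat_lit 2) (by decide +kernel) (ClAll.succ (ClAll.succ ClAll.zero n185) n186)

def n246 : Cl (O (nat_lit 4)) (R (nat_lit 14353))
    (p (nat_lit 0x380c2) (nat_lit 0) (p (nat_lit 0x3c4aa) (nat_lit 7) (p (nat_lit 0x111) (nat_lit 1) (p (nat_lit 0xd1) (nat_lit 1) (p (nat_lit 0xc9) (nat_lit 0) (p (nat_lit 0x119) (nat_lit 1) (p (nat_lit 0xc1) (nat_lit 0) (p (nat_lit 0x81) (nat_lit 1) (p (nat_lit 0x41) (nat_lit 1) (p (nat_lit 0x108090887069a) (nat_lit 0) (p (nat_lit 0x107870806861a) (nat_lit 0) (p (nat_lit 0x8000000000000070786058a) (nat_lit 0) (p (nat_lit 0x10787058502) (nat_lit 0) (p (nat_lit 0x10586850482) (nat_lit 0) (p (nat_lit 0x16000c) (nat_lit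 0) (p (nat_lit 0x160004) (nat_lit 0) (p (nat_lit 0x68612) (nat_lit 0) (p (nat_lit 0x50592) (nat_lit 0) (p (nat_lit 0x40512) (nat_lit 0) (p (nat_lit 0x50312) (nat_lit 0) (p (nat_lit 0x38292) (nat_lit 0) (p (nat_lit 0x28212) (nat_lit 0) (p (nat_lit 0x38112) (nat_lit 0) (p (nat_lit 0x20092) (nat_lit 0) (p (nat_lit 0x10012) (nat_lit 0) pn))))))))))))))))))))))))) :=
  Cl.node (nat_lit 0xb0004) (nat_lit 2) (by decide +kernel) (ClAll.succ (ClAll.succ ClAll.zero n187) s1018)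

def n247 : Cl (O (nat_lit 4)) (R (nat_lit 14353))
    (p (nat_lit 0x380c2) (nat_lit 1) (p (nat_lit 0x3c4aa) (nat_lit 7) (p (nat_lit 0x111) (nat_lit 1) (p (nat_lit 0xd1) (nat_lit 1) (p (nat_lit 0xc9) (nat_lit 0) (p (nat_lit 0x119) (nat_lit 1) (p (nat_lit 0xc1) (nat_lit 0) (p (nat_lit 0x81) (nat_lit 1) (p (nat_lit 0x41) (nat_lit 1) (p (nat_lit 0x108090887069a) (nat_lit 0) (p (nat_lit 0x107870806861a) (nat_lit 0) (p (nat_lit 0x8000000000000070786058a) (nat_lit 0) (p (nat_lit 0x10787058502) (nat_lit 0) (p (nat_lit 0x10586850482) (nat_lit 0) (p (nat_lit 0x16000c) (nat_lit 0) (p (nat_lit 0x160004) (nat_lit 0) (p (nat_lit 0x68612) (nat_lit 0) (p (nat_lit 0x50592) (nat_lit 0) (p (nat_lit 0x40512) (nat_lit 0) (p (nat_lit 0x50312) (nat_lit 0) (p (nat_lit 0x38292) (nat_lit 0) (p (nat_lit 0x28212) (nat_lit 0) (p (nat_lit 0x38112) (nat_lit 0) (p (nat_lit 0x20092) (nat_lit 0) (p (nat_lit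 0x10012) (nat_lit 0) pn))))))))))))))))))))))))) :=
  Cl.node (nat_lit 0xb000c) (nat_lit 2) (by decide +kernel) (ClAll.succ (ClAll.succ ClAll.zero n188) n189)

def n248 : Cl (O (nat_lit 4)) (R (nat_lit 14353))
    (p (nat_lit 0x380c2) (nat_lit 1) (p (nat_lit 0x3c4aa) (nat_lit 10) (p (nat_lit 0x111) (nat_lit 1) (p (nat_lit 0xd1) (nat_lit 1) (p (nat_lit 0xc9) (nat_lit 0) (p (nat_lit 0x119) (nat_lit 1) (p (nat_lit 0xc1) (nat_lit 0) (p (nat_lit 0x81) (nat_lit 1) (p (nat_lit 0x41) (nat_lit 1) (p (nat_lit 0x108090887069a) (nat_lit 0) (p (nat_lit 0x107870806861a) (nat_lit 0) (p (nat_lit 0x8000000000000070786058a) (nat_lit 0) (p (nat_lit 0x10787058502) (nat_lit 0) (p (nat_lit 0x10586850482) (nat_lit 0) (p (nat_lit 0x16000c) (nat_lit 0) (p (nat_lit 0x160004) (nat_lit 0) (p (nat_lit 0x68612) (nat_lit 0) (p (nat_lit 0x50592) (nat_lit 0) (p (nat_lit 0x40512) (nat_lit 0) (p (nat_lit 0x50312)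 (nat_lit 0) (p (nat_lit 0x38292) (nat_lit 0) (p (nat_lit 0x28212) (nat_lit 0) (p (nat_lit 0x38112) (nat_lit 0) (p (nat_lit 0x20092) (nat_lit 0) (p (nat_lit 0x10012) (nat_lit 0) pn))))))))))))))))))))))))) :=
  Cl.node (nat_lit 0xb000c) (nat_lit 2) (by decide +kernel) (ClAll.succ (ClAll.succ ClAll.zero s1047) s1048)

def n249 : Cl (O (nat_lit 4)) (R (nat_lit 14353))
    (p (nat_lit 0x119) (nat_lit 1) (p (nat_lit 0x101) (nat_lit 0) (p (nat_lit 0x111) (nat_lit 0) (p (nat_lit 0x109) (nat_lit 0) (p (nat_lit 0xc9) (nat_lit 1) (p (nat_lit 0x119) (nat_lit 1) (p (nat_lit 0xc1) (nat_lit 0) (p (nat_lit 0x81) (nat_lit 1) (p (nat_lit 0x41) (nat_lit 1) (p (nat_lit 0x108090887069a) (nat_lit 0) (p (nat_lit 0x107870806861a) (nat_lit 0) (p (nat_lit 0x8000000000000070786058a) (nat_lit 0) (p (nat_lit 0x10787058502) (nat_lit 0) (p (nat_lit 0x10586850482) (nat_lit 0) (p (nat_lit 0x16000c) (nat_lit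 0) (p (nat_lit 0x160004) (nat_lit 0) (p (nat_lit 0x68612) (nat_lit 0) (p (nat_lit 0x50592) (nat_lit 0) (p (nat_lit 0x40512) (nat_lit 0) (p (nat_lit 0x50312) (nat_lit 0) (p (nat_lit 0x38292) (nat_lit 0) (p (nat_lit 0x28212) (nat_lit 0) (p (nat_lit 0x38112) (nat_lit 0) (p (nat_lit 0x20092) (nat_lit 0) (p (nat_lit 0x10012) (nat_lit 0) pn))))))))))))))))))))))))) :=
  Cl.node (nat_lit 0x44c2a) (nat_lit 12) (by decide +kernel) (ClAll.succ (ClAll.succ (ClAll.succ (ClAll.succ (ClAll.succ (ClAll.succ (ClAll.succ (ClAll.succ (ClAll.succ (ClAll.succ (ClAll.succ (ClAll.succ ClAll.zero s1051) s1052) s1053) s1054) s1055) s1056) s1057) s1058) s1059) s1060) s1061) s1062)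

def n250 : Cl (O (nat_lit 4)) (R (nat_lit 14353))
    (p (nat_lit 0x44c2a) (nat_lit 0) (p (nat_lit 0x101) (nat_lit 1) (p (nat_lit 0x111) (nat_lit 0) (p (nat_lit 0x109) (nat_lit 0) (p (nat_lit 0xc9) (nat_lit 1) (p (nat_lit 0x119) (nat_lit 1) (p (nat_lit 0xc1) (nat_lit 0) (p (nat_lit 0x81) (nat_lit 1) (p (nat_lit 0x41) (nat_lit 1) (p (nat_lit 0x108090887069a) (nat_lit 0) (p (nat_lit 0x107870806861a) (nat_lit 0) (p (nat_lit 0x8000000000000070786058a) (nat_lit 0) (p (nat_lit 0x10787058502) (nat_lit 0) (p (nat_lit 0x10586850482) (nat_lit 0) (p (nat_lit 0x16000c) (nat_lit 0) (p (nat_lit 0x160004) (nat_lit 0) (p (nat_lit 0x68612) (nat_lit 0) (p (nat_lit 0x50592) (nat_lit 0) (p (nat_lit 0x40512) (nat_lit 0) (p (nat_lit 0x50312) (nat_lit 0) (p (nat_lit 0x38292) (nat_lit 0) (p (nat_lit 0x28212) (nat_lit 0) (p (nat_lit 0x38112) (nat_lit 0) (p (nat_lit 0x20092) (nat_lit 0) (p (nat_lit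 0x10012) (nat_lit 0) pn))))))))))))))))))))))))) :=
  Cl.node (nat_lit 0x380c2) (nat_lit 1) (by decide +kernel) (ClAll.succ ClAll.zero n190)

def n251 : Cl (O (nat_lit 4)) (R (nat_lit 14353))
    (p (nat_lit 0x380c2) (nat_lit 0) (p (nat_lit 0x3c4aa) (nat_lit 7) (p (nat_lit 0x111) (nat_lit 1) (p (nat_lit 0x109) (nat_lit 0) (p (nat_lit 0xc9) (nat_lit 1) (p (nat_lit 0x119) (nat_lit 1) (p (nat_lit 0xc1) (nat_lit 0) (p (nat_lit 0x81) (nat_lit 1) (p (nat_lit 0x41) (nat_lit 1) (p (nat_lit 0x108090887069a) (nat_lit 0) (p (nat_lit 0x107870806861a) (nat_lit 0) (p (nat_lit 0x8000000000000070786058a) (nat_lit 0) (p (nat_lit 0x10787058502) (nat_lit 0) (p (nat_lit 0x10586850482) (nat_lit 0) (p (nat_lit 0x16000c) (nat_lit 0) (p (nat_lit 0x160004) (nat_lit 0) (p (nat_lit 0x68612) (nat_lit 0) (p (nat_lit 0x50592) (nat_lit 0) (p (nat_lit 0x40512) (nat_lit 0) (p (nat_lit 0x50312) (nat_lit 0) (p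 (nat_lit 0x38292) (nat_lit 0) (p (nat_lit 0x28212) (nat_lit 0) (p (nat_lit 0x38112) (nat_lit 0) (p (nat_lit 0x20092) (nat_lit 0) (p (nat_lit 0x10012) (nat_lit 0) pn))))))))))))))))))))))))) :=
  Cl.node (nat_lit 0x101) (nat_lit 2) (by decide +kernel) (ClAll.succ (ClAll.succ ClAll.zero n191) s1101)

def n252 : Cl (O (nat_lit 4)) (R (nat_lit 14353))
    (p (nat_lit 0x380c2) (nat_lit 1) (p (nat_lit 0x3c4aa) (nat_lit 7) (p (nat_lit 0x111) (nat_lit 1) (p (nat_lit 0x109) (nat_lit 0) (p (nat_lit 0xc9) (nat_lit 1) (p (nat_lit 0x119) (nat_lit 1) (p (nat_lit 0xc1) (nat_lit 0) (p (nat_lit 0x81) (nat_lit 1) (p (nat_lit 0x41) (nat_lit 1) (p (nat_lit 0x108090887069a) (nat_lit 0) (p (nat_lit 0x107870806861a) (nat_lit 0) (p (nat_lit 0x8000000000000070786058a) (nat_lit 0) (p (nat_lit 0x10787058502) (nat_lit 0) (p (nat_lit 0x10586850482) (nat_lit 0) (p (nat_lit 0x16000c) (nat_lit 0) (p (nat_lit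 0x160004) (nat_lit 0) (p (nat_lit 0x68612) (nat_lit 0) (p (nat_lit 0x50592) (nat_lit 0) (p (nat_lit 0x40512) (nat_lit 0) (p (nat_lit 0x50312) (nat_lit 0) (p (nat_lit 0x38292) (nat_lit 0) (p (nat_lit 0x28212) (nat_lit 0) (p (nat_lit 0x38112) (nat_lit 0) (p (nat_lit 0x20092) (nat_lit 0) (p (nat_lit 0x10012) (nat_lit 0) pn))))))))))))))))))))))))) :=
  Cl.node (nat_lit 0x101) (nat_lit 2) (by decide +kernel) (ClAll.succ (ClAll.succ ClAll.zero n192) s1106)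

def n253 : Cl (O (nat_lit 4)) (R (nat_lit 14353))
    (p (nat_lit 0x81) (nat_lit 1) (p (nat_lit 0xc9) (nat_lit 1) (p (nat_lit 0x109) (nat_lit 1) (p (nat_lit 0x101) (nat_lit 0) (p (nat_lit 0x119) (nat_lit 0) (p (nat_lit 0xd1) (nat_lit 0) (p (nat_lit 0x89) (nat_lit 0) (p (nat_lit 0x41) (nat_lit 0) (p (nat_lit 0x108090887069a) (nat_lit 0) (p (nat_lit 0x107870806861a) (nat_lit 0) (p (nat_lit 0x8000000000000070786058a) (nat_lit 0) (p (nat_lit 0x10787058502) (nat_lit 0) (p (nat_lit 0x10586850482) (nat_lit 0) (p (nat_lit 0x16000c) (nat_lit 0) (p (nat_lit 0x160004) (nat_lit 0) (p (nat_lit 0x68612) (nat_lit 0) (p (nat_lit 0x50592) (nat_lit 0) (p (nat_lit 0x40512) (nat_lit 0) (p (nat_lit 0x50312) (nat_lit 0) (p (nat_lit 0x38292) (nat_lit 0) (p (nat_lit 0x28212) (nat_lit 0) (p (nat_lit 0x38112) (nat_lit 0) (p (nat_lit 0x20092) (nat_lit 0) (p (nat_lit 0x10012) (nat_lit 0) pn))))))))))))))))))))))))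 :=
  Cl.node (nat_lit 0x444aa) (nat_lit 12) (by decide +kernel) (ClAll.succ (ClAll.succ (ClAll.succ (ClAll.succ (ClAll.succ (ClAll.succ (ClAll.succ (ClAll.succ (ClAll.succ (ClAll.succ (ClAll.succ (ClAll.succ ClAll.zero s3) s4) s5) s6) s7) s8) s9) n193) s18) s19) s20) s21)

def n254 : Cl (O (nat_lit 4)) (R (nat_lit 14353))
    (p (nat_lit 0x111) (nat_lit 0) (p (nat_lit 0xc9) (nat_lit 0) (p (nat_lit 0x81) (nat_lit 0) (p (nat_lit 0x101) (nat_lit 1) (p (nat_lit 0x119) (nat_lit 0) (p (nat_lit 0xd1) (nat_lit 0) (p (nat_lit 0x89) (nat_lit 0) (p (nat_lit 0x41) (nat_lit 0) (p (nat_lit 0x108090887069a) (nat_lit 0) (p (nat_lit 0x107870806861a) (nat_lit 0) (p (nat_lit 0x8000000000000070786058a) (nat_lit 0) (p (nat_lit 0x10787058502) (nat_lit 0) (p (nat_lit 0x10586850482) (nat_lit 0) (p (nat_lit 0x16000c) (nat_lit 0) (p (nat_lit 0x160004) (nat_lit 0) (p (nat_lit 0x68612) (nat_lit 0) (p (nat_lit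 0x50592) (nat_lit 0) (p (nat_lit 0x40512) (nat_lit 0) (p (nat_lit 0x50312) (nat_lit 0) (p (nat_lit 0x38292) (nat_lit 0) (p (nat_lit 0x28212) (nat_lit 0) (p (nat_lit 0x38112) (nat_lit 0) (p (nat_lit 0x20092) (nat_lit 0) (p (nat_lit 0x10012) (nat_lit 0) pn)))))))))))))))))))))))) :=
  Cl.node (nat_lit 0xc1) (nat_lit 2) (by decide +kernel) (ClAll.succ (ClAll.succ ClAll.zero s22) n194)

def n255 : Cl (O (nat_lit 4)) (R (nat_lit 14353))
    (p (nat_lit 0x111) (nat_lit 0) (p (nat_lit 0xc9) (nat_lit 1) (p (nat_lit 0x81) (nat_lit 0) (p (nat_lit 0x101) (nat_lit 1) (p (nat_lit 0x119) (nat_lit 0) (p (nat_lit 0xd1) (nat_lit 0) (p (nat_lit 0x89) (nat_lit 0) (p (nat_lit 0x41) (nat_lit 0) (p (nat_lit 0x108090887069a) (nat_lit 0) (p (nat_lit 0x107870806861a) (nat_lit 0) (p (nat_lit 0x8000000000000070786058a) (nat_lit 0) (p (nat_lit 0x10787058502) (nat_lit 0) (p (nat_lit 0x10586850482) (nat_lit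 0) (p (nat_lit 0x16000c) (nat_lit 0) (p (nat_lit 0x160004) (nat_lit 0) (p (nat_lit 0x68612) (nat_lit 0) (p (nat_lit 0x50592) (nat_lit 0) (p (nat_lit 0x40512) (nat_lit 0) (p (nat_lit 0x50312) (nat_lit 0) (p (nat_lit 0x38292) (nat_lit 0) (p (nat_lit 0x28212) (nat_lit 0) (p (nat_lit 0x38112) (nat_lit 0) (p (nat_lit 0x20092) (nat_lit 0) (p (nat_lit 0x10012) (nat_lit 0) pn)))))))))))))))))))))))) :=
  Cl.node (nat_lit 0x444aa) (nat_lit 12) (by decide +kernel) (ClAll.succ (ClAll.succ (ClAll.succ (ClAll.succ (ClAll.succ (ClAll.succ (ClAll.succ (ClAll.succ (ClAll.succ (ClAll.succ (ClAll.succ (ClAll.succ ClAll.zero s37) s38) s39) s40) s41) s42) s43) n195) s50) s51) s52) s53)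

def n256 : Cl (O (nat_lit 4)) (R (nat_lit 14353))
    (p (nat_lit 0xc9) (nat_lit 0) (p (nat_lit 0xc1) (nat_lit 0) (p (nat_lit 0x81) (nat_lit 1) (p (nat_lit 0x101) (nat_lit 1) (p (nat_lit 0x119) (nat_lit 0) (p (nat_lit 0xd1) (nat_lit 0) (p (nat_lit 0x89) (nat_lit 0) (p (nat_lit 0x41) (nat_lit 0) (p (nat_lit 0x108090887069a) (nat_lit 0) (p (nat_lit 0x107870806861a) (nat_lit 0) (p (nat_lit 0x8000000000000070786058a) (nat_lit 0) (p (nat_lit 0x10787058502) (nat_lit 0) (p (nat_lit 0x10586850482) (nat_lit 0) (p (nat_lit 0x16000c) (nat_lit 0) (p (nat_lit 0x160004) (nat_lit 0) (p (nat_lit 0x68612) (nat_lit 0) (p (nat_lit 0x50592) (nat_lit 0) (p (nat_lit 0x40512) (nat_lit 0) (p (nat_lit 0x50312) (nat_lit 0) (p (nat_lit 0x38292) (nat_lit 0) (p (nat_lit 0x28212) (nat_lit 0) (p (nat_lit 0x38112) (nat_lit 0) (p (nat_lit 0x20092) (nat_lit 0) (p (nat_lit 0x10012) (nat_lit 0) pn))))))))))))))))))))))))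 :=
  Cl.node (nat_lit 0x4c42a) (nat_lit 12) (by decide +kernel) (ClAll.succ (ClAll.succ (ClAll.succ (ClAll.succ (ClAll.succ (ClAll.succ (ClAll.succ (ClAll.succ (ClAll.succ (ClAll.succ (ClAll.succ (ClAll.succ ClAll.zero s55) s56) s57) s58) s59) s60) s61) s62) s63) s64) s65) s66)

def n257 : Cl (O (nat_lit 4)) (R (nat_lit 14353))
    (p (nat_lit 0xc9) (nat_lit 1) (p (nat_lit 0xc1) (nat_lit 0) (p (nat_lit 0x81) (nat_lit 1) (p (nat_lit 0x101) (nat_lit 1) (p (nat_lit 0x119) (nat_lit 0) (p (nat_lit 0xd1) (nat_lit 0) (p (nat_lit 0x89) (nat_lit 0) (p (nat_lit 0x41) (nat_lit 0) (p (nat_lit 0x108090887069a) (nat_lit 0) (p (nat_lit 0x107870806861a) (nat_lit 0) (p (nat_lit 0x8000000000000070786058a) (nat_lit 0) (p (nat_lit 0x10787058502) (nat_lit 0) (p (nat_lit 0x10586850482) (nat_lit 0) (p (nat_lit 0x16000c) (nat_lit 0) (p (nat_lit 0x160004) (nat_lit 0) (p (nat_lit 0x68612) (nat_lit 0)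 (p (nat_lit 0x50592) (nat_lit 0) (p (nat_lit 0x40512) (nat_lit 0) (p (nat_lit 0x50312) (nat_lit 0) (p (nat_lit 0x38292) (nat_lit 0) (p (nat_lit 0x28212) (nat_lit 0) (p (nat_lit 0x38112) (nat_lit 0) (p (nat_lit 0x20092) (nat_lit 0) (p (nat_lit 0x10012) (nat_lit 0) pn)))))))))))))))))))))))) :=
  Cl.node (nat_lit 0x444aa) (nat_lit 12) (by decide +kernel) (ClAll.succ (ClAll.succ (ClAll.succ (ClAll.succ (ClAll.succ (ClAll.succ (ClAll.succ (ClAll.succ (ClAll.succ (ClAll.succ (ClAll.succ (ClAll.succ ClAll.zero s67) s68) s69) s70) s71) s72) s73) n196) s78) s79) s80) s81)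

def n258 : Cl (O (nat_lit 4)) (R (nat_lit 14353))
    (p (nat_lit 0x3cc2a) (nat_lit 10) (p (nat_lit 0x109) (nat_lit 1) (p (nat_lit 0xc9) (nat_lit 1) (p (nat_lit 0xc1) (nat_lit 0) (p (nat_lit 0x119) (nat_lit 1) (p (nat_lit 0xd1) (nat_lit 0) (p (nat_lit 0x89) (nat_lit 0) (p (nat_lit 0x41) (nat_lit 0) (p (nat_lit 0x108090887069a) (nat_lit 0) (p (nat_lit 0x107870806861a) (nat_lit 0) (p (nat_lit 0x8000000000000070786058a) (nat_lit 0) (p (nat_lit 0x10787058502) (nat_lit 0) (p (nat_lit 0x10586850482) (nat_lit 0) (p (nat_lit 0x16000c) (nat_lit 0) (p (nat_lit 0x160004) (nat_lit 0) (p (nat_lit 0x68612) (nat_lit 0) (p (nat_lit 0x50592) (nat_lit 0) (p (nat_lit 0x40512) (nat_lit 0) (p (nat_lit 0x50312) (nat_lit 0) (p (nat_lit 0x38292) (nat_lit 0) (p (nat_lit 0x28212) (nat_lit 0) (p (nat_lit 0x38112) (nat_lit 0) (p (nat_lit 0x20092) (nat_lit 0) (p (nat_lit 0x10012) (nat_lit 0) pn))))))))))))))))))))))))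 :=
  Cl.node (nat_lit 0x380c2) (nat_lit 2) (by decide +kernel) (ClAll.succ (ClAll.succ ClAll.zero n197) n198)

def n259 : Cl (O (nat_lit 4)) (R (nat_lit 14353))
    (p (nat_lit 0x3cc2a) (nat_lit 10) (p (nat_lit 0x109) (nat_lit 1) (p (nat_lit 0x81) (nat_lit 0) (p (nat_lit 0xc1) (nat_lit 1) (p (nat_lit 0x119) (nat_lit 1) (p (nat_lit 0xd1) (nat_lit 0) (p (nat_lit 0x89) (nat_lit 0) (p (nat_lit 0x41) (nat_lit 0) (p (nat_lit 0x108090887069a) (nat_lit 0) (p (nat_lit 0x107870806861a) (nat_lit 0) (p (nat_lit 0x8000000000000070786058a) (nat_lit 0) (p (nat_lit 0x10787058502) (nat_lit 0) (p (nat_lit 0x10586850482) (nat_lit 0) (p (nat_lit 0x16000c) (nat_lit 0) (p (nat_lit 0x160004) (nat_lit 0) (p (nat_lit 0x68612) (nat_lit 0) (p (nat_lit 0x50592) (nat_lit 0) (p (nat_lit 0x40512) (nat_lit 0) (p (nat_lit 0x50312) (nat_lit 0) (p (nat_lit 0x38292) (nat_lit 0) (p (nat_lit 0x28212) (nat_lit 0)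 (p (nat_lit 0x38112) (nat_lit 0) (p (nat_lit 0x20092) (nat_lit 0) (p (nat_lit 0x10012) (nat_lit 0) pn)))))))))))))))))))))))) :=
  Cl.node (nat_lit 0x380c2) (nat_lit 2) (by decide +kernel) (ClAll.succ (ClAll.succ ClAll.zero n199) s139)

def n260 : Cl (O (nat_lit 4)) (R (nat_lit 14353))
    (p (nat_lit 0x109) (nat_lit 0) (p (nat_lit 0x101) (nat_lit 0) (p (nat_lit 0x81) (nat_lit 1) (p (nat_lit 0xc1) (nat_lit 1) (p (nat_lit 0x119) (nat_lit 1) (p (nat_lit 0xd1) (nat_lit 0) (p (nat_lit 0x89) (nat_lit 0) (p (nat_lit 0x41) (nat_lit 0) (p (nat_lit 0x108090887069a) (nat_lit 0) (p (nat_lit 0x107870806861a) (nat_lit 0) (p (nat_lit 0x8000000000000070786058a) (nat_lit 0) (p (nat_lit 0x10787058502) (nat_lit 0) (p (nat_lit 0x10586850482) (nat_lit 0) (p (nat_lit 0x16000c) (nat_lit 0) (p (nat_lit 0x160004) (nat_lit 0) (p (nat_lit 0x68612) (nat_lit 0) (p (nat_lit 0x50592) (nat_lit 0) (p (nat_lit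 0x40512) (nat_lit 0) (p (nat_lit 0x50312) (nat_lit 0) (p (nat_lit 0x38292) (nat_lit 0) (p (nat_lit 0x28212) (nat_lit 0) (p (nat_lit 0x38112) (nat_lit 0) (p (nat_lit 0x20092) (nat_lit 0) (p (nat_lit 0x10012) (nat_lit 0) pn)))))))))))))))))))))))) :=
  Cl.node (nat_lit 0x111) (nat_lit 2) (by decide +kernel) (ClAll.succ (ClAll.succ ClAll.zero n200) n201)

def n261 : Cl (O (nat_lit 4)) (R (nat_lit 14353))
    (p (nat_lit 0x109) (nat_lit 1) (p (nat_lit 0x101) (nat_lit 0) (p (nat_lit 0x81) (nat_lit 1) (p (nat_lit 0xc1) (nat_lit 1) (p (nat_lit 0x119) (nat_lit 1) (p (nat_lit 0xd1) (nat_lit 0) (p (nat_lit 0x89) (nat_lit 0) (p (nat_lit 0x41) (nat_lit 0) (p (nat_lit 0x108090887069a) (nat_lit 0) (p (nat_lit 0x107870806861a) (nat_lit 0) (p (nat_lit 0x8000000000000070786058a) (nat_lit 0) (p (nat_lit 0x10787058502) (nat_lit 0) (p (nat_lit 0x10586850482) (nat_lit 0) (p (nat_lit 0x16000c) (nat_lit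 0) (p (nat_lit 0x160004) (nat_lit 0) (p (nat_lit 0x68612) (nat_lit 0) (p (nat_lit 0x50592) (nat_lit 0) (p (nat_lit 0x40512) (nat_lit 0) (p (nat_lit 0x50312) (nat_lit 0) (p (nat_lit 0x38292) (nat_lit 0) (p (nat_lit 0x28212) (nat_lit 0) (p (nat_lit 0x38112) (nat_lit 0) (p (nat_lit 0x20092) (nat_lit 0) (p (nat_lit 0x10012) (nat_lit 0) pn)))))))))))))))))))))))) :=
  Cl.node (nat_lit 0x444aa) (nat_lit 12) (by decide +kernel) (ClAll.succ (ClAll.succ (ClAll.succ (ClAll.succ (ClAll.succ (ClAll.succ (ClAll.succ (ClAll.succ (ClAll.succ (ClAll.succ (ClAll.succ (ClAll.succ ClAll.zero s168) s169) s170) s171) s172) s173) s174) n202) n203) s199) s200) s201)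

def n262 : Cl (O (nat_lit 4)) (R (nat_lit 14353))
    (p (nat_lit 0x3cc2a) (nat_lit 0) (p (nat_lit 0xc1) (nat_lit 0) (p (nat_lit 0x109) (nat_lit 1) (p (nat_lit 0x101) (nat_lit 0) (p (nat_lit 0x111) (nat_lit 0) (p (nat_lit 0xd1) (nat_lit 1) (p (nat_lit 0x89) (nat_lit 0) (p (nat_lit 0x41) (nat_lit 0) (p (nat_lit 0x108090887069a) (nat_lit 0) (p (nat_lit 0x107870806861a) (nat_lit 0) (p (nat_lit 0x8000000000000070786058a) (nat_lit 0) (p (nat_lit 0x10787058502) (nat_lit 0) (p (nat_lit 0x10586850482) (nat_lit 0) (p (nat_lit 0x16000c) (nat_lit 0) (p (nat_lit 0x160004) (nat_lit 0) (p (nat_lit 0x68612) (nat_lit 0) (p (nat_lit 0x50592) (nat_lit 0) (p (nat_lit 0x40512) (nat_lit 0) (p (nat_lit 0x50312) (nat_lit 0) (p (nat_lit 0x38292) (nat_lit 0) (p (nat_lit 0x28212) (nat_lit 0) (p (nat_lit 0x38112) (nat_lit 0) (p (nat_lit 0x20092) (nat_lit 0) (p (nat_lit 0x10012) (nat_lit 0) pn))))))))))))))))))))))))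 :=
  Cl.node (nat_lit 0x380c2) (nat_lit 1) (by decide +kernel) (ClAll.succ ClAll.zero n204)

def n263 : Cl (O (nat_lit 4)) (R (nat_lit 14353))
    (p (nat_lit 0x200014) (nat_lit 0) (p (nat_lit 0xc1) (nat_lit 1) (p (nat_lit 0x109) (nat_lit 1) (p (nat_lit 0x101) (nat_lit 0) (p (nat_lit 0x111) (nat_lit 0) (p (nat_lit 0xd1) (nat_lit 1) (p (nat_lit 0x89) (nat_lit 0) (p (nat_lit 0x41) (nat_lit 0) (p (nat_lit 0x108090887069a) (nat_lit 0) (p (nat_lit 0x107870806861a) (nat_lit 0) (p (nat_lit 0x8000000000000070786058a) (nat_lit 0) (p (nat_lit 0x10787058502) (nat_lit 0) (p (nat_lit 0x10586850482) (nat_lit 0) (p (nat_lit 0x16000c) (nat_lit 0) (p (nat_lit 0x160004) (nat_lit 0) (p (nat_lit 0x68612) (nat_lit 0) (p (nat_lit 0x50592) (nat_lit 0) (p (nat_lit 0x40512) (nat_lit 0) (p (nat_lit 0x50312) (nat_lit 0) (p (nat_lit 0x38292) (nat_lit 0) (p (nat_lit 0x28212) (nat_lit 0) (p (nat_lit 0x38112)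 (nat_lit 0) (p (nat_lit 0x20092) (nat_lit 0) (p (nat_lit 0x10012) (nat_lit 0) pn)))))))))))))))))))))))) :=
  Cl.node (nat_lit 0x41) (nat_lit 2) (by decide +kernel) (ClAll.succ (ClAll.succ ClAll.zero n205) s243)

def n264 : Cl (O (nat_lit 4)) (R (nat_lit 14353))
    (p (nat_lit 0x200014) (nat_lit 0) (p (nat_lit 0x119) (nat_lit 0) (p (nat_lit 0x81) (nat_lit 0) (p (nat_lit 0x101) (nat_lit 1) (p (nat_lit 0x111) (nat_lit 0) (p (nat_lit 0xd1) (nat_lit 1) (p (nat_lit 0x89) (nat_lit 0) (p (nat_lit 0x41) (nat_lit 0) (p (nat_lit 0x108090887069a) (nat_lit 0) (p (nat_lit 0x107870806861a) (nat_lit 0) (p (nat_lit 0x8000000000000070786058a) (nat_lit 0) (p (nat_lit 0x10787058502) (nat_lit 0) (p (nat_lit 0x10586850482) (nat_lit 0) (p (nat_lit 0x16000c) (nat_lit 0) (p (nat_lit 0x160004) (nat_lit 0) (p (nat_lit 0x68612) (nat_lit 0) (p (nat_lit 0x50592) (nat_lit 0) (p (nat_lit 0x40512) (nat_lit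 0) (p (nat_lit 0x50312) (nat_lit 0) (p (nat_lit 0x38292) (nat_lit 0) (p (nat_lit 0x28212) (nat_lit 0) (p (nat_lit 0x38112) (nat_lit 0) (p (nat_lit 0x20092) (nat_lit 0) (p (nat_lit 0x10012) (nat_lit 0) pn)))))))))))))))))))))))) :=
  Cl.node (nat_lit 0x109) (nat_lit 2) (by decide +kernel) (ClAll.succ (ClAll.succ ClAll.zero s245) n206)

def n265 : Cl (O (nat_lit 4)) (R (nat_lit 14353))
    (p (nat_lit 0x119) (nat_lit 0) (p (nat_lit 0xc1) (nat_lit 0) (p (nat_lit 0x81) (nat_lit 1) (p (nat_lit 0x101) (nat_lit 1) (p (nat_lit 0x111) (nat_lit 0) (p (nat_lit 0xd1) (nat_lit 1) (p (nat_lit 0x89) (nat_lit 0) (p (nat_lit 0x41) (nat_lit 0) (p (nat_lit 0x108090887069a) (nat_lit 0) (p (nat_lit 0x107870806861a) (nat_lit 0) (p (nat_lit 0x8000000000000070786058a) (nat_lit 0) (p (nat_lit 0x10787058502) (nat_lit 0) (p (nat_lit 0x10586850482) (nat_lit 0) (p (nat_lit 0x16000c) (nat_lit 0) (p (nat_lit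 0x160004) (nat_lit 0) (p (nat_lit 0x68612) (nat_lit 0) (p (nat_lit 0x50592) (nat_lit 0) (p (nat_lit 0x40512) (nat_lit 0) (p (nat_lit 0x50312) (nat_lit 0) (p (nat_lit 0x38292) (nat_lit 0) (p (nat_lit 0x28212) (nat_lit 0) (p (nat_lit 0x38112) (nat_lit 0) (p (nat_lit 0x20092) (nat_lit 0) (p (nat_lit 0x10012) (nat_lit 0) pn)))))))))))))))))))))))) :=
  Cl.node (nat_lit 0x444aa) (nat_lit 12) (by decide +kernel) (ClAll.succ (ClAll.succ (ClAll.succ (ClAll.succ (ClAll.succ (ClAll.succ (ClAll.succ (ClAll.succ (ClAll.succ (ClAll.succ (ClAll.succ (ClAll.succ ClAll.zero s272) s273) s274) s275) s276) s277) s278) n207) s295) s296) s297) s298)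

def n266 : Cl (O (nat_lit 4)) (R (nat_lit 14353))
    (p (nat_lit 0x119) (nat_lit 1) (p (nat_lit 0xc1) (nat_lit 0) (p (nat_lit 0x81) (nat_lit 1) (p (nat_lit 0x101) (nat_lit 1) (p (nat_lit 0x111) (nat_lit 0) (p (nat_lit 0xd1) (nat_lit 1) (p (nat_lit 0x89) (nat_lit 0) (p (nat_lit 0x41) (nat_lit 0) (p (nat_lit 0x108090887069a) (nat_lit 0) (p (nat_lit 0x107870806861a) (nat_lit 0) (p (nat_lit 0x8000000000000070786058a) (nat_lit 0) (p (nat_lit 0x10787058502) (nat_lit 0) (p (nat_lit 0x10586850482) (nat_lit 0) (p (nat_lit 0x16000c) (nat_lit 0) (p (nat_lit 0x160004) (nat_lit 0) (p (nat_lit 0x68612) (nat_lit 0) (p (nat_lit 0x50592) (nat_lit 0) (p (nat_lit 0x40512) (nat_lit 0) (p (nat_lit 0x50312) (nat_lit 0) (p (nat_lit 0x38292) (nat_lit 0) (p (nat_lit 0x28212) (nat_lit 0) (p (nat_lit 0x38112) (nat_lit 0) (p (nat_lit 0x20092) (nat_lit 0) (p (nat_lit 0x10012) (nat_lit 0) pn))))))))))))))))))))))))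 :=
  Cl.node (nat_lit 0x3cc2a) (nat_lit 12) (by decide +kernel) (ClAll.succ (ClAll.succ (ClAll.succ (ClAll.succ (ClAll.succ (ClAll.succ (ClAll.succ (ClAll.succ (ClAll.succ (ClAll.succ (ClAll.succ (ClAll.succ ClAll.zero s299) s300) s301) s302) s303) s304) s305) s306) s307) s308) s309) s310)

def n267 : Cl (O (nat_lit 4)) (R (nat_lit 14353))
    (p (nat_lit 0x3cc2a) (nat_lit 0) (p (nat_lit 0x101) (nat_lit 0) (p (nat_lit 0xc1) (nat_lit 1) (p (nat_lit 0x81) (nat_lit 1) (p (nat_lit 0x111) (nat_lit 1) (p (nat_lit 0xd1) (nat_lit 1) (p (nat_lit 0x89) (nat_lit 0) (p (nat_lit 0x41) (nat_lit 0) (p (nat_lit 0x108090887069a) (nat_lit 0) (p (nat_lit 0x107870806861a) (nat_lit 0) (p (nat_lit 0x8000000000000070786058a) (nat_lit 0) (p (nat_lit 0x10787058502) (nat_lit 0) (p (nat_lit 0x10586850482) (nat_lit 0) (p (nat_lit 0x16000c) (nat_lit 0) (p (nat_lit 0x160004) (nat_lit 0) (p (nat_lit 0x68612)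 (nat_lit 0) (p (nat_lit 0x50592) (nat_lit 0) (p (nat_lit 0x40512) (nat_lit 0) (p (nat_lit 0x50312) (nat_lit 0) (p (nat_lit 0x38292) (nat_lit 0) (p (nat_lit 0x28212) (nat_lit 0) (p (nat_lit 0x38112) (nat_lit 0) (p (nat_lit 0x20092) (nat_lit 0) (p (nat_lit 0x10012) (nat_lit 0) pn)))))))))))))))))))))))) :=
  Cl.node (nat_lit 0x380c2) (nat_lit 1) (by decide +kernel) (ClAll.succ ClAll.zero n208)

def n268 : Cl (O (nat_lit 4)) (R (nat_lit 14353))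
    (p (nat_lit 0x444aa) (nat_lit 7) (p (nat_lit 0x101) (nat_lit 1) (p (nat_lit 0xc1) (nat_lit 1) (p (nat_lit 0x81) (nat_lit 1) (p (nat_lit 0x111) (nat_lit 1) (p (nat_lit 0xd1) (nat_lit 1) (p (nat_lit 0x89) (nat_lit 0) (p (nat_lit 0x41) (nat_lit 0) (p (nat_lit 0x108090887069a) (nat_lit 0) (p (nat_lit 0x107870806861a) (nat_lit 0) (p (nat_lit 0x8000000000000070786058a) (nat_lit 0) (p (nat_lit 0x10787058502) (nat_lit 0) (p (nat_lit 0x10586850482) (nat_lit 0) (p (nat_lit 0x16000c) (nat_lit 0) (p (nat_lit 0x160004) (nat_lit 0) (p (nat_lit 0x68612) (nat_lit 0) (p (nat_lit 0x50592) (nat_lit 0) (p (nat_lit 0x40512) (nat_lit 0) (p (nat_lit 0x50312) (nat_lit 0) (p (nat_lit 0x38292) (nat_lit 0) (p (nat_lit 0x28212) (nat_lit 0) (p (nat_lit 0x38112) (nat_lit 0) (p (nat_lit 0x20092) (nat_lit 0) (p (nat_lit 0x10012) (nat_lit 0) pn)))))))))))))))))))))))) :=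
  Cl.node (nat_lit 0x380c2) (nat_lit 2) (by decide +kernel) (ClAll.succ (ClAll.succ ClAll.zero s337) s338)

def n269 : Cl (O (nat_lit 4)) (R (nat_lit 14353))
    (p (nat_lit 0xd1) (nat_lit 1) (p (nat_lit 0x111) (nat_lit 1) (p (nat_lit 0x109) (nat_lit 0) (p (nat_lit 0x101) (nat_lit 0) (p (nat_lit 0x119) (nat_lit 0) (p (nat_lit 0xc9) (nat_lit 0) (p (nat_lit 0x89) (nat_lit 1) (p (nat_lit 0x41) (nat_lit 0) (p (nat_lit 0x108090887069a) (nat_lit 0) (p (nat_lit 0x107870806861a) (nat_lit 0) (p (nat_lit 0x8000000000000070786058a) (nat_lit 0) (p (nat_lit 0x10787058502) (nat_lit 0) (p (nat_lit 0x10586850482) (nat_lit 0) (p (nat_lit 0x16000c) (nat_lit 0) (p (nat_lit 0x160004) (nat_lit 0) (p (nat_lit 0x68612) (nat_lit 0) (p (nat_lit 0x50592) (nat_lit 0) (p (nat_lit 0x40512) (nat_lit 0) (p (nat_lit 0x50312) (nat_lit 0) (p (nat_lit 0x38292) (nat_lit 0) (p (nat_lit 0x28212) (nat_lit 0) (p (nat_lit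 0x38112) (nat_lit 0) (p (nat_lit 0x20092) (nat_lit 0) (p (nat_lit 0x10012) (nat_lit 0) pn)))))))))))))))))))))))) :=
  Cl.node (nat_lit 0x81) (nat_lit 2) (by decide +kernel) (ClAll.succ (ClAll.succ ClAll.zero n209) s348)

def n270 : Cl (O (nat_lit 4)) (R (nat_lit 14353))
    (p (nat_lit 0x200014) (nat_lit 0) (p (nat_lit 0xd1) (nat_lit 0) (p (nat_lit 0x109) (nat_lit 1) (p (nat_lit 0x101) (nat_lit 0) (p (nat_lit 0x119) (nat_lit 0) (p (nat_lit 0xc9) (nat_lit 0) (p (nat_lit 0x89) (nat_lit 1) (p (nat_lit 0x41) (nat_lit 0) (p (nat_lit 0x108090887069a) (nat_lit 0) (p (nat_lit 0x107870806861a) (nat_lit 0) (p (nat_lit 0x8000000000000070786058a) (nat_lit 0) (p (nat_lit 0x10787058502) (nat_lit 0) (p (nat_lit 0x10586850482) (nat_lit 0) (p (nat_lit 0x16000c) (nat_lit 0) (p (nat_lit 0x160004) (nat_lit 0) (p (nat_lit 0x68612) (nat_lit 0) (p (nat_lit 0x50592) (nat_lit 0) (p (nat_lit 0x40512)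 (nat_lit 0) (p (nat_lit 0x50312) (nat_lit 0) (p (nat_lit 0x38292) (nat_lit 0) (p (nat_lit 0x28212) (nat_lit 0) (p (nat_lit 0x38112) (nat_lit 0) (p (nat_lit 0x20092) (nat_lit 0) (p (nat_lit 0x10012) (nat_lit 0) pn)))))))))))))))))))))))) :=
  Cl.node (nat_lit 0x41) (nat_lit 2) (by decide +kernel) (ClAll.succ (ClAll.succ ClAll.zero n210) s363)

def n271 : Cl (O (nat_lit 4)) (R (nat_lit 14353))
    (p (nat_lit 0x444aa) (nat_lit 7) (p (nat_lit 0xd1) (nat_lit 1) (p (nat_lit 0x109) (nat_lit 1) (p (nat_lit 0x101) (nat_lit 0) (p (nat_lit 0x119) (nat_lit 0) (p (nat_lit 0xc9) (nat_lit 0) (p (nat_lit 0x89) (nat_lit 1) (p (nat_lit 0x41) (nat_lit 0) (p (nat_lit 0x108090887069a) (nat_lit 0) (p (nat_lit 0x107870806861a) (nat_lit 0) (p (nat_lit 0x8000000000000070786058a) (nat_lit 0) (p (nat_lit 0x10787058502) (nat_lit 0) (p (nat_lit 0x10586850482) (nat_lit 0) (p (nat_lit 0x16000c) (nat_lit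 0) (p (nat_lit 0x160004) (nat_lit 0) (p (nat_lit 0x68612) (nat_lit 0) (p (nat_lit 0x50592) (nat_lit 0) (p (nat_lit 0x40512) (nat_lit 0) (p (nat_lit 0x50312) (nat_lit 0) (p (nat_lit 0x38292) (nat_lit 0) (p (nat_lit 0x28212) (nat_lit 0) (p (nat_lit 0x38112) (nat_lit 0) (p (nat_lit 0x20092) (nat_lit 0) (p (nat_lit 0x10012) (nat_lit 0) pn)))))))))))))))))))))))) :=
  Cl.node (nat_lit 0x380c2) (nat_lit 2) (by decide +kernel) (ClAll.succ (ClAll.succ ClAll.zero n211) n212)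

def n272 : Cl (O (nat_lit 4)) (R (nat_lit 14353))
    (p (nat_lit 0x200014) (nat_lit 0) (p (nat_lit 0xd1) (nat_lit 0) (p (nat_lit 0xc1) (nat_lit 0) (p (nat_lit 0x101) (nat_lit 1) (p (nat_lit 0x119) (nat_lit 0) (p (nat_lit 0xc9) (nat_lit 0) (p (nat_lit 0x89) (nat_lit 1) (p (nat_lit 0x41) (nat_lit 0) (p (nat_lit 0x108090887069a) (nat_lit 0) (p (nat_lit 0x107870806861a) (nat_lit 0) (p (nat_lit 0x8000000000000070786058a) (nat_lit 0) (p (nat_lit 0x10787058502) (nat_lit 0) (p (nat_lit 0x10586850482) (nat_lit 0) (p (nat_lit 0x16000c) (nat_lit 0) (p (nat_lit 0x160004) (nat_lit 0) (p (nat_lit 0x68612) (nat_lit 0) (p (nat_lit 0x50592) (nat_lit 0) (p (nat_lit 0x40512) (nat_lit 0) (p (nat_lit 0x50312) (nat_lit 0) (p (nat_lit 0x38292) (nat_lit 0) (p (nat_lit 0x28212) (nat_lit 0) (p (nat_lit 0x38112) (nat_lit 0) (p (nat_lit 0x20092) (nat_lit 0) (p (nat_lit 0x10012) (nat_lit 0) pn))))))))))))))))))))))))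 :=
  Cl.node (nat_lit 0x109) (nat_lit 2) (by decide +kernel) (ClAll.succ (ClAll.succ ClAll.zero s396) n213)

def n273 : Cl (O (nat_lit 4)) (R (nat_lit 14353))
    (p (nat_lit 0x444aa) (nat_lit 7) (p (nat_lit 0xd1) (nat_lit 1) (p (nat_lit 0xc1) (nat_lit 0) (p (nat_lit 0x101) (nat_lit 1) (p (nat_lit 0x119) (nat_lit 0) (p (nat_lit 0xc9) (nat_lit 0) (p (nat_lit 0x89) (nat_lit 1) (p (nat_lit 0x41) (nat_lit 0) (p (nat_lit 0x108090887069a) (nat_lit 0) (p (nat_lit 0x107870806861a) (nat_lit 0) (p (nat_lit 0x8000000000000070786058a) (nat_lit 0) (p (nat_lit 0x10787058502) (nat_lit 0) (p (nat_lit 0x10586850482) (nat_lit 0) (p (nat_lit 0x16000c) (nat_lit 0) (p (nat_lit 0x160004) (nat_lit 0) (p (nat_lit 0x68612) (nat_lit 0) (p (nat_lit 0x50592) (nat_lit 0) (p (nat_lit 0x40512) (nat_lit 0) (p (nat_lit 0x50312) (nat_lit 0) (p (nat_lit 0x38292) (nat_lit 0) (p (nat_lit 0x28212) (nat_lit 0) (p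 (nat_lit 0x38112) (nat_lit 0) (p (nat_lit 0x20092) (nat_lit 0) (p (nat_lit 0x10012) (nat_lit 0) pn)))))))))))))))))))))))) :=
  Cl.node (nat_lit 0x380c2) (nat_lit 2) (by decide +kernel) (ClAll.succ (ClAll.succ ClAll.zero n214) n215)

def n274 : Cl (O (nat_lit 4)) (R (nat_lit 14353))
    (p (nat_lit 0x444aa) (nat_lit 7) (p (nat_lit 0x111) (nat_lit 1) (p (nat_lit 0xd1) (nat_lit 1) (p (nat_lit 0xc1) (nat_lit 0) (p (nat_lit 0x119) (nat_lit 1) (p (nat_lit 0xc9) (nat_lit 0) (p (nat_lit 0x89) (nat_lit 1) (p (nat_lit 0x41) (nat_lit 0) (p (nat_lit 0x108090887069a) (nat_lit 0) (p (nat_lit 0x107870806861a) (nat_lit 0) (p (nat_lit 0x8000000000000070786058a) (nat_lit 0) (p (nat_lit 0x10787058502) (nat_lit 0) (p (nat_lit 0x10586850482) (nat_lit 0) (p (nat_lit 0x16000c) (nat_lit 0) (p (nat_lit 0x160004) (nat_lit 0) (p (nat_lit 0x68612) (nat_lit 0) (p (nat_lit 0x50592) (nat_lit 0) (p (nat_lit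 0x40512) (nat_lit 0) (p (nat_lit 0x50312) (nat_lit 0) (p (nat_lit 0x38292) (nat_lit 0) (p (nat_lit 0x28212) (nat_lit 0) (p (nat_lit 0x38112) (nat_lit 0) (p (nat_lit 0x20092) (nat_lit 0) (p (nat_lit 0x10012) (nat_lit 0) pn)))))))))))))))))))))))) :=
  Cl.node (nat_lit 0x380c2) (nat_lit 2) (by decide +kernel) (ClAll.succ (ClAll.succ ClAll.zero n216) n217)

def n275 : Cl (O (nat_lit 4)) (R (nat_lit 14353))
    (p (nat_lit 0x444aa) (nat_lit 8) (p (nat_lit 0x111) (nat_lit 1) (p (nat_lit 0xd1) (nat_lit 1) (p (nat_lit 0xc1) (nat_lit 0) (p (nat_lit 0x119) (nat_lit 1) (p (nat_lit 0xc9) (nat_lit 0) (p (nat_lit 0x89) (nat_lit 1) (p (nat_lit 0x41) (nat_lit 0) (p (nat_lit 0x108090887069a) (nat_lit 0) (p (nat_lit 0x107870806861a) (nat_lit 0) (p (nat_lit 0x8000000000000070786058a) (nat_lit 0) (p (nat_lit 0x10787058502) (nat_lit 0) (p (nat_lit 0x10586850482) (nat_lit 0) (p (nat_lit 0x16000c)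 (nat_lit 0) (p (nat_lit 0x160004) (nat_lit 0) (p (nat_lit 0x68612) (nat_lit 0) (p (nat_lit 0x50592) (nat_lit 0) (p (nat_lit 0x40512) (nat_lit 0) (p (nat_lit 0x50312) (nat_lit 0) (p (nat_lit 0x38292) (nat_lit 0) (p (nat_lit 0x28212) (nat_lit 0) (p (nat_lit 0x38112) (nat_lit 0) (p (nat_lit 0x20092) (nat_lit 0) (p (nat_lit 0x10012) (nat_lit 0) pn)))))))))))))))))))))))) :=
  Cl.node (nat_lit 0x380c2) (nat_lit 2) (by decide +kernel) (ClAll.succ (ClAll.succ ClAll.zero s469) n218)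

def n276 : Cl (O (nat_lit 4)) (R (nat_lit 14353))
    (p (nat_lit 0x444aa) (nat_lit 7) (p (nat_lit 0x111) (nat_lit 1) (p (nat_lit 0x101) (nat_lit 0) (p (nat_lit 0xc1) (nat_lit 1) (p (nat_lit 0x119) (nat_lit 1) (p (nat_lit 0xc9) (nat_lit 0) (p (nat_lit 0x89) (nat_lit 1) (p (nat_lit 0x41) (nat_lit 0) (p (nat_lit 0x108090887069a) (nat_lit 0) (p (nat_lit 0x107870806861a) (nat_lit 0) (p (nat_lit 0x8000000000000070786058a) (nat_lit 0) (p (nat_lit 0x10787058502) (nat_lit 0) (p (nat_lit 0x10586850482) (nat_lit 0) (p (nat_lit 0x16000c) (nat_lit 0) (p (nat_lit 0x160004) (nat_lit 0) (p (nat_lit 0x68612) (nat_lit 0) (p (nat_lit 0x50592) (nat_lit 0) (p (nat_lit 0x40512) (nat_lit 0) (p (nat_lit 0x50312) (nat_lit 0) (p (nat_lit 0x38292) (nat_lit 0) (p (nat_lit 0x28212) (nat_lit 0) (p (nat_lit 0x38112) (nat_lit 0) (p (nat_lit 0x20092) (nat_lit 0) (p (nat_lit 0x10012) (nat_lit 0) pn))))))))))))))))))))))))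 :=
  Cl.node (nat_lit 0x380c2) (nat_lit 2) (by decide +kernel) (ClAll.succ (ClAll.succ ClAll.zero n219) n220)

def n277 : Cl (O (nat_lit 4)) (R (nat_lit 14353))
    (p (nat_lit 0x111) (nat_lit 0) (p (nat_lit 0x89) (nat_lit 0) (p (nat_lit 0x109) (nat_lit 1) (p (nat_lit 0x101) (nat_lit 0) (p (nat_lit 0x119) (nat_lit 0) (p (nat_lit 0xd1) (nat_lit 0) (p (nat_lit 0x81) (nat_lit 0) (p (nat_lit 0x41) (nat_lit 1) (p (nat_lit 0x108090887069a) (nat_lit 0) (p (nat_lit 0x107870806861a) (nat_lit 0) (p (nat_lit 0x8000000000000070786058a) (nat_lit 0) (p (nat_lit 0x10787058502) (nat_lit 0) (p (nat_lit 0x10586850482) (nat_lit 0) (p (nat_lit 0x16000c) (nat_lit 0) (p (nat_lit 0x160004) (nat_lit 0) (p (nat_lit 0x68612) (nat_lit 0) (p (nat_lit 0x50592) (nat_lit 0) (p (nat_lit 0x40512) (nat_lit 0) (p (nat_lit 0x50312) (nat_lit 0) (p (nat_lit 0x38292) (nat_lit 0) (p (nat_lit 0x28212) (nat_lit 0) (p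 (nat_lit 0x38112) (nat_lit 0) (p (nat_lit 0x20092) (nat_lit 0) (p (nat_lit 0x10012) (nat_lit 0) pn)))))))))))))))))))))))) :=
  Cl.node (nat_lit 0x4c42a) (nat_lit 12) (by decide +kernel) (ClAll.succ (ClAll.succ (ClAll.succ (ClAll.succ (ClAll.succ (ClAll.succ (ClAll.succ (ClAll.succ (ClAll.succ (ClAll.succ (ClAll.succ (ClAll.succ ClAll.zero s535) s536) s537) s538) s539) s540) s541) s542) s543) s544) s545) s546)

def n278 : Cl (O (nat_lit 4)) (R (nat_lit 14353))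
    (p (nat_lit 0xc9) (nat_lit 0) (p (nat_lit 0x89) (nat_lit 1) (p (nat_lit 0x109) (nat_lit 1) (p (nat_lit 0x101) (nat_lit 0) (p (nat_lit 0x119) (nat_lit 0) (p (nat_lit 0xd1) (nat_lit 0) (p (nat_lit 0x81) (nat_lit 0) (p (nat_lit 0x41) (nat_lit 1) (p (nat_lit 0x108090887069a) (nat_lit 0) (p (nat_lit 0x107870806861a) (nat_lit 0) (p (nat_lit 0x8000000000000070786058a) (nat_lit 0) (p (nat_lit 0x10787058502) (nat_lit 0) (p (nat_lit 0x10586850482) (nat_lit 0) (p (nat_lit 0x16000c) (nat_lit 0) (p (nat_lit 0x160004) (nat_lit 0) (p (nat_lit 0x68612) (nat_lit 0) (p (nat_lit 0x50592) (nat_lit 0) (p (nat_lit 0x40512) (nat_lit 0) (p (nat_lit 0x50312) (nat_lit 0) (p (nat_lit 0x38292) (nat_lit 0) (p (nat_lit 0x28212) (nat_lit 0) (p (nat_lit 0x38112) (nat_lit 0) (p (nat_lit 0x20092) (nat_lit 0) (p (nat_lit 0x10012) (nat_lit 0) pn)))))))))))))))))))))))) :=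
  Cl.node (nat_lit 0x4c42a) (nat_lit 12) (by decide +kernel) (ClAll.succ (ClAll.succ (ClAll.succ (ClAll.succ (ClAll.succ (ClAll.succ (ClAll.succ (ClAll.succ (ClAll.succ (ClAll.succ (ClAll.succ (ClAll.succ ClAll.zero s548) s549) n221) s552) s553) s554) s555) s556) s557) s558) s559) s560)

def n279 : Cl (O (nat_lit 4)) (R (nat_lit 14353))
    (p (nat_lit 0xc9) (nat_lit 1) (p (nat_lit 0x89) (nat_lit 1) (p (nat_lit 0x109) (nat_lit 1) (p (nat_lit 0x101) (nat_lit 0) (p (nat_lit 0x119) (nat_lit 0) (p (nat_lit 0xd1) (nat_lit 0) (p (nat_lit 0x81) (nat_lit 0) (p (nat_lit 0x41) (nat_lit 1) (p (nat_lit 0x108090887069a) (nat_lit 0) (p (nat_lit 0x107870806861a) (nat_lit 0) (p (nat_lit 0x8000000000000070786058a) (nat_lit 0) (p (nat_lit 0x10787058502) (nat_lit 0) (p (nat_lit 0x10586850482) (nat_lit 0) (p (nat_lit 0x16000c) (nat_lit 0) (p (nat_lit 0x160004) (nat_lit 0) (p (nat_lit 0x68612) (nat_lit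 0) (p (nat_lit 0x50592) (nat_lit 0) (p (nat_lit 0x40512) (nat_lit 0) (p (nat_lit 0x50312) (nat_lit 0) (p (nat_lit 0x38292) (nat_lit 0) (p (nat_lit 0x28212) (nat_lit 0) (p (nat_lit 0x38112) (nat_lit 0) (p (nat_lit 0x20092) (nat_lit 0) (p (nat_lit 0x10012) (nat_lit 0) pn)))))))))))))))))))))))) :=
  Cl.node (nat_lit 0x3c4aa) (nat_lit 12) (by decide +kernel) (ClAll.succ (ClAll.succ (ClAll.succ (ClAll.succ (ClAll.succ (ClAll.succ (ClAll.succ (ClAll.succ (ClAll.succ (ClAll.succ (ClAll.succ (ClAll.succ ClAll.zero s561) s562) s563) s564) s565) s566) s567) s568) s569) s570) s571) s572)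

def n280 : Cl (O (nat_lit 4)) (R (nat_lit 14353))
    (p (nat_lit 0xc9) (nat_lit 0) (p (nat_lit 0x89) (nat_lit 1) (p (nat_lit 0xc1) (nat_lit 0) (p (nat_lit 0x101) (nat_lit 1) (p (nat_lit 0x119) (nat_lit 0) (p (nat_lit 0xd1) (nat_lit 0) (p (nat_lit 0x81) (nat_lit 0) (p (nat_lit 0x41) (nat_lit 1) (p (nat_lit 0x108090887069a) (nat_lit 0) (p (nat_lit 0x107870806861a) (nat_lit 0) (p (nat_lit 0x8000000000000070786058a) (nat_lit 0) (p (nat_lit 0x10787058502) (nat_lit 0) (p (nat_lit 0x10586850482) (nat_lit 0) (p (nat_lit 0x16000c) (nat_lit 0) (p (nat_lit 0x160004) (nat_lit 0) (p (nat_lit 0x68612) (nat_lit 0) (p (nat_lit 0x50592) (nat_lit 0) (p (nat_lit 0x40512) (nat_lit 0) (p (nat_lit 0x50312) (nat_lit 0) (p (nat_lit 0x38292) (nat_lit 0) (p (nat_lit 0x28212) (nat_lit 0) (p (nat_lit 0x38112) (nat_lit 0) (p (nat_lit 0x20092) (nat_lit 0) (p (nat_lit 0x10012) (nat_lit 0) pn))))))))))))))))))))))))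 :=
  Cl.node (nat_lit 0x4c42a) (nat_lit 12) (by decide +kernel) (ClAll.succ (ClAll.succ (ClAll.succ (ClAll.succ (ClAll.succ (ClAll.succ (ClAll.succ (ClAll.succ (ClAll.succ (ClAll.succ (ClAll.succ (ClAll.succ ClAll.zero s574) s575) n222) s578) s579) s580) s581) s582) s583) s584) s585) s586)

def n281 : Cl (O (nat_lit 4)) (R (nat_lit 14353))
    (p (nat_lit 0xc9) (nat_lit 1) (p (nat_lit 0x89) (nat_lit 1) (p (nat_lit 0xc1) (nat_lit 0) (p (nat_lit 0x101) (nat_lit 1) (p (nat_lit 0x119) (nat_lit 0) (p (nat_lit 0xd1) (nat_lit 0) (p (nat_lit 0x81) (nat_lit 0) (p (nat_lit 0x41) (nat_lit 1) (p (nat_lit 0x108090887069a) (nat_lit 0) (p (nat_lit 0x107870806861a) (nat_lit 0) (p (nat_lit 0x8000000000000070786058a) (nat_lit 0) (p (nat_lit 0x10787058502) (nat_lit 0) (p (nat_lit 0x10586850482) (nat_lit 0) (p (nat_lit 0x16000c) (nat_lit 0) (p (nat_lit 0x160004) (nat_lit 0) (p (nat_lit 0x68612)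 (nat_lit 0) (p (nat_lit 0x50592) (nat_lit 0) (p (nat_lit 0x40512) (nat_lit 0) (p (nat_lit 0x50312) (nat_lit 0) (p (nat_lit 0x38292) (nat_lit 0) (p (nat_lit 0x28212) (nat_lit 0) (p (nat_lit 0x38112) (nat_lit 0) (p (nat_lit 0x20092) (nat_lit 0) (p (nat_lit 0x10012) (nat_lit 0) pn)))))))))))))))))))))))) :=
  Cl.node (nat_lit 0x4c42a) (nat_lit 12) (by decide +kernel) (ClAll.succ (ClAll.succ (ClAll.succ (ClAll.succ (ClAll.succ (ClAll.succ (ClAll.succ (ClAll.succ (ClAll.succ (ClAll.succ (ClAll.succ (ClAll.succ ClAll.zero s587) s588) n223) s591) s592) s593) s594) s595) s596) s597) s598) s599)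

def n282 : Cl (O (nat_lit 4)) (R (nat_lit 14353))
    (p (nat_lit 0x3c4aa) (nat_lit 7) (p (nat_lit 0x89) (nat_lit 1) (p (nat_lit 0xc1) (nat_lit 1) (p (nat_lit 0x101) (nat_lit 1) (p (nat_lit 0x119) (nat_lit 0) (p (nat_lit 0xd1) (nat_lit 0) (p (nat_lit 0x81) (nat_lit 0) (p (nat_lit 0x41) (nat_lit 1) (p (nat_lit 0x108090887069a) (nat_lit 0) (p (nat_lit 0x107870806861a) (nat_lit 0) (p (nat_lit 0x8000000000000070786058a) (nat_lit 0) (p (nat_lit 0x10787058502) (nat_lit 0) (p (nat_lit 0x10586850482) (nat_lit 0) (p (nat_lit 0x16000c) (nat_lit 0) (p (nat_lit 0x160004) (nat_lit 0) (p (nat_lit 0x68612) (nat_lit 0) (p (nat_lit 0x50592) (nat_lit 0) (p (nat_lit 0x40512) (nat_lit 0) (p (nat_lit 0x50312) (nat_lit 0) (p (nat_lit 0x38292) (nat_lit 0) (p (nat_lit 0x28212) (nat_lit 0) (p (nat_lit 0x38112) (nat_lit 0) (p (nat_lit 0x20092) (nat_lit 0) (p (nat_lit 0x10012) (nat_lit 0) pn))))))))))))))))))))))))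 :=
  Cl.node (nat_lit 0x380c2) (nat_lit 2) (by decide +kernel) (ClAll.succ (ClAll.succ ClAll.zero s619) n224)

def n283 : Cl (O (nat_lit 4)) (R (nat_lit 14353))
    (p (nat_lit 0x3c4aa) (nat_lit 10) (p (nat_lit 0x89) (nat_lit 1) (p (nat_lit 0xc1) (nat_lit 1) (p (nat_lit 0x101) (nat_lit 1) (p (nat_lit 0x119) (nat_lit 0) (p (nat_lit 0xd1) (nat_lit 0) (p (nat_lit 0x81) (nat_lit 0) (p (nat_lit 0x41) (nat_lit 1) (p (nat_lit 0x108090887069a) (nat_lit 0) (p (nat_lit 0x107870806861a) (nat_lit 0) (p (nat_lit 0x8000000000000070786058a) (nat_lit 0) (p (nat_lit 0x10787058502) (nat_lit 0) (p (nat_lit 0x10586850482) (nat_lit 0) (p (nat_lit 0x16000c) (nat_lit 0) (p (nat_lit 0x160004) (nat_lit 0) (p (nat_lit 0x68612) (nat_lit 0) (p (nat_lit 0x50592) (nat_lit 0) (p (nat_lit 0x40512) (nat_lit 0) (p (nat_lit 0x50312) (nat_lit 0) (p (nat_lit 0x38292) (nat_lit 0) (p (nat_lit 0x28212) (nat_lit 0)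 (p (nat_lit 0x38112) (nat_lit 0) (p (nat_lit 0x20092) (nat_lit 0) (p (nat_lit 0x10012) (nat_lit 0) pn)))))))))))))))))))))))) :=
  Cl.node (nat_lit 0x380c2) (nat_lit 2) (by decide +kernel) (ClAll.succ (ClAll.succ ClAll.zero s627) n225)

def n284 : Cl (O (nat_lit 4)) (R (nat_lit 14353))
    (p (nat_lit 0x109) (nat_lit 0) (p (nat_lit 0x89) (nat_lit 1) (p (nat_lit 0xc9) (nat_lit 1) (p (nat_lit 0xc1) (nat_lit 0) (p (nat_lit 0x119) (nat_lit 1) (p (nat_lit 0xd1) (nat_lit 0) (p (nat_lit 0x81) (nat_lit 0) (p (nat_lit 0x41) (nat_lit 1) (p (nat_lit 0x108090887069a) (nat_lit 0) (p (nat_lit 0x107870806861a) (nat_lit 0) (p (nat_lit 0x8000000000000070786058a) (nat_lit 0) (p (nat_lit 0x10787058502) (nat_lit 0) (p (nat_lit 0x10586850482) (nat_lit 0) (p (nat_lit 0x16000c) (nat_lit 0) (p (nat_lit 0x160004) (nat_lit 0) (p (nat_lit 0x68612) (nat_lit 0) (p (nat_lit 0x50592) (nat_lit 0) (p (nat_lit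 0x40512) (nat_lit 0) (p (nat_lit 0x50312) (nat_lit 0) (p (nat_lit 0x38292) (nat_lit 0) (p (nat_lit 0x28212) (nat_lit 0) (p (nat_lit 0x38112) (nat_lit 0) (p (nat_lit 0x20092) (nat_lit 0) (p (nat_lit 0x10012) (nat_lit 0) pn)))))))))))))))))))))))) :=
  Cl.node (nat_lit 0x44c2a) (nat_lit 12) (by decide +kernel) (ClAll.succ (ClAll.succ (ClAll.succ (ClAll.succ (ClAll.succ (ClAll.succ (ClAll.succ (ClAll.succ (ClAll.succ (ClAll.succ (ClAll.succ (ClAll.succ ClAll.zero s633) n226) n227) s638) s639) s640) s641) s642) s643) s644) s645) s646)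

def n285 : Cl (O (nat_lit 4)) (R (nat_lit 14353))
    (p (nat_lit 0x109) (nat_lit 1) (p (nat_lit 0x89) (nat_lit 1) (p (nat_lit 0xc9) (nat_lit 1) (p (nat_lit 0xc1) (nat_lit 0) (p (nat_lit 0x119) (nat_lit 1) (p (nat_lit 0xd1) (nat_lit 0) (p (nat_lit 0x81) (nat_lit 0) (p (nat_lit 0x41) (nat_lit 1) (p (nat_lit 0x108090887069a) (nat_lit 0) (p (nat_lit 0x107870806861a) (nat_lit 0) (p (nat_lit 0x8000000000000070786058a) (nat_lit 0) (p (nat_lit 0x10787058502) (nat_lit 0) (p (nat_lit 0x10586850482) (nat_lit 0) (p (nat_lit 0x16000c) (nat_lit 0) (p (nat_lit 0x160004) (nat_lit 0) (p (nat_lit 0x68612) (nat_lit 0) (p (nat_lit 0x50592) (nat_lit 0) (p (nat_lit 0x40512) (nat_lit 0) (p (nat_lit 0x50312) (nat_lit 0) (p (nat_lit 0x38292) (nat_lit 0) (p (nat_lit 0x28212) (nat_lit 0) (p (nat_lit 0x38112) (nat_lit 0) (p (nat_lit 0x20092) (nat_lit 0) (p (nat_lit 0x10012) (nat_lit 0) pn))))))))))))))))))))))))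 :=
  Cl.node (nat_lit 0x3c4aa) (nat_lit 12) (by decide +kernel) (ClAll.succ (ClAll.succ (ClAll.succ (ClAll.succ (ClAll.succ (ClAll.succ (ClAll.succ (ClAll.succ (ClAll.succ (ClAll.succ (ClAll.succ (ClAll.succ ClAll.zero s647) s648) s649) s650) s651) s652) s653) n228) s658) s659) n229) s665)

def n286 : Cl (O (nat_lit 4)) (R (nat_lit 14353))
    (p (nat_lit 0x109) (nat_lit 0) (p (nat_lit 0x89) (nat_lit 1) (p (nat_lit 0x101) (nat_lit 0) (p (nat_lit 0xc1) (nat_lit 1) (p (nat_lit 0x119) (nat_lit 1) (p (nat_lit 0xd1) (nat_lit 0) (p (nat_lit 0x81) (nat_lit 0) (p (nat_lit 0x41) (nat_lit 1) (p (nat_lit 0x108090887069a) (nat_lit 0) (p (nat_lit 0x107870806861a) (nat_lit 0) (p (nat_lit 0x8000000000000070786058a) (nat_lit 0) (p (nat_lit 0x10787058502) (nat_lit 0) (p (nat_lit 0x10586850482) (nat_lit 0) (p (nat_lit 0x16000c) (nat_lit 0) (p (nat_lit 0x160004) (nat_lit 0) (p (nat_lit 0x68612)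 (nat_lit 0) (p (nat_lit 0x50592) (nat_lit 0) (p (nat_lit 0x40512) (nat_lit 0) (p (nat_lit 0x50312) (nat_lit 0) (p (nat_lit 0x38292) (nat_lit 0) (p (nat_lit 0x28212) (nat_lit 0) (p (nat_lit 0x38112) (nat_lit 0) (p (nat_lit 0x20092) (nat_lit 0) (p (nat_lit 0x10012) (nat_lit 0) pn)))))))))))))))))))))))) :=
  Cl.node (nat_lit 0x44c2a) (nat_lit 12) (by decide +kernel) (ClAll.succ (ClAll.succ (ClAll.succ (ClAll.succ (ClAll.succ (ClAll.succ (ClAll.succ (ClAll.succ (ClAll.succ (ClAll.succ (ClAll.succ (ClAll.succ ClAll.zero s667) n230) n231) s672) s673) s674) s675) s676) s677) s678) s679) s680)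

def n287 : Cl (O (nat_lit 4)) (R (nat_lit 14353))
    (p (nat_lit 0x109) (nat_lit 1) (p (nat_lit 0x89) (nat_lit 1) (p (nat_lit 0x101) (nat_lit 0) (p (nat_lit 0xc1) (nat_lit 1) (p (nat_lit 0x119) (nat_lit 1) (p (nat_lit 0xd1) (nat_lit 0) (p (nat_lit 0x81) (nat_lit 0) (p (nat_lit 0x41) (nat_lit 1) (p (nat_lit 0x108090887069a) (nat_lit 0) (p (nat_lit 0x107870806861a) (nat_lit 0) (p (nat_lit 0x8000000000000070786058a) (nat_lit 0) (p (nat_lit 0x10787058502) (nat_lit 0) (p (nat_lit 0x10586850482) (nat_lit 0) (p (nat_lit 0x16000c) (nat_lit 0) (p (nat_lit 0x160004) (nat_lit 0) (p (nat_lit 0x68612) (nat_lit 0) (p (nat_lit 0x50592) (nat_lit 0) (p (nat_lit 0x40512) (nat_lit 0) (p (nat_lit 0x50312) (nat_lit 0) (p (nat_lit 0x38292) (nat_lit 0) (p (nat_lit 0x28212) (nat_lit 0) (p (nat_lit 0x38112) (nat_lit 0) (p (nat_lit 0x20092) (nat_lit 0) (p (nat_lit 0x10012) (nat_lit 0) pn))))))))))))))))))))))))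 :=
  Cl.node (nat_lit 0x3c4aa) (nat_lit 12) (by decide +kernel) (ClAll.succ (ClAll.succ (ClAll.succ (ClAll.succ (ClAll.succ (ClAll.succ (ClAll.succ (ClAll.succ (ClAll.succ (ClAll.succ (ClAll.succ (ClAll.succ ClAll.zero s681) s682) s683) s684) s685) s686) s687) n232) s713) s714) n233) s722)

def n288 : Cl (O (nat_lit 4)) (R (nat_lit 14353))
    (p (nat_lit 0x3c4aa) (nat_lit 7) (p (nat_lit 0x89) (nat_lit 1) (p (nat_lit 0x101) (nat_lit 1) (p (nat_lit 0xc1) (nat_lit 1) (p (nat_lit 0x119) (nat_lit 1) (p (nat_lit 0xd1) (nat_lit 0) (p (nat_lit 0x81) (nat_lit 0) (p (nat_lit 0x41) (nat_lit 1) (p (nat_lit 0x108090887069a) (nat_lit 0) (p (nat_lit 0x107870806861a) (nat_lit 0) (p (nat_lit 0x8000000000000070786058a) (nat_lit 0) (p (nat_lit 0x10787058502) (nat_lit 0) (p (nat_lit 0x10586850482) (nat_lit 0) (p (nat_lit 0x16000c) (nat_lit 0) (p (nat_lit 0x160004) (nat_lit 0) (p (nat_lit 0x68612)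 (nat_lit 0) (p (nat_lit 0x50592) (nat_lit 0) (p (nat_lit 0x40512) (nat_lit 0) (p (nat_lit 0x50312) (nat_lit 0) (p (nat_lit 0x38292) (nat_lit 0) (p (nat_lit 0x28212) (nat_lit 0) (p (nat_lit 0x38112) (nat_lit 0) (p (nat_lit 0x20092) (nat_lit 0) (p (nat_lit 0x10012) (nat_lit 0) pn)))))))))))))))))))))))) :=
  Cl.node (nat_lit 0x380c2) (nat_lit 2) (by decide +kernel) (ClAll.succ (ClAll.succ ClAll.zero n234) n235)

def n289 : Cl (O (nat_lit 4)) (R (nat_lit 14353))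
    (p (nat_lit 0x3c4aa) (nat_lit 10) (p (nat_lit 0x89) (nat_lit 1) (p (nat_lit 0x101) (nat_lit 1) (p (nat_lit 0xc1) (nat_lit 1) (p (nat_lit 0x119) (nat_lit 1) (p (nat_lit 0xd1) (nat_lit 0) (p (nat_lit 0x81) (nat_lit 0) (p (nat_lit 0x41) (nat_lit 1) (p (nat_lit 0x108090887069a) (nat_lit 0) (p (nat_lit 0x107870806861a) (nat_lit 0) (p (nat_lit 0x8000000000000070786058a) (nat_lit 0) (p (nat_lit 0x10787058502) (nat_lit 0) (p (nat_lit 0x10586850482) (nat_lit 0) (p (nat_lit 0x16000c) (nat_lit 0) (p (nat_lit 0x160004) (nat_lit 0) (p (nat_lit 0x68612) (nat_lit 0) (p (nat_lit 0x50592) (nat_lit 0) (p (nat_lit 0x40512) (nat_lit 0) (p (nat_lit 0x50312) (nat_lit 0) (p (nat_lit 0x38292) (nat_lit 0) (p (nat_lit 0x28212) (nat_lit 0) (p (nat_lit 0x38112) (nat_lit 0) (p (nat_lit 0x20092) (nat_lit 0) (p (nat_lit 0x10012) (nat_lit 0) pn)))))))))))))))))))))))) :=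
  Cl.node (nat_lit 0x380c2) (nat_lit 2) (by decide +kernel) (ClAll.succ (ClAll.succ ClAll.zero s761) n236)

def n290 : Cl (O (nat_lit 4)) (R (nat_lit 14353))
    (p (nat_lit 0xc9) (nat_lit 0) (p (nat_lit 0x89) (nat_lit 1) (p (nat_lit 0x109) (nat_lit 1) (p (nat_lit 0x101) (nat_lit 0) (p (nat_lit 0x111) (nat_lit 0) (p (nat_lit 0xd1) (nat_lit 1) (p (nat_lit 0x81) (nat_lit 0) (p (nat_lit 0x41) (nat_lit 1) (p (nat_lit 0x108090887069a) (nat_lit 0) (p (nat_lit 0x107870806861a) (nat_lit 0) (p (nat_lit 0x8000000000000070786058a) (nat_lit 0) (p (nat_lit 0x10787058502) (nat_lit 0) (p (nat_lit 0x10586850482) (nat_lit 0) (p (nat_lit 0x16000c) (nat_lit 0) (p (nat_lit 0x160004) (nat_lit 0) (p (nat_lit 0x68612) (nat_lit 0) (p (nat_lit 0x50592) (nat_lit 0) (p (nat_lit 0x40512) (nat_lit 0) (p (nat_lit 0x50312) (nat_lit 0) (p (nat_lit 0x38292) (nat_lit 0) (p (nat_lit 0x28212) (nat_lit 0) (p (nat_lit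 0x38112) (nat_lit 0) (p (nat_lit 0x20092) (nat_lit 0) (p (nat_lit 0x10012) (nat_lit 0) pn)))))))))))))))))))))))) :=
  Cl.node (nat_lit 0x119) (nat_lit 2) (by decide +kernel) (ClAll.succ (ClAll.succ ClAll.zero n237) s781)

def n291 : Cl (O (nat_lit 4)) (R (nat_lit 14353))
    (p (nat_lit 0xc9) (nat_lit 1) (p (nat_lit 0x89) (nat_lit 1) (p (nat_lit 0x109) (nat_lit 1) (p (nat_lit 0x101) (nat_lit 0) (p (nat_lit 0x111) (nat_lit 0) (p (nat_lit 0xd1) (nat_lit 1) (p (nat_lit 0x81) (nat_lit 0) (p (nat_lit 0x41) (nat_lit 1) (p (nat_lit 0x108090887069a) (nat_lit 0) (p (nat_lit 0x107870806861a) (nat_lit 0) (p (nat_lit 0x8000000000000070786058a) (nat_lit 0) (p (nat_lit 0x10787058502) (nat_lit 0) (p (nat_lit 0x10586850482) (nat_lit 0) (p (nat_lit 0x16000c) (nat_lit 0) (p (nat_lit 0x160004) (nat_lit 0) (p (nat_lit 0x68612) (nat_lit 0) (p (nat_lit 0x50592) (nat_lit 0) (p (nat_lit 0x40512) (nat_lit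 0) (p (nat_lit 0x50312) (nat_lit 0) (p (nat_lit 0x38292) (nat_lit 0) (p (nat_lit 0x28212) (nat_lit 0) (p (nat_lit 0x38112) (nat_lit 0) (p (nat_lit 0x20092) (nat_lit 0) (p (nat_lit 0x10012) (nat_lit 0) pn)))))))))))))))))))))))) :=
  Cl.node (nat_lit 0x3c4aa) (nat_lit 12) (by decide +kernel) (ClAll.succ (ClAll.succ (ClAll.succ (ClAll.succ (ClAll.succ (ClAll.succ (ClAll.succ (ClAll.succ (ClAll.succ (ClAll.succ (ClAll.succ (ClAll.succ ClAll.zero s782) s783) s784) s785) s786) s787) s788) n238) s793) s794) s795) s796)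

def n292 : Cl (O (nat_lit 4)) (R (nat_lit 14353))
    (p (nat_lit 0x380c2) (nat_lit 0) (p (nat_lit 0x3cc2a) (nat_lit 0) (p (nat_lit 0x89) (nat_lit 0) (p (nat_lit 0x101) (nat_lit 1) (p (nat_lit 0x111) (nat_lit 0) (p (nat_lit 0xd1) (nat_lit 1) (p (nat_lit 0x81) (nat_lit 0) (p (nat_lit 0x41) (nat_lit 1) (p (nat_lit 0x108090887069a) (nat_lit 0) (p (nat_lit 0x107870806861a) (nat_lit 0) (p (nat_lit 0x8000000000000070786058a) (nat_lit 0) (p (nat_lit 0x10787058502) (nat_lit 0) (p (nat_lit 0x10586850482) (nat_lit 0) (p (nat_lit 0x16000c) (nat_lit 0) (p (nat_lit 0x160004) (nat_lit 0) (p (nat_lit 0x68612) (nat_lit 0) (p (nat_lit 0x50592) (nat_lit 0) (p (nat_lit 0x40512) (nat_lit 0) (p (nat_lit 0x50312) (nat_lit 0) (p (nat_lit 0x38292) (nat_lit 0) (p (nat_lit 0x28212) (nat_lit 0) (p (nat_lit 0x38112) (nat_lit 0) (p (nat_lit 0x20092) (nat_lit 0) (p (nat_lit 0x10012) (nat_lit 0) pn))))))))))))))))))))))))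 :=
  Cl.node (nat_lit 0xc9) (nat_lit 2) (by decide +kernel) (ClAll.succ (ClAll.succ ClAll.zero s797) n239)

def n293 : Cl (O (nat_lit 4)) (R (nat_lit 14353))
    (p (nat_lit 0x3cc2a) (nat_lit 0) (p (nat_lit 0xc9) (nat_lit 0) (p (nat_lit 0x89) (nat_lit 1) (p (nat_lit 0x101) (nat_lit 1) (p (nat_lit 0x111) (nat_lit 0) (p (nat_lit 0xd1) (nat_lit 1) (p (nat_lit 0x81) (nat_lit 0) (p (nat_lit 0x41) (nat_lit 1) (p (nat_lit 0x108090887069a) (nat_lit 0) (p (nat_lit 0x107870806861a) (nat_lit 0) (p (nat_lit 0x8000000000000070786058a) (nat_lit 0) (p (nat_lit 0x10787058502) (nat_lit 0) (p (nat_lit 0x10586850482) (nat_lit 0) (p (nat_lit 0x16000c) (nat_lit 0) (p (nat_lit 0x160004) (nat_lit 0) (p (nat_lit 0x68612) (nat_lit 0) (p (nat_lit 0x50592) (nat_lit 0) (p (nat_lit 0x40512) (nat_lit 0) (p (nat_lit 0x50312) (nat_lit 0) (p (nat_lit 0x38292) (nat_lit 0) (p (nat_lit 0x28212) (nat_lit 0) (p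 (nat_lit 0x38112) (nat_lit 0) (p (nat_lit 0x20092) (nat_lit 0) (p (nat_lit 0x10012) (nat_lit 0) pn)))))))))))))))))))))))) :=
  Cl.node (nat_lit 0x380c2) (nat_lit 1) (by decide +kernel) (ClAll.succ ClAll.zero n240)

def n294 : Cl (O (nat_lit 4)) (R (nat_lit 14353))
    (p (nat_lit 0x3c4aa) (nat_lit 7) (p (nat_lit 0xc9) (nat_lit 1) (p (nat_lit 0x89) (nat_lit 1) (p (nat_lit 0x101) (nat_lit 1) (p (nat_lit 0x111) (nat_lit 0) (p (nat_lit 0xd1) (nat_lit 1) (p (nat_lit 0x81) (nat_lit 0) (p (nat_lit 0x41) (nat_lit 1) (p (nat_lit 0x108090887069a) (nat_lit 0) (p (nat_lit 0x107870806861a) (nat_lit 0) (p (nat_lit 0x8000000000000070786058a) (nat_lit 0) (p (nat_lit 0x10787058502) (nat_lit 0) (p (nat_lit 0x10586850482) (nat_lit 0) (p (nat_lit 0x16000c) (nat_lit 0) (p (nat_lit 0x160004) (nat_lit 0) (p (nat_lit 0x68612) (nat_lit 0) (p (nat_lit 0x50592) (nat_lit 0) (p (nat_lit 0x40512) (nat_lit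 0) (p (nat_lit 0x50312) (nat_lit 0) (p (nat_lit 0x38292) (nat_lit 0) (p (nat_lit 0x28212) (nat_lit 0) (p (nat_lit 0x38112) (nat_lit 0) (p (nat_lit 0x20092) (nat_lit 0) (p (nat_lit 0x10012) (nat_lit 0) pn)))))))))))))))))))))))) :=
  Cl.node (nat_lit 0x380c2) (nat_lit 2) (by decide +kernel) (ClAll.succ (ClAll.succ ClAll.zero s856) n241)

def n295 : Cl (O (nat_lit 4)) (R (nat_lit 14353))
    (p (nat_lit 0xd1) (nat_lit 1) (p (nat_lit 0x111) (nat_lit 1) (p (nat_lit 0x109) (nat_lit 0) (p (nat_lit 0x101) (nat_lit 0) (p (nat_lit 0x119) (nat_lit 0) (p (nat_lit 0xc1) (nat_lit 0) (p (nat_lit 0x81) (nat_lit 1) (p (nat_lit 0x41) (nat_lit 1) (p (nat_lit 0x108090887069a) (nat_lit 0) (p (nat_lit 0x107870806861a) (nat_lit 0) (p (nat_lit 0x8000000000000070786058a) (nat_lit 0) (p (nat_lit 0x10787058502) (nat_lit 0) (p (nat_lit 0x10586850482) (nat_lit 0) (p (nat_lit 0x16000c) (nat_lit 0) (p (nat_lit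 0x160004) (nat_lit 0) (p (nat_lit 0x68612) (nat_lit 0) (p (nat_lit 0x50592) (nat_lit 0) (p (nat_lit 0x40512) (nat_lit 0) (p (nat_lit 0x50312) (nat_lit 0) (p (nat_lit 0x38292) (nat_lit 0) (p (nat_lit 0x28212) (nat_lit 0) (p (nat_lit 0x38112) (nat_lit 0) (p (nat_lit 0x20092) (nat_lit 0) (p (nat_lit 0x10012) (nat_lit 0) pn)))))))))))))))))))))))) :=
  Cl.node (nat_lit 0x3c4aa) (nat_lit 12) (by decide +kernel) (ClAll.succ (ClAll.succ (ClAll.succ (ClAll.succ (ClAll.succ (ClAll.succ (ClAll.succ (ClAll.succ (ClAll.succ (ClAll.succ (ClAll.succ (ClAll.succ ClAll.zero s894) s895) s896) s897) s898) s899) s900) n242) s936) s937) s938) s939)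

def n296 : Cl (O (nat_lit 4)) (R (nat_lit 14353))
    (p (nat_lit 0xd1) (nat_lit 1) (p (nat_lit 0xc9) (nat_lit 0) (p (nat_lit 0x109) (nat_lit 1) (p (nat_lit 0x101) (nat_lit 0) (p (nat_lit 0x119) (nat_lit 0) (p (nat_lit 0xc1) (nat_lit 0) (p (nat_lit 0x81) (nat_lit 1) (p (nat_lit 0x41) (nat_lit 1) (p (nat_lit 0x108090887069a) (nat_lit 0) (p (nat_lit 0x107870806861a) (nat_lit 0) (p (nat_lit 0x8000000000000070786058a) (nat_lit 0) (p (nat_lit 0x10787058502) (nat_lit 0) (p (nat_lit 0x10586850482) (nat_lit 0) (p (nat_lit 0x16000c) (nat_lit 0) (p (nat_lit 0x160004) (nat_lit 0) (p (nat_lit 0x68612) (nat_lit 0) (p (nat_lit 0x50592) (nat_lit 0) (p (nat_lit 0x40512) (nat_lit 0) (p (nat_lit 0x50312) (nat_lit 0) (p (nat_lit 0x38292) (nat_lit 0) (p (nat_lit 0x28212) (nat_lit 0) (p (nat_lit 0x38112) (nat_lit 0) (p (nat_lit 0x20092) (nat_lit 0) (p (nat_lit 0x10012) (nat_lit 0) pn))))))))))))))))))))))))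 :=
  Cl.node (nat_lit 0x3c4aa) (nat_lit 12) (by decide +kernel) (ClAll.succ (ClAll.succ (ClAll.succ (ClAll.succ (ClAll.succ (ClAll.succ (ClAll.succ (ClAll.succ (ClAll.succ (ClAll.succ (ClAll.succ (ClAll.succ ClAll.zero s941) s942) s943) s944) s945) s946) s947) n243) s953) s954) s955) s956)

def n297 : Cl (O (nat_lit 4)) (R (nat_lit 14353))
    (p (nat_lit 0x44c2a) (nat_lit 2) (p (nat_lit 0xd1) (nat_lit 0) (p (nat_lit 0xc9) (nat_lit 0) (p (nat_lit 0x101) (nat_lit 1) (p (nat_lit 0x119) (nat_lit 0) (p (nat_lit 0xc1) (nat_lit 0) (p (nat_lit 0x81) (nat_lit 1) (p (nat_lit 0x41) (nat_lit 1) (p (nat_lit 0x108090887069a) (nat_lit 0) (p (nat_lit 0x107870806861a) (nat_lit 0) (p (nat_lit 0x8000000000000070786058a) (nat_lit 0) (p (nat_lit 0x10787058502) (nat_lit 0) (p (nat_lit 0x10586850482) (nat_lit 0) (p (nat_lit 0x16000c) (nat_lit 0) (p (nat_lit 0x160004) (nat_lit 0) (p (nat_lit 0x68612)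 (nat_lit 0) (p (nat_lit 0x50592) (nat_lit 0) (p (nat_lit 0x40512) (nat_lit 0) (p (nat_lit 0x50312) (nat_lit 0) (p (nat_lit 0x38292) (nat_lit 0) (p (nat_lit 0x28212) (nat_lit 0) (p (nat_lit 0x38112) (nat_lit 0) (p (nat_lit 0x20092) (nat_lit 0) (p (nat_lit 0x10012) (nat_lit 0) pn)))))))))))))))))))))))) :=
  Cl.node (nat_lit 0x380c2) (nat_lit 2) (by decide +kernel) (ClAll.succ (ClAll.succ ClAll.zero s960) s961)

def n298 : Cl (O (nat_lit 4)) (R (nat_lit 14353))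
    (p (nat_lit 0x3c4aa) (nat_lit 7) (p (nat_lit 0xd1) (nat_lit 1) (p (nat_lit 0xc9) (nat_lit 0) (p (nat_lit 0x101) (nat_lit 1) (p (nat_lit 0x119) (nat_lit 0) (p (nat_lit 0xc1) (nat_lit 0) (p (nat_lit 0x81) (nat_lit 1) (p (nat_lit 0x41) (nat_lit 1) (p (nat_lit 0x108090887069a) (nat_lit 0) (p (nat_lit 0x107870806861a) (nat_lit 0) (p (nat_lit 0x8000000000000070786058a) (nat_lit 0) (p (nat_lit 0x10787058502) (nat_lit 0) (p (nat_lit 0x10586850482) (nat_lit 0) (p (nat_lit 0x16000c) (nat_lit 0) (p (nat_lit 0x160004) (nat_lit 0) (p (nat_lit 0x68612) (nat_lit 0) (p (nat_lit 0x50592) (nat_lit 0) (p (nat_lit 0x40512) (nat_lit 0) (p (nat_lit 0x50312) (nat_lit 0) (p (nat_lit 0x38292) (nat_lit 0) (p (nat_lit 0x28212) (nat_lit 0) (p (nat_lit 0x38112) (nat_lit 0) (p (nat_lit 0x20092) (nat_lit 0) (p (nat_lit 0x10012) (nat_lit 0) pn)))))))))))))))))))))))) :=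
  Cl.node (nat_lit 0x380c2) (nat_lit 2) (by decide +kernel) (ClAll.succ (ClAll.succ ClAll.zero n244) n245)

def n299 : Cl (O (nat_lit 4)) (R (nat_lit 14353))
    (p (nat_lit 0x3c4aa) (nat_lit 7) (p (nat_lit 0x111) (nat_lit 1) (p (nat_lit 0xd1) (nat_lit 1) (p (nat_lit 0xc9) (nat_lit 0) (p (nat_lit 0x119) (nat_lit 1) (p (nat_lit 0xc1) (nat_lit 0) (p (nat_lit 0x81) (nat_lit 1) (p (nat_lit 0x41) (nat_lit 1) (p (nat_lit 0x108090887069a) (nat_lit 0) (p (nat_lit 0x107870806861a) (nat_lit 0) (p (nat_lit 0x8000000000000070786058a) (nat_lit 0) (p (nat_lit 0x10787058502) (nat_lit 0) (p (nat_lit 0x10586850482) (nat_lit 0) (p (nat_lit 0x16000c) (nat_lit 0) (p (nat_lit 0x160004) (nat_lit 0) (p (nat_lit 0x68612) (nat_lit 0) (p (nat_lit 0x50592) (nat_lit 0) (p (nat_lit 0x40512) (nat_lit 0) (p (nat_lit 0x50312) (nat_lit 0) (p (nat_lit 0x38292) (nat_lit 0) (p (nat_lit 0x28212) (nat_lit 0) (p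 (nat_lit 0x38112) (nat_lit 0) (p (nat_lit 0x20092) (nat_lit 0) (p (nat_lit 0x10012) (nat_lit 0) pn)))))))))))))))))))))))) :=
  Cl.node (nat_lit 0x380c2) (nat_lit 2) (by decide +kernel) (ClAll.succ (ClAll.succ ClAll.zero n246) n247)

def n300 : Cl (O (nat_lit 4)) (R (nat_lit 14353))
    (p (nat_lit 0x3c4aa) (nat_lit 10) (p (nat_lit 0x111) (nat_lit 1) (p (nat_lit 0xd1) (nat_lit 1) (p (nat_lit 0xc9) (nat_lit 0) (p (nat_lit 0x119) (nat_lit 1) (p (nat_lit 0xc1) (nat_lit 0) (p (nat_lit 0x81) (nat_lit 1) (p (nat_lit 0x41) (nat_lit 1) (p (nat_lit 0x108090887069a) (nat_lit 0) (p (nat_lit 0x107870806861a) (nat_lit 0) (p (nat_lit 0x8000000000000070786058a) (nat_lit 0) (p (nat_lit 0x10787058502) (nat_lit 0) (p (nat_lit 0x10586850482) (nat_lit 0) (p (nat_lit 0x16000c) (nat_lit 0) (p (nat_lit 0x160004) (nat_lit 0) (p (nat_lit 0x68612) (nat_lit 0) (p (nat_lit 0x50592) (nat_lit 0) (p (nat_lit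 0x40512) (nat_lit 0) (p (nat_lit 0x50312) (nat_lit 0) (p (nat_lit 0x38292) (nat_lit 0) (p (nat_lit 0x28212) (nat_lit 0) (p (nat_lit 0x38112) (nat_lit 0) (p (nat_lit 0x20092) (nat_lit 0) (p (nat_lit 0x10012) (nat_lit 0) pn)))))))))))))))))))))))) :=
  Cl.node (nat_lit 0x380c2) (nat_lit 2) (by decide +kernel) (ClAll.succ (ClAll.succ ClAll.zero s1046) n248)

def n301 : Cl (O (nat_lit 4)) (R (nat_lit 14353))
    (p (nat_lit 0x101) (nat_lit 0) (p (nat_lit 0x111) (nat_lit 0) (p (nat_lit 0x109) (nat_lit 0) (p (nat_lit 0xc9) (nat_lit 1) (p (nat_lit 0x119) (nat_lit 1) (p (nat_lit 0xc1) (nat_lit 0) (p (nat_lit 0x81) (nat_lit 1) (p (nat_lit 0x41) (nat_lit 1) (p (nat_lit 0x108090887069a) (nat_lit 0) (p (nat_lit 0x107870806861a) (nat_lit 0) (p (nat_lit 0x8000000000000070786058a) (nat_lit 0) (p (nat_lit 0x10787058502) (nat_lit 0) (p (nat_lit 0x10586850482) (nat_lit 0) (p (nat_lit 0x16000c)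 (nat_lit 0) (p (nat_lit 0x160004) (nat_lit 0) (p (nat_lit 0x68612) (nat_lit 0) (p (nat_lit 0x50592) (nat_lit 0) (p (nat_lit 0x40512) (nat_lit 0) (p (nat_lit 0x50312) (nat_lit 0) (p (nat_lit 0x38292) (nat_lit 0) (p (nat_lit 0x28212) (nat_lit 0) (p (nat_lit 0x38112) (nat_lit 0) (p (nat_lit 0x20092) (nat_lit 0) (p (nat_lit 0x10012) (nat_lit 0) pn)))))))))))))))))))))))) :=
  Cl.node (nat_lit 0x119) (nat_lit 2) (by decide +kernel) (ClAll.succ (ClAll.succ ClAll.zero s1050) n249)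

def n302 : Cl (O (nat_lit 4)) (R (nat_lit 14353))
    (p (nat_lit 0x101) (nat_lit 1) (p (nat_lit 0x111) (nat_lit 0) (p (nat_lit 0x109) (nat_lit 0) (p (nat_lit 0xc9) (nat_lit 1) (p (nat_lit 0x119) (nat_lit 1) (p (nat_lit 0xc1) (nat_lit 0) (p (nat_lit 0x81) (nat_lit 1) (p (nat_lit 0x41) (nat_lit 1) (p (nat_lit 0x108090887069a) (nat_lit 0) (p (nat_lit 0x107870806861a) (nat_lit 0) (p (nat_lit 0x8000000000000070786058a) (nat_lit 0) (p (nat_lit 0x10787058502) (nat_lit 0) (p (nat_lit 0x10586850482) (nat_lit 0) (p (nat_lit 0x16000c) (nat_lit 0) (p (nat_lit 0x160004) (nat_lit 0) (p (nat_lit 0x68612) (nat_lit 0) (p (nat_lit 0x50592) (nat_lit 0) (p (nat_lit 0x40512) (nat_lit 0) (p (nat_lit 0x50312) (nat_lit 0) (p (nat_lit 0x38292) (nat_lit 0) (p (nat_lit 0x28212) (nat_lit 0) (p (nat_lit 0x38112) (nat_lit 0) (p (nat_lit 0x20092) (nat_lit 0) (p (nat_lit 0x10012) (nat_lit 0) pn))))))))))))))))))))))))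 :=
  Cl.node (nat_lit 0x44c2a) (nat_lit 12) (by decide +kernel) (ClAll.succ (ClAll.succ (ClAll.succ (ClAll.succ (ClAll.succ (ClAll.succ (ClAll.succ (ClAll.succ (ClAll.succ (ClAll.succ (ClAll.succ (ClAll.succ ClAll.zero n250) s1080) s1081) s1082) s1083) s1084) s1085) s1086) s1087) s1088) s1089) s1090)

def n303 : Cl (O (nat_lit 4)) (R (nat_lit 14353))
    (p (nat_lit 0x3c4aa) (nat_lit 7) (p (nat_lit 0x111) (nat_lit 1) (p (nat_lit 0x109) (nat_lit 0) (p (nat_lit 0xc9) (nat_lit 1) (p (nat_lit 0x119) (nat_lit 1) (p (nat_lit 0xc1) (nat_lit 0) (p (nat_lit 0x81) (nat_lit 1) (p (nat_lit 0x41) (nat_lit 1) (p (nat_lit 0x108090887069a) (nat_lit 0) (p (nat_lit 0x107870806861a) (nat_lit 0) (p (nat_lit 0x8000000000000070786058a) (nat_lit 0) (p (nat_lit 0x10787058502) (nat_lit 0) (p (nat_lit 0x10586850482) (nat_lit 0) (p (nat_lit 0x16000c) (nat_lit 0) (p (nat_lit 0x160004) (nat_lit 0) (p (nat_lit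 0x68612) (nat_lit 0) (p (nat_lit 0x50592) (nat_lit 0) (p (nat_lit 0x40512) (nat_lit 0) (p (nat_lit 0x50312) (nat_lit 0) (p (nat_lit 0x38292) (nat_lit 0) (p (nat_lit 0x28212) (nat_lit 0) (p (nat_lit 0x38112) (nat_lit 0) (p (nat_lit 0x20092) (nat_lit 0) (p (nat_lit 0x10012) (nat_lit 0) pn)))))))))))))))))))))))) :=
  Cl.node (nat_lit 0x380c2) (nat_lit 2) (by decide +kernel) (ClAll.succ (ClAll.succ ClAll.zero n251) n252)

def n304 : Cl (O (nat_lit 4)) (R (nat_lit 14353))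
    (p (nat_lit 0x3c4aa) (nat_lit 10) (p (nat_lit 0x111) (nat_lit 1) (p (nat_lit 0x109) (nat_lit 0) (p (nat_lit 0xc9) (nat_lit 1) (p (nat_lit 0x119) (nat_lit 1) (p (nat_lit 0xc1) (nat_lit 0) (p (nat_lit 0x81) (nat_lit 1) (p (nat_lit 0x41) (nat_lit 1) (p (nat_lit 0x108090887069a) (nat_lit 0) (p (nat_lit 0x107870806861a) (nat_lit 0) (p (nat_lit 0x8000000000000070786058a) (nat_lit 0) (p (nat_lit 0x10787058502) (nat_lit 0) (p (nat_lit 0x10586850482) (nat_lit 0) (p (nat_lit 0x16000c) (nat_lit 0) (p (nat_lit 0x160004) (nat_lit 0) (p (nat_lit 0x68612) (nat_lit 0) (p (nat_lit 0x50592) (nat_lit 0) (p (nat_lit 0x40512) (nat_lit 0) (p (nat_lit 0x50312) (nat_lit 0) (p (nat_lit 0x38292) (nat_lit 0) (p (nat_lit 0x28212) (nat_lit 0) (p (nat_lit 0x38112) (nat_lit 0) (p (nat_lit 0x20092) (nat_lit 0) (p (nat_lit 0x10012) (nat_lit 0) pn)))))))))))))))))))))))) :=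
  Cl.node (nat_lit 0x380c2) (nat_lit 2) (by decide +kernel) (ClAll.succ (ClAll.succ ClAll.zero s1109) s1110)

def n305 : Cl (O (nat_lit 4)) (R (nat_lit 14353))
    (p (nat_lit 0xc9) (nat_lit 1) (p (nat_lit 0x109) (nat_lit 1) (p (nat_lit 0x101) (nat_lit 0) (p (nat_lit 0x119) (nat_lit 0) (p (nat_lit 0xd1) (nat_lit 0) (p (nat_lit 0x89) (nat_lit 0) (p (nat_lit 0x41) (nat_lit 0) (p (nat_lit 0x108090887069a) (nat_lit 0) (p (nat_lit 0x107870806861a) (nat_lit 0) (p (nat_lit 0x8000000000000070786058a) (nat_lit 0) (p (nat_lit 0x10787058502) (nat_lit 0) (p (nat_lit 0x10586850482) (nat_lit 0) (p (nat_lit 0x16000c) (nat_lit 0) (p (nat_lit 0x160004) (nat_lit 0) (p (nat_lit 0x68612) (nat_lit 0) (p (nat_lit 0x50592) (nat_lit 0) (p (nat_lit 0x40512) (nat_lit 0) (p (nat_lit 0x50312) (nat_lit 0) (p (nat_lit 0x38292) (nat_lit 0) (p (nat_lit 0x28212) (nat_lit 0) (p (nat_lit 0x38112) (nat_lit 0)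 (p (nat_lit 0x20092) (nat_lit 0) (p (nat_lit 0x10012) (nat_lit 0) pn))))))))))))))))))))))) :=
  Cl.node (nat_lit 0x81) (nat_lit 2) (by decide +kernel) (ClAll.succ (ClAll.succ ClAll.zero s2) n253)

def n306 : Cl (O (nat_lit 4)) (R (nat_lit 14353))
    (p (nat_lit 0xc9) (nat_lit 0) (p (nat_lit 0x81) (nat_lit 0) (p (nat_lit 0x101) (nat_lit 1) (p (nat_lit 0x119) (nat_lit 0) (p (nat_lit 0xd1) (nat_lit 0) (p (nat_lit 0x89) (nat_lit 0) (p (nat_lit 0x41) (nat_lit 0) (p (nat_lit 0x108090887069a) (nat_lit 0) (p (nat_lit 0x107870806861a) (nat_lit 0) (p (nat_lit 0x8000000000000070786058a) (nat_lit 0) (p (nat_lit 0x10787058502) (nat_lit 0) (p (nat_lit 0x10586850482) (nat_lit 0) (p (nat_lit 0x16000c) (nat_lit 0) (p (nat_lit 0x160004) (nat_lit 0) (p (nat_lit 0x68612) (nat_lit 0) (p (nat_lit 0x50592) (nat_lit 0) (p (nat_lit 0x40512) (nat_lit 0) (p (nat_lit 0x50312) (nat_lit 0) (p (nat_lit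 0x38292) (nat_lit 0) (p (nat_lit 0x28212) (nat_lit 0) (p (nat_lit 0x38112) (nat_lit 0) (p (nat_lit 0x20092) (nat_lit 0) (p (nat_lit 0x10012) (nat_lit 0) pn))))))))))))))))))))))) :=
  Cl.node (nat_lit 0x111) (nat_lit 2) (by decide +kernel) (ClAll.succ (ClAll.succ ClAll.zero n254) s36)

def n307 : Cl (O (nat_lit 4)) (R (nat_lit 14353))
    (p (nat_lit 0xc9) (nat_lit 1) (p (nat_lit 0x81) (nat_lit 0) (p (nat_lit 0x101) (nat_lit 1) (p (nat_lit 0x119) (nat_lit 0) (p (nat_lit 0xd1) (nat_lit 0) (p (nat_lit 0x89) (nat_lit 0) (p (nat_lit 0x41) (nat_lit 0) (p (nat_lit 0x108090887069a) (nat_lit 0) (p (nat_lit 0x107870806861a) (nat_lit 0) (p (nat_lit 0x8000000000000070786058a) (nat_lit 0) (p (nat_lit 0x10787058502) (nat_lit 0) (p (nat_lit 0x10586850482) (nat_lit 0) (p (nat_lit 0x16000c) (nat_lit 0) (p (nat_lit 0x160004) (nat_lit 0) (p (nat_lit 0x68612) (nat_lit 0) (p (nat_lit 0x50592) (nat_lit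 0) (p (nat_lit 0x40512) (nat_lit 0) (p (nat_lit 0x50312) (nat_lit 0) (p (nat_lit 0x38292) (nat_lit 0) (p (nat_lit 0x28212) (nat_lit 0) (p (nat_lit 0x38112) (nat_lit 0) (p (nat_lit 0x20092) (nat_lit 0) (p (nat_lit 0x10012) (nat_lit 0) pn))))))))))))))))))))))) :=
  Cl.node (nat_lit 0x111) (nat_lit 2) (by decide +kernel) (ClAll.succ (ClAll.succ ClAll.zero n255) s54)

def n308 : Cl (O (nat_lit 4)) (R (nat_lit 14353))
    (p (nat_lit 0xc1) (nat_lit 0) (p (nat_lit 0x81) (nat_lit 1) (p (nat_lit 0x101) (nat_lit 1) (p (nat_lit 0x119) (nat_lit 0) (p (nat_lit 0xd1) (nat_lit 0) (p (nat_lit 0x89) (nat_lit 0) (p (nat_lit 0x41) (nat_lit 0) (p (nat_lit 0x108090887069a) (nat_lit 0) (p (nat_lit 0x107870806861a) (nat_lit 0) (p (nat_lit 0x8000000000000070786058a) (nat_lit 0) (p (nat_lit 0x10787058502) (nat_lit 0) (p (nat_lit 0x10586850482) (nat_lit 0) (p (nat_lit 0x16000c) (nat_lit 0) (p (nat_lit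 0x160004) (nat_lit 0) (p (nat_lit 0x68612) (nat_lit 0) (p (nat_lit 0x50592) (nat_lit 0) (p (nat_lit 0x40512) (nat_lit 0) (p (nat_lit 0x50312) (nat_lit 0) (p (nat_lit 0x38292) (nat_lit 0) (p (nat_lit 0x28212) (nat_lit 0) (p (nat_lit 0x38112) (nat_lit 0) (p (nat_lit 0x20092) (nat_lit 0) (p (nat_lit 0x10012) (nat_lit 0) pn))))))))))))))))))))))) :=
  Cl.node (nat_lit 0xc9) (nat_lit 2) (by decide +kernel) (ClAll.succ (ClAll.succ ClAll.zero n256) n257)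

def n309 : Cl (O (nat_lit 4)) (R (nat_lit 14353))
    (p (nat_lit 0x109) (nat_lit 1) (p (nat_lit 0xc9) (nat_lit 1) (p (nat_lit 0xc1) (nat_lit 0) (p (nat_lit 0x119) (nat_lit 1) (p (nat_lit 0xd1) (nat_lit 0) (p (nat_lit 0x89) (nat_lit 0) (p (nat_lit 0x41) (nat_lit 0) (p (nat_lit 0x108090887069a) (nat_lit 0) (p (nat_lit 0x107870806861a) (nat_lit 0) (p (nat_lit 0x8000000000000070786058a) (nat_lit 0) (p (nat_lit 0x10787058502) (nat_lit 0) (p (nat_lit 0x10586850482) (nat_lit 0) (p (nat_lit 0x16000c) (nat_lit 0) (p (nat_lit 0x160004) (nat_lit 0) (p (nat_lit 0x68612) (nat_lit 0) (p (nat_lit 0x50592) (nat_lit 0) (p (nat_lit 0x40512) (nat_lit 0) (p (nat_lit 0x50312) (nat_lit 0) (p (nat_lit 0x38292) (nat_lit 0) (p (nat_lit 0x28212) (nat_lit 0) (p (nat_lit 0x38112) (nat_lit 0) (p (nat_lit 0x20092) (nat_lit 0) (p (nat_lit 0x10012) (nat_lit 0) pn))))))))))))))))))))))) :=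
  Cl.node (nat_lit 0x3cc2a) (nat_lit 12) (by decide +kernel) (ClAll.succ (ClAll.succ (ClAll.succ (ClAll.succ (ClAll.succ (ClAll.succ (ClAll.succ (ClAll.succ (ClAll.succ (ClAll.succ (ClAll.succ (ClAll.succ ClAll.zero s85) s86) s87) s88) s89) s90) s91) s92) s93) s94) n258) s123)

def n310 : Cl (O (nat_lit 4)) (R (nat_lit 14353))
    (p (nat_lit 0x109) (nat_lit 1) (p (nat_lit 0x81) (nat_lit 0) (p (nat_lit 0xc1) (nat_lit 1) (p (nat_lit 0x119) (nat_lit 1) (p (nat_lit 0xd1) (nat_lit 0) (p (nat_lit 0x89) (nat_lit 0) (p (nat_lit 0x41) (nat_lit 0) (p (nat_lit 0x108090887069a) (nat_lit 0) (p (nat_lit 0x107870806861a) (nat_lit 0) (p (nat_lit 0x8000000000000070786058a) (nat_lit 0) (p (nat_lit 0x10787058502) (nat_lit 0) (p (nat_lit 0x10586850482) (nat_lit 0) (p (nat_lit 0x16000c) (nat_lit 0) (p (nat_lit 0x160004) (nat_lit 0) (p (nat_lit 0x68612) (nat_lit 0) (p (nat_lit 0x50592) (nat_lit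 0) (p (nat_lit 0x40512) (nat_lit 0) (p (nat_lit 0x50312) (nat_lit 0) (p (nat_lit 0x38292) (nat_lit 0) (p (nat_lit 0x28212) (nat_lit 0) (p (nat_lit 0x38112) (nat_lit 0) (p (nat_lit 0x20092) (nat_lit 0) (p (nat_lit 0x10012) (nat_lit 0) pn))))))))))))))))))))))) :=
  Cl.node (nat_lit 0x3cc2a) (nat_lit 12) (by decide +kernel) (ClAll.succ (ClAll.succ (ClAll.succ (ClAll.succ (ClAll.succ (ClAll.succ (ClAll.succ (ClAll.succ (ClAll.succ (ClAll.succ (ClAll.succ (ClAll.succ ClAll.zero s125) s126) s127) s128) s129) s130) s131) s132) s133) s134) n259) s140)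

def n311 : Cl (O (nat_lit 4)) (R (nat_lit 14353))
    (p (nat_lit 0x101) (nat_lit 0) (p (nat_lit 0x81) (nat_lit 1) (p (nat_lit 0xc1) (nat_lit 1) (p (nat_lit 0x119) (nat_lit 1) (p (nat_lit 0xd1) (nat_lit 0) (p (nat_lit 0x89) (nat_lit 0) (p (nat_lit 0x41) (nat_lit 0) (p (nat_lit 0x108090887069a) (nat_lit 0) (p (nat_lit 0x107870806861a) (nat_lit 0) (p (nat_lit 0x8000000000000070786058a) (nat_lit 0) (p (nat_lit 0x10787058502) (nat_lit 0) (p (nat_lit 0x10586850482) (nat_lit 0) (p (nat_lit 0x16000c) (nat_lit 0) (p (nat_lit 0x160004) (nat_lit 0) (p (nat_lit 0x68612) (nat_lit 0) (p (nat_lit 0x50592) (nat_lit 0) (p (nat_lit 0x40512) (nat_lit 0) (p (nat_lit 0x50312) (nat_lit 0) (p (nat_lit 0x38292) (nat_lit 0) (p (nat_lit 0x28212) (nat_lit 0) (p (nat_lit 0x38112) (nat_lit 0) (p (nat_lit 0x20092) (nat_lit 0) (p (nat_lit 0x10012) (nat_lit 0) pn))))))))))))))))))))))) :=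
  Cl.node (nat_lit 0x109) (nat_lit 2) (by decide +kernel) (ClAll.succ (ClAll.succ ClAll.zero n260) n261)

def n312 : Cl (O (nat_lit 4)) (R (nat_lit 14353))
    (p (nat_lit 0x101) (nat_lit 1) (p (nat_lit 0x81) (nat_lit 1) (p (nat_lit 0xc1) (nat_lit 1) (p (nat_lit 0x119) (nat_lit 1) (p (nat_lit 0xd1) (nat_lit 0) (p (nat_lit 0x89) (nat_lit 0) (p (nat_lit 0x41) (nat_lit 0) (p (nat_lit 0x108090887069a) (nat_lit 0) (p (nat_lit 0x107870806861a) (nat_lit 0) (p (nat_lit 0x8000000000000070786058a) (nat_lit 0) (p (nat_lit 0x10787058502) (nat_lit 0) (p (nat_lit 0x10586850482) (nat_lit 0) (p (nat_lit 0x16000c) (nat_lit 0) (p (nat_lit 0x160004) (nat_lit 0) (p (nat_lit 0x68612) (nat_lit 0) (p (nat_lit 0x50592) (nat_lit 0) (p (nat_lit 0x40512) (nat_lit 0) (p (nat_lit 0x50312) (nat_lit 0) (p (nat_lit 0x38292) (nat_lit 0) (p (nat_lit 0x28212) (nat_lit 0) (p (nat_lit 0x38112) (nat_lit 0) (p (nat_lit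 0x20092) (nat_lit 0) (p (nat_lit 0x10012) (nat_lit 0) pn))))))))))))))))))))))) :=
  Cl.node (nat_lit 0x444aa) (nat_lit 12) (by decide +kernel) (ClAll.succ (ClAll.succ (ClAll.succ (ClAll.succ (ClAll.succ (ClAll.succ (ClAll.succ (ClAll.succ (ClAll.succ (ClAll.succ (ClAll.succ (ClAll.succ ClAll.zero s202) s203) s204) s205) s206) s207) s208) s209) s210) s211) s212) s213)

def n313 : Cl (O (nat_lit 4)) (R (nat_lit 14353))
    (p (nat_lit 0xc1) (nat_lit 0) (p (nat_lit 0x109) (nat_lit 1) (p (nat_lit 0x101) (nat_lit 0) (p (nat_lit 0x111) (nat_lit 0) (p (nat_lit 0xd1) (nat_lit 1) (p (nat_lit 0x89) (nat_lit 0) (p (nat_lit 0x41) (nat_lit 0) (p (nat_lit 0x108090887069a) (nat_lit 0) (p (nat_lit 0x107870806861a) (nat_lit 0) (p (nat_lit 0x8000000000000070786058a) (nat_lit 0) (p (nat_lit 0x10787058502) (nat_lit 0) (p (nat_lit 0x10586850482) (nat_lit 0) (p (nat_lit 0x16000c) (nat_lit 0) (p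 (nat_lit 0x160004) (nat_lit 0) (p (nat_lit 0x68612) (nat_lit 0) (p (nat_lit 0x50592) (nat_lit 0) (p (nat_lit 0x40512) (nat_lit 0) (p (nat_lit 0x50312) (nat_lit 0) (p (nat_lit 0x38292) (nat_lit 0) (p (nat_lit 0x28212) (nat_lit 0) (p (nat_lit 0x38112) (nat_lit 0) (p (nat_lit 0x20092) (nat_lit 0) (p (nat_lit 0x10012) (nat_lit 0) pn))))))))))))))))))))))) :=
  Cl.node (nat_lit 0x3cc2a) (nat_lit 12) (by decide +kernel) (ClAll.succ (ClAll.succ (ClAll.succ (ClAll.succ (ClAll.succ (ClAll.succ (ClAll.succ (ClAll.succ (ClAll.succ (ClAll.succ (ClAll.succ (ClAll.succ ClAll.zero n262) s218) s219) s220) s221) s222) s223) s224) s225) s226) s227) s228)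

def n314 : Cl (O (nat_lit 4)) (R (nat_lit 14353))
    (p (nat_lit 0xc1) (nat_lit 1) (p (nat_lit 0x109) (nat_lit 1) (p (nat_lit 0x101) (nat_lit 0) (p (nat_lit 0x111) (nat_lit 0) (p (nat_lit 0xd1) (nat_lit 1) (p (nat_lit 0x89) (nat_lit 0) (p (nat_lit 0x41) (nat_lit 0) (p (nat_lit 0x108090887069a) (nat_lit 0) (p (nat_lit 0x107870806861a) (nat_lit 0) (p (nat_lit 0x8000000000000070786058a) (nat_lit 0) (p (nat_lit 0x10787058502) (nat_lit 0) (p (nat_lit 0x10586850482) (nat_lit 0) (p (nat_lit 0x16000c) (nat_lit 0) (p (nat_lit 0x160004) (nat_lit 0) (p (nat_lit 0x68612) (nat_lit 0) (p (nat_lit 0x50592) (nat_lit 0) (p (nat_lit 0x40512) (nat_lit 0) (p (nat_lit 0x50312) (nat_lit 0) (p (nat_lit 0x38292) (nat_lit 0) (p (nat_lit 0x28212) (nat_lit 0) (p (nat_lit 0x38112) (nat_lit 0) (p (nat_lit 0x20092) (nat_lit 0) (p (nat_lit 0x10012) (nat_lit 0) pn))))))))))))))))))))))) :=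
  Cl.node (nat_lit 0x200014) (nat_lit 2) (by decide +kernel) (ClAll.succ (ClAll.succ ClAll.zero n263) s244)

def n315 : Cl (O (nat_lit 4)) (R (nat_lit 14353))
    (p (nat_lit 0x119) (nat_lit 0) (p (nat_lit 0x81) (nat_lit 0) (p (nat_lit 0x101) (nat_lit 1) (p (nat_lit 0x111) (nat_lit 0) (p (nat_lit 0xd1) (nat_lit 1) (p (nat_lit 0x89) (nat_lit 0) (p (nat_lit 0x41) (nat_lit 0) (p (nat_lit 0x108090887069a) (nat_lit 0) (p (nat_lit 0x107870806861a) (nat_lit 0) (p (nat_lit 0x8000000000000070786058a) (nat_lit 0) (p (nat_lit 0x10787058502) (nat_lit 0) (p (nat_lit 0x10586850482) (nat_lit 0) (p (nat_lit 0x16000c) (nat_lit 0) (p (nat_lit 0x160004) (nat_lit 0) (p (nat_lit 0x68612) (nat_lit 0) (p (nat_lit 0x50592) (nat_lit 0) (p (nat_lit 0x40512) (nat_lit 0) (p (nat_lit 0x50312) (nat_lit 0) (p (nat_lit 0x38292) (nat_lit 0) (p (nat_lit 0x28212) (nat_lit 0) (p (nat_lit 0x38112) (nat_lit 0) (p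 (nat_lit 0x20092) (nat_lit 0) (p (nat_lit 0x10012) (nat_lit 0) pn))))))))))))))))))))))) :=
  Cl.node (nat_lit 0x200014) (nat_lit 2) (by decide +kernel) (ClAll.succ (ClAll.succ ClAll.zero n264) s259)

def n316 : Cl (O (nat_lit 4)) (R (nat_lit 14353))
    (p (nat_lit 0x119) (nat_lit 1) (p (nat_lit 0x81) (nat_lit 0) (p (nat_lit 0x101) (nat_lit 1) (p (nat_lit 0x111) (nat_lit 0) (p (nat_lit 0xd1) (nat_lit 1) (p (nat_lit 0x89) (nat_lit 0) (p (nat_lit 0x41) (nat_lit 0) (p (nat_lit 0x108090887069a) (nat_lit 0) (p (nat_lit 0x107870806861a) (nat_lit 0) (p (nat_lit 0x8000000000000070786058a) (nat_lit 0) (p (nat_lit 0x10787058502) (nat_lit 0) (p (nat_lit 0x10586850482) (nat_lit 0) (p (nat_lit 0x16000c) (nat_lit 0) (p (nat_lit 0x160004) (nat_lit 0) (p (nat_lit 0x68612) (nat_lit 0) (p (nat_lit 0x50592) (nat_lit 0) (p (nat_lit 0x40512) (nat_lit 0) (p (nat_lit 0x50312) (nat_lit 0) (p (nat_lit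 0x38292) (nat_lit 0) (p (nat_lit 0x28212) (nat_lit 0) (p (nat_lit 0x38112) (nat_lit 0) (p (nat_lit 0x20092) (nat_lit 0) (p (nat_lit 0x10012) (nat_lit 0) pn))))))))))))))))))))))) :=
  Cl.node (nat_lit 0x3cc2a) (nat_lit 12) (by decide +kernel) (ClAll.succ (ClAll.succ (ClAll.succ (ClAll.succ (ClAll.succ (ClAll.succ (ClAll.succ (ClAll.succ (ClAll.succ (ClAll.succ (ClAll.succ (ClAll.succ ClAll.zero s260) s261) s262) s263) s264) s265) s266) s267) s268) s269) s270) s271)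

def n317 : Cl (O (nat_lit 4)) (R (nat_lit 14353))
    (p (nat_lit 0xc1) (nat_lit 0) (p (nat_lit 0x81) (nat_lit 1) (p (nat_lit 0x101) (nat_lit 1) (p (nat_lit 0x111) (nat_lit 0) (p (nat_lit 0xd1) (nat_lit 1) (p (nat_lit 0x89) (nat_lit 0) (p (nat_lit 0x41) (nat_lit 0) (p (nat_lit 0x108090887069a) (nat_lit 0) (p (nat_lit 0x107870806861a) (nat_lit 0) (p (nat_lit 0x8000000000000070786058a) (nat_lit 0) (p (nat_lit 0x10787058502) (nat_lit 0) (p (nat_lit 0x10586850482) (nat_lit 0) (p (nat_lit 0x16000c) (nat_lit 0) (p (nat_lit 0x160004) (nat_lit 0) (p (nat_lit 0x68612) (nat_lit 0) (p (nat_lit 0x50592) (nat_lit 0) (p (nat_lit 0x40512) (nat_lit 0) (p (nat_lit 0x50312) (nat_lit 0) (p (nat_lit 0x38292) (nat_lit 0) (p (nat_lit 0x28212) (nat_lit 0) (p (nat_lit 0x38112) (nat_lit 0) (p (nat_lit 0x20092) (nat_lit 0) (p (nat_lit 0x10012) (nat_lit 0) pn))))))))))))))))))))))) :=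
  Cl.node (nat_lit 0x119) (nat_lit 2) (by decide +kernel) (ClAll.succ (ClAll.succ ClAll.zero n265) n266)

def n318 : Cl (O (nat_lit 4)) (R (nat_lit 14353))
    (p (nat_lit 0xc1) (nat_lit 1) (p (nat_lit 0x81) (nat_lit 1) (p (nat_lit 0x101) (nat_lit 1) (p (nat_lit 0x111) (nat_lit 0) (p (nat_lit 0xd1) (nat_lit 1) (p (nat_lit 0x89) (nat_lit 0) (p (nat_lit 0x41) (nat_lit 0) (p (nat_lit 0x108090887069a) (nat_lit 0) (p (nat_lit 0x107870806861a) (nat_lit 0) (p (nat_lit 0x8000000000000070786058a) (nat_lit 0) (p (nat_lit 0x10787058502) (nat_lit 0) (p (nat_lit 0x10586850482) (nat_lit 0) (p (nat_lit 0x16000c) (nat_lit 0) (p (nat_lit 0x160004) (nat_lit 0) (p (nat_lit 0x68612) (nat_lit 0) (p (nat_lit 0x50592) (nat_lit 0) (p (nat_lit 0x40512) (nat_lit 0) (p (nat_lit 0x50312) (nat_lit 0) (p (nat_lit 0x38292) (nat_lit 0) (p (nat_lit 0x28212) (nat_lit 0) (p (nat_lit 0x38112) (nat_lit 0) (p (nat_lit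 0x20092) (nat_lit 0) (p (nat_lit 0x10012) (nat_lit 0) pn))))))))))))))))))))))) :=
  Cl.node (nat_lit 0x109) (nat_lit 2) (by decide +kernel) (ClAll.succ (ClAll.succ ClAll.zero s311) s312)

def n319 : Cl (O (nat_lit 4)) (R (nat_lit 14353))
    (p (nat_lit 0x101) (nat_lit 0) (p (nat_lit 0xc1) (nat_lit 1) (p (nat_lit 0x81) (nat_lit 1) (p (nat_lit 0x111) (nat_lit 1) (p (nat_lit 0xd1) (nat_lit 1) (p (nat_lit 0x89) (nat_lit 0) (p (nat_lit 0x41) (nat_lit 0) (p (nat_lit 0x108090887069a) (nat_lit 0) (p (nat_lit 0x107870806861a) (nat_lit 0) (p (nat_lit 0x8000000000000070786058a) (nat_lit 0) (p (nat_lit 0x10787058502) (nat_lit 0) (p (nat_lit 0x10586850482) (nat_lit 0) (p (nat_lit 0x16000c) (nat_lit 0) (p (nat_lit 0x160004) (nat_lit 0) (p (nat_lit 0x68612) (nat_lit 0) (p (nat_lit 0x50592) (nat_lit 0) (p (nat_lit 0x40512) (nat_lit 0) (p (nat_lit 0x50312) (nat_lit 0) (p (nat_lit 0x38292)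 (nat_lit 0) (p (nat_lit 0x28212) (nat_lit 0) (p (nat_lit 0x38112) (nat_lit 0) (p (nat_lit 0x20092) (nat_lit 0) (p (nat_lit 0x10012) (nat_lit 0) pn))))))))))))))))))))))) :=
  Cl.node (nat_lit 0x3cc2a) (nat_lit 12) (by decide +kernel) (ClAll.succ (ClAll.succ (ClAll.succ (ClAll.succ (ClAll.succ (ClAll.succ (ClAll.succ (ClAll.succ (ClAll.succ (ClAll.succ (ClAll.succ (ClAll.succ ClAll.zero n267) s319) s320) s321) s322) s323) s324) s325) s326) s327) s328) s329)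

def n320 : Cl (O (nat_lit 4)) (R (nat_lit 14353))
    (p (nat_lit 0x101) (nat_lit 1) (p (nat_lit 0xc1) (nat_lit 1) (p (nat_lit 0x81) (nat_lit 1) (p (nat_lit 0x111) (nat_lit 1) (p (nat_lit 0xd1) (nat_lit 1) (p (nat_lit 0x89) (nat_lit 0) (p (nat_lit 0x41) (nat_lit 0) (p (nat_lit 0x108090887069a) (nat_lit 0) (p (nat_lit 0x107870806861a) (nat_lit 0) (p (nat_lit 0x8000000000000070786058a) (nat_lit 0) (p (nat_lit 0x10787058502) (nat_lit 0) (p (nat_lit 0x10586850482) (nat_lit 0) (p (nat_lit 0x16000c) (nat_lit 0) (p (nat_lit 0x160004) (nat_lit 0) (p (nat_lit 0x68612) (nat_lit 0) (p (nat_lit 0x50592) (nat_lit 0) (p (nat_lit 0x40512) (nat_lit 0) (p (nat_lit 0x50312) (nat_lit 0) (p (nat_lit 0x38292) (nat_lit 0) (p (nat_lit 0x28212) (nat_lit 0) (p (nat_lit 0x38112) (nat_lit 0) (p (nat_lit 0x20092) (nat_lit 0) (p (nat_lit 0x10012) (nat_lit 0) pn))))))))))))))))))))))) :=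
  Cl.node (nat_lit 0x444aa) (nat_lit 12) (by decide +kernel) (ClAll.succ (ClAll.succ (ClAll.succ (ClAll.succ (ClAll.succ (ClAll.succ (ClAll.succ (ClAll.succ (ClAll.succ (ClAll.succ (ClAll.succ (ClAll.succ ClAll.zero s330) s331) s332) s333) s334) s335) s336) n268) s339) s340) s341) s342)

def n321 : Cl (O (nat_lit 4)) (R (nat_lit 14353))
    (p (nat_lit 0x111) (nat_lit 1) (p (nat_lit 0x109) (nat_lit 0) (p (nat_lit 0x101) (nat_lit 0) (p (nat_lit 0x119) (nat_lit 0) (p (nat_lit 0xc9) (nat_lit 0) (p (nat_lit 0x89) (nat_lit 1) (p (nat_lit 0x41) (nat_lit 0) (p (nat_lit 0x108090887069a) (nat_lit 0) (p (nat_lit 0x107870806861a) (nat_lit 0) (p (nat_lit 0x8000000000000070786058a) (nat_lit 0) (p (nat_lit 0x10787058502) (nat_lit 0) (p (nat_lit 0x10586850482) (nat_lit 0) (p (nat_lit 0x16000c) (nat_lit 0) (p (nat_lit 0x160004) (nat_lit 0) (p (nat_lit 0x68612) (nat_lit 0) (p (nat_lit 0x50592)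 (nat_lit 0) (p (nat_lit 0x40512) (nat_lit 0) (p (nat_lit 0x50312) (nat_lit 0) (p (nat_lit 0x38292) (nat_lit 0) (p (nat_lit 0x28212) (nat_lit 0) (p (nat_lit 0x38112) (nat_lit 0) (p (nat_lit 0x20092) (nat_lit 0) (p (nat_lit 0x10012) (nat_lit 0) pn))))))))))))))))))))))) :=
  Cl.node (nat_lit 0xd1) (nat_lit 2) (by decide +kernel) (ClAll.succ (ClAll.succ ClAll.zero s344) n269)

def n322 : Cl (O (nat_lit 4)) (R (nat_lit 14353))
    (p (nat_lit 0xd1) (nat_lit 0) (p (nat_lit 0x109) (nat_lit 1) (p (nat_lit 0x101) (nat_lit 0) (p (nat_lit 0x119) (nat_lit 0) (p (nat_lit 0xc9) (nat_lit 0) (p (nat_lit 0x89) (nat_lit 1) (p (nat_lit 0x41) (nat_lit 0) (p (nat_lit 0x108090887069a) (nat_lit 0) (p (nat_lit 0x107870806861a) (nat_lit 0) (p (nat_lit 0x8000000000000070786058a) (nat_lit 0) (p (nat_lit 0x10787058502) (nat_lit 0) (p (nat_lit 0x10586850482) (nat_lit 0) (p (nat_lit 0x16000c) (nat_lit 0)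 (p (nat_lit 0x160004) (nat_lit 0) (p (nat_lit 0x68612) (nat_lit 0) (p (nat_lit 0x50592) (nat_lit 0) (p (nat_lit 0x40512) (nat_lit 0) (p (nat_lit 0x50312) (nat_lit 0) (p (nat_lit 0x38292) (nat_lit 0) (p (nat_lit 0x28212) (nat_lit 0) (p (nat_lit 0x38112) (nat_lit 0) (p (nat_lit 0x20092) (nat_lit 0) (p (nat_lit 0x10012) (nat_lit 0) pn))))))))))))))))))))))) :=
  Cl.node (nat_lit 0x200014) (nat_lit 2) (by decide +kernel) (ClAll.succ (ClAll.succ ClAll.zero n270) s364)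

def n323 : Cl (O (nat_lit 4)) (R (nat_lit 14353))
    (p (nat_lit 0xd1) (nat_lit 1) (p (nat_lit 0x109) (nat_lit 1) (p (nat_lit 0x101) (nat_lit 0) (p (nat_lit 0x119) (nat_lit 0) (p (nat_lit 0xc9) (nat_lit 0) (p (nat_lit 0x89) (nat_lit 1) (p (nat_lit 0x41) (nat_lit 0) (p (nat_lit 0x108090887069a) (nat_lit 0) (p (nat_lit 0x107870806861a) (nat_lit 0) (p (nat_lit 0x8000000000000070786058a) (nat_lit 0) (p (nat_lit 0x10787058502) (nat_lit 0) (p (nat_lit 0x10586850482) (nat_lit 0) (p (nat_lit 0x16000c) (nat_lit 0) (p (nat_lit 0x160004) (nat_lit 0) (p (nat_lit 0x68612) (nat_lit 0) (p (nat_lit 0x50592) (nat_lit 0) (p (nat_lit 0x40512) (nat_lit 0) (p (nat_lit 0x50312) (nat_lit 0) (p (nat_lit 0x38292) (nat_lit 0) (p (nat_lit 0x28212) (nat_lit 0) (p (nat_lit 0x38112) (nat_lit 0) (p (nat_lit 0x20092) (nat_lit 0) (p (nat_lit 0x10012) (nat_lit 0) pn))))))))))))))))))))))) :=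
  Cl.node (nat_lit 0x444aa) (nat_lit 12) (by decide +kernel) (ClAll.succ (ClAll.succ (ClAll.succ (ClAll.succ (ClAll.succ (ClAll.succ (ClAll.succ (ClAll.succ (ClAll.succ (ClAll.succ (ClAll.succ (ClAll.succ ClAll.zero s365) s366) s367) s368) s369) s370) s371) n271) s392) s393) s394) s395)

def n324 : Cl (O (nat_lit 4)) (R (nat_lit 14353))
    (p (nat_lit 0xd1) (nat_lit 0) (p (nat_lit 0xc1) (nat_lit 0) (p (nat_lit 0x101) (nat_lit 1) (p (nat_lit 0x119) (nat_lit 0) (p (nat_lit 0xc9) (nat_lit 0) (p (nat_lit 0x89) (nat_lit 1) (p (nat_lit 0x41) (nat_lit 0) (p (nat_lit 0x108090887069a) (nat_lit 0) (p (nat_lit 0x107870806861a) (nat_lit 0) (p (nat_lit 0x8000000000000070786058a) (nat_lit 0) (p (nat_lit 0x10787058502) (nat_lit 0) (p (nat_lit 0x10586850482) (nat_lit 0) (p (nat_lit 0x16000c) (nat_lit 0) (p (nat_lit 0x160004) (nat_lit 0) (p (nat_lit 0x68612) (nat_lit 0) (p (nat_lit 0x50592)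 (nat_lit 0) (p (nat_lit 0x40512) (nat_lit 0) (p (nat_lit 0x50312) (nat_lit 0) (p (nat_lit 0x38292) (nat_lit 0) (p (nat_lit 0x28212) (nat_lit 0) (p (nat_lit 0x38112) (nat_lit 0) (p (nat_lit 0x20092) (nat_lit 0) (p (nat_lit 0x10012) (nat_lit 0) pn))))))))))))))))))))))) :=
  Cl.node (nat_lit 0x200014) (nat_lit 2) (by decide +kernel) (ClAll.succ (ClAll.succ ClAll.zero n272) s411)

def n325 : Cl (O (nat_lit 4)) (R (nat_lit 14353))
    (p (nat_lit 0xd1) (nat_lit 1) (p (nat_lit 0xc1) (nat_lit 0) (p (nat_lit 0x101) (nat_lit 1) (p (nat_lit 0x119) (nat_lit 0) (p (nat_lit 0xc9) (nat_lit 0) (p (nat_lit 0x89) (nat_lit 1) (p (nat_lit 0x41) (nat_lit 0) (p (nat_lit 0x108090887069a) (nat_lit 0) (p (nat_lit 0x107870806861a) (nat_lit 0) (p (nat_lit 0x8000000000000070786058a) (nat_lit 0) (p (nat_lit 0x10787058502) (nat_lit 0) (p (nat_lit 0x10586850482) (nat_lit 0) (p (nat_lit 0x16000c) (nat_lit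 0) (p (nat_lit 0x160004) (nat_lit 0) (p (nat_lit 0x68612) (nat_lit 0) (p (nat_lit 0x50592) (nat_lit 0) (p (nat_lit 0x40512) (nat_lit 0) (p (nat_lit 0x50312) (nat_lit 0) (p (nat_lit 0x38292) (nat_lit 0) (p (nat_lit 0x28212) (nat_lit 0) (p (nat_lit 0x38112) (nat_lit 0) (p (nat_lit 0x20092) (nat_lit 0) (p (nat_lit 0x10012) (nat_lit 0) pn))))))))))))))))))))))) :=
  Cl.node (nat_lit 0x444aa) (nat_lit 12) (by decide +kernel) (ClAll.succ (ClAll.succ (ClAll.succ (ClAll.succ (ClAll.succ (ClAll.succ (ClAll.succ (ClAll.succ (ClAll.succ (ClAll.succ (ClAll.succ (ClAll.succ ClAll.zero s412) s413) s414) s415) s416) s417) s418) n273) s438) s439) s440) s441)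

def n326 : Cl (O (nat_lit 4)) (R (nat_lit 14353))
    (p (nat_lit 0x111) (nat_lit 1) (p (nat_lit 0xd1) (nat_lit 1) (p (nat_lit 0xc1) (nat_lit 0) (p (nat_lit 0x119) (nat_lit 1) (p (nat_lit 0xc9) (nat_lit 0) (p (nat_lit 0x89) (nat_lit 1) (p (nat_lit 0x41) (nat_lit 0) (p (nat_lit 0x108090887069a) (nat_lit 0) (p (nat_lit 0x107870806861a) (nat_lit 0) (p (nat_lit 0x8000000000000070786058a) (nat_lit 0) (p (nat_lit 0x10787058502) (nat_lit 0) (p (nat_lit 0x10586850482) (nat_lit 0) (p (nat_lit 0x16000c) (nat_lit 0) (p (nat_lit 0x160004) (nat_lit 0) (p (nat_lit 0x68612) (nat_lit 0) (p (nat_lit 0x50592) (nat_lit 0) (p (nat_lit 0x40512) (nat_lit 0) (p (nat_lit 0x50312) (nat_lit 0) (p (nat_lit 0x38292) (nat_lit 0) (p (nat_lit 0x28212) (nat_lit 0) (p (nat_lit 0x38112) (nat_lit 0) (p (nat_lit 0x20092) (nat_lit 0) (p (nat_lit 0x10012) (nat_lit 0) pn))))))))))))))))))))))) :=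
  Cl.node (nat_lit 0x444aa) (nat_lit 12) (by decide +kernel) (ClAll.succ (ClAll.succ (ClAll.succ (ClAll.succ (ClAll.succ (ClAll.succ (ClAll.succ (ClAll.succ (ClAll.succ (ClAll.succ (ClAll.succ (ClAll.succ ClAll.zero s445) s446) s447) s448) s449) s450) s451) n274) n275) s475) s476) s477)

def n327 : Cl (O (nat_lit 4)) (R (nat_lit 14353))
    (p (nat_lit 0x111) (nat_lit 0) (p (nat_lit 0x101) (nat_lit 0) (p (nat_lit 0xc1) (nat_lit 1) (p (nat_lit 0x119) (nat_lit 1) (p (nat_lit 0xc9) (nat_lit 0) (p (nat_lit 0x89) (nat_lit 1) (p (nat_lit 0x41) (nat_lit 0) (p (nat_lit 0x108090887069a) (nat_lit 0) (p (nat_lit 0x107870806861a) (nat_lit 0) (p (nat_lit 0x8000000000000070786058a) (nat_lit 0) (p (nat_lit 0x10787058502) (nat_lit 0) (p (nat_lit 0x10586850482) (nat_lit 0) (p (nat_lit 0x16000c) (nat_lit 0) (p (nat_lit 0x160004) (nat_lit 0) (p (nat_lit 0x68612) (nat_lit 0) (p (nat_lit 0x50592)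 (nat_lit 0) (p (nat_lit 0x40512) (nat_lit 0) (p (nat_lit 0x50312) (nat_lit 0) (p (nat_lit 0x38292) (nat_lit 0) (p (nat_lit 0x28212) (nat_lit 0) (p (nat_lit 0x38112) (nat_lit 0) (p (nat_lit 0x20092) (nat_lit 0) (p (nat_lit 0x10012) (nat_lit 0) pn))))))))))))))))))))))) :=
  Cl.node (nat_lit 0x44c2a) (nat_lit 12) (by decide +kernel) (ClAll.succ (ClAll.succ (ClAll.succ (ClAll.succ (ClAll.succ (ClAll.succ (ClAll.succ (ClAll.succ (ClAll.succ (ClAll.succ (ClAll.succ (ClAll.succ ClAll.zero s478) s479) s480) s481) s482) s483) s484) s485) s486) s487) s488) s489)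

def n328 : Cl (O (nat_lit 4)) (R (nat_lit 14353))
    (p (nat_lit 0x111) (nat_lit 1) (p (nat_lit 0x101) (nat_lit 0) (p (nat_lit 0xc1) (nat_lit 1) (p (nat_lit 0x119) (nat_lit 1) (p (nat_lit 0xc9) (nat_lit 0) (p (nat_lit 0x89) (nat_lit 1) (p (nat_lit 0x41) (nat_lit 0) (p (nat_lit 0x108090887069a) (nat_lit 0) (p (nat_lit 0x107870806861a) (nat_lit 0) (p (nat_lit 0x8000000000000070786058a) (nat_lit 0) (p (nat_lit 0x10787058502) (nat_lit 0) (p (nat_lit 0x10586850482) (nat_lit 0) (p (nat_lit 0x16000c) (nat_lit 0) (p (nat_lit 0x160004) (nat_lit 0) (p (nat_lit 0x68612) (nat_lit 0) (p (nat_lit 0x50592) (nat_lit 0) (p (nat_lit 0x40512) (nat_lit 0) (p (nat_lit 0x50312) (nat_lit 0) (p (nat_lit 0x38292) (nat_lit 0) (p (nat_lit 0x28212) (nat_lit 0) (p (nat_lit 0x38112) (nat_lit 0) (p (nat_lit 0x20092) (nat_lit 0) (p (nat_lit 0x10012) (nat_lit 0) pn))))))))))))))))))))))) :=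
  Cl.node (nat_lit 0x444aa) (nat_lit 12) (by decide +kernel) (ClAll.succ (ClAll.succ (ClAll.succ (ClAll.succ (ClAll.succ (ClAll.succ (ClAll.succ (ClAll.succ (ClAll.succ (ClAll.succ (ClAll.succ (ClAll.succ ClAll.zero s490) s491) s492) s493) s494) s495) s496) n276) s513) s514) s515) s516)

def n329 : Cl (O (nat_lit 4)) (R (nat_lit 14353))
    (p (nat_lit 0x119) (nat_lit 1) (p (nat_lit 0x111) (nat_lit 0) (p (nat_lit 0x101) (nat_lit 0) (p (nat_lit 0x109) (nat_lit 0) (p (nat_lit 0xc9) (nat_lit 1) (p (nat_lit 0x89) (nat_lit 1) (p (nat_lit 0x41) (nat_lit 0) (p (nat_lit 0x108090887069a) (nat_lit 0) (p (nat_lit 0x107870806861a) (nat_lit 0) (p (nat_lit 0x8000000000000070786058a) (nat_lit 0) (p (nat_lit 0x10787058502) (nat_lit 0) (p (nat_lit 0x10586850482) (nat_lit 0) (p (nat_lit 0x16000c) (nat_lit 0) (p (nat_lit 0x160004) (nat_lit 0) (p (nat_lit 0x68612) (nat_lit 0) (p (nat_lit 0x50592)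 (nat_lit 0) (p (nat_lit 0x40512) (nat_lit 0) (p (nat_lit 0x50312) (nat_lit 0) (p (nat_lit 0x38292) (nat_lit 0) (p (nat_lit 0x28212) (nat_lit 0) (p (nat_lit 0x38112) (nat_lit 0) (p (nat_lit 0x20092) (nat_lit 0) (p (nat_lit 0x10012) (nat_lit 0) pn))))))))))))))))))))))) :=
  Cl.node (nat_lit 0x444aa) (nat_lit 12) (by decide +kernel) (ClAll.succ (ClAll.succ (ClAll.succ (ClAll.succ (ClAll.succ (ClAll.succ (ClAll.succ (ClAll.succ (ClAll.succ (ClAll.succ (ClAll.succ (ClAll.succ ClAll.zero s519) s520) s521) s522) s523) s524) s525) s526) s527) s528) s529) s530)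

def n330 : Cl (O (nat_lit 4)) (R (nat_lit 14353))
    (p (nat_lit 0x89) (nat_lit 0) (p (nat_lit 0x109) (nat_lit 1) (p (nat_lit 0x101) (nat_lit 0) (p (nat_lit 0x119) (nat_lit 0) (p (nat_lit 0xd1) (nat_lit 0) (p (nat_lit 0x81) (nat_lit 0) (p (nat_lit 0x41) (nat_lit 1) (p (nat_lit 0x108090887069a) (nat_lit 0) (p (nat_lit 0x107870806861a) (nat_lit 0) (p (nat_lit 0x8000000000000070786058a) (nat_lit 0) (p (nat_lit 0x10787058502) (nat_lit 0) (p (nat_lit 0x10586850482) (nat_lit 0) (p (nat_lit 0x16000c) (nat_lit 0) (p (nat_lit 0x160004) (nat_lit 0) (p (nat_lit 0x68612) (nat_lit 0) (p (nat_lit 0x50592) (nat_lit 0) (p (nat_lit 0x40512) (nat_lit 0) (p (nat_lit 0x50312) (nat_lit 0) (p (nat_lit 0x38292) (nat_lit 0) (p (nat_lit 0x28212) (nat_lit 0) (p (nat_lit 0x38112) (nat_lit 0) (p (nat_lit 0x20092) (nat_lit 0) (p (nat_lit 0x10012) (nat_lit 0) pn))))))))))))))))))))))) :=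
  Cl.node (nat_lit 0x111) (nat_lit 2) (by decide +kernel) (ClAll.succ (ClAll.succ ClAll.zero n277) s547)

def n331 : Cl (O (nat_lit 4)) (R (nat_lit 14353))
    (p (nat_lit 0x89) (nat_lit 1) (p (nat_lit 0x109) (nat_lit 1) (p (nat_lit 0x101) (nat_lit 0) (p (nat_lit 0x119) (nat_lit 0) (p (nat_lit 0xd1) (nat_lit 0) (p (nat_lit 0x81) (nat_lit 0) (p (nat_lit 0x41) (nat_lit 1) (p (nat_lit 0x108090887069a) (nat_lit 0) (p (nat_lit 0x107870806861a) (nat_lit 0) (p (nat_lit 0x8000000000000070786058a) (nat_lit 0) (p (nat_lit 0x10787058502) (nat_lit 0) (p (nat_lit 0x10586850482) (nat_lit 0) (p (nat_lit 0x16000c) (nat_lit 0) (p (nat_lit 0x160004) (nat_lit 0) (p (nat_lit 0x68612) (nat_lit 0) (p (nat_lit 0x50592) (nat_lit 0) (p (nat_lit 0x40512) (nat_lit 0) (p (nat_lit 0x50312) (nat_lit 0) (p (nat_lit 0x38292) (nat_lit 0) (p (nat_lit 0x28212) (nat_lit 0) (p (nat_lit 0x38112) (nat_lit 0) (p (nat_lit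 0x20092) (nat_lit 0) (p (nat_lit 0x10012) (nat_lit 0) pn))))))))))))))))))))))) :=
  Cl.node (nat_lit 0xc9) (nat_lit 2) (by decide +kernel) (ClAll.succ (ClAll.succ ClAll.zero n278) n279)

def n332 : Cl (O (nat_lit 4)) (R (nat_lit 14353))
    (p (nat_lit 0x89) (nat_lit 1) (p (nat_lit 0xc1) (nat_lit 0) (p (nat_lit 0x101) (nat_lit 1) (p (nat_lit 0x119) (nat_lit 0) (p (nat_lit 0xd1) (nat_lit 0) (p (nat_lit 0x81) (nat_lit 0) (p (nat_lit 0x41) (nat_lit 1) (p (nat_lit 0x108090887069a) (nat_lit 0) (p (nat_lit 0x107870806861a) (nat_lit 0) (p (nat_lit 0x8000000000000070786058a) (nat_lit 0) (p (nat_lit 0x10787058502) (nat_lit 0) (p (nat_lit 0x10586850482) (nat_lit 0) (p (nat_lit 0x16000c) (nat_lit 0) (p (nat_lit 0x160004) (nat_lit 0) (p (nat_lit 0x68612) (nat_lit 0) (p (nat_lit 0x50592) (nat_lit 0) (p (nat_lit 0x40512) (nat_lit 0) (p (nat_lit 0x50312) (nat_lit 0) (p (nat_lit 0x38292) (nat_lit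 0) (p (nat_lit 0x28212) (nat_lit 0) (p (nat_lit 0x38112) (nat_lit 0) (p (nat_lit 0x20092) (nat_lit 0) (p (nat_lit 0x10012) (nat_lit 0) pn))))))))))))))))))))))) :=
  Cl.node (nat_lit 0xc9) (nat_lit 2) (by decide +kernel) (ClAll.succ (ClAll.succ ClAll.zero n280) n281)

def n333 : Cl (O (nat_lit 4)) (R (nat_lit 14353))
    (p (nat_lit 0x89) (nat_lit 0) (p (nat_lit 0xc1) (nat_lit 1) (p (nat_lit 0x101) (nat_lit 1) (p (nat_lit 0x119) (nat_lit 0) (p (nat_lit 0xd1) (nat_lit 0) (p (nat_lit 0x81) (nat_lit 0) (p (nat_lit 0x41) (nat_lit 1) (p (nat_lit 0x108090887069a) (nat_lit 0) (p (nat_lit 0x107870806861a) (nat_lit 0) (p (nat_lit 0x8000000000000070786058a) (nat_lit 0) (p (nat_lit 0x10787058502) (nat_lit 0) (p (nat_lit 0x10586850482) (nat_lit 0) (p (nat_lit 0x16000c) (nat_lit 0) (p (nat_lit 0x160004) (nat_lit 0) (p (nat_lit 0x68612) (nat_lit 0) (p (nat_lit 0x50592) (nat_lit 0) (p (nat_lit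 0x40512) (nat_lit 0) (p (nat_lit 0x50312) (nat_lit 0) (p (nat_lit 0x38292) (nat_lit 0) (p (nat_lit 0x28212) (nat_lit 0) (p (nat_lit 0x38112) (nat_lit 0) (p (nat_lit 0x20092) (nat_lit 0) (p (nat_lit 0x10012) (nat_lit 0) pn))))))))))))))))))))))) :=
  Cl.node (nat_lit 0x3cc2a) (nat_lit 12) (by decide +kernel) (ClAll.succ (ClAll.succ (ClAll.succ (ClAll.succ (ClAll.succ (ClAll.succ (ClAll.succ (ClAll.succ (ClAll.succ (ClAll.succ (ClAll.succ (ClAll.succ ClAll.zero s600) s601) s602) s603) s604) s605) s606) s607) s608) s609) s610) s611)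

def n334 : Cl (O (nat_lit 4)) (R (nat_lit 14353))
    (p (nat_lit 0x89) (nat_lit 1) (p (nat_lit 0xc1) (nat_lit 1) (p (nat_lit 0x101) (nat_lit 1) (p (nat_lit 0x119) (nat_lit 0) (p (nat_lit 0xd1) (nat_lit 0) (p (nat_lit 0x81) (nat_lit 0) (p (nat_lit 0x41) (nat_lit 1) (p (nat_lit 0x108090887069a) (nat_lit 0) (p (nat_lit 0x107870806861a) (nat_lit 0) (p (nat_lit 0x8000000000000070786058a) (nat_lit 0) (p (nat_lit 0x10787058502) (nat_lit 0) (p (nat_lit 0x10586850482) (nat_lit 0) (p (nat_lit 0x16000c) (nat_lit 0) (p (nat_lit 0x160004) (nat_lit 0) (p (nat_lit 0x68612) (nat_lit 0) (p (nat_lit 0x50592) (nat_lit 0) (p (nat_lit 0x40512) (nat_lit 0) (p (nat_lit 0x50312) (nat_lit 0) (p (nat_lit 0x38292) (nat_lit 0) (p (nat_lit 0x28212) (nat_lit 0) (p (nat_lit 0x38112) (nat_lit 0) (p (nat_lit 0x20092) (nat_lit 0) (p (nat_lit 0x10012) (nat_lit 0) pn))))))))))))))))))))))) :=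
  Cl.node (nat_lit 0x3c4aa) (nat_lit 12) (by decide +kernel) (ClAll.succ (ClAll.succ (ClAll.succ (ClAll.succ (ClAll.succ (ClAll.succ (ClAll.succ (ClAll.succ (ClAll.succ (ClAll.succ (ClAll.succ (ClAll.succ ClAll.zero s612) s613) s614) s615) s616) s617) s618) n282) s625) s626) n283) s630)

def n335 : Cl (O (nat_lit 4)) (R (nat_lit 14353))
    (p (nat_lit 0x89) (nat_lit 1) (p (nat_lit 0xc9) (nat_lit 1) (p (nat_lit 0xc1) (nat_lit 0) (p (nat_lit 0x119) (nat_lit 1) (p (nat_lit 0xd1) (nat_lit 0) (p (nat_lit 0x81) (nat_lit 0) (p (nat_lit 0x41) (nat_lit 1) (p (nat_lit 0x108090887069a) (nat_lit 0) (p (nat_lit 0x107870806861a) (nat_lit 0) (p (nat_lit 0x8000000000000070786058a) (nat_lit 0) (p (nat_lit 0x10787058502) (nat_lit 0) (p (nat_lit 0x10586850482) (nat_lit 0) (p (nat_lit 0x16000c) (nat_lit 0) (p (nat_lit 0x160004) (nat_lit 0) (p (nat_lit 0x68612) (nat_lit 0) (p (nat_lit 0x50592)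 (nat_lit 0) (p (nat_lit 0x40512) (nat_lit 0) (p (nat_lit 0x50312) (nat_lit 0) (p (nat_lit 0x38292) (nat_lit 0) (p (nat_lit 0x28212) (nat_lit 0) (p (nat_lit 0x38112) (nat_lit 0) (p (nat_lit 0x20092) (nat_lit 0) (p (nat_lit 0x10012) (nat_lit 0) pn))))))))))))))))))))))) :=
  Cl.node (nat_lit 0x109) (nat_lit 2) (by decide +kernel) (ClAll.succ (ClAll.succ ClAll.zero n284) n285)

def n336 : Cl (O (nat_lit 4)) (R (nat_lit 14353))
    (p (nat_lit 0x89) (nat_lit 1) (p (nat_lit 0x101) (nat_lit 0) (p (nat_lit 0xc1) (nat_lit 1) (p (nat_lit 0x119) (nat_lit 1) (p (nat_lit 0xd1) (nat_lit 0) (p (nat_lit 0x81) (nat_lit 0) (p (nat_lit 0x41) (nat_lit 1) (p (nat_lit 0x108090887069a) (nat_lit 0) (p (nat_lit 0x107870806861a) (nat_lit 0) (p (nat_lit 0x8000000000000070786058a) (nat_lit 0) (p (nat_lit 0x10787058502) (nat_lit 0) (p (nat_lit 0x10586850482) (nat_lit 0) (p (nat_lit 0x16000c) (nat_lit 0)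 (p (nat_lit 0x160004) (nat_lit 0) (p (nat_lit 0x68612) (nat_lit 0) (p (nat_lit 0x50592) (nat_lit 0) (p (nat_lit 0x40512) (nat_lit 0) (p (nat_lit 0x50312) (nat_lit 0) (p (nat_lit 0x38292) (nat_lit 0) (p (nat_lit 0x28212) (nat_lit 0) (p (nat_lit 0x38112) (nat_lit 0) (p (nat_lit 0x20092) (nat_lit 0) (p (nat_lit 0x10012) (nat_lit 0) pn))))))))))))))))))))))) :=
  Cl.node (nat_lit 0x109) (nat_lit 2) (by decide +kernel) (ClAll.succ (ClAll.succ ClAll.zero n286) n287)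

def n337 : Cl (O (nat_lit 4)) (R (nat_lit 14353))
    (p (nat_lit 0x89) (nat_lit 1) (p (nat_lit 0x101) (nat_lit 1) (p (nat_lit 0xc1) (nat_lit 1) (p (nat_lit 0x119) (nat_lit 1) (p (nat_lit 0xd1) (nat_lit 0) (p (nat_lit 0x81) (nat_lit 0) (p (nat_lit 0x41) (nat_lit 1) (p (nat_lit 0x108090887069a) (nat_lit 0) (p (nat_lit 0x107870806861a) (nat_lit 0) (p (nat_lit 0x8000000000000070786058a) (nat_lit 0) (p (nat_lit 0x10787058502) (nat_lit 0) (p (nat_lit 0x10586850482) (nat_lit 0) (p (nat_lit 0x16000c) (nat_lit 0) (p (nat_lit 0x160004) (nat_lit 0) (p (nat_lit 0x68612) (nat_lit 0) (p (nat_lit 0x50592) (nat_lit 0) (p (nat_lit 0x40512) (nat_lit 0) (p (nat_lit 0x50312) (nat_lit 0) (p (nat_lit 0x38292) (nat_lit 0) (p (nat_lit 0x28212) (nat_lit 0) (p (nat_lit 0x38112) (nat_lit 0) (p (nat_lit 0x20092) (nat_lit 0) (p (nat_lit 0x10012) (nat_lit 0) pn))))))))))))))))))))))) :=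
  Cl.node (nat_lit 0x3c4aa) (nat_lit 12) (by decide +kernel) (ClAll.succ (ClAll.succ (ClAll.succ (ClAll.succ (ClAll.succ (ClAll.succ (ClAll.succ (ClAll.succ (ClAll.succ (ClAll.succ (ClAll.succ (ClAll.succ ClAll.zero s724) s725) s726) s727) s728) s729) s730) n288) s759) s760) n289) s766)

def n338 : Cl (O (nat_lit 4)) (R (nat_lit 14353))
    (p (nat_lit 0x89) (nat_lit 1) (p (nat_lit 0x109) (nat_lit 1) (p (nat_lit 0x101) (nat_lit 0) (p (nat_lit 0x111) (nat_lit 0) (p (nat_lit 0xd1) (nat_lit 1) (p (nat_lit 0x81) (nat_lit 0) (p (nat_lit 0x41) (nat_lit 1) (p (nat_lit 0x108090887069a) (nat_lit 0) (p (nat_lit 0x107870806861a) (nat_lit 0) (p (nat_lit 0x8000000000000070786058a) (nat_lit 0) (p (nat_lit 0x10787058502) (nat_lit 0) (p (nat_lit 0x10586850482) (nat_lit 0) (p (nat_lit 0x16000c) (nat_lit 0) (p (nat_lit 0x160004) (nat_lit 0) (p (nat_lit 0x68612) (nat_lit 0) (p (nat_lit 0x50592)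 (nat_lit 0) (p (nat_lit 0x40512) (nat_lit 0) (p (nat_lit 0x50312) (nat_lit 0) (p (nat_lit 0x38292) (nat_lit 0) (p (nat_lit 0x28212) (nat_lit 0) (p (nat_lit 0x38112) (nat_lit 0) (p (nat_lit 0x20092) (nat_lit 0) (p (nat_lit 0x10012) (nat_lit 0) pn))))))))))))))))))))))) :=
  Cl.node (nat_lit 0xc9) (nat_lit 2) (by decide +kernel) (ClAll.succ (ClAll.succ ClAll.zero n290) n291)

def n339 : Cl (O (nat_lit 4)) (R (nat_lit 14353))
    (p (nat_lit 0x3cc2a) (nat_lit 0) (p (nat_lit 0x89) (nat_lit 0) (p (nat_lit 0x101) (nat_lit 1) (p (nat_lit 0x111) (nat_lit 0) (p (nat_lit 0xd1) (nat_lit 1) (p (nat_lit 0x81) (nat_lit 0) (p (nat_lit 0x41) (nat_lit 1) (p (nat_lit 0x108090887069a) (nat_lit 0) (p (nat_lit 0x107870806861a) (nat_lit 0) (p (nat_lit 0x8000000000000070786058a) (nat_lit 0) (p (nat_lit 0x10787058502) (nat_lit 0) (p (nat_lit 0x10586850482) (nat_lit 0) (p (nat_lit 0x16000c) (nat_lit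 0) (p (nat_lit 0x160004) (nat_lit 0) (p (nat_lit 0x68612) (nat_lit 0) (p (nat_lit 0x50592) (nat_lit 0) (p (nat_lit 0x40512) (nat_lit 0) (p (nat_lit 0x50312) (nat_lit 0) (p (nat_lit 0x38292) (nat_lit 0) (p (nat_lit 0x28212) (nat_lit 0) (p (nat_lit 0x38112) (nat_lit 0) (p (nat_lit 0x20092) (nat_lit 0) (p (nat_lit 0x10012) (nat_lit 0) pn))))))))))))))))))))))) :=
  Cl.node (nat_lit 0x380c2) (nat_lit 1) (by decide +kernel) (ClAll.succ ClAll.zero n292)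

def n340 : Cl (O (nat_lit 4)) (R (nat_lit 14353))
    (p (nat_lit 0xc9) (nat_lit 0) (p (nat_lit 0x89) (nat_lit 1) (p (nat_lit 0x101) (nat_lit 1) (p (nat_lit 0x111) (nat_lit 0) (p (nat_lit 0xd1) (nat_lit 1) (p (nat_lit 0x81) (nat_lit 0) (p (nat_lit 0x41) (nat_lit 1) (p (nat_lit 0x108090887069a) (nat_lit 0) (p (nat_lit 0x107870806861a) (nat_lit 0) (p (nat_lit 0x8000000000000070786058a) (nat_lit 0) (p (nat_lit 0x10787058502) (nat_lit 0) (p (nat_lit 0x10586850482) (nat_lit 0) (p (nat_lit 0x16000c) (nat_lit 0) (p (nat_lit 0x160004) (nat_lit 0) (p (nat_lit 0x68612) (nat_lit 0) (p (nat_lit 0x50592) (nat_lit 0) (p (nat_lit 0x40512) (nat_lit 0) (p (nat_lit 0x50312) (nat_lit 0) (p (nat_lit 0x38292) (nat_lit 0) (p (nat_lit 0x28212) (nat_lit 0) (p (nat_lit 0x38112) (nat_lit 0) (p (nat_lit 0x20092) (nat_lit 0) (p (nat_lit 0x10012) (nat_lit 0) pn))))))))))))))))))))))) :=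
  Cl.node (nat_lit 0x3cc2a) (nat_lit 12) (by decide +kernel) (ClAll.succ (ClAll.succ (ClAll.succ (ClAll.succ (ClAll.succ (ClAll.succ (ClAll.succ (ClAll.succ (ClAll.succ (ClAll.succ (ClAll.succ (ClAll.succ ClAll.zero n293) s838) s839) s840) s841) s842) s843) s844) s845) s846) s847) s848)

def n341 : Cl (O (nat_lit 4)) (R (nat_lit 14353))
    (p (nat_lit 0xc9) (nat_lit 1) (p (nat_lit 0x89) (nat_lit 1) (p (nat_lit 0x101) (nat_lit 1) (p (nat_lit 0x111) (nat_lit 0) (p (nat_lit 0xd1) (nat_lit 1) (p (nat_lit 0x81) (nat_lit 0) (p (nat_lit 0x41) (nat_lit 1) (p (nat_lit 0x108090887069a) (nat_lit 0) (p (nat_lit 0x107870806861a) (nat_lit 0) (p (nat_lit 0x8000000000000070786058a) (nat_lit 0) (p (nat_lit 0x10787058502) (nat_lit 0) (p (nat_lit 0x10586850482) (nat_lit 0) (p (nat_lit 0x16000c) (nat_lit 0) (p (nat_lit 0x160004) (nat_lit 0) (p (nat_lit 0x68612) (nat_lit 0) (p (nat_lit 0x50592)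 (nat_lit 0) (p (nat_lit 0x40512) (nat_lit 0) (p (nat_lit 0x50312) (nat_lit 0) (p (nat_lit 0x38292) (nat_lit 0) (p (nat_lit 0x28212) (nat_lit 0) (p (nat_lit 0x38112) (nat_lit 0) (p (nat_lit 0x20092) (nat_lit 0) (p (nat_lit 0x10012) (nat_lit 0) pn))))))))))))))))))))))) :=
  Cl.node (nat_lit 0x3c4aa) (nat_lit 12) (by decide +kernel) (ClAll.succ (ClAll.succ (ClAll.succ (ClAll.succ (ClAll.succ (ClAll.succ (ClAll.succ (ClAll.succ (ClAll.succ (ClAll.succ (ClAll.succ (ClAll.succ ClAll.zero s849) s850) s851) s852) s853) s854) s855) n294) s862) s863) s864) s865)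

def n342 : Cl (O (nat_lit 4)) (R (nat_lit 14353))
    (p (nat_lit 0x109) (nat_lit 0) (p (nat_lit 0xc9) (nat_lit 1) (p (nat_lit 0x89) (nat_lit 1) (p (nat_lit 0x111) (nat_lit 1) (p (nat_lit 0xd1) (nat_lit 1) (p (nat_lit 0x81) (nat_lit 0) (p (nat_lit 0x41) (nat_lit 1) (p (nat_lit 0x108090887069a) (nat_lit 0) (p (nat_lit 0x107870806861a) (nat_lit 0) (p (nat_lit 0x8000000000000070786058a) (nat_lit 0) (p (nat_lit 0x10787058502) (nat_lit 0) (p (nat_lit 0x10586850482) (nat_lit 0) (p (nat_lit 0x16000c) (nat_lit 0) (p (nat_lit 0x160004) (nat_lit 0) (p (nat_lit 0x68612) (nat_lit 0) (p (nat_lit 0x50592) (nat_lit 0) (p (nat_lit 0x40512) (nat_lit 0) (p (nat_lit 0x50312) (nat_lit 0) (p (nat_lit 0x38292) (nat_lit 0) (p (nat_lit 0x28212) (nat_lit 0) (p (nat_lit 0x38112) (nat_lit 0) (p (nat_lit 0x20092) (nat_lit 0) (p (nat_lit 0x10012) (nat_lit 0) pn))))))))))))))))))))))) :=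
  Cl.node (nat_lit 0x3cc2a) (nat_lit 12) (by decide +kernel) (ClAll.succ (ClAll.succ (ClAll.succ (ClAll.succ (ClAll.succ (ClAll.succ (ClAll.succ (ClAll.succ (ClAll.succ (ClAll.succ (ClAll.succ (ClAll.succ ClAll.zero s868) s869) s870) s871) s872) s873) s874) s875) s876) s877) s878) s879)

def n343 : Cl (O (nat_lit 4)) (R (nat_lit 14353))
    (p (nat_lit 0x109) (nat_lit 1) (p (nat_lit 0xc9) (nat_lit 1) (p (nat_lit 0x89) (nat_lit 1) (p (nat_lit 0x111) (nat_lit 1) (p (nat_lit 0xd1) (nat_lit 1) (p (nat_lit 0x81) (nat_lit 0) (p (nat_lit 0x41) (nat_lit 1) (p (nat_lit 0x108090887069a) (nat_lit 0) (p (nat_lit 0x107870806861a) (nat_lit 0) (p (nat_lit 0x8000000000000070786058a) (nat_lit 0) (p (nat_lit 0x10787058502) (nat_lit 0) (p (nat_lit 0x10586850482) (nat_lit 0) (p (nat_lit 0x16000c) (nat_lit 0) (p (nat_lit 0x160004) (nat_lit 0) (p (nat_lit 0x68612) (nat_lit 0) (p (nat_lit 0x50592)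 (nat_lit 0) (p (nat_lit 0x40512) (nat_lit 0) (p (nat_lit 0x50312) (nat_lit 0) (p (nat_lit 0x38292) (nat_lit 0) (p (nat_lit 0x28212) (nat_lit 0) (p (nat_lit 0x38112) (nat_lit 0) (p (nat_lit 0x20092) (nat_lit 0) (p (nat_lit 0x10012) (nat_lit 0) pn))))))))))))))))))))))) :=
  Cl.node (nat_lit 0x3c4aa) (nat_lit 12) (by decide +kernel) (ClAll.succ (ClAll.succ (ClAll.succ (ClAll.succ (ClAll.succ (ClAll.succ (ClAll.succ (ClAll.succ (ClAll.succ (ClAll.succ (ClAll.succ (ClAll.succ ClAll.zero s880) s881) s882) s883) s884) s885) s886) s887) s888) s889) s890) s891)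

def n344 : Cl (O (nat_lit 4)) (R (nat_lit 14353))
    (p (nat_lit 0x111) (nat_lit 1) (p (nat_lit 0x109) (nat_lit 0) (p (nat_lit 0x101) (nat_lit 0) (p (nat_lit 0x119) (nat_lit 0) (p (nat_lit 0xc1) (nat_lit 0) (p (nat_lit 0x81) (nat_lit 1) (p (nat_lit 0x41) (nat_lit 1) (p (nat_lit 0x108090887069a) (nat_lit 0) (p (nat_lit 0x107870806861a) (nat_lit 0) (p (nat_lit 0x8000000000000070786058a) (nat_lit 0) (p (nat_lit 0x10787058502) (nat_lit 0) (p (nat_lit 0x10586850482) (nat_lit 0) (p (nat_lit 0x16000c) (nat_lit 0) (p (nat_lit 0x160004) (nat_lit 0) (p (nat_lit 0x68612) (nat_lit 0) (p (nat_lit 0x50592) (nat_lit 0) (p (nat_lit 0x40512) (nat_lit 0) (p (nat_lit 0x50312) (nat_lit 0) (p (nat_lit 0x38292) (nat_lit 0) (p (nat_lit 0x28212) (nat_lit 0) (p (nat_lit 0x38112) (nat_lit 0) (p (nat_lit 0x20092) (nat_lit 0) (p (nat_lit 0x10012) (nat_lit 0) pn))))))))))))))))))))))) :=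
  Cl.node (nat_lit 0xd1) (nat_lit 2) (by decide +kernel) (ClAll.succ (ClAll.succ ClAll.zero s893) n295)

def n345 : Cl (O (nat_lit 4)) (R (nat_lit 14353))
    (p (nat_lit 0xc9) (nat_lit 0) (p (nat_lit 0x109) (nat_lit 1) (p (nat_lit 0x101) (nat_lit 0) (p (nat_lit 0x119) (nat_lit 0) (p (nat_lit 0xc1) (nat_lit 0) (p (nat_lit 0x81) (nat_lit 1) (p (nat_lit 0x41) (nat_lit 1) (p (nat_lit 0x108090887069a) (nat_lit 0) (p (nat_lit 0x107870806861a) (nat_lit 0) (p (nat_lit 0x8000000000000070786058a) (nat_lit 0) (p (nat_lit 0x10787058502) (nat_lit 0) (p (nat_lit 0x10586850482) (nat_lit 0) (p (nat_lit 0x16000c) (nat_lit 0) (p (nat_lit 0x160004) (nat_lit 0) (p (nat_lit 0x68612) (nat_lit 0) (p (nat_lit 0x50592) (nat_lit 0) (p (nat_lit 0x40512) (nat_lit 0) (p (nat_lit 0x50312) (nat_lit 0) (p (nat_lit 0x38292) (nat_lit 0) (p (nat_lit 0x28212) (nat_lit 0) (p (nat_lit 0x38112) (nat_lit 0) (p (nat_lit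 0x20092) (nat_lit 0) (p (nat_lit 0x10012) (nat_lit 0) pn))))))))))))))))))))))) :=
  Cl.node (nat_lit 0xd1) (nat_lit 2) (by decide +kernel) (ClAll.succ (ClAll.succ ClAll.zero s940) n296)

def n346 : Cl (O (nat_lit 4)) (R (nat_lit 14353))
    (p (nat_lit 0xd1) (nat_lit 0) (p (nat_lit 0xc9) (nat_lit 0) (p (nat_lit 0x101) (nat_lit 1) (p (nat_lit 0x119) (nat_lit 0) (p (nat_lit 0xc1) (nat_lit 0) (p (nat_lit 0x81) (nat_lit 1) (p (nat_lit 0x41) (nat_lit 1) (p (nat_lit 0x108090887069a) (nat_lit 0) (p (nat_lit 0x107870806861a) (nat_lit 0) (p (nat_lit 0x8000000000000070786058a) (nat_lit 0) (p (nat_lit 0x10787058502) (nat_lit 0) (p (nat_lit 0x10586850482) (nat_lit 0) (p (nat_lit 0x16000c) (nat_lit 0) (p (nat_lit 0x160004) (nat_lit 0) (p (nat_lit 0x68612) (nat_lit 0) (p (nat_lit 0x50592) (nat_lit 0) (p (nat_lit 0x40512) (nat_lit 0) (p (nat_lit 0x50312) (nat_lit 0) (p (nat_lit 0x38292) (nat_lit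 0) (p (nat_lit 0x28212) (nat_lit 0) (p (nat_lit 0x38112) (nat_lit 0) (p (nat_lit 0x20092) (nat_lit 0) (p (nat_lit 0x10012) (nat_lit 0) pn))))))))))))))))))))))) :=
  Cl.node (nat_lit 0x44c2a) (nat_lit 12) (by decide +kernel) (ClAll.succ (ClAll.succ (ClAll.succ (ClAll.succ (ClAll.succ (ClAll.succ (ClAll.succ (ClAll.succ (ClAll.succ (ClAll.succ (ClAll.succ (ClAll.succ ClAll.zero s958) s959) n297) s962) s963) s964) s965) s966) s967) s968) s969) s970)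

def n347 : Cl (O (nat_lit 4)) (R (nat_lit 14353))
    (p (nat_lit 0xd1) (nat_lit 1) (p (nat_lit 0xc9) (nat_lit 0) (p (nat_lit 0x101) (nat_lit 1) (p (nat_lit 0x119) (nat_lit 0) (p (nat_lit 0xc1) (nat_lit 0) (p (nat_lit 0x81) (nat_lit 1) (p (nat_lit 0x41) (nat_lit 1) (p (nat_lit 0x108090887069a) (nat_lit 0) (p (nat_lit 0x107870806861a) (nat_lit 0) (p (nat_lit 0x8000000000000070786058a) (nat_lit 0) (p (nat_lit 0x10787058502) (nat_lit 0) (p (nat_lit 0x10586850482) (nat_lit 0) (p (nat_lit 0x16000c) (nat_lit 0) (p (nat_lit 0x160004) (nat_lit 0) (p (nat_lit 0x68612) (nat_lit 0) (p (nat_lit 0x50592) (nat_lit 0) (p (nat_lit 0x40512) (nat_lit 0) (p (nat_lit 0x50312) (nat_lit 0) (p (nat_lit 0x38292) (nat_lit 0) (p (nat_lit 0x28212) (nat_lit 0) (p (nat_lit 0x38112) (nat_lit 0) (p (nat_lit 0x20092) (nat_lit 0) (p (nat_lit 0x10012) (nat_lit 0) pn))))))))))))))))))))))) :=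
  Cl.node (nat_lit 0x3c4aa) (nat_lit 12) (by decide +kernel) (ClAll.succ (ClAll.succ (ClAll.succ (ClAll.succ (ClAll.succ (ClAll.succ (ClAll.succ (ClAll.succ (ClAll.succ (ClAll.succ (ClAll.succ (ClAll.succ ClAll.zero s971) s972) s973) s974) s975) s976) s977) n298) s1001) s1002) s1003) s1004)

def n348 : Cl (O (nat_lit 4)) (R (nat_lit 14353))
    (p (nat_lit 0x111) (nat_lit 1) (p (nat_lit 0xd1) (nat_lit 1) (p (nat_lit 0xc9) (nat_lit 0) (p (nat_lit 0x119) (nat_lit 1) (p (nat_lit 0xc1) (nat_lit 0) (p (nat_lit 0x81) (nat_lit 1) (p (nat_lit 0x41) (nat_lit 1) (p (nat_lit 0x108090887069a) (nat_lit 0) (p (nat_lit 0x107870806861a) (nat_lit 0) (p (nat_lit 0x8000000000000070786058a) (nat_lit 0) (p (nat_lit 0x10787058502) (nat_lit 0) (p (nat_lit 0x10586850482) (nat_lit 0) (p (nat_lit 0x16000c) (nat_lit 0) (p (nat_lit 0x160004) (nat_lit 0) (p (nat_lit 0x68612) (nat_lit 0) (p (nat_lit 0x50592)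 (nat_lit 0) (p (nat_lit 0x40512) (nat_lit 0) (p (nat_lit 0x50312) (nat_lit 0) (p (nat_lit 0x38292) (nat_lit 0) (p (nat_lit 0x28212) (nat_lit 0) (p (nat_lit 0x38112) (nat_lit 0) (p (nat_lit 0x20092) (nat_lit 0) (p (nat_lit 0x10012) (nat_lit 0) pn))))))))))))))))))))))) :=
  Cl.node (nat_lit 0x3c4aa) (nat_lit 12) (by decide +kernel) (ClAll.succ (ClAll.succ (ClAll.succ (ClAll.succ (ClAll.succ (ClAll.succ (ClAll.succ (ClAll.succ (ClAll.succ (ClAll.succ (ClAll.succ (ClAll.succ ClAll.zero s1008) s1009) s1010) s1011) s1012) s1013) s1014) n299) s1044) s1045) n300) s1049)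

def n349 : Cl (O (nat_lit 4)) (R (nat_lit 14353))
    (p (nat_lit 0x111) (nat_lit 0) (p (nat_lit 0x109) (nat_lit 0) (p (nat_lit 0xc9) (nat_lit 1) (p (nat_lit 0x119) (nat_lit 1) (p (nat_lit 0xc1) (nat_lit 0) (p (nat_lit 0x81) (nat_lit 1) (p (nat_lit 0x41) (nat_lit 1) (p (nat_lit 0x108090887069a) (nat_lit 0) (p (nat_lit 0x107870806861a) (nat_lit 0) (p (nat_lit 0x8000000000000070786058a) (nat_lit 0) (p (nat_lit 0x10787058502) (nat_lit 0) (p (nat_lit 0x10586850482) (nat_lit 0) (p (nat_lit 0x16000c) (nat_lit 0) (p (nat_lit 0x160004) (nat_lit 0) (p (nat_lit 0x68612) (nat_lit 0) (p (nat_lit 0x50592) (nat_lit 0) (p (nat_lit 0x40512) (nat_lit 0) (p (nat_lit 0x50312) (nat_lit 0) (p (nat_lit 0x38292) (nat_lit 0) (p (nat_lit 0x28212) (nat_lit 0) (p (nat_lit 0x38112) (nat_lit 0) (p (nat_lit 0x20092) (nat_lit 0) (p (nat_lit 0x10012) (nat_lit 0) pn))))))))))))))))))))))) :=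
  Cl.node (nat_lit 0x101) (nat_lit 2) (by decide +kernel) (ClAll.succ (ClAll.succ ClAll.zero n301) n302)

def n350 : Cl (O (nat_lit 4)) (R (nat_lit 14353))
    (p (nat_lit 0x111) (nat_lit 1) (p (nat_lit 0x109) (nat_lit 0) (p (nat_lit 0xc9) (nat_lit 1) (p (nat_lit 0x119) (nat_lit 1) (p (nat_lit 0xc1) (nat_lit 0) (p (nat_lit 0x81) (nat_lit 1) (p (nat_lit 0x41) (nat_lit 1) (p (nat_lit 0x108090887069a) (nat_lit 0) (p (nat_lit 0x107870806861a) (nat_lit 0) (p (nat_lit 0x8000000000000070786058a) (nat_lit 0) (p (nat_lit 0x10787058502) (nat_lit 0) (p (nat_lit 0x10586850482) (nat_lit 0) (p (nat_lit 0x16000c) (nat_lit 0) (p (nat_lit 0x160004) (nat_lit 0) (p (nat_lit 0x68612) (nat_lit 0) (p (nat_lit 0x50592) (nat_lit 0) (p (nat_lit 0x40512) (nat_lit 0) (p (nat_lit 0x50312) (nat_lit 0) (p (nat_lit 0x38292) (nat_lit 0) (p (nat_lit 0x28212) (nat_lit 0) (p (nat_lit 0x38112) (nat_lit 0) (p (nat_lit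 0x20092) (nat_lit 0) (p (nat_lit 0x10012) (nat_lit 0) pn))))))))))))))))))))))) :=
  Cl.node (nat_lit 0x3c4aa) (nat_lit 12) (by decide +kernel) (ClAll.succ (ClAll.succ (ClAll.succ (ClAll.succ (ClAll.succ (ClAll.succ (ClAll.succ (ClAll.succ (ClAll.succ (ClAll.succ (ClAll.succ (ClAll.succ ClAll.zero s1091) s1092) s1093) s1094) s1095) s1096) s1097) n303) s1107) s1108) n304) s1111)

def n351 : Cl (O (nat_lit 4)) (R (nat_lit 14353))
    (p (nat_lit 0x3c4aa) (nat_lit 7) (p (nat_lit 0x111) (nat_lit 1) (p (nat_lit 0x109) (nat_lit 0) (p (nat_lit 0x101) (nat_lit 0) (p (nat_lit 0xc1) (nat_lit 1) (p (nat_lit 0x81) (nat_lit 1) (p (nat_lit 0x41) (nat_lit 1) (p (nat_lit 0x108090887069a) (nat_lit 0) (p (nat_lit 0x107870806861a) (nat_lit 0) (p (nat_lit 0x8000000000000070786058a) (nat_lit 0) (p (nat_lit 0x10787058502) (nat_lit 0) (p (nat_lit 0x10586850482) (nat_lit 0) (p (nat_lit 0x16000c) (nat_lit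 0) (p (nat_lit 0x160004) (nat_lit 0) (p (nat_lit 0x68612) (nat_lit 0) (p (nat_lit 0x50592) (nat_lit 0) (p (nat_lit 0x40512) (nat_lit 0) (p (nat_lit 0x50312) (nat_lit 0) (p (nat_lit 0x38292) (nat_lit 0) (p (nat_lit 0x28212) (nat_lit 0) (p (nat_lit 0x38112) (nat_lit 0) (p (nat_lit 0x20092) (nat_lit 0) (p (nat_lit 0x10012) (nat_lit 0) pn))))))))))))))))))))))) :=
  Cl.node (nat_lit 0x380c2) (nat_lit 2) (by decide +kernel) (ClAll.succ (ClAll.succ ClAll.zero s1121) s1122)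

def n352 : Cl (O (nat_lit 4)) (R (nat_lit 14353))
    (p (nat_lit 0x109) (nat_lit 1) (p (nat_lit 0x101) (nat_lit 0) (p (nat_lit 0x119) (nat_lit 0) (p (nat_lit 0xd1) (nat_lit 0) (p (nat_lit 0x89) (nat_lit 0) (p (nat_lit 0x41) (nat_lit 0) (p (nat_lit 0x108090887069a) (nat_lit 0) (p (nat_lit 0x107870806861a) (nat_lit 0) (p (nat_lit 0x8000000000000070786058a) (nat_lit 0) (p (nat_lit 0x10787058502) (nat_lit 0) (p (nat_lit 0x10586850482) (nat_lit 0) (p (nat_lit 0x16000c) (nat_lit 0) (p (nat_lit 0x160004) (nat_lit 0) (p (nat_lit 0x68612) (nat_lit 0) (p (nat_lit 0x50592) (nat_lit 0) (p (nat_lit 0x40512) (nat_lit 0) (p (nat_lit 0x50312) (nat_lit 0) (p (nat_lit 0x38292) (nat_lit 0) (p (nat_lit 0x28212) (nat_lit 0) (p (nat_lit 0x38112) (nat_lit 0) (p (nat_lit 0x20092) (nat_lit 0) (p (nat_lit 0x10012) (nat_lit 0) pn)))))))))))))))))))))) :=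
  Cl.node (nat_lit 0xc9) (nat_lit 2) (by decide +kernel) (ClAll.succ (ClAll.succ ClAll.zero s1) n305)

def n353 : Cl (O (nat_lit 4)) (R (nat_lit 14353))
    (p (nat_lit 0x81) (nat_lit 0) (p (nat_lit 0x101) (nat_lit 1) (p (nat_lit 0x119) (nat_lit 0) (p (nat_lit 0xd1) (nat_lit 0) (p (nat_lit 0x89) (nat_lit 0) (p (nat_lit 0x41) (nat_lit 0) (p (nat_lit 0x108090887069a) (nat_lit 0) (p (nat_lit 0x107870806861a) (nat_lit 0) (p (nat_lit 0x8000000000000070786058a) (nat_lit 0) (p (nat_lit 0x10787058502) (nat_lit 0) (p (nat_lit 0x10586850482) (nat_lit 0) (p (nat_lit 0x16000c) (nat_lit 0) (p (nat_lit 0x160004) (nat_lit 0) (p (nat_lit 0x68612) (nat_lit 0) (p (nat_lit 0x50592) (nat_lit 0) (p (nat_lit 0x40512) (nat_lit 0) (p (nat_lit 0x50312) (nat_lit 0) (p (nat_lit 0x38292) (nat_lit 0) (p (nat_lit 0x28212) (nat_lit 0) (p (nat_lit 0x38112) (nat_lit 0) (p (nat_lit 0x20092) (nat_lit 0) (p (nat_lit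 0x10012) (nat_lit 0) pn)))))))))))))))))))))) :=
  Cl.node (nat_lit 0xc9) (nat_lit 2) (by decide +kernel) (ClAll.succ (ClAll.succ ClAll.zero n306) n307)

def n354 : Cl (O (nat_lit 4)) (R (nat_lit 14353))
    (p (nat_lit 0x81) (nat_lit 1) (p (nat_lit 0x101) (nat_lit 1) (p (nat_lit 0x119) (nat_lit 0) (p (nat_lit 0xd1) (nat_lit 0) (p (nat_lit 0x89) (nat_lit 0) (p (nat_lit 0x41) (nat_lit 0) (p (nat_lit 0x108090887069a) (nat_lit 0) (p (nat_lit 0x107870806861a) (nat_lit 0) (p (nat_lit 0x8000000000000070786058a) (nat_lit 0) (p (nat_lit 0x10787058502) (nat_lit 0) (p (nat_lit 0x10586850482) (nat_lit 0) (p (nat_lit 0x16000c) (nat_lit 0) (p (nat_lit 0x160004) (nat_lit 0) (p (nat_lit 0x68612) (nat_lit 0) (p (nat_lit 0x50592) (nat_lit 0) (p (nat_lit 0x40512) (nat_lit 0) (p (nat_lit 0x50312) (nat_lit 0) (p (nat_lit 0x38292) (nat_lit 0) (p (nat_lit 0x28212) (nat_lit 0) (p (nat_lit 0x38112)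 (nat_lit 0) (p (nat_lit 0x20092) (nat_lit 0) (p (nat_lit 0x10012) (nat_lit 0) pn)))))))))))))))))))))) :=
  Cl.node (nat_lit 0xc1) (nat_lit 2) (by decide +kernel) (ClAll.succ (ClAll.succ ClAll.zero n308) s82)

def n355 : Cl (O (nat_lit 4)) (R (nat_lit 14353))
    (p (nat_lit 0xc9) (nat_lit 1) (p (nat_lit 0xc1) (nat_lit 0) (p (nat_lit 0x119) (nat_lit 1) (p (nat_lit 0xd1) (nat_lit 0) (p (nat_lit 0x89) (nat_lit 0) (p (nat_lit 0x41) (nat_lit 0) (p (nat_lit 0x108090887069a) (nat_lit 0) (p (nat_lit 0x107870806861a) (nat_lit 0) (p (nat_lit 0x8000000000000070786058a) (nat_lit 0) (p (nat_lit 0x10787058502) (nat_lit 0) (p (nat_lit 0x10586850482) (nat_lit 0) (p (nat_lit 0x16000c) (nat_lit 0) (p (nat_lit 0x160004) (nat_lit 0) (p (nat_lit 0x68612) (nat_lit 0) (p (nat_lit 0x50592) (nat_lit 0) (p (nat_lit 0x40512) (nat_lit 0) (p (nat_lit 0x50312) (nat_lit 0) (p (nat_lit 0x38292) (nat_lit 0)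 (p (nat_lit 0x28212) (nat_lit 0) (p (nat_lit 0x38112) (nat_lit 0) (p (nat_lit 0x20092) (nat_lit 0) (p (nat_lit 0x10012) (nat_lit 0) pn)))))))))))))))))))))) :=
  Cl.node (nat_lit 0x109) (nat_lit 2) (by decide +kernel) (ClAll.succ (ClAll.succ ClAll.zero s84) n309)

def n356 : Cl (O (nat_lit 4)) (R (nat_lit 14353))
    (p (nat_lit 0x81) (nat_lit 0) (p (nat_lit 0xc1) (nat_lit 1) (p (nat_lit 0x119) (nat_lit 1) (p (nat_lit 0xd1) (nat_lit 0) (p (nat_lit 0x89) (nat_lit 0) (p (nat_lit 0x41) (nat_lit 0) (p (nat_lit 0x108090887069a) (nat_lit 0) (p (nat_lit 0x107870806861a) (nat_lit 0) (p (nat_lit 0x8000000000000070786058a) (nat_lit 0) (p (nat_lit 0x10787058502) (nat_lit 0) (p (nat_lit 0x10586850482) (nat_lit 0) (p (nat_lit 0x16000c) (nat_lit 0) (p (nat_lit 0x160004) (nat_lit 0) (p (nat_lit 0x68612) (nat_lit 0) (p (nat_lit 0x50592) (nat_lit 0) (p (nat_lit 0x40512) (nat_lit 0) (p (nat_lit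 0x50312) (nat_lit 0) (p (nat_lit 0x38292) (nat_lit 0) (p (nat_lit 0x28212) (nat_lit 0) (p (nat_lit 0x38112) (nat_lit 0) (p (nat_lit 0x20092) (nat_lit 0) (p (nat_lit 0x10012) (nat_lit 0) pn)))))))))))))))))))))) :=
  Cl.node (nat_lit 0x109) (nat_lit 2) (by decide +kernel) (ClAll.succ (ClAll.succ ClAll.zero s124) n310)

def n357 : Cl (O (nat_lit 4)) (R (nat_lit 14353))
    (p (nat_lit 0x81) (nat_lit 1) (p (nat_lit 0xc1) (nat_lit 1) (p (nat_lit 0x119) (nat_lit 1) (p (nat_lit 0xd1) (nat_lit 0) (p (nat_lit 0x89) (nat_lit 0) (p (nat_lit 0x41) (nat_lit 0) (p (nat_lit 0x108090887069a) (nat_lit 0) (p (nat_lit 0x107870806861a) (nat_lit 0) (p (nat_lit 0x8000000000000070786058a) (nat_lit 0) (p (nat_lit 0x10787058502) (nat_lit 0) (p (nat_lit 0x10586850482) (nat_lit 0) (p (nat_lit 0x16000c) (nat_lit 0) (p (nat_lit 0x160004) (nat_lit 0) (p (nat_lit 0x68612) (nat_lit 0) (p (nat_lit 0x50592)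 (nat_lit 0) (p (nat_lit 0x40512) (nat_lit 0) (p (nat_lit 0x50312) (nat_lit 0) (p (nat_lit 0x38292) (nat_lit 0) (p (nat_lit 0x28212) (nat_lit 0) (p (nat_lit 0x38112) (nat_lit 0) (p (nat_lit 0x20092) (nat_lit 0) (p (nat_lit 0x10012) (nat_lit 0) pn)))))))))))))))))))))) :=
  Cl.node (nat_lit 0x101) (nat_lit 2) (by decide +kernel) (ClAll.succ (ClAll.succ ClAll.zero n311) n312)

def n358 : Cl (O (nat_lit 4)) (R (nat_lit 14353))
    (p (nat_lit 0x109) (nat_lit 1) (p (nat_lit 0x101) (nat_lit 0) (p (nat_lit 0x111) (nat_lit 0) (p (nat_lit 0xd1) (nat_lit 1) (p (nat_lit 0x89) (nat_lit 0) (p (nat_lit 0x41) (nat_lit 0) (p (nat_lit 0x108090887069a) (nat_lit 0) (p (nat_lit 0x107870806861a) (nat_lit 0) (p (nat_lit 0x8000000000000070786058a) (nat_lit 0) (p (nat_lit 0x10787058502) (nat_lit 0) (p (nat_lit 0x10586850482) (nat_lit 0) (p (nat_lit 0x16000c) (nat_lit 0) (p (nat_lit 0x160004) (nat_lit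 0) (p (nat_lit 0x68612) (nat_lit 0) (p (nat_lit 0x50592) (nat_lit 0) (p (nat_lit 0x40512) (nat_lit 0) (p (nat_lit 0x50312) (nat_lit 0) (p (nat_lit 0x38292) (nat_lit 0) (p (nat_lit 0x28212) (nat_lit 0) (p (nat_lit 0x38112) (nat_lit 0) (p (nat_lit 0x20092) (nat_lit 0) (p (nat_lit 0x10012) (nat_lit 0) pn)))))))))))))))))))))) :=
  Cl.node (nat_lit 0xc1) (nat_lit 2) (by decide +kernel) (ClAll.succ (ClAll.succ ClAll.zero n313) n314)

def n359 : Cl (O (nat_lit 4)) (R (nat_lit 14353))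
    (p (nat_lit 0x81) (nat_lit 0) (p (nat_lit 0x101) (nat_lit 1) (p (nat_lit 0x111) (nat_lit 0) (p (nat_lit 0xd1) (nat_lit 1) (p (nat_lit 0x89) (nat_lit 0) (p (nat_lit 0x41) (nat_lit 0) (p (nat_lit 0x108090887069a) (nat_lit 0) (p (nat_lit 0x107870806861a) (nat_lit 0) (p (nat_lit 0x8000000000000070786058a) (nat_lit 0) (p (nat_lit 0x10787058502) (nat_lit 0) (p (nat_lit 0x10586850482) (nat_lit 0) (p (nat_lit 0x16000c) (nat_lit 0) (p (nat_lit 0x160004) (nat_lit 0) (p (nat_lit 0x68612) (nat_lit 0) (p (nat_lit 0x50592) (nat_lit 0) (p (nat_lit 0x40512) (nat_lit 0) (p (nat_lit 0x50312) (nat_lit 0) (p (nat_lit 0x38292) (nat_lit 0) (p (nat_lit 0x28212) (nat_lit 0) (p (nat_lit 0x38112) (nat_lit 0) (p (nat_lit 0x20092) (nat_lit 0) (p (nat_lit 0x10012) (nat_lit 0) pn)))))))))))))))))))))) :=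
  Cl.node (nat_lit 0x119) (nat_lit 2) (by decide +kernel) (ClAll.succ (ClAll.succ ClAll.zero n315) n316)

def n360 : Cl (O (nat_lit 4)) (R (nat_lit 14353))
    (p (nat_lit 0x81) (nat_lit 1) (p (nat_lit 0x101) (nat_lit 1) (p (nat_lit 0x111) (nat_lit 0) (p (nat_lit 0xd1) (nat_lit 1) (p (nat_lit 0x89) (nat_lit 0) (p (nat_lit 0x41) (nat_lit 0) (p (nat_lit 0x108090887069a) (nat_lit 0) (p (nat_lit 0x107870806861a) (nat_lit 0) (p (nat_lit 0x8000000000000070786058a) (nat_lit 0) (p (nat_lit 0x10787058502) (nat_lit 0) (p (nat_lit 0x10586850482) (nat_lit 0) (p (nat_lit 0x16000c) (nat_lit 0) (p (nat_lit 0x160004) (nat_lit 0) (p (nat_lit 0x68612) (nat_lit 0) (p (nat_lit 0x50592) (nat_lit 0) (p (nat_lit 0x40512) (nat_lit 0) (p (nat_lit 0x50312) (nat_lit 0) (p (nat_lit 0x38292) (nat_lit 0) (p (nat_lit 0x28212) (nat_lit 0) (p (nat_lit 0x38112) (nat_lit 0) (p (nat_lit 0x20092) (nat_lit 0) (p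 (nat_lit 0x10012) (nat_lit 0) pn)))))))))))))))))))))) :=
  Cl.node (nat_lit 0xc1) (nat_lit 2) (by decide +kernel) (ClAll.succ (ClAll.succ ClAll.zero n317) n318)

def n361 : Cl (O (nat_lit 4)) (R (nat_lit 14353))
    (p (nat_lit 0xc1) (nat_lit 1) (p (nat_lit 0x81) (nat_lit 1) (p (nat_lit 0x111) (nat_lit 1) (p (nat_lit 0xd1) (nat_lit 1) (p (nat_lit 0x89) (nat_lit 0) (p (nat_lit 0x41) (nat_lit 0) (p (nat_lit 0x108090887069a) (nat_lit 0) (p (nat_lit 0x107870806861a) (nat_lit 0) (p (nat_lit 0x8000000000000070786058a) (nat_lit 0) (p (nat_lit 0x10787058502) (nat_lit 0) (p (nat_lit 0x10586850482) (nat_lit 0) (p (nat_lit 0x16000c) (nat_lit 0) (p (nat_lit 0x160004) (nat_lit 0) (p (nat_lit 0x68612) (nat_lit 0) (p (nat_lit 0x50592) (nat_lit 0) (p (nat_lit 0x40512) (nat_lit 0) (p (nat_lit 0x50312) (nat_lit 0) (p (nat_lit 0x38292) (nat_lit 0) (p (nat_lit 0x28212) (nat_lit 0) (p (nat_lit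 0x38112) (nat_lit 0) (p (nat_lit 0x20092) (nat_lit 0) (p (nat_lit 0x10012) (nat_lit 0) pn)))))))))))))))))))))) :=
  Cl.node (nat_lit 0x101) (nat_lit 2) (by decide +kernel) (ClAll.succ (ClAll.succ ClAll.zero n319) n320)

def n362 : Cl (O (nat_lit 4)) (R (nat_lit 14353))
    (p (nat_lit 0x109) (nat_lit 0) (p (nat_lit 0x101) (nat_lit 0) (p (nat_lit 0x119) (nat_lit 0) (p (nat_lit 0xc9) (nat_lit 0) (p (nat_lit 0x89) (nat_lit 1) (p (nat_lit 0x41) (nat_lit 0) (p (nat_lit 0x108090887069a) (nat_lit 0) (p (nat_lit 0x107870806861a) (nat_lit 0) (p (nat_lit 0x8000000000000070786058a) (nat_lit 0) (p (nat_lit 0x10787058502) (nat_lit 0) (p (nat_lit 0x10586850482) (nat_lit 0) (p (nat_lit 0x16000c) (nat_lit 0) (p (nat_lit 0x160004) (nat_lit 0) (p (nat_lit 0x68612) (nat_lit 0) (p (nat_lit 0x50592) (nat_lit 0) (p (nat_lit 0x40512) (nat_lit 0) (p (nat_lit 0x50312) (nat_lit 0) (p (nat_lit 0x38292)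 (nat_lit 0) (p (nat_lit 0x28212) (nat_lit 0) (p (nat_lit 0x38112) (nat_lit 0) (p (nat_lit 0x20092) (nat_lit 0) (p (nat_lit 0x10012) (nat_lit 0) pn)))))))))))))))))))))) :=
  Cl.node (nat_lit 0x111) (nat_lit 2) (by decide +kernel) (ClAll.succ (ClAll.succ ClAll.zero s343) n321)

def n363 : Cl (O (nat_lit 4)) (R (nat_lit 14353))
    (p (nat_lit 0x109) (nat_lit 1) (p (nat_lit 0x101) (nat_lit 0) (p (nat_lit 0x119) (nat_lit 0) (p (nat_lit 0xc9) (nat_lit 0) (p (nat_lit 0x89) (nat_lit 1) (p (nat_lit 0x41) (nat_lit 0) (p (nat_lit 0x108090887069a) (nat_lit 0) (p (nat_lit 0x107870806861a) (nat_lit 0) (p (nat_lit 0x8000000000000070786058a) (nat_lit 0) (p (nat_lit 0x10787058502) (nat_lit 0) (p (nat_lit 0x10586850482) (nat_lit 0) (p (nat_lit 0x16000c) (nat_lit 0) (p (nat_lit 0x160004) (nat_lit 0) (p (nat_lit 0x68612) (nat_lit 0) (p (nat_lit 0x50592) (nat_lit 0) (p (nat_lit 0x40512) (nat_lit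 0) (p (nat_lit 0x50312) (nat_lit 0) (p (nat_lit 0x38292) (nat_lit 0) (p (nat_lit 0x28212) (nat_lit 0) (p (nat_lit 0x38112) (nat_lit 0) (p (nat_lit 0x20092) (nat_lit 0) (p (nat_lit 0x10012) (nat_lit 0) pn)))))))))))))))))))))) :=
  Cl.node (nat_lit 0xd1) (nat_lit 2) (by decide +kernel) (ClAll.succ (ClAll.succ ClAll.zero n322) n323)

def n364 : Cl (O (nat_lit 4)) (R (nat_lit 14353))
    (p (nat_lit 0xc1) (nat_lit 0) (p (nat_lit 0x101) (nat_lit 1) (p (nat_lit 0x119) (nat_lit 0) (p (nat_lit 0xc9) (nat_lit 0) (p (nat_lit 0x89) (nat_lit 1) (p (nat_lit 0x41) (nat_lit 0) (p (nat_lit 0x108090887069a) (nat_lit 0) (p (nat_lit 0x107870806861a) (nat_lit 0) (p (nat_lit 0x8000000000000070786058a) (nat_lit 0) (p (nat_lit 0x10787058502) (nat_lit 0) (p (nat_lit 0x10586850482) (nat_lit 0) (p (nat_lit 0x16000c) (nat_lit 0) (p (nat_lit 0x160004) (nat_lit 0) (p (nat_lit 0x68612) (nat_lit 0) (p (nat_lit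 0x50592) (nat_lit 0) (p (nat_lit 0x40512) (nat_lit 0) (p (nat_lit 0x50312) (nat_lit 0) (p (nat_lit 0x38292) (nat_lit 0) (p (nat_lit 0x28212) (nat_lit 0) (p (nat_lit 0x38112) (nat_lit 0) (p (nat_lit 0x20092) (nat_lit 0) (p (nat_lit 0x10012) (nat_lit 0) pn)))))))))))))))))))))) :=
  Cl.node (nat_lit 0xd1) (nat_lit 2) (by decide +kernel) (ClAll.succ (ClAll.succ ClAll.zero n324) n325)

def n365 : Cl (O (nat_lit 4)) (R (nat_lit 14353))
    (p (nat_lit 0xd1) (nat_lit 1) (p (nat_lit 0xc1) (nat_lit 0) (p (nat_lit 0x119) (nat_lit 1) (p (nat_lit 0xc9) (nat_lit 0) (p (nat_lit 0x89) (nat_lit 1) (p (nat_lit 0x41) (nat_lit 0) (p (nat_lit 0x108090887069a) (nat_lit 0) (p (nat_lit 0x107870806861a) (nat_lit 0) (p (nat_lit 0x8000000000000070786058a) (nat_lit 0) (p (nat_lit 0x10787058502) (nat_lit 0) (p (nat_lit 0x10586850482) (nat_lit 0) (p (nat_lit 0x16000c) (nat_lit 0) (p (nat_lit 0x160004)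 (nat_lit 0) (p (nat_lit 0x68612) (nat_lit 0) (p (nat_lit 0x50592) (nat_lit 0) (p (nat_lit 0x40512) (nat_lit 0) (p (nat_lit 0x50312) (nat_lit 0) (p (nat_lit 0x38292) (nat_lit 0) (p (nat_lit 0x28212) (nat_lit 0) (p (nat_lit 0x38112) (nat_lit 0) (p (nat_lit 0x20092) (nat_lit 0) (p (nat_lit 0x10012) (nat_lit 0) pn)))))))))))))))))))))) :=
  Cl.node (nat_lit 0x111) (nat_lit 2) (by decide +kernel) (ClAll.succ (ClAll.succ ClAll.zero s444) n326)

def n366 : Cl (O (nat_lit 4)) (R (nat_lit 14353))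
    (p (nat_lit 0x101) (nat_lit 0) (p (nat_lit 0xc1) (nat_lit 1) (p (nat_lit 0x119) (nat_lit 1) (p (nat_lit 0xc9) (nat_lit 0) (p (nat_lit 0x89) (nat_lit 1) (p (nat_lit 0x41) (nat_lit 0) (p (nat_lit 0x108090887069a) (nat_lit 0) (p (nat_lit 0x107870806861a) (nat_lit 0) (p (nat_lit 0x8000000000000070786058a) (nat_lit 0) (p (nat_lit 0x10787058502) (nat_lit 0) (p (nat_lit 0x10586850482) (nat_lit 0) (p (nat_lit 0x16000c) (nat_lit 0) (p (nat_lit 0x160004) (nat_lit 0) (p (nat_lit 0x68612) (nat_lit 0) (p (nat_lit 0x50592) (nat_lit 0) (p (nat_lit 0x40512) (nat_lit 0) (p (nat_lit 0x50312) (nat_lit 0) (p (nat_lit 0x38292) (nat_lit 0) (p (nat_lit 0x28212) (nat_lit 0) (p (nat_lit 0x38112) (nat_lit 0) (p (nat_lit 0x20092) (nat_lit 0) (p (nat_lit 0x10012) (nat_lit 0) pn)))))))))))))))))))))) :=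
  Cl.node (nat_lit 0x111) (nat_lit 2) (by decide +kernel) (ClAll.succ (ClAll.succ ClAll.zero n327) n328)

def n367 : Cl (O (nat_lit 4)) (R (nat_lit 14353))
    (p (nat_lit 0x111) (nat_lit 0) (p (nat_lit 0x101) (nat_lit 0) (p (nat_lit 0x109) (nat_lit 0) (p (nat_lit 0xc9) (nat_lit 1) (p (nat_lit 0x89) (nat_lit 1) (p (nat_lit 0x41) (nat_lit 0) (p (nat_lit 0x108090887069a) (nat_lit 0) (p (nat_lit 0x107870806861a) (nat_lit 0) (p (nat_lit 0x8000000000000070786058a) (nat_lit 0) (p (nat_lit 0x10787058502) (nat_lit 0) (p (nat_lit 0x10586850482) (nat_lit 0) (p (nat_lit 0x16000c) (nat_lit 0) (p (nat_lit 0x160004) (nat_lit 0) (p (nat_lit 0x68612) (nat_lit 0) (p (nat_lit 0x50592) (nat_lit 0) (p (nat_lit 0x40512) (nat_lit 0) (p (nat_lit 0x50312) (nat_lit 0) (p (nat_lit 0x38292) (nat_lit 0) (p (nat_lit 0x28212) (nat_lit 0) (p (nat_lit 0x38112) (nat_lit 0) (p (nat_lit 0x20092) (nat_lit 0) (p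 (nat_lit 0x10012) (nat_lit 0) pn)))))))))))))))))))))) :=
  Cl.node (nat_lit 0x119) (nat_lit 2) (by decide +kernel) (ClAll.succ (ClAll.succ ClAll.zero s518) n329)

def n368 : Cl (O (nat_lit 4)) (R (nat_lit 14353))
    (p (nat_lit 0x109) (nat_lit 1) (p (nat_lit 0x101) (nat_lit 0) (p (nat_lit 0x119) (nat_lit 0) (p (nat_lit 0xd1) (nat_lit 0) (p (nat_lit 0x81) (nat_lit 0) (p (nat_lit 0x41) (nat_lit 1) (p (nat_lit 0x108090887069a) (nat_lit 0) (p (nat_lit 0x107870806861a) (nat_lit 0) (p (nat_lit 0x8000000000000070786058a) (nat_lit 0) (p (nat_lit 0x10787058502) (nat_lit 0) (p (nat_lit 0x10586850482) (nat_lit 0) (p (nat_lit 0x16000c) (nat_lit 0) (p (nat_lit 0x160004) (nat_lit 0) (p (nat_lit 0x68612) (nat_lit 0) (p (nat_lit 0x50592) (nat_lit 0) (p (nat_lit 0x40512) (nat_lit 0) (p (nat_lit 0x50312) (nat_lit 0) (p (nat_lit 0x38292) (nat_lit 0) (p (nat_lit 0x28212) (nat_lit 0) (p (nat_lit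 0x38112) (nat_lit 0) (p (nat_lit 0x20092) (nat_lit 0) (p (nat_lit 0x10012) (nat_lit 0) pn)))))))))))))))))))))) :=
  Cl.node (nat_lit 0x89) (nat_lit 2) (by decide +kernel) (ClAll.succ (ClAll.succ ClAll.zero n330) n331)

def n369 : Cl (O (nat_lit 4)) (R (nat_lit 14353))
    (p (nat_lit 0xc1) (nat_lit 0) (p (nat_lit 0x101) (nat_lit 1) (p (nat_lit 0x119) (nat_lit 0) (p (nat_lit 0xd1) (nat_lit 0) (p (nat_lit 0x81) (nat_lit 0) (p (nat_lit 0x41) (nat_lit 1) (p (nat_lit 0x108090887069a) (nat_lit 0) (p (nat_lit 0x107870806861a) (nat_lit 0) (p (nat_lit 0x8000000000000070786058a) (nat_lit 0) (p (nat_lit 0x10787058502) (nat_lit 0) (p (nat_lit 0x10586850482) (nat_lit 0) (p (nat_lit 0x16000c) (nat_lit 0) (p (nat_lit 0x160004) (nat_lit 0) (p (nat_lit 0x68612) (nat_lit 0) (p (nat_lit 0x50592) (nat_lit 0) (p (nat_lit 0x40512) (nat_lit 0) (p (nat_lit 0x50312) (nat_lit 0) (p (nat_lit 0x38292)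 (nat_lit 0) (p (nat_lit 0x28212) (nat_lit 0) (p (nat_lit 0x38112) (nat_lit 0) (p (nat_lit 0x20092) (nat_lit 0) (p (nat_lit 0x10012) (nat_lit 0) pn)))))))))))))))))))))) :=
  Cl.node (nat_lit 0x89) (nat_lit 2) (by decide +kernel) (ClAll.succ (ClAll.succ ClAll.zero s573) n332)

def n370 : Cl (O (nat_lit 4)) (R (nat_lit 14353))
    (p (nat_lit 0xc1) (nat_lit 1) (p (nat_lit 0x101) (nat_lit 1) (p (nat_lit 0x119) (nat_lit 0) (p (nat_lit 0xd1) (nat_lit 0) (p (nat_lit 0x81) (nat_lit 0) (p (nat_lit 0x41) (nat_lit 1) (p (nat_lit 0x108090887069a) (nat_lit 0) (p (nat_lit 0x107870806861a) (nat_lit 0) (p (nat_lit 0x8000000000000070786058a) (nat_lit 0) (p (nat_lit 0x10787058502) (nat_lit 0) (p (nat_lit 0x10586850482) (nat_lit 0) (p (nat_lit 0x16000c) (nat_lit 0) (p (nat_lit 0x160004) (nat_lit 0) (p (nat_lit 0x68612) (nat_lit 0) (p (nat_lit 0x50592) (nat_lit 0) (p (nat_lit 0x40512) (nat_lit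 0) (p (nat_lit 0x50312) (nat_lit 0) (p (nat_lit 0x38292) (nat_lit 0) (p (nat_lit 0x28212) (nat_lit 0) (p (nat_lit 0x38112) (nat_lit 0) (p (nat_lit 0x20092) (nat_lit 0) (p (nat_lit 0x10012) (nat_lit 0) pn)))))))))))))))))))))) :=
  Cl.node (nat_lit 0x89) (nat_lit 2) (by decide +kernel) (ClAll.succ (ClAll.succ ClAll.zero n333) n334)

def n371 : Cl (O (nat_lit 4)) (R (nat_lit 14353))
    (p (nat_lit 0xc9) (nat_lit 1) (p (nat_lit 0xc1) (nat_lit 0) (p (nat_lit 0x119) (nat_lit 1) (p (nat_lit 0xd1) (nat_lit 0) (p (nat_lit 0x81) (nat_lit 0) (p (nat_lit 0x41) (nat_lit 1) (p (nat_lit 0x108090887069a) (nat_lit 0) (p (nat_lit 0x107870806861a) (nat_lit 0) (p (nat_lit 0x8000000000000070786058a) (nat_lit 0) (p (nat_lit 0x10787058502) (nat_lit 0) (p (nat_lit 0x10586850482) (nat_lit 0) (p (nat_lit 0x16000c) (nat_lit 0) (p (nat_lit 0x160004) (nat_lit 0) (p (nat_lit 0x68612) (nat_lit 0) (p (nat_lit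 0x50592) (nat_lit 0) (p (nat_lit 0x40512) (nat_lit 0) (p (nat_lit 0x50312) (nat_lit 0) (p (nat_lit 0x38292) (nat_lit 0) (p (nat_lit 0x28212) (nat_lit 0) (p (nat_lit 0x38112) (nat_lit 0) (p (nat_lit 0x20092) (nat_lit 0) (p (nat_lit 0x10012) (nat_lit 0) pn)))))))))))))))))))))) :=
  Cl.node (nat_lit 0x89) (nat_lit 2) (by decide +kernel) (ClAll.succ (ClAll.succ ClAll.zero s632) n335)

def n372 : Cl (O (nat_lit 4)) (R (nat_lit 14353))
    (p (nat_lit 0x101) (nat_lit 0) (p (nat_lit 0xc1) (nat_lit 1) (p (nat_lit 0x119) (nat_lit 1) (p (nat_lit 0xd1) (nat_lit 0) (p (nat_lit 0x81) (nat_lit 0) (p (nat_lit 0x41) (nat_lit 1) (p (nat_lit 0x108090887069a) (nat_lit 0) (p (nat_lit 0x107870806861a) (nat_lit 0) (p (nat_lit 0x8000000000000070786058a) (nat_lit 0) (p (nat_lit 0x10787058502) (nat_lit 0) (p (nat_lit 0x10586850482) (nat_lit 0) (p (nat_lit 0x16000c) (nat_lit 0) (p (nat_lit 0x160004)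 (nat_lit 0) (p (nat_lit 0x68612) (nat_lit 0) (p (nat_lit 0x50592) (nat_lit 0) (p (nat_lit 0x40512) (nat_lit 0) (p (nat_lit 0x50312) (nat_lit 0) (p (nat_lit 0x38292) (nat_lit 0) (p (nat_lit 0x28212) (nat_lit 0) (p (nat_lit 0x38112) (nat_lit 0) (p (nat_lit 0x20092) (nat_lit 0) (p (nat_lit 0x10012) (nat_lit 0) pn)))))))))))))))))))))) :=
  Cl.node (nat_lit 0x89) (nat_lit 2) (by decide +kernel) (ClAll.succ (ClAll.succ ClAll.zero s666) n336)

def n373 : Cl (O (nat_lit 4)) (R (nat_lit 14353))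
    (p (nat_lit 0x101) (nat_lit 1) (p (nat_lit 0xc1) (nat_lit 1) (p (nat_lit 0x119) (nat_lit 1) (p (nat_lit 0xd1) (nat_lit 0) (p (nat_lit 0x81) (nat_lit 0) (p (nat_lit 0x41) (nat_lit 1) (p (nat_lit 0x108090887069a) (nat_lit 0) (p (nat_lit 0x107870806861a) (nat_lit 0) (p (nat_lit 0x8000000000000070786058a) (nat_lit 0) (p (nat_lit 0x10787058502) (nat_lit 0) (p (nat_lit 0x10586850482) (nat_lit 0) (p (nat_lit 0x16000c) (nat_lit 0) (p (nat_lit 0x160004) (nat_lit 0) (p (nat_lit 0x68612) (nat_lit 0) (p (nat_lit 0x50592) (nat_lit 0) (p (nat_lit 0x40512) (nat_lit 0) (p (nat_lit 0x50312) (nat_lit 0) (p (nat_lit 0x38292) (nat_lit 0) (p (nat_lit 0x28212) (nat_lit 0) (p (nat_lit 0x38112) (nat_lit 0) (p (nat_lit 0x20092) (nat_lit 0) (p (nat_lit 0x10012) (nat_lit 0) pn)))))))))))))))))))))) :=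
  Cl.node (nat_lit 0x89) (nat_lit 2) (by decide +kernel) (ClAll.succ (ClAll.succ ClAll.zero s723) n337)

def n374 : Cl (O (nat_lit 4)) (R (nat_lit 14353))
    (p (nat_lit 0x109) (nat_lit 1) (p (nat_lit 0x101) (nat_lit 0) (p (nat_lit 0x111) (nat_lit 0) (p (nat_lit 0xd1) (nat_lit 1) (p (nat_lit 0x81) (nat_lit 0) (p (nat_lit 0x41) (nat_lit 1) (p (nat_lit 0x108090887069a) (nat_lit 0) (p (nat_lit 0x107870806861a) (nat_lit 0) (p (nat_lit 0x8000000000000070786058a) (nat_lit 0) (p (nat_lit 0x10787058502) (nat_lit 0) (p (nat_lit 0x10586850482) (nat_lit 0) (p (nat_lit 0x16000c) (nat_lit 0) (p (nat_lit 0x160004) (nat_lit 0) (p (nat_lit 0x68612) (nat_lit 0) (p (nat_lit 0x50592) (nat_lit 0) (p (nat_lit 0x40512) (nat_lit 0) (p (nat_lit 0x50312) (nat_lit 0) (p (nat_lit 0x38292) (nat_lit 0) (p (nat_lit 0x28212) (nat_lit 0) (p (nat_lit 0x38112) (nat_lit 0) (p (nat_lit 0x20092) (nat_lit 0) (p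 (nat_lit 0x10012) (nat_lit 0) pn)))))))))))))))))))))) :=
  Cl.node (nat_lit 0x89) (nat_lit 2) (by decide +kernel) (ClAll.succ (ClAll.succ ClAll.zero s768) n338)

def n375 : Cl (O (nat_lit 4)) (R (nat_lit 14353))
    (p (nat_lit 0x89) (nat_lit 0) (p (nat_lit 0x101) (nat_lit 1) (p (nat_lit 0x111) (nat_lit 0) (p (nat_lit 0xd1) (nat_lit 1) (p (nat_lit 0x81) (nat_lit 0) (p (nat_lit 0x41) (nat_lit 1) (p (nat_lit 0x108090887069a) (nat_lit 0) (p (nat_lit 0x107870806861a) (nat_lit 0) (p (nat_lit 0x8000000000000070786058a) (nat_lit 0) (p (nat_lit 0x10787058502) (nat_lit 0) (p (nat_lit 0x10586850482) (nat_lit 0) (p (nat_lit 0x16000c) (nat_lit 0) (p (nat_lit 0x160004) (nat_lit 0) (p (nat_lit 0x68612) (nat_lit 0) (p (nat_lit 0x50592) (nat_lit 0) (p (nat_lit 0x40512) (nat_lit 0) (p (nat_lit 0x50312) (nat_lit 0) (p (nat_lit 0x38292) (nat_lit 0) (p (nat_lit 0x28212) (nat_lit 0) (p (nat_lit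 0x38112) (nat_lit 0) (p (nat_lit 0x20092) (nat_lit 0) (p (nat_lit 0x10012) (nat_lit 0) pn)))))))))))))))))))))) :=
  Cl.node (nat_lit 0x3cc2a) (nat_lit 12) (by decide +kernel) (ClAll.succ (ClAll.succ (ClAll.succ (ClAll.succ (ClAll.succ (ClAll.succ (ClAll.succ (ClAll.succ (ClAll.succ (ClAll.succ (ClAll.succ (ClAll.succ ClAll.zero n339) s813) s814) s815) s816) s817) s818) s819) s820) s821) s822) s823)

def n376 : Cl (O (nat_lit 4)) (R (nat_lit 14353))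
    (p (nat_lit 0x89) (nat_lit 1) (p (nat_lit 0x101) (nat_lit 1) (p (nat_lit 0x111) (nat_lit 0) (p (nat_lit 0xd1) (nat_lit 1) (p (nat_lit 0x81) (nat_lit 0) (p (nat_lit 0x41) (nat_lit 1) (p (nat_lit 0x108090887069a) (nat_lit 0) (p (nat_lit 0x107870806861a) (nat_lit 0) (p (nat_lit 0x8000000000000070786058a) (nat_lit 0) (p (nat_lit 0x10787058502) (nat_lit 0) (p (nat_lit 0x10586850482) (nat_lit 0) (p (nat_lit 0x16000c) (nat_lit 0) (p (nat_lit 0x160004) (nat_lit 0) (p (nat_lit 0x68612) (nat_lit 0) (p (nat_lit 0x50592) (nat_lit 0) (p (nat_lit 0x40512) (nat_lit 0) (p (nat_lit 0x50312) (nat_lit 0) (p (nat_lit 0x38292) (nat_lit 0) (p (nat_lit 0x28212) (nat_lit 0) (p (nat_lit 0x38112) (nat_lit 0) (p (nat_lit 0x20092) (nat_lit 0) (p (nat_lit 0x10012) (nat_lit 0) pn)))))))))))))))))))))) :=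
  Cl.node (nat_lit 0xc9) (nat_lit 2) (by decide +kernel) (ClAll.succ (ClAll.succ ClAll.zero n340) n341)

def n377 : Cl (O (nat_lit 4)) (R (nat_lit 14353))
    (p (nat_lit 0xc9) (nat_lit 1) (p (nat_lit 0x89) (nat_lit 1) (p (nat_lit 0x111) (nat_lit 1) (p (nat_lit 0xd1) (nat_lit 1) (p (nat_lit 0x81) (nat_lit 0) (p (nat_lit 0x41) (nat_lit 1) (p (nat_lit 0x108090887069a) (nat_lit 0) (p (nat_lit 0x107870806861a) (nat_lit 0) (p (nat_lit 0x8000000000000070786058a) (nat_lit 0) (p (nat_lit 0x10787058502) (nat_lit 0) (p (nat_lit 0x10586850482) (nat_lit 0) (p (nat_lit 0x16000c) (nat_lit 0) (p (nat_lit 0x160004) (nat_lit 0) (p (nat_lit 0x68612) (nat_lit 0) (p (nat_lit 0x50592) (nat_lit 0) (p (nat_lit 0x40512) (nat_lit 0) (p (nat_lit 0x50312) (nat_lit 0) (p (nat_lit 0x38292) (nat_lit 0) (p (nat_lit 0x28212) (nat_lit 0) (p (nat_lit 0x38112) (nat_lit 0) (p (nat_lit 0x20092) (nat_lit 0) (p (nat_lit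 0x10012) (nat_lit 0) pn)))))))))))))))))))))) :=
  Cl.node (nat_lit 0x109) (nat_lit 2) (by decide +kernel) (ClAll.succ (ClAll.succ ClAll.zero n342) n343)

def n378 : Cl (O (nat_lit 4)) (R (nat_lit 14353))
    (p (nat_lit 0x109) (nat_lit 0) (p (nat_lit 0x101) (nat_lit 0) (p (nat_lit 0x119) (nat_lit 0) (p (nat_lit 0xc1) (nat_lit 0) (p (nat_lit 0x81) (nat_lit 1) (p (nat_lit 0x41) (nat_lit 1) (p (nat_lit 0x108090887069a) (nat_lit 0) (p (nat_lit 0x107870806861a) (nat_lit 0) (p (nat_lit 0x8000000000000070786058a) (nat_lit 0) (p (nat_lit 0x10787058502) (nat_lit 0) (p (nat_lit 0x10586850482) (nat_lit 0) (p (nat_lit 0x16000c) (nat_lit 0) (p (nat_lit 0x160004) (nat_lit 0) (p (nat_lit 0x68612) (nat_lit 0) (p (nat_lit 0x50592) (nat_lit 0) (p (nat_lit 0x40512) (nat_lit 0) (p (nat_lit 0x50312) (nat_lit 0) (p (nat_lit 0x38292) (nat_lit 0) (p (nat_lit 0x28212) (nat_lit 0) (p (nat_lit 0x38112)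 (nat_lit 0) (p (nat_lit 0x20092) (nat_lit 0) (p (nat_lit 0x10012) (nat_lit 0) pn)))))))))))))))))))))) :=
  Cl.node (nat_lit 0x111) (nat_lit 2) (by decide +kernel) (ClAll.succ (ClAll.succ ClAll.zero s892) n344)

def n379 : Cl (O (nat_lit 4)) (R (nat_lit 14353))
    (p (nat_lit 0x109) (nat_lit 1) (p (nat_lit 0x101) (nat_lit 0) (p (nat_lit 0x119) (nat_lit 0) (p (nat_lit 0xc1) (nat_lit 0) (p (nat_lit 0x81) (nat_lit 1) (p (nat_lit 0x41) (nat_lit 1) (p (nat_lit 0x108090887069a) (nat_lit 0) (p (nat_lit 0x107870806861a) (nat_lit 0) (p (nat_lit 0x8000000000000070786058a) (nat_lit 0) (p (nat_lit 0x10787058502) (nat_lit 0) (p (nat_lit 0x10586850482) (nat_lit 0) (p (nat_lit 0x16000c) (nat_lit 0) (p (nat_lit 0x160004) (nat_lit 0) (p (nat_lit 0x68612) (nat_lit 0) (p (nat_lit 0x50592) (nat_lit 0) (p (nat_lit 0x40512) (nat_lit 0) (p (nat_lit 0x50312) (nat_lit 0) (p (nat_lit 0x38292) (nat_lit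 0) (p (nat_lit 0x28212) (nat_lit 0) (p (nat_lit 0x38112) (nat_lit 0) (p (nat_lit 0x20092) (nat_lit 0) (p (nat_lit 0x10012) (nat_lit 0) pn)))))))))))))))))))))) :=
  Cl.node (nat_lit 0xc9) (nat_lit 2) (by decide +kernel) (ClAll.succ (ClAll.succ ClAll.zero n345) s957)

def n380 : Cl (O (nat_lit 4)) (R (nat_lit 14353))
    (p (nat_lit 0xc9) (nat_lit 0) (p (nat_lit 0x101) (nat_lit 1) (p (nat_lit 0x119) (nat_lit 0) (p (nat_lit 0xc1) (nat_lit 0) (p (nat_lit 0x81) (nat_lit 1) (p (nat_lit 0x41) (nat_lit 1) (p (nat_lit 0x108090887069a) (nat_lit 0) (p (nat_lit 0x107870806861a) (nat_lit 0) (p (nat_lit 0x8000000000000070786058a) (nat_lit 0) (p (nat_lit 0x10787058502) (nat_lit 0) (p (nat_lit 0x10586850482) (nat_lit 0) (p (nat_lit 0x16000c) (nat_lit 0) (p (nat_lit 0x160004) (nat_lit 0) (p (nat_lit 0x68612) (nat_lit 0) (p (nat_lit 0x50592) (nat_lit 0) (p (nat_lit 0x40512) (nat_lit 0) (p (nat_lit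 0x50312) (nat_lit 0) (p (nat_lit 0x38292) (nat_lit 0) (p (nat_lit 0x28212) (nat_lit 0) (p (nat_lit 0x38112) (nat_lit 0) (p (nat_lit 0x20092) (nat_lit 0) (p (nat_lit 0x10012) (nat_lit 0) pn)))))))))))))))))))))) :=
  Cl.node (nat_lit 0xd1) (nat_lit 2) (by decide +kernel) (ClAll.succ (ClAll.succ ClAll.zero n346) n347)

def n381 : Cl (O (nat_lit 4)) (R (nat_lit 14353))
    (p (nat_lit 0xd1) (nat_lit 1) (p (nat_lit 0xc9) (nat_lit 0) (p (nat_lit 0x119) (nat_lit 1) (p (nat_lit 0xc1) (nat_lit 0) (p (nat_lit 0x81) (nat_lit 1) (p (nat_lit 0x41) (nat_lit 1) (p (nat_lit 0x108090887069a) (nat_lit 0) (p (nat_lit 0x107870806861a) (nat_lit 0) (p (nat_lit 0x8000000000000070786058a) (nat_lit 0) (p (nat_lit 0x10787058502) (nat_lit 0) (p (nat_lit 0x10586850482) (nat_lit 0) (p (nat_lit 0x16000c) (nat_lit 0) (p (nat_lit 0x160004) (nat_lit 0) (p (nat_lit 0x68612) (nat_lit 0) (p (nat_lit 0x50592)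 (nat_lit 0) (p (nat_lit 0x40512) (nat_lit 0) (p (nat_lit 0x50312) (nat_lit 0) (p (nat_lit 0x38292) (nat_lit 0) (p (nat_lit 0x28212) (nat_lit 0) (p (nat_lit 0x38112) (nat_lit 0) (p (nat_lit 0x20092) (nat_lit 0) (p (nat_lit 0x10012) (nat_lit 0) pn)))))))))))))))))))))) :=
  Cl.node (nat_lit 0x111) (nat_lit 2) (by decide +kernel) (ClAll.succ (ClAll.succ ClAll.zero s1007) n348)

def n382 : Cl (O (nat_lit 4)) (R (nat_lit 14353))
    (p (nat_lit 0x109) (nat_lit 0) (p (nat_lit 0xc9) (nat_lit 1) (p (nat_lit 0x119) (nat_lit 1) (p (nat_lit 0xc1) (nat_lit 0) (p (nat_lit 0x81) (nat_lit 1) (p (nat_lit 0x41) (nat_lit 1) (p (nat_lit 0x108090887069a) (nat_lit 0) (p (nat_lit 0x107870806861a) (nat_lit 0) (p (nat_lit 0x8000000000000070786058a) (nat_lit 0) (p (nat_lit 0x10787058502) (nat_lit 0) (p (nat_lit 0x10586850482) (nat_lit 0) (p (nat_lit 0x16000c) (nat_lit 0) (p (nat_lit 0x160004) (nat_lit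 0) (p (nat_lit 0x68612) (nat_lit 0) (p (nat_lit 0x50592) (nat_lit 0) (p (nat_lit 0x40512) (nat_lit 0) (p (nat_lit 0x50312) (nat_lit 0) (p (nat_lit 0x38292) (nat_lit 0) (p (nat_lit 0x28212) (nat_lit 0) (p (nat_lit 0x38112) (nat_lit 0) (p (nat_lit 0x20092) (nat_lit 0) (p (nat_lit 0x10012) (nat_lit 0) pn)))))))))))))))))))))) :=
  Cl.node (nat_lit 0x111) (nat_lit 2) (by decide +kernel) (ClAll.succ (ClAll.succ ClAll.zero n349) n350)

def n383 : Cl (O (nat_lit 4)) (R (nat_lit 14353))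
    (p (nat_lit 0x111) (nat_lit 1) (p (nat_lit 0x109) (nat_lit 0) (p (nat_lit 0x101) (nat_lit 0) (p (nat_lit 0xc1) (nat_lit 1) (p (nat_lit 0x81) (nat_lit 1) (p (nat_lit 0x41) (nat_lit 1) (p (nat_lit 0x108090887069a) (nat_lit 0) (p (nat_lit 0x107870806861a) (nat_lit 0) (p (nat_lit 0x8000000000000070786058a) (nat_lit 0) (p (nat_lit 0x10787058502) (nat_lit 0) (p (nat_lit 0x10586850482) (nat_lit 0) (p (nat_lit 0x16000c) (nat_lit 0) (p (nat_lit 0x160004) (nat_lit 0) (p (nat_lit 0x68612) (nat_lit 0) (p (nat_lit 0x50592) (nat_lit 0) (p (nat_lit 0x40512) (nat_lit 0) (p (nat_lit 0x50312) (nat_lit 0) (p (nat_lit 0x38292) (nat_lit 0) (p (nat_lit 0x28212) (nat_lit 0) (p (nat_lit 0x38112) (nat_lit 0) (p (nat_lit 0x20092) (nat_lit 0) (p (nat_lit 0x10012) (nat_lit 0) pn)))))))))))))))))))))) :=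
  Cl.node (nat_lit 0x3c4aa) (nat_lit 12) (by decide +kernel) (ClAll.succ (ClAll.succ (ClAll.succ (ClAll.succ (ClAll.succ (ClAll.succ (ClAll.succ (ClAll.succ (ClAll.succ (ClAll.succ (ClAll.succ (ClAll.succ ClAll.zero s1114) s1115) s1116) s1117) s1118) s1119) s1120) n351) s1123) s1124) s1125) s1126)

def n384 : Cl (O (nat_lit 4)) (R (nat_lit 14353))
    (p (nat_lit 0x101) (nat_lit 0) (p (nat_lit 0x119) (nat_lit 0) (p (nat_lit 0xd1) (nat_lit 0) (p (nat_lit 0x89) (nat_lit 0) (p (nat_lit 0x41) (nat_lit 0) (p (nat_lit 0x108090887069a) (nat_lit 0) (p (nat_lit 0x107870806861a) (nat_lit 0) (p (nat_lit 0x8000000000000070786058a) (nat_lit 0) (p (nat_lit 0x10787058502) (nat_lit 0) (p (nat_lit 0x10586850482) (nat_lit 0) (p (nat_lit 0x16000c) (nat_lit 0) (p (nat_lit 0x160004) (nat_lit 0) (p (nat_lit 0x68612) (nat_lit 0) (p (nat_lit 0x50592) (nat_lit 0) (p (nat_lit 0x40512) (nat_lit 0) (p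 (nat_lit 0x50312) (nat_lit 0) (p (nat_lit 0x38292) (nat_lit 0) (p (nat_lit 0x28212) (nat_lit 0) (p (nat_lit 0x38112) (nat_lit 0) (p (nat_lit 0x20092) (nat_lit 0) (p (nat_lit 0x10012) (nat_lit 0) pn))))))))))))))))))))) :=
  Cl.node (nat_lit 0x109) (nat_lit 2) (by decide +kernel) (ClAll.succ (ClAll.succ ClAll.zero s0) n352)

def n385 : Cl (O (nat_lit 4)) (R (nat_lit 14353))
    (p (nat_lit 0x101) (nat_lit 1) (p (nat_lit 0x119) (nat_lit 0) (p (nat_lit 0xd1) (nat_lit 0) (p (nat_lit 0x89) (nat_lit 0) (p (nat_lit 0x41) (nat_lit 0) (p (nat_lit 0x108090887069a) (nat_lit 0) (p (nat_lit 0x107870806861a) (nat_lit 0) (p (nat_lit 0x8000000000000070786058a) (nat_lit 0) (p (nat_lit 0x10787058502) (nat_lit 0) (p (nat_lit 0x10586850482) (nat_lit 0) (p (nat_lit 0x16000c) (nat_lit 0) (p (nat_lit 0x160004) (nat_lit 0) (p (nat_lit 0x68612) (nat_lit 0) (p (nat_lit 0x50592) (nat_lit 0) (p (nat_lit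 0x40512) (nat_lit 0) (p (nat_lit 0x50312) (nat_lit 0) (p (nat_lit 0x38292) (nat_lit 0) (p (nat_lit 0x28212) (nat_lit 0) (p (nat_lit 0x38112) (nat_lit 0) (p (nat_lit 0x20092) (nat_lit 0) (p (nat_lit 0x10012) (nat_lit 0) pn))))))))))))))))))))) :=
  Cl.node (nat_lit 0x81) (nat_lit 2) (by decide +kernel) (ClAll.succ (ClAll.succ ClAll.zero n353) n354)

def n386 : Cl (O (nat_lit 4)) (R (nat_lit 14353))
    (p (nat_lit 0xc1) (nat_lit 0) (p (nat_lit 0x119) (nat_lit 1) (p (nat_lit 0xd1) (nat_lit 0) (p (nat_lit 0x89) (nat_lit 0) (p (nat_lit 0x41) (nat_lit 0) (p (nat_lit 0x108090887069a) (nat_lit 0) (p (nat_lit 0x107870806861a) (nat_lit 0) (p (nat_lit 0x8000000000000070786058a) (nat_lit 0) (p (nat_lit 0x10787058502) (nat_lit 0) (p (nat_lit 0x10586850482) (nat_lit 0) (p (nat_lit 0x16000c) (nat_lit 0) (p (nat_lit 0x160004) (nat_lit 0) (p (nat_lit 0x68612) (nat_lit 0) (p (nat_lit 0x50592)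 (nat_lit 0) (p (nat_lit 0x40512) (nat_lit 0) (p (nat_lit 0x50312) (nat_lit 0) (p (nat_lit 0x38292) (nat_lit 0) (p (nat_lit 0x28212) (nat_lit 0) (p (nat_lit 0x38112) (nat_lit 0) (p (nat_lit 0x20092) (nat_lit 0) (p (nat_lit 0x10012) (nat_lit 0) pn))))))))))))))))))))) :=
  Cl.node (nat_lit 0xc9) (nat_lit 2) (by decide +kernel) (ClAll.succ (ClAll.succ ClAll.zero s83) n355)

def n387 : Cl (O (nat_lit 4)) (R (nat_lit 14353))
    (p (nat_lit 0xc1) (nat_lit 1) (p (nat_lit 0x119) (nat_lit 1) (p (nat_lit 0xd1) (nat_lit 0) (p (nat_lit 0x89) (nat_lit 0) (p (nat_lit 0x41) (nat_lit 0) (p (nat_lit 0x108090887069a) (nat_lit 0) (p (nat_lit 0x107870806861a) (nat_lit 0) (p (nat_lit 0x8000000000000070786058a) (nat_lit 0) (p (nat_lit 0x10787058502) (nat_lit 0) (p (nat_lit 0x10586850482) (nat_lit 0) (p (nat_lit 0x16000c) (nat_lit 0) (p (nat_lit 0x160004) (nat_lit 0) (p (nat_lit 0x68612) (nat_lit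 0) (p (nat_lit 0x50592) (nat_lit 0) (p (nat_lit 0x40512) (nat_lit 0) (p (nat_lit 0x50312) (nat_lit 0) (p (nat_lit 0x38292) (nat_lit 0) (p (nat_lit 0x28212) (nat_lit 0) (p (nat_lit 0x38112) (nat_lit 0) (p (nat_lit 0x20092) (nat_lit 0) (p (nat_lit 0x10012) (nat_lit 0) pn))))))))))))))))))))) :=
  Cl.node (nat_lit 0x81) (nat_lit 2) (by decide +kernel) (ClAll.succ (ClAll.succ ClAll.zero n356) n357)

def n388 : Cl (O (nat_lit 4)) (R (nat_lit 14353))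
    (p (nat_lit 0x101) (nat_lit 0) (p (nat_lit 0x111) (nat_lit 0) (p (nat_lit 0xd1) (nat_lit 1) (p (nat_lit 0x89) (nat_lit 0) (p (nat_lit 0x41) (nat_lit 0) (p (nat_lit 0x108090887069a) (nat_lit 0) (p (nat_lit 0x107870806861a) (nat_lit 0) (p (nat_lit 0x8000000000000070786058a) (nat_lit 0) (p (nat_lit 0x10787058502) (nat_lit 0) (p (nat_lit 0x10586850482) (nat_lit 0) (p (nat_lit 0x16000c) (nat_lit 0) (p (nat_lit 0x160004) (nat_lit 0) (p (nat_lit 0x68612) (nat_lit 0) (p (nat_lit 0x50592) (nat_lit 0) (p (nat_lit 0x40512) (nat_lit 0) (p (nat_lit 0x50312) (nat_lit 0) (p (nat_lit 0x38292) (nat_lit 0) (p (nat_lit 0x28212) (nat_lit 0) (p (nat_lit 0x38112) (nat_lit 0) (p (nat_lit 0x20092) (nat_lit 0) (p (nat_lit 0x10012) (nat_lit 0) pn))))))))))))))))))))) :=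
  Cl.node (nat_lit 0x109) (nat_lit 2) (by decide +kernel) (ClAll.succ (ClAll.succ ClAll.zero s214) n358)

def n389 : Cl (O (nat_lit 4)) (R (nat_lit 14353))
    (p (nat_lit 0x101) (nat_lit 1) (p (nat_lit 0x111) (nat_lit 0) (p (nat_lit 0xd1) (nat_lit 1) (p (nat_lit 0x89) (nat_lit 0) (p (nat_lit 0x41) (nat_lit 0) (p (nat_lit 0x108090887069a) (nat_lit 0) (p (nat_lit 0x107870806861a) (nat_lit 0) (p (nat_lit 0x8000000000000070786058a) (nat_lit 0) (p (nat_lit 0x10787058502) (nat_lit 0) (p (nat_lit 0x10586850482) (nat_lit 0) (p (nat_lit 0x16000c) (nat_lit 0) (p (nat_lit 0x160004) (nat_lit 0) (p (nat_lit 0x68612) (nat_lit 0) (p (nat_lit 0x50592) (nat_lit 0) (p (nat_lit 0x40512) (nat_lit 0) (p (nat_lit 0x50312) (nat_lit 0) (p (nat_lit 0x38292) (nat_lit 0) (p (nat_lit 0x28212) (nat_lit 0) (p (nat_lit 0x38112) (nat_lit 0) (p (nat_lit 0x20092) (nat_lit 0) (p (nat_lit 0x10012) (nat_lit 0)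 pn))))))))))))))))))))) :=
  Cl.node (nat_lit 0x81) (nat_lit 2) (by decide +kernel) (ClAll.succ (ClAll.succ ClAll.zero n359) n360)

def n390 : Cl (O (nat_lit 4)) (R (nat_lit 14353))
    (p (nat_lit 0x81) (nat_lit 1) (p (nat_lit 0x111) (nat_lit 1) (p (nat_lit 0xd1) (nat_lit 1) (p (nat_lit 0x89) (nat_lit 0) (p (nat_lit 0x41) (nat_lit 0) (p (nat_lit 0x108090887069a) (nat_lit 0) (p (nat_lit 0x107870806861a) (nat_lit 0) (p (nat_lit 0x8000000000000070786058a) (nat_lit 0) (p (nat_lit 0x10787058502) (nat_lit 0) (p (nat_lit 0x10586850482) (nat_lit 0) (p (nat_lit 0x16000c) (nat_lit 0) (p (nat_lit 0x160004) (nat_lit 0) (p (nat_lit 0x68612) (nat_lit 0) (p (nat_lit 0x50592) (nat_lit 0) (p (nat_lit 0x40512) (nat_lit 0) (p (nat_lit 0x50312) (nat_lit 0) (p (nat_lit 0x38292) (nat_lit 0) (p (nat_lit 0x28212) (nat_lit 0) (p (nat_lit 0x38112) (nat_lit 0) (p (nat_lit 0x20092) (nat_lit 0) (p (nat_lit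 0x10012) (nat_lit 0) pn))))))))))))))))))))) :=
  Cl.node (nat_lit 0xc1) (nat_lit 2) (by decide +kernel) (ClAll.succ (ClAll.succ ClAll.zero s314) n361)

def n391 : Cl (O (nat_lit 4)) (R (nat_lit 14353))
    (p (nat_lit 0x101) (nat_lit 0) (p (nat_lit 0x119) (nat_lit 0) (p (nat_lit 0xc9) (nat_lit 0) (p (nat_lit 0x89) (nat_lit 1) (p (nat_lit 0x41) (nat_lit 0) (p (nat_lit 0x108090887069a) (nat_lit 0) (p (nat_lit 0x107870806861a) (nat_lit 0) (p (nat_lit 0x8000000000000070786058a) (nat_lit 0) (p (nat_lit 0x10787058502) (nat_lit 0) (p (nat_lit 0x10586850482) (nat_lit 0) (p (nat_lit 0x16000c) (nat_lit 0) (p (nat_lit 0x160004) (nat_lit 0) (p (nat_lit 0x68612) (nat_lit 0) (p (nat_lit 0x50592) (nat_lit 0) (p (nat_lit 0x40512) (nat_lit 0) (p (nat_lit 0x50312) (nat_lit 0) (p (nat_lit 0x38292) (nat_lit 0) (p (nat_lit 0x28212) (nat_lit 0) (p (nat_lit 0x38112) (nat_lit 0) (p (nat_lit 0x20092)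 (nat_lit 0) (p (nat_lit 0x10012) (nat_lit 0) pn))))))))))))))))))))) :=
  Cl.node (nat_lit 0x109) (nat_lit 2) (by decide +kernel) (ClAll.succ (ClAll.succ ClAll.zero n362) n363)

def n392 : Cl (O (nat_lit 4)) (R (nat_lit 14353))
    (p (nat_lit 0x101) (nat_lit 1) (p (nat_lit 0x119) (nat_lit 0) (p (nat_lit 0xc9) (nat_lit 0) (p (nat_lit 0x89) (nat_lit 1) (p (nat_lit 0x41) (nat_lit 0) (p (nat_lit 0x108090887069a) (nat_lit 0) (p (nat_lit 0x107870806861a) (nat_lit 0) (p (nat_lit 0x8000000000000070786058a) (nat_lit 0) (p (nat_lit 0x10787058502) (nat_lit 0) (p (nat_lit 0x10586850482) (nat_lit 0) (p (nat_lit 0x16000c) (nat_lit 0) (p (nat_lit 0x160004) (nat_lit 0) (p (nat_lit 0x68612) (nat_lit 0) (p (nat_lit 0x50592) (nat_lit 0) (p (nat_lit 0x40512) (nat_lit 0) (p (nat_lit 0x50312) (nat_lit 0) (p (nat_lit 0x38292) (nat_lit 0) (p (nat_lit 0x28212) (nat_lit 0) (p (nat_lit 0x38112) (nat_lit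 0) (p (nat_lit 0x20092) (nat_lit 0) (p (nat_lit 0x10012) (nat_lit 0) pn))))))))))))))))))))) :=
  Cl.node (nat_lit 0xc1) (nat_lit 2) (by decide +kernel) (ClAll.succ (ClAll.succ ClAll.zero n364) s442)

def n393 : Cl (O (nat_lit 4)) (R (nat_lit 14353))
    (p (nat_lit 0xc1) (nat_lit 0) (p (nat_lit 0x119) (nat_lit 1) (p (nat_lit 0xc9) (nat_lit 0) (p (nat_lit 0x89) (nat_lit 1) (p (nat_lit 0x41) (nat_lit 0) (p (nat_lit 0x108090887069a) (nat_lit 0) (p (nat_lit 0x107870806861a) (nat_lit 0) (p (nat_lit 0x8000000000000070786058a) (nat_lit 0) (p (nat_lit 0x10787058502) (nat_lit 0) (p (nat_lit 0x10586850482) (nat_lit 0) (p (nat_lit 0x16000c) (nat_lit 0) (p (nat_lit 0x160004) (nat_lit 0) (p (nat_lit 0x68612) (nat_lit 0) (p (nat_lit 0x50592) (nat_lit 0) (p (nat_lit 0x40512) (nat_lit 0) (p (nat_lit 0x50312) (nat_lit 0) (p (nat_lit 0x38292) (nat_lit 0) (p (nat_lit 0x28212) (nat_lit 0) (p (nat_lit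 0x38112) (nat_lit 0) (p (nat_lit 0x20092) (nat_lit 0) (p (nat_lit 0x10012) (nat_lit 0) pn))))))))))))))))))))) :=
  Cl.node (nat_lit 0xd1) (nat_lit 2) (by decide +kernel) (ClAll.succ (ClAll.succ ClAll.zero s443) n365)

def n394 : Cl (O (nat_lit 4)) (R (nat_lit 14353))
    (p (nat_lit 0xc1) (nat_lit 1) (p (nat_lit 0x119) (nat_lit 1) (p (nat_lit 0xc9) (nat_lit 0) (p (nat_lit 0x89) (nat_lit 1) (p (nat_lit 0x41) (nat_lit 0) (p (nat_lit 0x108090887069a) (nat_lit 0) (p (nat_lit 0x107870806861a) (nat_lit 0) (p (nat_lit 0x8000000000000070786058a) (nat_lit 0) (p (nat_lit 0x10787058502) (nat_lit 0) (p (nat_lit 0x10586850482) (nat_lit 0) (p (nat_lit 0x16000c) (nat_lit 0) (p (nat_lit 0x160004) (nat_lit 0) (p (nat_lit 0x68612) (nat_lit 0) (p (nat_lit 0x50592) (nat_lit 0) (p (nat_lit 0x40512) (nat_lit 0) (p (nat_lit 0x50312) (nat_lit 0) (p (nat_lit 0x38292) (nat_lit 0) (p (nat_lit 0x28212)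 (nat_lit 0) (p (nat_lit 0x38112) (nat_lit 0) (p (nat_lit 0x20092) (nat_lit 0) (p (nat_lit 0x10012) (nat_lit 0) pn))))))))))))))))))))) :=
  Cl.node (nat_lit 0x101) (nat_lit 2) (by decide +kernel) (ClAll.succ (ClAll.succ ClAll.zero n366) s517)

def n395 : Cl (O (nat_lit 4)) (R (nat_lit 14353))
    (p (nat_lit 0x101) (nat_lit 0) (p (nat_lit 0x109) (nat_lit 0) (p (nat_lit 0xc9) (nat_lit 1) (p (nat_lit 0x89) (nat_lit 1) (p (nat_lit 0x41) (nat_lit 0) (p (nat_lit 0x108090887069a) (nat_lit 0) (p (nat_lit 0x107870806861a) (nat_lit 0) (p (nat_lit 0x8000000000000070786058a) (nat_lit 0) (p (nat_lit 0x10787058502) (nat_lit 0) (p (nat_lit 0x10586850482) (nat_lit 0) (p (nat_lit 0x16000c) (nat_lit 0) (p (nat_lit 0x160004) (nat_lit 0) (p (nat_lit 0x68612) (nat_lit 0) (p (nat_lit 0x50592) (nat_lit 0) (p (nat_lit 0x40512) (nat_lit 0) (p (nat_lit 0x50312) (nat_lit 0) (p (nat_lit 0x38292) (nat_lit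 0) (p (nat_lit 0x28212) (nat_lit 0) (p (nat_lit 0x38112) (nat_lit 0) (p (nat_lit 0x20092) (nat_lit 0) (p (nat_lit 0x10012) (nat_lit 0) pn))))))))))))))))))))) :=
  Cl.node (nat_lit 0x111) (nat_lit 2) (by decide +kernel) (ClAll.succ (ClAll.succ ClAll.zero n367) s531)

def n396 : Cl (O (nat_lit 4)) (R (nat_lit 14353))
    (p (nat_lit 0x101) (nat_lit 0) (p (nat_lit 0x119) (nat_lit 0) (p (nat_lit 0xd1) (nat_lit 0) (p (nat_lit 0x81) (nat_lit 0) (p (nat_lit 0x41) (nat_lit 1) (p (nat_lit 0x108090887069a) (nat_lit 0) (p (nat_lit 0x107870806861a) (nat_lit 0) (p (nat_lit 0x8000000000000070786058a) (nat_lit 0) (p (nat_lit 0x10787058502) (nat_lit 0) (p (nat_lit 0x10586850482) (nat_lit 0) (p (nat_lit 0x16000c) (nat_lit 0) (p (nat_lit 0x160004) (nat_lit 0) (p (nat_lit 0x68612) (nat_lit 0) (p (nat_lit 0x50592) (nat_lit 0) (p (nat_lit 0x40512) (nat_lit 0) (p (nat_lit 0x50312) (nat_lit 0) (p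 (nat_lit 0x38292) (nat_lit 0) (p (nat_lit 0x28212) (nat_lit 0) (p (nat_lit 0x38112) (nat_lit 0) (p (nat_lit 0x20092) (nat_lit 0) (p (nat_lit 0x10012) (nat_lit 0) pn))))))))))))))))))))) :=
  Cl.node (nat_lit 0x109) (nat_lit 2) (by decide +kernel) (ClAll.succ (ClAll.succ ClAll.zero s534) n368)

def n397 : Cl (O (nat_lit 4)) (R (nat_lit 14353))
    (p (nat_lit 0x101) (nat_lit 1) (p (nat_lit 0x119) (nat_lit 0) (p (nat_lit 0xd1) (nat_lit 0) (p (nat_lit 0x81) (nat_lit 0) (p (nat_lit 0x41) (nat_lit 1) (p (nat_lit 0x108090887069a) (nat_lit 0) (p (nat_lit 0x107870806861a) (nat_lit 0) (p (nat_lit 0x8000000000000070786058a) (nat_lit 0) (p (nat_lit 0x10787058502) (nat_lit 0) (p (nat_lit 0x10586850482) (nat_lit 0) (p (nat_lit 0x16000c) (nat_lit 0) (p (nat_lit 0x160004) (nat_lit 0) (p (nat_lit 0x68612) (nat_lit 0) (p (nat_lit 0x50592) (nat_lit 0) (p (nat_lit 0x40512) (nat_lit 0) (p (nat_lit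 0x50312) (nat_lit 0) (p (nat_lit 0x38292) (nat_lit 0) (p (nat_lit 0x28212) (nat_lit 0) (p (nat_lit 0x38112) (nat_lit 0) (p (nat_lit 0x20092) (nat_lit 0) (p (nat_lit 0x10012) (nat_lit 0) pn))))))))))))))))))))) :=
  Cl.node (nat_lit 0xc1) (nat_lit 2) (by decide +kernel) (ClAll.succ (ClAll.succ ClAll.zero n369) n370)

def n398 : Cl (O (nat_lit 4)) (R (nat_lit 14353))
    (p (nat_lit 0xc1) (nat_lit 0) (p (nat_lit 0x119) (nat_lit 1) (p (nat_lit 0xd1) (nat_lit 0) (p (nat_lit 0x81) (nat_lit 0) (p (nat_lit 0x41) (nat_lit 1) (p (nat_lit 0x108090887069a) (nat_lit 0) (p (nat_lit 0x107870806861a) (nat_lit 0) (p (nat_lit 0x8000000000000070786058a) (nat_lit 0) (p (nat_lit 0x10787058502) (nat_lit 0) (p (nat_lit 0x10586850482) (nat_lit 0) (p (nat_lit 0x16000c) (nat_lit 0) (p (nat_lit 0x160004) (nat_lit 0) (p (nat_lit 0x68612) (nat_lit 0) (p (nat_lit 0x50592) (nat_lit 0) (p (nat_lit 0x40512)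 (nat_lit 0) (p (nat_lit 0x50312) (nat_lit 0) (p (nat_lit 0x38292) (nat_lit 0) (p (nat_lit 0x28212) (nat_lit 0) (p (nat_lit 0x38112) (nat_lit 0) (p (nat_lit 0x20092) (nat_lit 0) (p (nat_lit 0x10012) (nat_lit 0) pn))))))))))))))))))))) :=
  Cl.node (nat_lit 0xc9) (nat_lit 2) (by decide +kernel) (ClAll.succ (ClAll.succ ClAll.zero s631) n371)

def n399 : Cl (O (nat_lit 4)) (R (nat_lit 14353))
    (p (nat_lit 0xc1) (nat_lit 1) (p (nat_lit 0x119) (nat_lit 1) (p (nat_lit 0xd1) (nat_lit 0) (p (nat_lit 0x81) (nat_lit 0) (p (nat_lit 0x41) (nat_lit 1) (p (nat_lit 0x108090887069a) (nat_lit 0) (p (nat_lit 0x107870806861a) (nat_lit 0) (p (nat_lit 0x8000000000000070786058a) (nat_lit 0) (p (nat_lit 0x10787058502) (nat_lit 0) (p (nat_lit 0x10586850482) (nat_lit 0) (p (nat_lit 0x16000c) (nat_lit 0) (p (nat_lit 0x160004) (nat_lit 0) (p (nat_lit 0x68612) (nat_lit 0) (p (nat_lit 0x50592) (nat_lit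 0) (p (nat_lit 0x40512) (nat_lit 0) (p (nat_lit 0x50312) (nat_lit 0) (p (nat_lit 0x38292) (nat_lit 0) (p (nat_lit 0x28212) (nat_lit 0) (p (nat_lit 0x38112) (nat_lit 0) (p (nat_lit 0x20092) (nat_lit 0) (p (nat_lit 0x10012) (nat_lit 0) pn))))))))))))))))))))) :=
  Cl.node (nat_lit 0x101) (nat_lit 2) (by decide +kernel) (ClAll.succ (ClAll.succ ClAll.zero n372) n373)

def n400 : Cl (O (nat_lit 4)) (R (nat_lit 14353))
    (p (nat_lit 0x101) (nat_lit 0) (p (nat_lit 0x111) (nat_lit 0) (p (nat_lit 0xd1) (nat_lit 1) (p (nat_lit 0x81) (nat_lit 0) (p (nat_lit 0x41) (nat_lit 1) (p (nat_lit 0x108090887069a) (nat_lit 0) (p (nat_lit 0x107870806861a) (nat_lit 0) (p (nat_lit 0x8000000000000070786058a) (nat_lit 0) (p (nat_lit 0x10787058502) (nat_lit 0) (p (nat_lit 0x10586850482) (nat_lit 0) (p (nat_lit 0x16000c) (nat_lit 0) (p (nat_lit 0x160004) (nat_lit 0) (p (nat_lit 0x68612) (nat_lit 0) (p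 (nat_lit 0x50592) (nat_lit 0) (p (nat_lit 0x40512) (nat_lit 0) (p (nat_lit 0x50312) (nat_lit 0) (p (nat_lit 0x38292) (nat_lit 0) (p (nat_lit 0x28212) (nat_lit 0) (p (nat_lit 0x38112) (nat_lit 0) (p (nat_lit 0x20092) (nat_lit 0) (p (nat_lit 0x10012) (nat_lit 0) pn))))))))))))))))))))) :=
  Cl.node (nat_lit 0x109) (nat_lit 2) (by decide +kernel) (ClAll.succ (ClAll.succ ClAll.zero s767) n374)

def n401 : Cl (O (nat_lit 4)) (R (nat_lit 14353))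
    (p (nat_lit 0x101) (nat_lit 1) (p (nat_lit 0x111) (nat_lit 0) (p (nat_lit 0xd1) (nat_lit 1) (p (nat_lit 0x81) (nat_lit 0) (p (nat_lit 0x41) (nat_lit 1) (p (nat_lit 0x108090887069a) (nat_lit 0) (p (nat_lit 0x107870806861a) (nat_lit 0) (p (nat_lit 0x8000000000000070786058a) (nat_lit 0) (p (nat_lit 0x10787058502) (nat_lit 0) (p (nat_lit 0x10586850482) (nat_lit 0) (p (nat_lit 0x16000c) (nat_lit 0) (p (nat_lit 0x160004) (nat_lit 0) (p (nat_lit 0x68612) (nat_lit 0) (p (nat_lit 0x50592) (nat_lit 0) (p (nat_lit 0x40512) (nat_lit 0) (p (nat_lit 0x50312) (nat_lit 0) (p (nat_lit 0x38292) (nat_lit 0) (p (nat_lit 0x28212) (nat_lit 0) (p (nat_lit 0x38112) (nat_lit 0) (p (nat_lit 0x20092) (nat_lit 0) (p (nat_lit 0x10012) (nat_lit 0) pn))))))))))))))))))))) :=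
  Cl.node (nat_lit 0x89) (nat_lit 2) (by decide +kernel) (ClAll.succ (ClAll.succ ClAll.zero n375) n376)

def n402 : Cl (O (nat_lit 4)) (R (nat_lit 14353))
    (p (nat_lit 0x89) (nat_lit 1) (p (nat_lit 0x111) (nat_lit 1) (p (nat_lit 0xd1) (nat_lit 1) (p (nat_lit 0x81) (nat_lit 0) (p (nat_lit 0x41) (nat_lit 1) (p (nat_lit 0x108090887069a) (nat_lit 0) (p (nat_lit 0x107870806861a) (nat_lit 0) (p (nat_lit 0x8000000000000070786058a) (nat_lit 0) (p (nat_lit 0x10787058502) (nat_lit 0) (p (nat_lit 0x10586850482) (nat_lit 0) (p (nat_lit 0x16000c) (nat_lit 0) (p (nat_lit 0x160004) (nat_lit 0) (p (nat_lit 0x68612) (nat_lit 0) (p (nat_lit 0x50592) (nat_lit 0) (p (nat_lit 0x40512) (nat_lit 0) (p (nat_lit 0x50312) (nat_lit 0) (p (nat_lit 0x38292) (nat_lit 0) (p (nat_lit 0x28212) (nat_lit 0) (p (nat_lit 0x38112) (nat_lit 0) (p (nat_lit 0x20092) (nat_lit 0) (p (nat_lit 0x10012) (nat_lit 0) pn)))))))))))))))))))))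 :=
  Cl.node (nat_lit 0xc9) (nat_lit 2) (by decide +kernel) (ClAll.succ (ClAll.succ ClAll.zero s867) n377)

def n403 : Cl (O (nat_lit 4)) (R (nat_lit 14353))
    (p (nat_lit 0x101) (nat_lit 0) (p (nat_lit 0x119) (nat_lit 0) (p (nat_lit 0xc1) (nat_lit 0) (p (nat_lit 0x81) (nat_lit 1) (p (nat_lit 0x41) (nat_lit 1) (p (nat_lit 0x108090887069a) (nat_lit 0) (p (nat_lit 0x107870806861a) (nat_lit 0) (p (nat_lit 0x8000000000000070786058a) (nat_lit 0) (p (nat_lit 0x10787058502) (nat_lit 0) (p (nat_lit 0x10586850482) (nat_lit 0) (p (nat_lit 0x16000c) (nat_lit 0) (p (nat_lit 0x160004) (nat_lit 0) (p (nat_lit 0x68612) (nat_lit 0) (p (nat_lit 0x50592) (nat_lit 0) (p (nat_lit 0x40512) (nat_lit 0) (p (nat_lit 0x50312) (nat_lit 0) (p (nat_lit 0x38292) (nat_lit 0) (p (nat_lit 0x28212) (nat_lit 0) (p (nat_lit 0x38112) (nat_lit 0) (p (nat_lit 0x20092) (nat_lit 0) (p (nat_lit 0x10012) (nat_lit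 0) pn))))))))))))))))))))) :=
  Cl.node (nat_lit 0x109) (nat_lit 2) (by decide +kernel) (ClAll.succ (ClAll.succ ClAll.zero n378) n379)

def n404 : Cl (O (nat_lit 4)) (R (nat_lit 14353))
    (p (nat_lit 0x101) (nat_lit 1) (p (nat_lit 0x119) (nat_lit 0) (p (nat_lit 0xc1) (nat_lit 0) (p (nat_lit 0x81) (nat_lit 1) (p (nat_lit 0x41) (nat_lit 1) (p (nat_lit 0x108090887069a) (nat_lit 0) (p (nat_lit 0x107870806861a) (nat_lit 0) (p (nat_lit 0x8000000000000070786058a) (nat_lit 0) (p (nat_lit 0x10787058502) (nat_lit 0) (p (nat_lit 0x10586850482) (nat_lit 0) (p (nat_lit 0x16000c) (nat_lit 0) (p (nat_lit 0x160004) (nat_lit 0) (p (nat_lit 0x68612) (nat_lit 0) (p (nat_lit 0x50592) (nat_lit 0) (p (nat_lit 0x40512) (nat_lit 0) (p (nat_lit 0x50312) (nat_lit 0) (p (nat_lit 0x38292) (nat_lit 0) (p (nat_lit 0x28212) (nat_lit 0) (p (nat_lit 0x38112) (nat_lit 0) (p (nat_lit 0x20092) (nat_lit 0) (p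 (nat_lit 0x10012) (nat_lit 0) pn))))))))))))))))))))) :=
  Cl.node (nat_lit 0xc9) (nat_lit 2) (by decide +kernel) (ClAll.succ (ClAll.succ ClAll.zero n380) s1005)

def n405 : Cl (O (nat_lit 4)) (R (nat_lit 14353))
    (p (nat_lit 0xc9) (nat_lit 0) (p (nat_lit 0x119) (nat_lit 1) (p (nat_lit 0xc1) (nat_lit 0) (p (nat_lit 0x81) (nat_lit 1) (p (nat_lit 0x41) (nat_lit 1) (p (nat_lit 0x108090887069a) (nat_lit 0) (p (nat_lit 0x107870806861a) (nat_lit 0) (p (nat_lit 0x8000000000000070786058a) (nat_lit 0) (p (nat_lit 0x10787058502) (nat_lit 0) (p (nat_lit 0x10586850482) (nat_lit 0) (p (nat_lit 0x16000c) (nat_lit 0) (p (nat_lit 0x160004) (nat_lit 0) (p (nat_lit 0x68612) (nat_lit 0) (p (nat_lit 0x50592) (nat_lit 0) (p (nat_lit 0x40512) (nat_lit 0) (p (nat_lit 0x50312) (nat_lit 0) (p (nat_lit 0x38292) (nat_lit 0) (p (nat_lit 0x28212) (nat_lit 0) (p (nat_lit 0x38112) (nat_lit 0) (p (nat_lit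 0x20092) (nat_lit 0) (p (nat_lit 0x10012) (nat_lit 0) pn))))))))))))))))))))) :=
  Cl.node (nat_lit 0xd1) (nat_lit 2) (by decide +kernel) (ClAll.succ (ClAll.succ ClAll.zero s1006) n381)

def n406 : Cl (O (nat_lit 4)) (R (nat_lit 14353))
    (p (nat_lit 0xc9) (nat_lit 1) (p (nat_lit 0x119) (nat_lit 1) (p (nat_lit 0xc1) (nat_lit 0) (p (nat_lit 0x81) (nat_lit 1) (p (nat_lit 0x41) (nat_lit 1) (p (nat_lit 0x108090887069a) (nat_lit 0) (p (nat_lit 0x107870806861a) (nat_lit 0) (p (nat_lit 0x8000000000000070786058a) (nat_lit 0) (p (nat_lit 0x10787058502) (nat_lit 0) (p (nat_lit 0x10586850482) (nat_lit 0) (p (nat_lit 0x16000c) (nat_lit 0) (p (nat_lit 0x160004) (nat_lit 0) (p (nat_lit 0x68612) (nat_lit 0) (p (nat_lit 0x50592) (nat_lit 0) (p (nat_lit 0x40512) (nat_lit 0) (p (nat_lit 0x50312) (nat_lit 0) (p (nat_lit 0x38292) (nat_lit 0) (p (nat_lit 0x28212) (nat_lit 0) (p (nat_lit 0x38112)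 (nat_lit 0) (p (nat_lit 0x20092) (nat_lit 0) (p (nat_lit 0x10012) (nat_lit 0) pn))))))))))))))))))))) :=
  Cl.node (nat_lit 0x109) (nat_lit 2) (by decide +kernel) (ClAll.succ (ClAll.succ ClAll.zero n382) s1112)

def n407 : Cl (O (nat_lit 4)) (R (nat_lit 14353))
    (p (nat_lit 0x109) (nat_lit 0) (p (nat_lit 0x101) (nat_lit 0) (p (nat_lit 0xc1) (nat_lit 1) (p (nat_lit 0x81) (nat_lit 1) (p (nat_lit 0x41) (nat_lit 1) (p (nat_lit 0x108090887069a) (nat_lit 0) (p (nat_lit 0x107870806861a) (nat_lit 0) (p (nat_lit 0x8000000000000070786058a) (nat_lit 0) (p (nat_lit 0x10787058502) (nat_lit 0) (p (nat_lit 0x10586850482) (nat_lit 0) (p (nat_lit 0x16000c) (nat_lit 0) (p (nat_lit 0x160004) (nat_lit 0) (p (nat_lit 0x68612) (nat_lit 0) (p (nat_lit 0x50592) (nat_lit 0) (p (nat_lit 0x40512) (nat_lit 0) (p (nat_lit 0x50312) (nat_lit 0) (p (nat_lit 0x38292) (nat_lit 0) (p (nat_lit 0x28212) (nat_lit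 0) (p (nat_lit 0x38112) (nat_lit 0) (p (nat_lit 0x20092) (nat_lit 0) (p (nat_lit 0x10012) (nat_lit 0) pn))))))))))))))))))))) :=
  Cl.node (nat_lit 0x111) (nat_lit 2) (by decide +kernel) (ClAll.succ (ClAll.succ ClAll.zero s1113) n383)

def n408 : Cl (O (nat_lit 4)) (R (nat_lit 14353))
    (p (nat_lit 0x119) (nat_lit 0) (p (nat_lit 0xd1) (nat_lit 0) (p (nat_lit 0x89) (nat_lit 0) (p (nat_lit 0x41) (nat_lit 0) (p (nat_lit 0x108090887069a) (nat_lit 0) (p (nat_lit 0x107870806861a) (nat_lit 0) (p (nat_lit 0x8000000000000070786058a) (nat_lit 0) (p (nat_lit 0x10787058502) (nat_lit 0) (p (nat_lit 0x10586850482) (nat_lit 0) (p (nat_lit 0x16000c) (nat_lit 0) (p (nat_lit 0x160004) (nat_lit 0) (p (nat_lit 0x68612) (nat_lit 0) (p (nat_lit 0x50592) (nat_lit 0) (p (nat_lit 0x40512) (nat_lit 0) (p (nat_lit 0x50312) (nat_lit 0) (p (nat_lit 0x38292) (nat_lit 0) (p (nat_lit 0x28212) (nat_lit 0)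 (p (nat_lit 0x38112) (nat_lit 0) (p (nat_lit 0x20092) (nat_lit 0) (p (nat_lit 0x10012) (nat_lit 0) pn)))))))))))))))))))) :=
  Cl.node (nat_lit 0x101) (nat_lit 2) (by decide +kernel) (ClAll.succ (ClAll.succ ClAll.zero n384) n385)

def n409 : Cl (O (nat_lit 4)) (R (nat_lit 14353))
    (p (nat_lit 0x119) (nat_lit 1) (p (nat_lit 0xd1) (nat_lit 0) (p (nat_lit 0x89) (nat_lit 0) (p (nat_lit 0x41) (nat_lit 0) (p (nat_lit 0x108090887069a) (nat_lit 0) (p (nat_lit 0x107870806861a) (nat_lit 0) (p (nat_lit 0x8000000000000070786058a) (nat_lit 0) (p (nat_lit 0x10787058502) (nat_lit 0) (p (nat_lit 0x10586850482) (nat_lit 0) (p (nat_lit 0x16000c) (nat_lit 0) (p (nat_lit 0x160004) (nat_lit 0) (p (nat_lit 0x68612) (nat_lit 0) (p (nat_lit 0x50592) (nat_lit 0) (p (nat_lit 0x40512) (nat_lit 0) (p (nat_lit 0x50312) (nat_lit 0) (p (nat_lit 0x38292) (nat_lit 0) (p (nat_lit 0x28212) (nat_lit 0) (p (nat_lit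 0x38112) (nat_lit 0) (p (nat_lit 0x20092) (nat_lit 0) (p (nat_lit 0x10012) (nat_lit 0) pn)))))))))))))))))))) :=
  Cl.node (nat_lit 0xc1) (nat_lit 2) (by decide +kernel) (ClAll.succ (ClAll.succ ClAll.zero n386) n387)

def n410 : Cl (O (nat_lit 4)) (R (nat_lit 14353))
    (p (nat_lit 0x111) (nat_lit 0) (p (nat_lit 0xd1) (nat_lit 1) (p (nat_lit 0x89) (nat_lit 0) (p (nat_lit 0x41) (nat_lit 0) (p (nat_lit 0x108090887069a) (nat_lit 0) (p (nat_lit 0x107870806861a) (nat_lit 0) (p (nat_lit 0x8000000000000070786058a) (nat_lit 0) (p (nat_lit 0x10787058502) (nat_lit 0) (p (nat_lit 0x10586850482) (nat_lit 0) (p (nat_lit 0x16000c) (nat_lit 0) (p (nat_lit 0x160004) (nat_lit 0) (p (nat_lit 0x68612) (nat_lit 0) (p (nat_lit 0x50592) (nat_lit 0) (p (nat_lit 0x40512) (nat_lit 0) (p (nat_lit 0x50312) (nat_lit 0) (p (nat_lit 0x38292) (nat_lit 0) (p (nat_lit 0x28212) (nat_lit 0) (p (nat_lit 0x38112)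 (nat_lit 0) (p (nat_lit 0x20092) (nat_lit 0) (p (nat_lit 0x10012) (nat_lit 0) pn)))))))))))))))))))) :=
  Cl.node (nat_lit 0x101) (nat_lit 2) (by decide +kernel) (ClAll.succ (ClAll.succ ClAll.zero n388) n389)

def n411 : Cl (O (nat_lit 4)) (R (nat_lit 14353))
    (p (nat_lit 0x111) (nat_lit 1) (p (nat_lit 0xd1) (nat_lit 1) (p (nat_lit 0x89) (nat_lit 0) (p (nat_lit 0x41) (nat_lit 0) (p (nat_lit 0x108090887069a) (nat_lit 0) (p (nat_lit 0x107870806861a) (nat_lit 0) (p (nat_lit 0x8000000000000070786058a) (nat_lit 0) (p (nat_lit 0x10787058502) (nat_lit 0) (p (nat_lit 0x10586850482) (nat_lit 0) (p (nat_lit 0x16000c) (nat_lit 0) (p (nat_lit 0x160004) (nat_lit 0) (p (nat_lit 0x68612) (nat_lit 0) (p (nat_lit 0x50592) (nat_lit 0) (p (nat_lit 0x40512) (nat_lit 0) (p (nat_lit 0x50312) (nat_lit 0) (p (nat_lit 0x38292) (nat_lit 0) (p (nat_lit 0x28212) (nat_lit 0) (p (nat_lit 0x38112) (nat_lit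 0) (p (nat_lit 0x20092) (nat_lit 0) (p (nat_lit 0x10012) (nat_lit 0) pn)))))))))))))))))))) :=
  Cl.node (nat_lit 0x81) (nat_lit 2) (by decide +kernel) (ClAll.succ (ClAll.succ ClAll.zero s313) n390)

def n412 : Cl (O (nat_lit 4)) (R (nat_lit 14353))
    (p (nat_lit 0x119) (nat_lit 0) (p (nat_lit 0xc9) (nat_lit 0) (p (nat_lit 0x89) (nat_lit 1) (p (nat_lit 0x41) (nat_lit 0) (p (nat_lit 0x108090887069a) (nat_lit 0) (p (nat_lit 0x107870806861a) (nat_lit 0) (p (nat_lit 0x8000000000000070786058a) (nat_lit 0) (p (nat_lit 0x10787058502) (nat_lit 0) (p (nat_lit 0x10586850482) (nat_lit 0) (p (nat_lit 0x16000c) (nat_lit 0) (p (nat_lit 0x160004) (nat_lit 0) (p (nat_lit 0x68612) (nat_lit 0) (p (nat_lit 0x50592) (nat_lit 0) (p (nat_lit 0x40512) (nat_lit 0) (p (nat_lit 0x50312) (nat_lit 0) (p (nat_lit 0x38292) (nat_lit 0) (p (nat_lit 0x28212) (nat_lit 0) (p (nat_lit 0x38112) (nat_lit 0) (p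 (nat_lit 0x20092) (nat_lit 0) (p (nat_lit 0x10012) (nat_lit 0) pn)))))))))))))))))))) :=
  Cl.node (nat_lit 0x101) (nat_lit 2) (by decide +kernel) (ClAll.succ (ClAll.succ ClAll.zero n391) n392)

def n413 : Cl (O (nat_lit 4)) (R (nat_lit 14353))
    (p (nat_lit 0x119) (nat_lit 1) (p (nat_lit 0xc9) (nat_lit 0) (p (nat_lit 0x89) (nat_lit 1) (p (nat_lit 0x41) (nat_lit 0) (p (nat_lit 0x108090887069a) (nat_lit 0) (p (nat_lit 0x107870806861a) (nat_lit 0) (p (nat_lit 0x8000000000000070786058a) (nat_lit 0) (p (nat_lit 0x10787058502) (nat_lit 0) (p (nat_lit 0x10586850482) (nat_lit 0) (p (nat_lit 0x16000c) (nat_lit 0) (p (nat_lit 0x160004) (nat_lit 0) (p (nat_lit 0x68612) (nat_lit 0) (p (nat_lit 0x50592) (nat_lit 0) (p (nat_lit 0x40512) (nat_lit 0) (p (nat_lit 0x50312) (nat_lit 0) (p (nat_lit 0x38292) (nat_lit 0) (p (nat_lit 0x28212) (nat_lit 0) (p (nat_lit 0x38112) (nat_lit 0) (p (nat_lit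 0x20092) (nat_lit 0) (p (nat_lit 0x10012) (nat_lit 0) pn)))))))))))))))))))) :=
  Cl.node (nat_lit 0xc1) (nat_lit 2) (by decide +kernel) (ClAll.succ (ClAll.succ ClAll.zero n393) n394)

def n414 : Cl (O (nat_lit 4)) (R (nat_lit 14353))
    (p (nat_lit 0x109) (nat_lit 0) (p (nat_lit 0xc9) (nat_lit 1) (p (nat_lit 0x89) (nat_lit 1) (p (nat_lit 0x41) (nat_lit 0) (p (nat_lit 0x108090887069a) (nat_lit 0) (p (nat_lit 0x107870806861a) (nat_lit 0) (p (nat_lit 0x8000000000000070786058a) (nat_lit 0) (p (nat_lit 0x10787058502) (nat_lit 0) (p (nat_lit 0x10586850482) (nat_lit 0) (p (nat_lit 0x16000c) (nat_lit 0) (p (nat_lit 0x160004) (nat_lit 0) (p (nat_lit 0x68612) (nat_lit 0) (p (nat_lit 0x50592) (nat_lit 0) (p (nat_lit 0x40512) (nat_lit 0) (p (nat_lit 0x50312) (nat_lit 0) (p (nat_lit 0x38292) (nat_lit 0) (p (nat_lit 0x28212) (nat_lit 0) (p (nat_lit 0x38112) (nat_lit 0) (p (nat_lit 0x20092)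 (nat_lit 0) (p (nat_lit 0x10012) (nat_lit 0) pn)))))))))))))))))))) :=
  Cl.node (nat_lit 0x101) (nat_lit 2) (by decide +kernel) (ClAll.succ (ClAll.succ ClAll.zero n395) s532)

def n415 : Cl (O (nat_lit 4)) (R (nat_lit 14353))
    (p (nat_lit 0x119) (nat_lit 0) (p (nat_lit 0xd1) (nat_lit 0) (p (nat_lit 0x81) (nat_lit 0) (p (nat_lit 0x41) (nat_lit 1) (p (nat_lit 0x108090887069a) (nat_lit 0) (p (nat_lit 0x107870806861a) (nat_lit 0) (p (nat_lit 0x8000000000000070786058a) (nat_lit 0) (p (nat_lit 0x10787058502) (nat_lit 0) (p (nat_lit 0x10586850482) (nat_lit 0) (p (nat_lit 0x16000c) (nat_lit 0) (p (nat_lit 0x160004) (nat_lit 0) (p (nat_lit 0x68612) (nat_lit 0) (p (nat_lit 0x50592) (nat_lit 0) (p (nat_lit 0x40512) (nat_lit 0) (p (nat_lit 0x50312) (nat_lit 0) (p (nat_lit 0x38292) (nat_lit 0) (p (nat_lit 0x28212) (nat_lit 0) (p (nat_lit 0x38112) (nat_lit 0) (p (nat_lit 0x20092) (nat_lit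 0) (p (nat_lit 0x10012) (nat_lit 0) pn)))))))))))))))))))) :=
  Cl.node (nat_lit 0x101) (nat_lit 2) (by decide +kernel) (ClAll.succ (ClAll.succ ClAll.zero n396) n397)

def n416 : Cl (O (nat_lit 4)) (R (nat_lit 14353))
    (p (nat_lit 0x119) (nat_lit 1) (p (nat_lit 0xd1) (nat_lit 0) (p (nat_lit 0x81) (nat_lit 0) (p (nat_lit 0x41) (nat_lit 1) (p (nat_lit 0x108090887069a) (nat_lit 0) (p (nat_lit 0x107870806861a) (nat_lit 0) (p (nat_lit 0x8000000000000070786058a) (nat_lit 0) (p (nat_lit 0x10787058502) (nat_lit 0) (p (nat_lit 0x10586850482) (nat_lit 0) (p (nat_lit 0x16000c) (nat_lit 0) (p (nat_lit 0x160004) (nat_lit 0) (p (nat_lit 0x68612) (nat_lit 0) (p (nat_lit 0x50592) (nat_lit 0) (p (nat_lit 0x40512) (nat_lit 0) (p (nat_lit 0x50312) (nat_lit 0) (p (nat_lit 0x38292) (nat_lit 0) (p (nat_lit 0x28212) (nat_lit 0) (p (nat_lit 0x38112) (nat_lit 0) (p (nat_lit 0x20092) (nat_lit 0) (p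 (nat_lit 0x10012) (nat_lit 0) pn)))))))))))))))))))) :=
  Cl.node (nat_lit 0xc1) (nat_lit 2) (by decide +kernel) (ClAll.succ (ClAll.succ ClAll.zero n398) n399)

def n417 : Cl (O (nat_lit 4)) (R (nat_lit 14353))
    (p (nat_lit 0x111) (nat_lit 0) (p (nat_lit 0xd1) (nat_lit 1) (p (nat_lit 0x81) (nat_lit 0) (p (nat_lit 0x41) (nat_lit 1) (p (nat_lit 0x108090887069a) (nat_lit 0) (p (nat_lit 0x107870806861a) (nat_lit 0) (p (nat_lit 0x8000000000000070786058a) (nat_lit 0) (p (nat_lit 0x10787058502) (nat_lit 0) (p (nat_lit 0x10586850482) (nat_lit 0) (p (nat_lit 0x16000c) (nat_lit 0) (p (nat_lit 0x160004) (nat_lit 0) (p (nat_lit 0x68612) (nat_lit 0) (p (nat_lit 0x50592) (nat_lit 0) (p (nat_lit 0x40512) (nat_lit 0) (p (nat_lit 0x50312) (nat_lit 0) (p (nat_lit 0x38292) (nat_lit 0) (p (nat_lit 0x28212) (nat_lit 0) (p (nat_lit 0x38112) (nat_lit 0) (p (nat_lit 0x20092) (nat_lit 0) (p (nat_lit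 0x10012) (nat_lit 0) pn)))))))))))))))))))) :=
  Cl.node (nat_lit 0x101) (nat_lit 2) (by decide +kernel) (ClAll.succ (ClAll.succ ClAll.zero n400) n401)

def n418 : Cl (O (nat_lit 4)) (R (nat_lit 14353))
    (p (nat_lit 0x111) (nat_lit 1) (p (nat_lit 0xd1) (nat_lit 1) (p (nat_lit 0x81) (nat_lit 0) (p (nat_lit 0x41) (nat_lit 1) (p (nat_lit 0x108090887069a) (nat_lit 0) (p (nat_lit 0x107870806861a) (nat_lit 0) (p (nat_lit 0x8000000000000070786058a) (nat_lit 0) (p (nat_lit 0x10787058502) (nat_lit 0) (p (nat_lit 0x10586850482) (nat_lit 0) (p (nat_lit 0x16000c) (nat_lit 0) (p (nat_lit 0x160004) (nat_lit 0) (p (nat_lit 0x68612) (nat_lit 0) (p (nat_lit 0x50592) (nat_lit 0) (p (nat_lit 0x40512) (nat_lit 0) (p (nat_lit 0x50312) (nat_lit 0) (p (nat_lit 0x38292) (nat_lit 0) (p (nat_lit 0x28212) (nat_lit 0) (p (nat_lit 0x38112) (nat_lit 0) (p (nat_lit 0x20092) (nat_lit 0) (p (nat_lit 0x10012)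 (nat_lit 0) pn)))))))))))))))))))) :=
  Cl.node (nat_lit 0x89) (nat_lit 2) (by decide +kernel) (ClAll.succ (ClAll.succ ClAll.zero s866) n402)

def n419 : Cl (O (nat_lit 4)) (R (nat_lit 14353))
    (p (nat_lit 0x119) (nat_lit 0) (p (nat_lit 0xc1) (nat_lit 0) (p (nat_lit 0x81) (nat_lit 1) (p (nat_lit 0x41) (nat_lit 1) (p (nat_lit 0x108090887069a) (nat_lit 0) (p (nat_lit 0x107870806861a) (nat_lit 0) (p (nat_lit 0x8000000000000070786058a) (nat_lit 0) (p (nat_lit 0x10787058502) (nat_lit 0) (p (nat_lit 0x10586850482) (nat_lit 0) (p (nat_lit 0x16000c) (nat_lit 0) (p (nat_lit 0x160004) (nat_lit 0) (p (nat_lit 0x68612) (nat_lit 0) (p (nat_lit 0x50592) (nat_lit 0) (p (nat_lit 0x40512) (nat_lit 0) (p (nat_lit 0x50312) (nat_lit 0) (p (nat_lit 0x38292) (nat_lit 0) (p (nat_lit 0x28212) (nat_lit 0) (p (nat_lit 0x38112) (nat_lit 0) (p (nat_lit 0x20092) (nat_lit 0) (p (nat_lit 0x10012) (nat_lit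 0) pn)))))))))))))))))))) :=
  Cl.node (nat_lit 0x101) (nat_lit 2) (by decide +kernel) (ClAll.succ (ClAll.succ ClAll.zero n403) n404)

def n420 : Cl (O (nat_lit 4)) (R (nat_lit 14353))
    (p (nat_lit 0x119) (nat_lit 1) (p (nat_lit 0xc1) (nat_lit 0) (p (nat_lit 0x81) (nat_lit 1) (p (nat_lit 0x41) (nat_lit 1) (p (nat_lit 0x108090887069a) (nat_lit 0) (p (nat_lit 0x107870806861a) (nat_lit 0) (p (nat_lit 0x8000000000000070786058a) (nat_lit 0) (p (nat_lit 0x10787058502) (nat_lit 0) (p (nat_lit 0x10586850482) (nat_lit 0) (p (nat_lit 0x16000c) (nat_lit 0) (p (nat_lit 0x160004) (nat_lit 0) (p (nat_lit 0x68612) (nat_lit 0) (p (nat_lit 0x50592) (nat_lit 0) (p (nat_lit 0x40512) (nat_lit 0) (p (nat_lit 0x50312) (nat_lit 0) (p (nat_lit 0x38292) (nat_lit 0) (p (nat_lit 0x28212) (nat_lit 0) (p (nat_lit 0x38112) (nat_lit 0) (p (nat_lit 0x20092) (nat_lit 0) (p (nat_lit 0x10012) (nat_lit 0) pn))))))))))))))))))))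 :=
  Cl.node (nat_lit 0xc9) (nat_lit 2) (by decide +kernel) (ClAll.succ (ClAll.succ ClAll.zero n405) n406)

def n421 : Cl (O (nat_lit 4)) (R (nat_lit 14353))
    (p (nat_lit 0x101) (nat_lit 0) (p (nat_lit 0xc1) (nat_lit 1) (p (nat_lit 0x81) (nat_lit 1) (p (nat_lit 0x41) (nat_lit 1) (p (nat_lit 0x108090887069a) (nat_lit 0) (p (nat_lit 0x107870806861a) (nat_lit 0) (p (nat_lit 0x8000000000000070786058a) (nat_lit 0) (p (nat_lit 0x10787058502) (nat_lit 0) (p (nat_lit 0x10586850482) (nat_lit 0) (p (nat_lit 0x16000c) (nat_lit 0) (p (nat_lit 0x160004) (nat_lit 0) (p (nat_lit 0x68612) (nat_lit 0) (p (nat_lit 0x50592) (nat_lit 0) (p (nat_lit 0x40512) (nat_lit 0) (p (nat_lit 0x50312) (nat_lit 0) (p (nat_lit 0x38292) (nat_lit 0) (p (nat_lit 0x28212) (nat_lit 0) (p (nat_lit 0x38112) (nat_lit 0) (p (nat_lit 0x20092) (nat_lit 0) (p (nat_lit 0x10012) (nat_lit 0) pn)))))))))))))))))))) :=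
  Cl.node (nat_lit 0x109) (nat_lit 2) (by decide +kernel) (ClAll.succ (ClAll.succ ClAll.zero n407) s1127)

def n422 : Cl (O (nat_lit 4)) (R (nat_lit 14353))
    (p (nat_lit 0xd1) (nat_lit 0) (p (nat_lit 0x89) (nat_lit 0) (p (nat_lit 0x41) (nat_lit 0) (p (nat_lit 0x108090887069a) (nat_lit 0) (p (nat_lit 0x107870806861a) (nat_lit 0) (p (nat_lit 0x8000000000000070786058a) (nat_lit 0) (p (nat_lit 0x10787058502) (nat_lit 0) (p (nat_lit 0x10586850482) (nat_lit 0) (p (nat_lit 0x16000c) (nat_lit 0) (p (nat_lit 0x160004) (nat_lit 0) (p (nat_lit 0x68612) (nat_lit 0) (p (nat_lit 0x50592) (nat_lit 0) (p (nat_lit 0x40512) (nat_lit 0) (p (nat_lit 0x50312) (nat_lit 0) (p (nat_lit 0x38292) (nat_lit 0) (p (nat_lit 0x28212) (nat_lit 0) (p (nat_lit 0x38112) (nat_lit 0) (p (nat_lit 0x20092) (nat_lit 0) (p (nat_lit 0x10012) (nat_lit 0) pn))))))))))))))))))) :=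
  Cl.node (nat_lit 0x119) (nat_lit 2) (by decide +kernel) (ClAll.succ (ClAll.succ ClAll.zero n408) n409)

def n423 : Cl (O (nat_lit 4)) (R (nat_lit 14353))
    (p (nat_lit 0xd1) (nat_lit 1) (p (nat_lit 0x89) (nat_lit 0) (p (nat_lit 0x41) (nat_lit 0) (p (nat_lit 0x108090887069a) (nat_lit 0) (p (nat_lit 0x107870806861a) (nat_lit 0) (p (nat_lit 0x8000000000000070786058a) (nat_lit 0) (p (nat_lit 0x10787058502) (nat_lit 0) (p (nat_lit 0x10586850482) (nat_lit 0) (p (nat_lit 0x16000c) (nat_lit 0) (p (nat_lit 0x160004) (nat_lit 0) (p (nat_lit 0x68612) (nat_lit 0) (p (nat_lit 0x50592) (nat_lit 0) (p (nat_lit 0x40512) (nat_lit 0) (p (nat_lit 0x50312) (nat_lit 0) (p (nat_lit 0x38292) (nat_lit 0) (p (nat_lit 0x28212) (nat_lit 0) (p (nat_lit 0x38112) (nat_lit 0) (p (nat_lit 0x20092) (nat_lit 0) (p (nat_lit 0x10012) (nat_lit 0) pn))))))))))))))))))) :=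
  Cl.node (nat_lit 0x111) (nat_lit 2) (by decide +kernel) (ClAll.succ (ClAll.succ ClAll.zero n410) n411)

def n424 : Cl (O (nat_lit 4)) (R (nat_lit 14353))
    (p (nat_lit 0xc9) (nat_lit 0) (p (nat_lit 0x89) (nat_lit 1) (p (nat_lit 0x41) (nat_lit 0) (p (nat_lit 0x108090887069a) (nat_lit 0) (p (nat_lit 0x107870806861a) (nat_lit 0) (p (nat_lit 0x8000000000000070786058a) (nat_lit 0) (p (nat_lit 0x10787058502) (nat_lit 0) (p (nat_lit 0x10586850482) (nat_lit 0) (p (nat_lit 0x16000c) (nat_lit 0) (p (nat_lit 0x160004) (nat_lit 0) (p (nat_lit 0x68612) (nat_lit 0) (p (nat_lit 0x50592) (nat_lit 0) (p (nat_lit 0x40512) (nat_lit 0) (p (nat_lit 0x50312) (nat_lit 0) (p (nat_lit 0x38292) (nat_lit 0) (p (nat_lit 0x28212) (nat_lit 0) (p (nat_lit 0x38112) (nat_lit 0) (p (nat_lit 0x20092) (nat_lit 0) (p (nat_lit 0x10012) (nat_lit 0) pn))))))))))))))))))) :=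
  Cl.node (nat_lit 0x119) (nat_lit 2) (by decide +kernel) (ClAll.succ (ClAll.succ ClAll.zero n412) n413)

def n425 : Cl (O (nat_lit 4)) (R (nat_lit 14353))
    (p (nat_lit 0xc9) (nat_lit 1) (p (nat_lit 0x89) (nat_lit 1) (p (nat_lit 0x41) (nat_lit 0) (p (nat_lit 0x108090887069a) (nat_lit 0) (p (nat_lit 0x107870806861a) (nat_lit 0) (p (nat_lit 0x8000000000000070786058a) (nat_lit 0) (p (nat_lit 0x10787058502) (nat_lit 0) (p (nat_lit 0x10586850482) (nat_lit 0) (p (nat_lit 0x16000c) (nat_lit 0) (p (nat_lit 0x160004) (nat_lit 0) (p (nat_lit 0x68612) (nat_lit 0) (p (nat_lit 0x50592) (nat_lit 0) (p (nat_lit 0x40512) (nat_lit 0) (p (nat_lit 0x50312) (nat_lit 0) (p (nat_lit 0x38292) (nat_lit 0) (p (nat_lit 0x28212) (nat_lit 0) (p (nat_lit 0x38112) (nat_lit 0) (p (nat_lit 0x20092) (nat_lit 0) (p (nat_lit 0x10012) (nat_lit 0) pn))))))))))))))))))) :=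
  Cl.node (nat_lit 0x109) (nat_lit 2) (by decide +kernel) (ClAll.succ (ClAll.succ ClAll.zero n414) s533)

def n426 : Cl (O (nat_lit 4)) (R (nat_lit 14353))
    (p (nat_lit 0xd1) (nat_lit 0) (p (nat_lit 0x81) (nat_lit 0) (p (nat_lit 0x41) (nat_lit 1) (p (nat_lit 0x108090887069a) (nat_lit 0) (p (nat_lit 0x107870806861a) (nat_lit 0) (p (nat_lit 0x8000000000000070786058a) (nat_lit 0) (p (nat_lit 0x10787058502) (nat_lit 0) (p (nat_lit 0x10586850482) (nat_lit 0) (p (nat_lit 0x16000c) (nat_lit 0) (p (nat_lit 0x160004) (nat_lit 0) (p (nat_lit 0x68612) (nat_lit 0) (p (nat_lit 0x50592) (nat_lit 0) (p (nat_lit 0x40512) (nat_lit 0) (p (nat_lit 0x50312) (nat_lit 0) (p (nat_lit 0x38292) (nat_lit 0) (p (nat_lit 0x28212) (nat_lit 0) (p (nat_lit 0x38112) (nat_lit 0) (p (nat_lit 0x20092) (nat_lit 0) (p (nat_lit 0x10012) (nat_lit 0) pn))))))))))))))))))) :=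
  Cl.node (nat_lit 0x119) (nat_lit 2) (by decide +kernel) (ClAll.succ (ClAll.succ ClAll.zero n415) n416)

def n427 : Cl (O (nat_lit 4)) (R (nat_lit 14353))
    (p (nat_lit 0xd1) (nat_lit 1) (p (nat_lit 0x81) (nat_lit 0) (p (nat_lit 0x41) (nat_lit 1) (p (nat_lit 0x108090887069a) (nat_lit 0) (p (nat_lit 0x107870806861a) (nat_lit 0) (p (nat_lit 0x8000000000000070786058a) (nat_lit 0) (p (nat_lit 0x10787058502) (nat_lit 0) (p (nat_lit 0x10586850482) (nat_lit 0) (p (nat_lit 0x16000c) (nat_lit 0) (p (nat_lit 0x160004) (nat_lit 0) (p (nat_lit 0x68612) (nat_lit 0) (p (nat_lit 0x50592) (nat_lit 0) (p (nat_lit 0x40512) (nat_lit 0) (p (nat_lit 0x50312) (nat_lit 0) (p (nat_lit 0x38292) (nat_lit 0) (p (nat_lit 0x28212) (nat_lit 0) (p (nat_lit 0x38112) (nat_lit 0) (p (nat_lit 0x20092) (nat_lit 0) (p (nat_lit 0x10012) (nat_lit 0) pn))))))))))))))))))) :=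
  Cl.node (nat_lit 0x111) (nat_lit 2) (by decide +kernel) (ClAll.succ (ClAll.succ ClAll.zero n417) n418)

def n428 : Cl (O (nat_lit 4)) (R (nat_lit 14353))
    (p (nat_lit 0xc1) (nat_lit 0) (p (nat_lit 0x81) (nat_lit 1) (p (nat_lit 0x41) (nat_lit 1) (p (nat_lit 0x108090887069a) (nat_lit 0) (p (nat_lit 0x107870806861a) (nat_lit 0) (p (nat_lit 0x8000000000000070786058a) (nat_lit 0) (p (nat_lit 0x10787058502) (nat_lit 0) (p (nat_lit 0x10586850482) (nat_lit 0) (p (nat_lit 0x16000c) (nat_lit 0) (p (nat_lit 0x160004) (nat_lit 0) (p (nat_lit 0x68612) (nat_lit 0) (p (nat_lit 0x50592) (nat_lit 0) (p (nat_lit 0x40512) (nat_lit 0) (p (nat_lit 0x50312) (nat_lit 0) (p (nat_lit 0x38292) (nat_lit 0) (p (nat_lit 0x28212) (nat_lit 0) (p (nat_lit 0x38112) (nat_lit 0) (p (nat_lit 0x20092) (nat_lit 0) (p (nat_lit 0x10012) (nat_lit 0) pn))))))))))))))))))) :=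
  Cl.node (nat_lit 0x119) (nat_lit 2) (by decide +kernel) (ClAll.succ (ClAll.succ ClAll.zero n419) n420)

def n429 : Cl (O (nat_lit 4)) (R (nat_lit 14353))
    (p (nat_lit 0xc1) (nat_lit 1) (p (nat_lit 0x81) (nat_lit 1) (p (nat_lit 0x41) (nat_lit 1) (p (nat_lit 0x108090887069a) (nat_lit 0) (p (nat_lit 0x107870806861a) (nat_lit 0) (p (nat_lit 0x8000000000000070786058a) (nat_lit 0) (p (nat_lit 0x10787058502) (nat_lit 0) (p (nat_lit 0x10586850482) (nat_lit 0) (p (nat_lit 0x16000c) (nat_lit 0) (p (nat_lit 0x160004) (nat_lit 0) (p (nat_lit 0x68612) (nat_lit 0) (p (nat_lit 0x50592) (nat_lit 0) (p (nat_lit 0x40512) (nat_lit 0) (p (nat_lit 0x50312) (nat_lit 0) (p (nat_lit 0x38292) (nat_lit 0) (p (nat_lit 0x28212) (nat_lit 0) (p (nat_lit 0x38112) (nat_lit 0) (p (nat_lit 0x20092) (nat_lit 0) (p (nat_lit 0x10012) (nat_lit 0) pn))))))))))))))))))) :=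
  Cl.node (nat_lit 0x101) (nat_lit 2) (by decide +kernel) (ClAll.succ (ClAll.succ ClAll.zero n421) s1128)

def n430 : Cl (O (nat_lit 4)) (R (nat_lit 14353))
    (p (nat_lit 0x89) (nat_lit 0) (p (nat_lit 0x41) (nat_lit 0) (p (nat_lit 0x108090887069a) (nat_lit 0) (p (nat_lit 0x107870806861a) (nat_lit 0) (p (nat_lit 0x8000000000000070786058a) (nat_lit 0) (p (nat_lit 0x10787058502) (nat_lit 0) (p (nat_lit 0x10586850482) (nat_lit 0) (p (nat_lit 0x16000c) (nat_lit 0) (p (nat_lit 0x160004) (nat_lit 0) (p (nat_lit 0x68612) (nat_lit 0) (p (nat_lit 0x50592) (nat_lit 0) (p (nat_lit 0x40512) (nat_lit 0) (p (nat_lit 0x50312) (nat_lit 0) (p (nat_lit 0x38292) (nat_lit 0) (p (nat_lit 0x28212) (nat_lit 0) (p (nat_lit 0x38112) (nat_lit 0) (p (nat_lit 0x20092) (nat_lit 0) (p (nat_lit 0x10012) (nat_lit 0) pn)))))))))))))))))) :=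
  Cl.node (nat_lit 0xd1) (nat_lit 2) (by decide +kernel) (ClAll.succ (ClAll.succ ClAll.zero n422) n423)

def n431 : Cl (O (nat_lit 4)) (R (nat_lit 14353))
    (p (nat_lit 0x89) (nat_lit 1) (p (nat_lit 0x41) (nat_lit 0) (p (nat_lit 0x108090887069a) (nat_lit 0) (p (nat_lit 0x107870806861a) (nat_lit 0) (p (nat_lit 0x8000000000000070786058a) (nat_lit 0) (p (nat_lit 0x10787058502) (nat_lit 0) (p (nat_lit 0x10586850482) (nat_lit 0) (p (nat_lit 0x16000c) (nat_lit 0) (p (nat_lit 0x160004) (nat_lit 0) (p (nat_lit 0x68612) (nat_lit 0) (p (nat_lit 0x50592) (nat_lit 0) (p (nat_lit 0x40512) (nat_lit 0) (p (nat_lit 0x50312) (nat_lit 0) (p (nat_lit 0x38292) (nat_lit 0) (p (nat_lit 0x28212) (nat_lit 0) (p (nat_lit 0x38112) (nat_lit 0) (p (nat_lit 0x20092) (nat_lit 0) (p (nat_lit 0x10012) (nat_lit 0) pn)))))))))))))))))) :=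
  Cl.node (nat_lit 0xc9) (nat_lit 2) (by decide +kernel) (ClAll.succ (ClAll.succ ClAll.zero n424) n425)

def n432 : Cl (O (nat_lit 4)) (R (nat_lit 14353))
    (p (nat_lit 0x81) (nat_lit 0) (p (nat_lit 0x41) (nat_lit 1) (p (nat_lit 0x108090887069a) (nat_lit 0) (p (nat_lit 0x107870806861a) (nat_lit 0) (p (nat_lit 0x8000000000000070786058a) (nat_lit 0) (p (nat_lit 0x10787058502) (nat_lit 0) (p (nat_lit 0x10586850482) (nat_lit 0) (p (nat_lit 0x16000c) (nat_lit 0) (p (nat_lit 0x160004) (nat_lit 0) (p (nat_lit 0x68612) (nat_lit 0) (p (nat_lit 0x50592) (nat_lit 0) (p (nat_lit 0x40512) (nat_lit 0) (p (nat_lit 0x50312) (nat_lit 0) (p (nat_lit 0x38292) (nat_lit 0) (p (nat_lit 0x28212) (nat_lit 0) (p (nat_lit 0x38112) (nat_lit 0) (p (nat_lit 0x20092) (nat_lit 0) (p (nat_lit 0x10012) (nat_lit 0) pn)))))))))))))))))) :=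
  Cl.node (nat_lit 0xd1) (nat_lit 2) (by decide +kernel) (ClAll.succ (ClAll.succ ClAll.zero n426) n427)

def n433 : Cl (O (nat_lit 4)) (R (nat_lit 14353))
    (p (nat_lit 0x81) (nat_lit 1) (p (nat_lit 0x41) (nat_lit 1) (p (nat_lit 0x108090887069a) (nat_lit 0) (p (nat_lit 0x107870806861a) (nat_lit 0) (p (nat_lit 0x8000000000000070786058a) (nat_lit 0) (p (nat_lit 0x10787058502) (nat_lit 0) (p (nat_lit 0x10586850482) (nat_lit 0) (p (nat_lit 0x16000c) (nat_lit 0) (p (nat_lit 0x160004) (nat_lit 0) (p (nat_lit 0x68612) (nat_lit 0) (p (nat_lit 0x50592) (nat_lit 0) (p (nat_lit 0x40512) (nat_lit 0) (p (nat_lit 0x50312) (nat_lit 0) (p (nat_lit 0x38292) (nat_lit 0) (p (nat_lit 0x28212) (nat_lit 0) (p (nat_lit 0x38112) (nat_lit 0) (p (nat_lit 0x20092) (nat_lit 0) (p (nat_lit 0x10012) (nat_lit 0) pn)))))))))))))))))) :=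
  Cl.node (nat_lit 0xc1) (nat_lit 2) (by decide +kernel) (ClAll.succ (ClAll.succ ClAll.zero n428) n429)

def n434 : Cl (O (nat_lit 4)) (R (nat_lit 14353))
    (p (nat_lit 0x41) (nat_lit 0) (p (nat_lit 0x108090887069a) (nat_lit 0) (p (nat_lit 0x107870806861a) (nat_lit 0) (p (nat_lit 0x8000000000000070786058a) (nat_lit 0) (p (nat_lit 0x10787058502) (nat_lit 0) (p (nat_lit 0x10586850482) (nat_lit 0) (p (nat_lit 0x16000c) (nat_lit 0) (p (nat_lit 0x160004) (nat_lit 0) (p (nat_lit 0x68612) (nat_lit 0) (p (nat_lit 0x50592) (nat_lit 0) (p (nat_lit 0x40512) (nat_lit 0) (p (nat_lit 0x50312) (nat_lit 0) (p (nat_lit 0x38292) (nat_lit 0) (p (nat_lit 0x28212) (nat_lit 0) (p (nat_lit 0x38112) (nat_lit 0) (p (nat_lit 0x20092) (nat_lit 0) (p (nat_lit 0x10012) (nat_lit 0) pn))))))))))))))))) :=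
  Cl.node (nat_lit 0x89) (nat_lit 2) (by decide +kernel) (ClAll.succ (ClAll.succ ClAll.zero n430) n431)

def n435 : Cl (O (nat_lit 4)) (R (nat_lit 14353))
    (p (nat_lit 0x41) (nat_lit 1) (p (nat_lit 0x108090887069a) (nat_lit 0) (p (nat_lit 0x107870806861a) (nat_lit 0) (p (nat_lit 0x8000000000000070786058a) (nat_lit 0) (p (nat_lit 0x10787058502) (nat_lit 0) (p (nat_lit 0x10586850482) (nat_lit 0) (p (nat_lit 0x16000c) (nat_lit 0) (p (nat_lit 0x160004) (nat_lit 0) (p (nat_lit 0x68612) (nat_lit 0) (p (nat_lit 0x50592) (nat_lit 0) (p (nat_lit 0x40512) (nat_lit 0) (p (nat_lit 0x50312) (nat_lit 0) (p (nat_lit 0x38292) (nat_lit 0) (p (nat_lit 0x28212) (nat_lit 0) (p (nat_lit 0x38112) (nat_lit 0) (p (nat_lit 0x20092) (nat_lit 0) (p (nat_lit 0x10012) (nat_lit 0) pn))))))))))))))))) :=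
  Cl.node (nat_lit 0x81) (nat_lit 2) (by decide +kernel) (ClAll.succ (ClAll.succ ClAll.zero n432) n433)

def n436 : Cl (O (nat_lit 4)) (R (nat_lit 14353))
    (p (nat_lit 0x108090887069a) (nat_lit 0) (p (nat_lit 0x107870806861a) (nat_lit 0) (p (nat_lit 0x8000000000000070786058a) (nat_lit 0) (p (nat_lit 0x10787058502) (nat_lit 0) (p (nat_lit 0x10586850482) (nat_lit 0) (p (nat_lit 0x16000c) (nat_lit 0) (p (nat_lit 0x160004) (nat_lit 0) (p (nat_lit 0x68612) (nat_lit 0) (p (nat_lit 0x50592) (nat_lit 0) (p (nat_lit 0x40512) (nat_lit 0) (p (nat_lit 0x50312) (nat_lit 0) (p (nat_lit 0x38292) (nat_lit 0) (p (nat_lit 0x28212) (nat_lit 0) (p (nat_lit 0x38112) (nat_lit 0) (p (nat_lit 0x20092) (nat_lit 0) (p (nat_lit 0x10012) (nat_lit 0) pn)))))))))))))))) :=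
  Cl.node (nat_lit 0x41) (nat_lit 2) (by decide +kernel) (ClAll.succ (ClAll.succ ClAll.zero n434) n435)

def n437 : Cl (O (nat_lit 4)) (R (nat_lit 14353))
    (p (nat_lit 0x107870806861a) (nat_lit 0) (p (nat_lit 0x8000000000000070786058a) (nat_lit 0) (p (nat_lit 0x10787058502) (nat_lit 0) (p (nat_lit 0x10586850482) (nat_lit 0) (p (nat_lit 0x16000c) (nat_lit 0) (p (nat_lit 0x160004) (nat_lit 0) (p (nat_lit 0x68612) (nat_lit 0) (p (nat_lit 0x50592) (nat_lit 0) (p (nat_lit 0x40512) (nat_lit 0) (p (nat_lit 0x50312) (nat_lit 0) (p (nat_lit 0x38292) (nat_lit 0) (p (nat_lit 0x28212) (nat_lit 0) (p (nat_lit 0x38112) (nat_lit 0) (p (nat_lit 0x20092) (nat_lit 0) (p (nat_lit 0x10012) (nat_lit 0) pn))))))))))))))) :=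
  Cl.node (nat_lit 0x108090887069a) (nat_lit 1) (by decide +kernel) (ClAll.succ ClAll.zero n436)

def n438 : Cl (O (nat_lit 4)) (R (nat_lit 14353))
    (p (nat_lit 0x8000000000000070786058a) (nat_lit 0) (p (nat_lit 0x10787058502) (nat_lit 0) (p (nat_lit 0x10586850482) (nat_lit 0) (p (nat_lit 0x16000c) (nat_lit 0) (p (nat_lit 0x160004) (nat_lit 0) (p (nat_lit 0x68612) (nat_lit 0) (p (nat_lit 0x50592) (nat_lit 0) (p (nat_lit 0x40512) (nat_lit 0) (p (nat_lit 0x50312) (nat_lit 0) (p (nat_lit 0x38292) (nat_lit 0) (p (nat_lit 0x28212) (nat_lit 0) (p (nat_lit 0x38112) (nat_lit 0) (p (nat_lit 0x20092) (nat_lit 0) (p (nat_lit 0x10012) (nat_lit 0) pn)))))))))))))) :=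
  Cl.node (nat_lit 0x107870806861a) (nat_lit 1) (by decide +kernel) (ClAll.succ ClAll.zero n437)

def n439 : Cl (O (nat_lit 4)) (R (nat_lit 14353))
    (p (nat_lit 0x10787058502) (nat_lit 0) (p (nat_lit 0x10586850482) (nat_lit 0) (p (nat_lit 0x16000c) (nat_lit 0) (p (nat_lit 0x160004) (nat_lit 0) (p (nat_lit 0x68612) (nat_lit 0) (p (nat_lit 0x50592) (nat_lit 0) (p (nat_lit 0x40512) (nat_lit 0) (p (nat_lit 0x50312) (nat_lit 0) (p (nat_lit 0x38292) (nat_lit 0) (p (nat_lit 0x28212) (nat_lit 0) (p (nat_lit 0x38112) (nat_lit 0) (p (nat_lit 0x20092) (nat_lit 0) (p (nat_lit 0x10012) (nat_lit 0) pn))))))))))))) :=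
  Cl.node (nat_lit 0x8000000000000070786058a) (nat_lit 1) (by decide +kernel) (ClAll.succ ClAll.zero n438)

def n440 : Cl (O (nat_lit 4)) (R (nat_lit 14353))
    (p (nat_lit 0x10586850482) (nat_lit 0) (p (nat_lit 0x16000c) (nat_lit 0) (p (nat_lit 0x160004) (nat_lit 0) (p (nat_lit 0x68612) (nat_lit 0) (p (nat_lit 0x50592) (nat_lit 0) (p (nat_lit 0x40512) (nat_lit 0) (p (nat_lit 0x50312) (nat_lit 0) (p (nat_lit 0x38292) (nat_lit 0) (p (nat_lit 0x28212) (nat_lit 0) (p (nat_lit 0x38112) (nat_lit 0) (p (nat_lit 0x20092) (nat_lit 0) (p (nat_lit 0x10012) (nat_lit 0) pn)))))))))))) :=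
  Cl.node (nat_lit 0x10787058502) (nat_lit 1) (by decide +kernel) (ClAll.succ ClAll.zero n439)

def n441 : Cl (O (nat_lit 4)) (R (nat_lit 14353))
    (p (nat_lit 0x16000c) (nat_lit 0) (p (nat_lit 0x160004) (nat_lit 0) (p (nat_lit 0x68612) (nat_lit 0) (p (nat_lit 0x50592) (nat_lit 0) (p (nat_lit 0x40512) (nat_lit 0) (p (nat_lit 0x50312) (nat_lit 0) (p (nat_lit 0x38292) (nat_lit 0) (p (nat_lit 0x28212) (nat_lit 0) (p (nat_lit 0x38112) (nat_lit 0) (p (nat_lit 0x20092) (nat_lit 0) (p (nat_lit 0x10012) (nat_lit 0) pn))))))))))) :=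
  Cl.node (nat_lit 0x10586850482) (nat_lit 1) (by decide +kernel) (ClAll.succ ClAll.zero n440)

def n442 : Cl (O (nat_lit 4)) (R (nat_lit 14353))
    (p (nat_lit 0x160004) (nat_lit 0) (p (nat_lit 0x68612) (nat_lit 0) (p (nat_lit 0x50592) (nat_lit 0) (p (nat_lit 0x40512) (nat_lit 0) (p (nat_lit 0x50312) (nat_lit 0) (p (nat_lit 0x38292) (nat_lit 0) (p (nat_lit 0x28212) (nat_lit 0) (p (nat_lit 0x38112) (nat_lit 0) (p (nat_lit 0x20092) (nat_lit 0) (p (nat_lit 0x10012) (nat_lit 0) pn)))))))))) :=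
  Cl.node (nat_lit 0x16000c) (nat_lit 2) (by decide +kernel) (ClAll.succ (ClAll.succ ClAll.zero n441) s1129)

def n443 : Cl (O (nat_lit 4)) (R (nat_lit 14353))
    (p (nat_lit 0x68612) (nat_lit 0) (p (nat_lit 0x50592) (nat_lit 0) (p (nat_lit 0x40512) (nat_lit 0) (p (nat_lit 0x50312) (nat_lit 0) (p (nat_lit 0x38292) (nat_lit 0) (p (nat_lit 0x28212) (nat_lit 0) (p (nat_lit 0x38112) (nat_lit 0) (p (nat_lit 0x20092) (nat_lit 0) (p (nat_lit 0x10012) (nat_lit 0) pn))))))))) :=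
  Cl.node (nat_lit 0x160004) (nat_lit 2) (by decide +kernel) (ClAll.succ (ClAll.succ ClAll.zero n442) s1130)

def n444 : Cl (O (nat_lit 4)) (R (nat_lit 14353))
    (p (nat_lit 0x50592) (nat_lit 0) (p (nat_lit 0x40512) (nat_lit 0) (p (nat_lit 0x50312) (nat_lit 0) (p (nat_lit 0x38292) (nat_lit 0) (p (nat_lit 0x28212) (nat_lit 0) (p (nat_lit 0x38112) (nat_lit 0) (p (nat_lit 0x20092) (nat_lit 0) (p (nat_lit 0x10012) (nat_lit 0) pn)))))))) :=
  Cl.node (nat_lit 0x68612) (nat_lit 1) (by decide +kernel) (ClAll.succ ClAll.zero n443)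

def n445 : Cl (O (nat_lit 4)) (R (nat_lit 14353))
    (p (nat_lit 0x40512) (nat_lit 0) (p (nat_lit 0x50312) (nat_lit 0) (p (nat_lit 0x38292) (nat_lit 0) (p (nat_lit 0x28212) (nat_lit 0) (p (nat_lit 0x38112) (nat_lit 0) (p (nat_lit 0x20092) (nat_lit 0) (p (nat_lit 0x10012) (nat_lit 0) pn))))))) :=
  Cl.node (nat_lit 0x50592) (nat_lit 1) (by decide +kernel) (ClAll.succ ClAll.zero n444)

def n446 : Cl (O (nat_lit 4)) (R (nat_lit 14353))
    (p (nat_lit 0x50312) (nat_lit 0) (p (nat_lit 0x38292) (nat_lit 0) (p (nat_lit 0x28212) (nat_lit 0) (p (nat_lit 0x38112) (nat_lit 0) (p (nat_lit 0x20092) (nat_lit 0) (p (nat_lit 0x10012) (nat_lit 0) pn)))))) :=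
  Cl.node (nat_lit 0x40512) (nat_lit 1) (by decide +kernel) (ClAll.succ ClAll.zero n445)

def n447 : Cl (O (nat_lit 4)) (R (nat_lit 14353))
    (p (nat_lit 0x38292) (nat_lit 0) (p (nat_lit 0x28212) (nat_lit 0) (p (nat_lit 0x38112) (nat_lit 0) (p (nat_lit 0x20092) (nat_lit 0) (p (nat_lit 0x10012) (nat_lit 0) pn))))) :=
  Cl.node (nat_lit 0x50312) (nat_lit 1) (by decide +kernel) (ClAll.succ ClAll.zero n446)

def n448 : Cl (O (nat_lit 4)) (R (nat_lit 14353))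
    (p (nat_lit 0x28212) (nat_lit 0) (p (nat_lit 0x38112) (nat_lit 0) (p (nat_lit 0x20092) (nat_lit 0) (p (nat_lit 0x10012) (nat_lit 0) pn)))) :=
  Cl.node (nat_lit 0x38292) (nat_lit 1) (by decide +kernel) (ClAll.succ ClAll.zero n447)

def n449 : Cl (O (nat_lit 4)) (R (nat_lit 14353))
    (p (nat_lit 0x38112) (nat_lit 0) (p (nat_lit 0x20092) (nat_lit 0) (p (nat_lit 0x10012) (nat_lit 0) pn))) :=
  Cl.node (nat_lit 0x28212) (nat_lit 1) (by decide +kernel) (ClAll.succ ClAll.zero n448)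

def n450 : Cl (O (nat_lit 4)) (R (nat_lit 14353))
    (p (nat_lit 0x20092) (nat_lit 0) (p (nat_lit 0x10012) (nat_lit 0) pn)) :=
  Cl.node (nat_lit 0x38112) (nat_lit 1) (by decide +kernel) (ClAll.succ ClAll.zero n449)

def n451 : Cl (O (nat_lit 4)) (R (nat_lit 14353))
    (p (nat_lit 0x10012) (nat_lit 0) pn) :=
  Cl.node (nat_lit 0x20092) (nat_lit 1) (by decide +kernel) (ClAll.succ ClAll.zero n450)

def n452 : Cl (O (nat_lit 4)) (R (nat_lit 14353))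
    pn :=
  Cl.node (nat_lit 0x10012) (nat_lit 1) (by decide +kernel) (ClAll.succ ClAll.zero n451)

theorem top : Cl (O (nat_lit 4)) (R (nat_lit 14353)) pn := n452

end Pool.Agent.Gen.F5.X12CD3Cm4
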